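import Pool.Agent.Lib.L8.F7.Defs

/-!
# F7 CA (M): the number of positive roots, type A part (helper31)
-/

namespace Pool.Agent.Lib.L8.F7

open Matrix

/-- The function of the certificate. -/
noncomputable def ca_f (m : ℕ) (x : ℕ) : ℝ := if x < m + 1 then ((x : ℝ) + 1) / ((m : ℝ) + 2) else 0

theorem ca_sum (n m : ℕ) (hm : m + 1 ≤ n) : 2 * ∑ i : Fin n, ca_f m (i : ℕ) = (m : ℝ) + 1 := by
  have h1 : ∑ i : Fin n, ca_f m (i : ℕ) = ∑ i ∈ Finset.range n, ca_f m i := Fin.sum_univ_eq_sum_range (fun i => ca_f m i) n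
  have h2 : ∑ i ∈ Finset.range n, ca_f m i = ∑ i ∈ Finset.range (m + 1), ca_f m i := by
    symm
    refine Finset.sum_subset (Finset.range_subset_range.2 hm) fun i _ hi => ?_
    unfold ca_f
    rw [if_neg]
    simpa using hi
  have h3 : ∑ i ∈ Finset.range (m + 1), ca_f m i = ∑ i ∈ Finset.range (m + 1), ((i : ℝ) + 1) / ((m : ℝ) + 2) := by
    refine Finset.sum_congr rfl fun i hi => ?_
    unfold ca_f
    rw [if_pos (Finset.mem_range.1 hi)]
  have h4 : ∀ t : ℕ, ∑ i ∈ Finset.range t, ((i : ℝ) + 1) = t * (t + 1) / 2 := by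
    intro t
    induction t with
    | zero => simp
    | succ t ih => rw [Finset.sum_range_succ, ih]; push_cast; ring
  have h5 : (m : ℝ) + 2 ≠ 0 := by positivity
  rw [h1, h2, h3, ← Finset.sum_div, h4]
  push_cast
  field_simp
  ring

theorem ca_row {n : ℕ} {A : Matrix (Fin n) (Fin n) ℤ} (m : ℕ) (hm : m + 1 ≤ n)
    (hA : ∀ k i : Fin n, (k : ℕ) < m + 1 → (i : ℕ) < m + 1 → A k i = CartanMatrix.A n k i) (k : Fin n) (hk : (k : ℕ) < m + 1) :
    rw' A (fun i => ca_f m (i : ℕ)) k = if (k : ℕ) = m then 1 else 0 := by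
  have h0 : ∀ i : Fin n, ((A k i : ℤ) : ℝ) * ca_f m (i : ℕ) =
      (if (i : ℕ) = (k : ℕ) then 2 * ca_f m i else 0) + ((if (i : ℕ) + 1 = (k : ℕ) then - ca_f m i else 0) + (if (i : ℕ) = (k : ℕ) + 1 then - ca_f m i else 0)) := by
    intro i
    by_cases hi : (i : ℕ) < m + 1
    · rw [hA k i hk hi]
      unfold CartanMatrix.A
      rw [Matrix.of_apply]
      by_cases h1 : k = i
      · subst h1
        simp
      · have h1' : ¬ (i : ℕ) = (k : ℕ) := fun h => h1 (Fin.ext h.symm)
        rw [if_neg h1, if_neg h1']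
        by_cases h2 : (k : ℕ) + 1 = (i : ℕ)
        · rw [if_pos (Or.inl h2), if_neg (show ¬ (i : ℕ) + 1 = (k : ℕ) by omega), if_pos h2.symm]
          push_cast
          ring
        · by_cases h3 : (i : ℕ) + 1 = (k : ℕ)
          · rw [if_pos (Or.inr h3), if_pos h3, if_neg (show ¬ (i : ℕ) = (k : ℕ) + 1 by omega)]
            push_cast
            ring
          · rw [if_neg (by tauto), if_neg h3, if_neg (show ¬ (i : ℕ) = (k : ℕ) + 1 by omega)]
            simp
    · have h1 : ca_f m (i : ℕ) = 0 := by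
        unfold ca_f
        rw [if_neg hi]
      simp [h1]
  unfold rw'
  rw [Finset.sum_congr rfl fun i _ => h0 i, Finset.sum_add_distrib, Finset.sum_add_distrib, sum_at (k : ℕ) (fun x => 2 * ca_f m x), sum_at ((k : ℕ) + 1) (fun x => - ca_f m x), if_pos k.2]
  have h5 : (m : ℝ) + 2 ≠ 0 := by positivity
  have hfk : ca_f m (k : ℕ) = ((k : ℕ) + 1 : ℝ) / ((m : ℝ) + 2) := by
    unfold ca_f
    rw [if_pos hk]
  have h6 : ∑ i : Fin n, (if (i : ℕ) + 1 = (k : ℕ) then - ca_f m i else 0) = - ((k : ℕ) : ℝ) / ((m : ℝ) + 2) := by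
    rcases Nat.eq_zero_or_pos (k : ℕ) with hz | hz
    · rw [hz]
      simp
    · have h7 : ∑ i : Fin n, (if (i : ℕ) + 1 = (k : ℕ) then - ca_f m i else 0) = ∑ i : Fin n, (if (i : ℕ) = (k : ℕ) - 1 then (fun x => - ca_f m x) (i : ℕ) else 0) := by
        refine Finset.sum_congr rfl fun i _ => ?_
        by_cases h8 : (i : ℕ) + 1 = (k : ℕ)
        · rw [if_pos h8, if_pos (by omega)]
        · rw [if_neg h8, if_neg (by omega)]
      rw [h7, sum_at ((k : ℕ) - 1) (fun x => - ca_f m x), if_pos (by have := k.2; omega)]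
      unfold ca_f
      rw [if_pos (by omega), Nat.cast_sub hz]
      push_cast
      ring
  rw [h6, hfk]
  by_cases hkm : (k : ℕ) = m
  · rw [if_pos hkm]
    have h8 : (if (k : ℕ) + 1 < n then - ca_f m ((k : ℕ) + 1) else 0) = 0 := by
      split_ifs
      · unfold ca_f
        rw [if_neg (by omega)]
        simp
      · rfl
    rw [h8, hkm]
    field_simp
    ring
  · rw [if_neg hkm, if_pos (by omega)]
    unfold ca_f
    rw [if_pos (by omega)]
    push_cast
    field_simp
    ring

/-- Proof. Induction on `m`. `m = 0`: the filter is empty, `h.empty`. Step `m → m + 1 ≤ n`: let `S = {k < m + 1}`, `j = m` (an element of `Fin n`): `S.erase j = {k < m}`, so by `h.step` it is enough that `c S j = m + 1`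
(`m (m + 1) / 2 + (m + 1) = (m + 1) (m + 2) / 2`). Use `cert_c h` with `y i = (i + 1) / (m + 2)` for `i < m + 1`, `y i = 0` otherwise: for `k ∈ S`, `rw' A y k = ∑ i, A k i * y i` only involves `i ∈ S`, where `A k i` is the entry of
`CartanMatrix.A n`: the value is `(2 (k + 1) - k - (k + 2)) / (m + 2) = 0` for `k < m` and `(2 (m + 1) - m) / (m + 2) = 1` for `k = m` (directly with `sum_at`, or with `rowA` of the file RA for the function `g x = x / (m + 2)` for
`x ≤ m + 1`, `0` for `x > m + 1`: then `rw' A y k = rw' (CartanMatrix.A n) y k`, `2 g (k + 1) - g k - g (k + 2)`). Sum: `2 ∑ y = 2 (∑_(i ≤ m) (i + 1)) / (m + 2) = m + 1` (`Fin.sum_univ_eq_sum_range`, `Finset.sum_range_id_mul_two` or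
induction). The hypothesis `hA` for `m + 1` gives the one for `m`. -/
theorem chA {n : ℕ} {A : Matrix (Fin n) (Fin n) ℤ} {p : Finset (Fin n) → ℝ} {c : Finset (Fin n) → Fin n → ℝ} (h : Chn A p c) (m : ℕ) (hm : m ≤ n)
    (hA : ∀ k i : Fin n, (k : ℕ) < m → (i : ℕ) < m → A k i = CartanMatrix.A n k i) : p (Finset.univ.filter fun k => (k : ℕ) < m) ≤ m * (m + 1) / 2 := by
  induction m with
  | zero =>
    have h1 : (Finset.univ.filter fun k : Fin n => (k : ℕ) < 0) = ∅ := by
      ext k
      simp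
    rw [h1, h.empty]
    simp
  | succ m ih =>
    have h1 := ih (by omega) (fun k i hk hi => hA k i (by omega) (by omega))
    have hjm : m < n := hm
    have h2 := h.step (Finset.univ.filter fun k : Fin n => (k : ℕ) < m + 1) ⟨m, hjm⟩ (by simp)
    have h3 : (Finset.univ.filter fun k : Fin n => (k : ℕ) < m + 1).erase ⟨m, hjm⟩ = Finset.univ.filter fun k : Fin n => (k : ℕ) < m := by
      ext k
      simp only [Finset.mem_erase, Finset.mem_filter, Finset.mem_univ, true_and, ne_eq, Fin.ext_iff]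
      omega
    have h4 : c (Finset.univ.filter fun k : Fin n => (k : ℕ) < m + 1) ⟨m, hjm⟩ = 2 * ∑ i : Fin n, ca_f m (i : ℕ) := by
      refine cert_c h (y := fun i => ca_f m (i : ℕ)) (by simp) ?_ ?_
      · intro i hi
        unfold ca_f
        rw [if_neg]
        simpa using hi
      · intro k hk
        rw [ca_row m hm hA k (by simpa using hk)]
        by_cases h5 : (k : ℕ) = m
        · rw [if_pos h5, if_pos (Fin.ext h5)]
        · rw [if_neg h5, if_neg (fun h6 => h5 (by rw [h6]))]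
    rw [h3, h4, ca_sum n m hm] at h2
    push_cast
    nlinarith [h1, h2]

end Pool.Agent.Lib.L8.F7
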