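import Pool.Agent.Lib.L8.F7.Defs

/-!
# F7 RB (S/M): rows of the Cartan matrix of type B (helper31)
-/

namespace Pool.Agent.Lib.L8.F7

open Matrix

/-- Proof. As `rowA` (file RA): the entry `B n k i` is `2` for `i = k`, `-1` for `i + 1 = k`, and for `i = k + 1` it is `-1` if `k + 2 < n` and `-2` if `k + 2 = n`, and the value of the vector at `i = k + 1` is `g (k + 2)` if
`k + 2 < n`, `g n / 2 = g (k + 2) / 2` if `k + 2 = n`: in both cases the term is `- g (k + 2)`. For `k + 1 = n`: `2 * (g n / 2) - g (n - 1)` (for `n = 1` the second term is `g 0 = 0`). -/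
theorem rowB (n : ℕ) (g : ℕ → ℝ) (h0 : g 0 = 0) (k : Fin n) :
    rw' (CartanMatrix.B n) (fun i => if (i : ℕ) + 1 = n then g n / 2 else g (i + 1)) k = if (k : ℕ) + 1 < n then 2 * g (k + 1) - g k - g (k + 2) else g n - g (n - 1) := by
  obtain ⟨k, hk⟩ := k
  have h1 : ∀ i : Fin n, ((CartanMatrix.B n ⟨k, hk⟩ i : ℤ) : ℝ) *
      (if (i : ℕ) + 1 = n then g n / 2 else g (i + 1)) =
      (if (i : ℕ) = k then (if (i : ℕ) + 1 = n then g n else 2 * g (i + 1)) else 0) -
        (if (i : ℕ) = k + 1 then g (i + 1) else 0) -
        (if (i : ℕ) + 1 = k then g (i + 1) else 0) := by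
    intro i
    obtain ⟨i, hi⟩ := i
    unfold CartanMatrix.B
    rw [Matrix.of_apply]
    simp only [Fin.mk.injEq]
    by_cases c1 : k = i
    · subst c1
      rw [if_pos rfl, if_pos rfl, if_neg (show ¬ k = k + 1 by omega),
        if_neg (show ¬ k + 1 = k by omega)]
      by_cases c : k + 1 = n
      · rw [if_pos c, if_pos c]
        push_cast
        ring
      · rw [if_neg c, if_neg c]
        push_cast
        ring
    · rw [if_neg c1, if_neg (show ¬ i = k from fun h => c1 h.symm)]
      by_cases c2 : k + 1 = i
      · rw [if_pos c2, if_pos c2.symm, if_neg (show ¬ i + 1 = k by omega)]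
        by_cases c : i = n - 1
        · rw [if_pos c, if_pos (show i + 1 = n by omega), show g (i + 1) = g n by
            rw [show i + 1 = n by omega]]
          push_cast
          ring
        · rw [if_neg c, if_neg (show ¬ i + 1 = n by omega)]
          push_cast
          ring
      · rw [if_neg c2, if_neg (show ¬ i = k + 1 from fun h => c2 h.symm)]
        by_cases c3 : i + 1 = k
        · rw [if_pos c3, if_pos c3, if_neg (show ¬ i + 1 = n by omega)]
          push_cast
          ring
        · rw [if_neg c3, if_neg c3]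
          push_cast
          ring
  unfold rw'
  rw [Finset.sum_congr rfl fun i _ => h1 i, Finset.sum_sub_distrib, Finset.sum_sub_distrib,
    sum_at k (fun i => if i + 1 = n then g n else 2 * g (i + 1)), sum_at (k + 1) (fun i => g (i + 1)),
    if_pos hk]
  have h3 : ∑ i : Fin n, (if (i : ℕ) + 1 = k then g (i + 1) else 0) = g k := by
    cases k with
    | zero =>
      rw [h0]
      exact Finset.sum_eq_zero fun i _ => if_neg (by omega)
    | succ m =>
      have h4 : ∀ i : Fin n, (if (i : ℕ) + 1 = m + 1 then g (i + 1) else 0) = if (i : ℕ) = m then g (i + 1) else 0 := by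
        intro i
        by_cases c : (i : ℕ) = m
        · rw [if_pos c, if_pos (by omega)]
        · rw [if_neg c, if_neg (by omega)]
      rw [Finset.sum_congr rfl fun i _ => h4 i, sum_at m (fun i => g (i + 1)), if_pos (by omega)]
  rw [h3]
  by_cases c : k + 1 < n
  · rw [if_pos c, if_pos c, if_neg (show ¬ k + 1 = n by omega)]
    ring
  · rw [if_neg c, if_neg c, if_pos (show k + 1 = n by omega), show k = n - 1 by omega]
    ring

end Pool.Agent.Lib.L8.F7
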