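import Pool.Agent.Lib.L8.F7.Defs
import Pool.Agent.Lib.L8.F7.RB

/-!
# F7 CB (M): the number of positive roots, type B (helper31)
-/

namespace Pool.Agent.Lib.L8.F7

open Matrix

/-- Proof. Show by induction on `m ≤ n`: `p {k | n ≤ k + m} ≤ m ^ 2`. `m = 0`: the set is empty. Step: `S = {k | n ≤ k + (m + 1)}`, `j = n - m - 1`, `S.erase j = {k | n ≤ k + m}`, so (with `h.step`) it is enough that `c S j = 2 m + 1`.
Use `cert_c h` with `y i = 0` for `i ∉ S`, `y i = 1` for `i ∈ S`, `i + 1 < n`, `y (n - 1) = 1 / 2`: this is the vector of `rowB` with `g x = 1` for `x ≥ n - m`, `g x = 0` for `x < n - m`. For `k ∈ S` (so `k ≥ n - m - 1`), `rowB` gives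
`2 - g k - 1 = 1 - g k` for `k + 1 < n`, which is `1` if `k = n - m - 1` (`g (n - m - 1) = 0`) and `0` if `k ≥ n - m`; and `g n - g (n - 1)` for `k = n - 1`: `1` if `m = 0` (here `j = n - 1`), `0` if `m ≥ 1`. (If you need `g 0 = 0`: `0 < n - m`.)
Sum: `2 (m + 1 / 2) = 2 m + 1`. -/
theorem chB {n : ℕ} {p : Finset (Fin n) → ℝ} {c : Finset (Fin n) → Fin n → ℝ} (h : Chn (CartanMatrix.B n) p c) : p Finset.univ ≤ n ^ 2 := by
  have key : ∀ m, m ≤ n → p (Finset.univ.filter fun k : Fin n => n ≤ (k : ℕ) + m) ≤ (m : ℝ) ^ 2 := by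
    intro m
    induction m with
    | zero =>
      intro _
      have e : (Finset.univ.filter fun k : Fin n => n ≤ (k : ℕ) + 0) = ∅ := by
        refine Finset.filter_eq_empty_iff.2 fun k _ hk => ?_
        have := k.2
        omega
      rw [e, h.empty]
      simp
    | succ m ih =>
      intro hm
      have ih' := ih (by omega)
      obtain ⟨a, rfl⟩ : ∃ a, n = a + m + 1 := ⟨n - m - 1, by omega⟩
      have hj : (⟨a, by omega⟩ : Fin (a + m + 1)) ∈ (Finset.univ.filter fun k : Fin (a + m + 1) => a + m + 1 ≤ (k : ℕ) + (m + 1)) := by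
        refine Finset.mem_filter.2 ⟨Finset.mem_univ _, ?_⟩
        show a + m + 1 ≤ a + (m + 1)
        omega
      have he : (Finset.univ.filter fun k : Fin (a + m + 1) => a + m + 1 ≤ (k : ℕ) + (m + 1)).erase (⟨a, by omega⟩ : Fin (a + m + 1)) = Finset.univ.filter fun k : Fin (a + m + 1) => a + m + 1 ≤ (k : ℕ) + m := by
        ext k
        rw [Finset.mem_erase, Finset.mem_filter, Finset.mem_filter]
        constructor
        · rintro ⟨h1, -, h2⟩
          refine ⟨Finset.mem_univ _, ?_⟩
          have h3 : (k : ℕ) ≠ a := fun h4 => h1 (Fin.ext h4)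
          omega
        · rintro ⟨-, h2⟩
          refine ⟨fun h1 => ?_, Finset.mem_univ _, by omega⟩
          rw [h1] at h2
          have h3 : a + m + 1 ≤ a + m := h2
          omega
      have hs := h.step _ _ hj
      rw [he] at hs
      set S : Finset (Fin (a + m + 1)) := Finset.univ.filter fun k : Fin (a + m + 1) => a + m + 1 ≤ (k : ℕ) + (m + 1) with hS
      set g : ℕ → ℝ := fun x => if a + 1 ≤ x then 1 else 0 with hg
      have g1 : ∀ x, a + 1 ≤ x → g x = 1 := fun x hx => if_pos hx
      have g0 : ∀ x, ¬ (a + 1 ≤ x) → g x = 0 := fun x hx => if_neg hx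
      have hc := cert_c h (S := S) (y := fun i => if (i : ℕ) + 1 = a + m + 1 then g (a + m + 1) / 2 else g (i + 1)) hj (by
        intro i hi
        have h1 : ¬ (a + m + 1 ≤ (i : ℕ) + (m + 1)) := fun h2 => hi (Finset.mem_filter.2 ⟨Finset.mem_univ _, h2⟩)
        show (if (i : ℕ) + 1 = a + m + 1 then g (a + m + 1) / 2 else g (i + 1)) = 0
        rw [if_neg (by omega), g0 _ (by omega)]) (by
        intro k hk
        have h1 : a + m + 1 ≤ (k : ℕ) + (m + 1) := (Finset.mem_filter.1 hk).2
        have hk2 := k.2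
        rw [rowB _ g (g0 0 (by omega)) k]
        by_cases h2 : (k : ℕ) + 1 < a + m + 1
        · rw [if_pos h2, g1 ((k : ℕ) + 1) (by omega), g1 ((k : ℕ) + 2) (by omega)]
          by_cases h3 : (k : ℕ) = a
          · rw [if_pos (Fin.ext h3), g0 _ (by omega)]
            norm_num
          · rw [if_neg (fun h4 => h3 (by rw [h4])), g1 _ (by omega)]
            norm_num
        · rw [if_neg h2, g1 (a + m + 1) (by omega)]
          by_cases h3 : (k : ℕ) = a
          · rw [if_pos (Fin.ext h3), g0 _ (by omega)]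
            norm_num
          · rw [if_neg (fun h4 => h3 (by rw [h4])), g1 _ (by omega)]
            norm_num)
      have hsum : ∑ i : Fin (a + m + 1), (if (i : ℕ) + 1 = a + m + 1 then g (a + m + 1) / 2 else g (i + 1)) = (m : ℝ) + 1 / 2 := by
        rw [Fin.sum_univ_eq_sum_range (fun i : ℕ => if i + 1 = a + m + 1 then g (a + m + 1) / 2 else g (i + 1)) (a + m + 1), Finset.sum_range_succ, if_pos rfl,
          g1 (a + m + 1) (by omega), Finset.sum_range_add]
        have e1 : ∑ x ∈ Finset.range a, (if x + 1 = a + m + 1 then (1 : ℝ) / 2 else g (x + 1)) = 0 := by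
          refine Finset.sum_eq_zero fun x hx => ?_
          have := Finset.mem_range.1 hx
          rw [if_neg (by omega), g0 _ (by omega)]
        have e2 : ∑ x ∈ Finset.range m, (if a + x + 1 = a + m + 1 then (1 : ℝ) / 2 else g (a + x + 1)) = m := by
          rw [Finset.sum_congr rfl (g := fun _ => (1 : ℝ)) (fun x hx => ?_)]
          · simp
          · have := Finset.mem_range.1 hx
            rw [if_neg (by omega), g1 _ (by omega)]
        rw [e1, e2]
        ring
      rw [hsum] at hc
      rw [hc] at hs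
      push_cast
      nlinarith [hs, ih']
  have h2 := key n le_rfl
  rwa [Finset.filter_true_of_mem (fun k _ => by omega)] at h2

end Pool.Agent.Lib.L8.F7
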