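import Pool.Agent.Lib.L8.F7.Defs

/-!
# F7 RC (S/M): rows of the Cartan matrix of type C (helper31)
-/

namespace Pool.Agent.Lib.L8.F7

open Matrix

/-- Proof. As `rowA` (file RA): the entry `C n k i` is `2` for `i = k`, `-1` for `i = k + 1`, and for `i + 1 = k` it is `-1` if `k + 1 < n` and `-2` if `k + 1 = n`. (For `n = 1` the value is `2 g 1 = 2 g 1 - 2 g 0`.) -/
theorem rowC (n : ℕ) (g : ℕ → ℝ) (h0 : g 0 = 0) (k : Fin n) :
    rw' (CartanMatrix.C n) (fun i => g (i + 1)) k = if (k : ℕ) + 1 < n then 2 * g (k + 1) - g k - g (k + 2) else 2 * g n - 2 * g (n - 1) := by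
  unfold rw'
  have hk := k.2
  have h1 : ∀ i : Fin n, ((CartanMatrix.C n k i : ℤ) : ℝ) * g (i + 1) =
      (if (i : ℕ) = (k : ℕ) then 2 * g (i + 1) else 0) +
      (if (i : ℕ) = (k : ℕ) + 1 then -g (i + 1) else 0) +
      (if (i : ℕ) + 1 = (k : ℕ) then (if (k : ℕ) + 1 < n then -1 else -2) * g (i + 1) else 0) := by
    intro i
    have hi := i.2
    unfold CartanMatrix.C
    rw [Matrix.of_apply]
    by_cases e1 : k = i
    · have e1' : (i : ℕ) = (k : ℕ) := by rw [e1]
      rw [if_pos e1, if_pos e1', if_neg (by omega), if_neg (by omega)]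
      push_cast
      ring
    · have e1' : ¬ (i : ℕ) = (k : ℕ) := fun h => e1 (Fin.ext h.symm)
      rw [if_neg e1, if_neg e1']
      by_cases e2 : (k : ℕ) + 1 = (i : ℕ)
      · rw [if_pos e2, if_pos e2.symm, if_neg (by omega)]
        push_cast
        ring
      · have e2' : ¬ (i : ℕ) = (k : ℕ) + 1 := fun h => e2 h.symm
        rw [if_neg e2, if_neg e2']
        by_cases e3 : (i : ℕ) + 1 = (k : ℕ)
        · rw [if_pos e3, if_pos e3]
          by_cases e4 : (k : ℕ) + 1 < n
          · rw [if_neg (by omega), if_pos e4]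
            push_cast
            ring
          · rw [if_pos (by omega), if_neg e4]
            push_cast
            ring
        · rw [if_neg e3, if_neg e3]
          push_cast
          ring
  rw [Finset.sum_congr rfl fun i _ => h1 i, Finset.sum_add_distrib, Finset.sum_add_distrib,
    sum_at (k : ℕ) (fun i => 2 * g (i + 1)), sum_at ((k : ℕ) + 1) (fun i => -g (i + 1)), if_pos hk]
  have h3 : ∑ i : Fin n, (if (i : ℕ) + 1 = (k : ℕ) then
      (if (k : ℕ) + 1 < n then (-1 : ℝ) else -2) * g (i + 1) else 0) =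
      (if (k : ℕ) + 1 < n then -1 else -2) * g k := by
    rcases Nat.eq_zero_or_pos (k : ℕ) with h0' | h0'
    · rw [h0', h0, mul_zero]
      exact Finset.sum_eq_zero fun i _ => if_neg (by omega)
    · have h4 : ∀ i : Fin n, ((i : ℕ) + 1 = (k : ℕ)) = ((i : ℕ) = (k : ℕ) - 1) := by
        intro i
        exact propext ⟨fun h => by omega, fun h => by omega⟩
      simp only [h4]
      rw [sum_at ((k : ℕ) - 1) (fun i => (if (k : ℕ) + 1 < n then (-1 : ℝ) else -2) * g (i + 1)),
        if_pos (by omega), Nat.sub_add_cancel h0']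
  rw [h3]
  by_cases e4 : (k : ℕ) + 1 < n
  · simp only [if_pos e4]
    ring
  · simp only [if_neg e4]
    have e5 : (k : ℕ) + 1 = n := by omega
    have e6 : n - 1 = (k : ℕ) := by omega
    rw [e5, e6]
    ring

end Pool.Agent.Lib.L8.F7
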