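import Pool.Agent.Lib.L8.F7.Defs
import Pool.Agent.Lib.L8.F7.RC
import Pool.Agent.Lib.L8.F7.CA

/-!
# F7 CC (S/M): the number of positive roots, type C (helper31)
-/

namespace Pool.Agent.Lib.L8.F7

open Matrix

/-- the sum of the certificate -/
theorem cc_sum (m : ℕ) : ∑ i ∈ Finset.range m, (((i + 1 : ℕ) : ℝ) / 2) = (m : ℝ) * (m + 1) / 4 := by
  induction m with
  | zero => simp
  | succ m ih =>
    rw [Finset.sum_range_succ, ih]
    push_cast
    ring

/-- Proof. `j = n - 1`, `h.step univ j`: `univ.erase j = {k < n - 1}`, where `C n` agrees with `CartanMatrix.A n`: `chA h (n - 1)` gives `(n - 1) n / 2`. And `c univ j = n (n + 1) / 2` by `cert_c h` with `y i = (i + 1) / 2`: `rowC` with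
`g x = x / 2`: `0` for `k + 1 < n`, `2 (n / 2) - 2 (n - 1) / 2 = 1` for `k = n - 1`. Sum: `2 ∑ (i + 1) / 2 = n (n + 1) / 2`. Total `n ^ 2`. -/
theorem chC {n : ℕ} (hn : 1 ≤ n) {p : Finset (Fin n) → ℝ} {c : Finset (Fin n) → Fin n → ℝ} (h : Chn (CartanMatrix.C n) p c) : p Finset.univ ≤ n ^ 2 := by
  have hj : n - 1 < n := by omega
  have h1 := h.step Finset.univ ⟨n - 1, hj⟩ (Finset.mem_univ _)
  have h2 : Finset.univ.erase (⟨n - 1, hj⟩ : Fin n) = Finset.univ.filter fun k : Fin n => (k : ℕ) < n - 1 := by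
    ext k
    rw [Finset.mem_erase, Finset.mem_filter]
    refine ⟨fun hk => ⟨Finset.mem_univ _, ?_⟩, fun hk => ⟨fun h3 => ?_, Finset.mem_univ _⟩⟩
    · have h3 : (k : ℕ) ≠ n - 1 := fun h3 => hk.1 (Fin.ext h3)
      have := k.2
      omega
    · have h4 := hk.2
      rw [h3] at h4
      exact lt_irrefl _ h4
  have h3 := chA h (n - 1) (by omega) (by
    intro k i hk hi
    unfold CartanMatrix.C CartanMatrix.A
    rw [Matrix.of_apply, Matrix.of_apply]
    by_cases c1 : k = i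
    · rw [if_pos c1, if_pos c1]
    · rw [if_neg c1, if_neg c1]
      split_ifs <;> first | rfl | omega)
  have h4 : c Finset.univ ⟨n - 1, hj⟩ = 2 * ∑ i : Fin n, (((i : ℕ) + 1 : ℕ) : ℝ) / 2 := by
    refine cert_c h (y := fun i => (((i : ℕ) + 1 : ℕ) : ℝ) / 2) (Finset.mem_univ _) (fun i hi => absurd (Finset.mem_univ i) hi) ?_
    intro k _
    have h5 := rowC n (fun x => (x : ℝ) / 2) (by simp) k
    have hk := k.2
    refine h5.trans ?_
    by_cases c1 : (k : ℕ) + 1 < n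
    · rw [if_pos c1, if_neg]
      · push_cast
        ring
      · intro h6
        have h7 : (k : ℕ) = n - 1 := by rw [h6]
        omega
    · have c2 : (k : ℕ) = n - 1 := by omega
      rw [if_neg c1, if_pos (Fin.ext c2)]
      have h8 : ((n - 1 : ℕ) : ℝ) = (n : ℝ) - 1 := by
        rw [Nat.cast_sub hn, Nat.cast_one]
      simp only [h8]
      ring
  have h9 : ∑ i : Fin n, (((i : ℕ) + 1 : ℕ) : ℝ) / 2 = (n : ℝ) * (n + 1) / 4 := by
    rw [Fin.sum_univ_eq_sum_range (fun i : ℕ => ((i + 1 : ℕ) : ℝ) / 2) n, cc_sum]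
  have h10 : ((n - 1 : ℕ) : ℝ) = (n : ℝ) - 1 := by
    rw [Nat.cast_sub hn, Nat.cast_one]
  rw [h2, h4, h9] at h1
  rw [h10] at h3
  nlinarith [h1, h3]

end Pool.Agent.Lib.L8.F7
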