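import Pool.Agent.Lib.L8.F7.Defs

/-!
# F7 RD (M): rows of the Cartan matrix of type D (helper31)
-/

namespace Pool.Agent.Lib.L8.F7

open Matrix

theorem rd_entry (n : ℕ) (hn : 3 ≤ n) (k i : Fin n) (z : ℝ) : ((CartanMatrix.D n k i : ℤ) : ℝ) * z =
    (if (i : ℕ) = k then 2 * z else 0) + (if (i : ℕ) = k + 1 then (if (k : ℕ) + 3 ≤ n then -z else 0) else 0) +
      (if (i : ℕ) = k + 2 then (if (k : ℕ) + 3 = n then -z else 0) else 0) +
      (if (i : ℕ) = k - 1 then (if 1 ≤ (k : ℕ) ∧ (k : ℕ) + 2 ≤ n then -z else 0) else 0) +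
      (if (i : ℕ) = n - 3 then (if (k : ℕ) + 1 = n then -z else 0) else 0) := by
  have hk := k.2
  have hi := i.2
  unfold CartanMatrix.D
  simp only [Matrix.of_apply, Fin.ext_iff]
  split_ifs <;> first
    | (exfalso; omega)
    | (push_cast; ring)

/-- Proof. As `rowA` (file RA). The node `n - 3` is joined to the nodes `n - 4`, `n - 2`, `n - 1`, the nodes `n - 2` and `n - 1` only to `n - 3`, the others form a path. Row `k` with `k + 3 < n`: the usual three terms. Row `k = n - 3`: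
`2 g (n - 2) - g (n - 3) - u - v` and `u + v = g (n - 1)`. Rows `n - 2`, `n - 1`: `2 u - g (n - 2)`, `2 v - g (n - 2)`. -/
theorem rowD (n : ℕ) (hn : 3 ≤ n) (g : ℕ → ℝ) (u v : ℝ) (h0 : g 0 = 0) (huv : u + v = g (n - 1)) (k : Fin n) :
    rw' (CartanMatrix.D n) (fun i => if (i : ℕ) + 2 < n then g (i + 1) else if (i : ℕ) + 2 = n then u else v) k =
      if (k : ℕ) + 2 < n then 2 * g (k + 1) - g k - g (k + 2) else if (k : ℕ) + 2 = n then 2 * u - g (n - 2) else 2 * v - g (n - 2) := by
  have hk := k.2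
  obtain ⟨Y, hY⟩ : ∃ Y : ℕ → ℝ, Y = fun i => if i + 2 < n then g (i + 1) else if i + 2 = n then u else v := ⟨_, rfl⟩
  have h1 : rw' (CartanMatrix.D n) (fun i => if (i : ℕ) + 2 < n then g (i + 1) else if (i : ℕ) + 2 = n then u else v) k =
      ∑ i : Fin n, ((if (i : ℕ) = k then (fun j => 2 * Y j) i else 0) +
      (if (i : ℕ) = k + 1 then (fun j => if (k : ℕ) + 3 ≤ n then -Y j else 0) i else 0) +
      (if (i : ℕ) = k + 2 then (fun j => if (k : ℕ) + 3 = n then -Y j else 0) i else 0) +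
      (if (i : ℕ) = k - 1 then (fun j => if 1 ≤ (k : ℕ) ∧ (k : ℕ) + 2 ≤ n then -Y j else 0) i else 0) +
      (if (i : ℕ) = n - 3 then (fun j => if (k : ℕ) + 1 = n then -Y j else 0) i else 0)) := by
    unfold rw'
    refine Finset.sum_congr rfl fun i _ => ?_
    rw [hY]
    exact rd_entry n hn k i _
  rw [h1, Finset.sum_add_distrib, Finset.sum_add_distrib, Finset.sum_add_distrib, Finset.sum_add_distrib,
    sum_at (n := n) (k : ℕ) (fun j => 2 * Y j), sum_at (n := n) ((k : ℕ) + 1) (fun j => if (k : ℕ) + 3 ≤ n then -Y j else 0),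
    sum_at (n := n) ((k : ℕ) + 2) (fun j => if (k : ℕ) + 3 = n then -Y j else 0),
    sum_at (n := n) ((k : ℕ) - 1) (fun j => if 1 ≤ (k : ℕ) ∧ (k : ℕ) + 2 ≤ n then -Y j else 0),
    sum_at (n := n) (n - 3) (fun j => if (k : ℕ) + 1 = n then -Y j else 0)]
  have hY1 : ∀ j, j + 2 < n → Y j = g (j + 1) := by
    intro j hj
    rw [hY]
    exact if_pos hj
  have hY2 : ∀ j, j + 2 = n → Y j = u := by
    intro j hj
    rw [hY]
    change (if j + 2 < n then g (j + 1) else if j + 2 = n then u else v) = u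
    rw [if_neg (by omega), if_pos hj]
  have hY3 : ∀ j, j + 1 = n → Y j = v := by
    intro j hj
    rw [hY]
    change (if j + 2 < n then g (j + 1) else if j + 2 = n then u else v) = v
    rw [if_neg (by omega), if_neg (by omega)]
  rcases Nat.lt_or_ge ((k : ℕ) + 2) n with hc | hc
  · have hkm : (if (k : ℕ) - 1 < n then (if 1 ≤ (k : ℕ) ∧ (k : ℕ) + 2 ≤ n then -Y ((k : ℕ) - 1) else 0) else 0) = -g k := by
      rcases Nat.eq_zero_or_pos (k : ℕ) with h | h
      · rw [if_pos (by omega), if_neg (by omega), h, h0, neg_zero]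
      · rw [if_pos (by omega), if_pos (by omega), hY1 _ (by omega)]
        congr 2
        omega
    rw [hkm, if_pos hk, if_pos (show (k : ℕ) + 1 < n by omega), if_pos (show (k : ℕ) + 3 ≤ n by omega), if_pos hc,
      if_pos (show n - 3 < n by omega), if_neg (show ¬ (k : ℕ) + 1 = n by omega), if_pos hc, hY1 _ hc]
    rcases Nat.lt_or_ge ((k : ℕ) + 3) n with hd | hd
    · rw [if_neg (show ¬ (k : ℕ) + 3 = n by omega), hY1 _ (by omega)]
      ring
    · have he : (k : ℕ) + 3 = n := by omega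
      rw [if_pos he, hY2 _ (by omega), hY3 _ (by omega)]
      have hf : g ((k : ℕ) + 2) = u + v := by
        rw [huv]
        congr 1
        omega
      rw [hf]
      ring
  · rcases Nat.lt_or_ge ((k : ℕ) + 1) n with hd | hd
    · have he : (k : ℕ) + 2 = n := by omega
      rw [if_pos hk, if_pos (show (k : ℕ) + 1 < n by omega), if_neg (show ¬ (k : ℕ) + 3 ≤ n by omega),
        if_neg (show ¬ (k : ℕ) + 2 < n by omega), if_pos (show (k : ℕ) - 1 < n by omega),
        if_pos (show 1 ≤ (k : ℕ) ∧ (k : ℕ) + 2 ≤ n by omega), if_pos (show n - 3 < n by omega),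
        if_neg (show ¬ (k : ℕ) + 1 = n by omega), if_neg (show ¬ (k : ℕ) + 2 < n by omega), if_pos he, hY2 _ he, hY1 _ (by omega)]
      have hf : g ((k : ℕ) - 1 + 1) = g (n - 2) := by
        congr 1
        omega
      rw [hf]
      ring
    · have he : (k : ℕ) + 1 = n := by omega
      rw [if_pos hk, if_neg (show ¬ (k : ℕ) + 1 < n by omega),
        if_neg (show ¬ (k : ℕ) + 2 < n by omega), if_pos (show (k : ℕ) - 1 < n by omega),
        if_neg (show ¬ (1 ≤ (k : ℕ) ∧ (k : ℕ) + 2 ≤ n) by omega), if_pos (show n - 3 < n by omega),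
        if_pos he, if_neg (show ¬ (k : ℕ) + 2 < n by omega), if_neg (show ¬ (k : ℕ) + 2 = n by omega), hY3 _ he, hY1 _ (by omega)]
      have hf : g (n - 3 + 1) = g (n - 2) := by
        congr 1
        omega
      rw [hf]
      ring

end Pool.Agent.Lib.L8.F7
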