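import Pool.Agent.Lib.L8.F7.Defs
import Pool.Agent.Lib.L8.F7.RD
import Pool.Agent.Lib.L8.F7.CA

/-!
# F7 CD (M): the number of positive roots, type D (helper31)
-/

namespace Pool.Agent.Lib.L8.F7

open Matrix

/-- the sum of the certificate -/
theorem cd_sum (m : ℕ) : ∑ i ∈ Finset.range m, (((i + 1 : ℕ) : ℝ) / 2) = (m : ℝ) * (m + 1) / 4 := by
  induction m with
  | zero => simp
  | succ m ih =>
    rw [Finset.sum_range_succ, ih]
    push_cast
    ring

/-- the total of the certificate -/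
theorem cd_tot {n : ℕ} (hn : 3 ≤ n) : ∑ i : Fin n, (if (i : ℕ) + 2 < n then (((i : ℕ) + 1 : ℕ) : ℝ) / 2 else if (i : ℕ) + 2 = n then ((n : ℝ) - 2) / 4 else (n : ℝ) / 4) =
    (n : ℝ) * (n - 1) / 4 := by
  rw [Fin.sum_univ_eq_sum_range (fun i : ℕ => if i + 2 < n then ((i + 1 : ℕ) : ℝ) / 2 else if i + 2 = n then ((n : ℝ) - 2) / 4 else (n : ℝ) / 4) n]
  obtain ⟨m, rfl⟩ : ∃ m, n = m + 2 := ⟨n - 2, by omega⟩
  rw [Finset.sum_range_succ, Finset.sum_range_succ]
  have h1 : ∀ i ∈ Finset.range m, (if i + 2 < m + 2 then ((i + 1 : ℕ) : ℝ) / 2 else if i + 2 = m + 2 then (((m + 2 : ℕ) : ℝ) - 2) / 4 else ((m + 2 : ℕ) : ℝ) / 4) = ((i + 1 : ℕ) : ℝ) / 2 := by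
    intro i hi
    rw [Finset.mem_range] at hi
    rw [if_pos (by omega)]
  rw [Finset.sum_congr rfl h1, cd_sum, if_neg (by omega), if_pos rfl, if_neg (by omega), if_neg (by omega)]
  push_cast
  ring

/-- Proof. `j = n - 1`, `h.step univ j`: `univ.erase j = {k < n - 1}`, where `D n` agrees with `CartanMatrix.A n` (the path `0, 1, …, n - 2`): `chA h (n - 1)` gives `(n - 1) n / 2`. And `c univ j = n (n - 1) / 2` by `cert_c h` with
`y i = (i + 1) / 2` for `i + 2 < n`, `y (n - 2) = (n - 2) / 4`, `y (n - 1) = n / 4`: `rowD` with `g x = x / 2`, `u = (n - 2) / 4`, `v = n / 4` (`u + v = (n - 1) / 2`): `0` for `k + 2 < n`, `2 u - (n - 2) / 2 = 0`, `2 v - (n - 2) / 2 = 1`.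
Sum: `2 ∑ y = ∑_(i < n - 2) (i + 1) + (n - 1) = (n - 2) (n - 1) / 2 + (n - 1) = n (n - 1) / 2`. Total `n (n - 1)`. -/
theorem chD {n : ℕ} (hn : 3 ≤ n) {p : Finset (Fin n) → ℝ} {c : Finset (Fin n) → Fin n → ℝ} (h : Chn (CartanMatrix.D n) p c) : p Finset.univ ≤ n * (n - 1) := by
  have hj : n - 1 < n := by omega
  have h1 := h.step Finset.univ ⟨n - 1, hj⟩ (Finset.mem_univ _)
  have h2 : Finset.univ.erase (⟨n - 1, hj⟩ : Fin n) = Finset.univ.filter fun k : Fin n => (k : ℕ) < n - 1 := by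
    ext k
    rw [Finset.mem_erase, Finset.mem_filter]
    refine ⟨fun hk => ⟨Finset.mem_univ _, ?_⟩, fun hk => ⟨fun h3 => ?_, Finset.mem_univ _⟩⟩
    · have h3 : (k : ℕ) ≠ n - 1 := fun h3 => hk.1 (Fin.ext h3)
      have := k.2
      omega
    · have h4 := hk.2
      rw [h3] at h4
      exact lt_irrefl _ h4
  have h3 := chA h (n - 1) (by omega) (by
    intro k i hk hi
    unfold CartanMatrix.D CartanMatrix.A
    rw [Matrix.of_apply, Matrix.of_apply]
    by_cases c1 : k = i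
    · rw [if_pos c1, if_pos c1]
    · have c1' : (k : ℕ) ≠ i := fun h => c1 (Fin.ext h)
      rw [if_neg c1, if_neg c1]
      split_ifs <;> first | rfl | omega)
  rw [← h2] at h3
  have h4 : ((n - 1 : ℕ) : ℝ) = (n : ℝ) - 1 := by
    rw [Nat.cast_sub (by omega)]
    norm_num
  have h6 : ((n - 2 : ℕ) : ℝ) = (n : ℝ) - 2 := by
    rw [Nat.cast_sub (by omega)]
    norm_num
  rw [h4] at h3
  have h5 := cert_c h (S := Finset.univ) (j := ⟨n - 1, hj⟩)
    (y := fun i : Fin n => if (i : ℕ) + 2 < n then (((i : ℕ) + 1 : ℕ) : ℝ) / 2 else if (i : ℕ) + 2 = n then ((n : ℝ) - 2) / 4 else (n : ℝ) / 4)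
    (Finset.mem_univ _) (fun i hi => absurd (Finset.mem_univ i) hi) (by
      intro k _
      have h7 := rowD n hn (fun x : ℕ => (x : ℝ) / 2) (((n : ℝ) - 2) / 4) ((n : ℝ) / 4) (by norm_num) (by
        show ((n : ℝ) - 2) / 4 + (n : ℝ) / 4 = ((n - 1 : ℕ) : ℝ) / 2
        rw [h4]
        ring) k
      refine h7.trans ?_
      have hk := k.2
      by_cases c1 : (k : ℕ) + 2 < n
      · rw [if_pos c1, if_neg (by
          intro h8
          have h9 : (k : ℕ) = n - 1 := congrArg Fin.val h8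
          omega)]
        push_cast
        ring
      · by_cases c2 : (k : ℕ) + 2 = n
        · rw [if_neg c1, if_pos c2, if_neg (by
            intro h8
            have h9 : (k : ℕ) = n - 1 := congrArg Fin.val h8
            omega)]
          show 2 * (((n : ℝ) - 2) / 4) - ((n - 2 : ℕ) : ℝ) / 2 = 0
          rw [h6]
          ring
        · rw [if_neg c1, if_neg c2, if_pos (Fin.ext (by
            show (k : ℕ) = n - 1
            omega))]
          show 2 * ((n : ℝ) / 4) - ((n - 2 : ℕ) : ℝ) / 2 = 1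
          rw [h6]
          ring)
  rw [cd_tot hn] at h5
  have h8 : ((n : ℝ) - 1) * ((n : ℝ) - 1 + 1) / 2 + 2 * ((n : ℝ) * (n - 1) / 4) = n * (n - 1) := by ring
  linarith

end Pool.Agent.Lib.L8.F7
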