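import Pool.Agent.Lib.L8.F7.Defs

/-!
# F7 CE6 (M): the number of positive roots, type E6 (helper31)
-/

namespace Pool.Agent.Lib.L8.F7

open Matrix

theorem chE6_pr (x : Fin 6 → ℝ) :
    pr CartanMatrix.E₆ x 0 = 2 * x 0 - x 2 ∧ pr CartanMatrix.E₆ x 1 = 2 * x 1 - x 3 ∧
    pr CartanMatrix.E₆ x 2 = -x 0 + 2 * x 2 - x 3 ∧ pr CartanMatrix.E₆ x 3 = -x 1 - x 2 + 2 * x 3 - x 4 ∧
    pr CartanMatrix.E₆ x 4 = -x 3 + 2 * x 4 - x 5 ∧ pr CartanMatrix.E₆ x 5 = -x 4 + 2 * x 5 := by
  refine ⟨?_, ?_, ?_, ?_, ?_, ?_⟩ <;>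
  · unfold pr CartanMatrix.E₆
    rw [Fin.sum_univ_six]
    simp
    ring

/-- Proof. Remove the nodes in the order 1, 0, 2, 3, 4, 5: with `S_0 = univ`, `S_(r+1) = S_r.erase j_r`: `p S_r ≤ p S_(r+1) + c S_r j_r` (`h.step`), the last set is `∅` (`h.empty`; it is equal to `∅` by `decide`). The numbers `c S_r j_r` are
22, 5, 4, 3, 2, 1; each of them follows by `linarith` from the equations `h.pair S_r i`, `i ∈ S_r` (unfold `pr`, `Fin.sum_univ_succ`, the entries of the matrix by simp) and `h.zero S_r k` for the removed nodes `k`; only `≤` is needed. Membership by `decide`.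
The sum is 37. -/
theorem chE6 {p : Finset (Fin 6) → ℝ} {c : Finset (Fin 6) → Fin 6 → ℝ} (h : Chn CartanMatrix.E₆ p c) : p Finset.univ ≤ 37 := by
  have s0 := h.step Finset.univ 1 (by decide)
  have s1 := h.step (Finset.univ.erase 1) 0 (by decide)
  have s2 := h.step ((Finset.univ.erase 1).erase 0) 2 (by decide)
  have s3 := h.step (((Finset.univ.erase 1).erase 0).erase 2) 3 (by decide)
  have s4 := h.step ((((Finset.univ.erase 1).erase 0).erase 2).erase 3) 4 (by decide)
  have s5 := h.step (((((Finset.univ.erase 1).erase 0).erase 2).erase 3).erase 4) 5 (by decide)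
  have s6 : ((((((Finset.univ : Finset (Fin 6)).erase 1).erase 0).erase 2).erase 3).erase 4).erase 5 = ∅ := by decide
  rw [s6, h.empty] at s5
  have c0 : c Finset.univ 1 ≤ 22 := by
    obtain ⟨e0, e1, e2, e3, e4, e5⟩ := chE6_pr (c Finset.univ)
    rw [h.pair _ _ (by decide)] at e0 e1 e2 e3 e4 e5
    linarith
  have c1 : c (Finset.univ.erase 1) 0 ≤ 5 := by
    obtain ⟨e0, e1, e2, e3, e4, e5⟩ := chE6_pr (c (Finset.univ.erase 1))
    rw [h.pair _ _ (by decide)] at e0 e2 e3 e4 e5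
    have z1 := h.zero (Finset.univ.erase 1) 1 (by decide)
    linarith
  have c2 : c ((Finset.univ.erase 1).erase 0) 2 ≤ 4 := by
    obtain ⟨e0, e1, e2, e3, e4, e5⟩ := chE6_pr (c ((Finset.univ.erase 1).erase 0))
    rw [h.pair _ _ (by decide)] at e2 e3 e4 e5
    have z1 := h.zero ((Finset.univ.erase 1).erase 0) 1 (by decide)
    have z0 := h.zero ((Finset.univ.erase 1).erase 0) 0 (by decide)
    linarith
  have c3 : c (((Finset.univ.erase 1).erase 0).erase 2) 3 ≤ 3 := by
    obtain ⟨e0, e1, e2, e3, e4, e5⟩ := chE6_pr (c (((Finset.univ.erase 1).erase 0).erase 2))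
    rw [h.pair _ _ (by decide)] at e3 e4 e5
    have z1 := h.zero (((Finset.univ.erase 1).erase 0).erase 2) 1 (by decide)
    have z2 := h.zero (((Finset.univ.erase 1).erase 0).erase 2) 2 (by decide)
    linarith
  have c4 : c ((((Finset.univ.erase 1).erase 0).erase 2).erase 3) 4 ≤ 2 := by
    obtain ⟨e0, e1, e2, e3, e4, e5⟩ := chE6_pr (c ((((Finset.univ.erase 1).erase 0).erase 2).erase 3))
    rw [h.pair _ _ (by decide)] at e4 e5
    have z3 := h.zero ((((Finset.univ.erase 1).erase 0).erase 2).erase 3) 3 (by decide)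
    linarith
  have c5 : c (((((Finset.univ.erase 1).erase 0).erase 2).erase 3).erase 4) 5 ≤ 1 := by
    obtain ⟨e0, e1, e2, e3, e4, e5⟩ := chE6_pr (c (((((Finset.univ.erase 1).erase 0).erase 2).erase 3).erase 4))
    rw [h.pair _ _ (by decide)] at e5
    have z4 := h.zero (((((Finset.univ.erase 1).erase 0).erase 2).erase 3).erase 4) 4 (by decide)
    linarith
  linarith

end Pool.Agent.Lib.L8.F7
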