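import Pool.Agent.Lib.L8.F7.Defs

/-!
# F7 CE7 (M): the number of positive roots, type E7 (helper31)
-/

namespace Pool.Agent.Lib.L8.F7

open Matrix

theorem ce7_pr (e : Fin 7 → ℝ) : pr CartanMatrix.E₇ e 0 = 2 * e 0 - e 2 ∧ pr CartanMatrix.E₇ e 1 = 2 * e 1 - e 3 ∧
    pr CartanMatrix.E₇ e 2 = -e 0 + 2 * e 2 - e 3 ∧ pr CartanMatrix.E₇ e 3 = -e 1 - e 2 + 2 * e 3 - e 4 ∧
    pr CartanMatrix.E₇ e 4 = -e 3 + 2 * e 4 - e 5 ∧ pr CartanMatrix.E₇ e 5 = -e 4 + 2 * e 5 - e 6 ∧
    pr CartanMatrix.E₇ e 6 = -e 5 + 2 * e 6 := by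
  have hs : ∀ f : Fin 7 → ℝ, ∑ k, f k = f 0 + f 1 + f 2 + f 3 + f 4 + f 5 + f 6 := by
    intro f
    rw [Fin.sum_univ_seven]
  refine ⟨?_, ?_, ?_, ?_, ?_, ?_, ?_⟩ <;>
  · unfold pr
    rw [hs]
    simp [CartanMatrix.E₇]
    ring

/-- Proof. Remove the nodes in the order 1, 0, 2, 3, 4, 5, 6: with `S_0 = univ`, `S_(r+1) = S_r.erase j_r`: `p S_r ≤ p S_(r+1) + c S_r j_r` (`h.step`), the last set is `∅` (`h.empty`; it is equal to `∅` by `decide`). The numbers `c S_r j_r` are
49, 6, 5, 4, 3, 2, 1; each of them follows by `linarith` from the equations `h.pair S_r i`, `i ∈ S_r` (unfold `pr`, `Fin.sum_univ_succ`, the entries of the matrix by simp) and `h.zero S_r k` for the removed nodes `k`; only `≤` is needed. Membership by `decide`.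
The sum is 70. -/
theorem chE7 {p : Finset (Fin 7) → ℝ} {c : Finset (Fin 7) → Fin 7 → ℝ} (h : Chn CartanMatrix.E₇ p c) : p Finset.univ ≤ 70 := by
  set S0 : Finset (Fin 7) := Finset.univ with hS0
  set S1 : Finset (Fin 7) := S0.erase 1 with hS1
  set S2 : Finset (Fin 7) := S1.erase 0 with hS2
  set S3 : Finset (Fin 7) := S2.erase 2 with hS3
  set S4 : Finset (Fin 7) := S3.erase 3 with hS4
  set S5 : Finset (Fin 7) := S4.erase 4 with hS5
  set S6 : Finset (Fin 7) := S5.erase 5 with hS6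
  set S7 : Finset (Fin 7) := S6.erase 6 with hS7
  have e7 : S7 = ∅ := by decide
  have t0 := h.step S0 1 (by decide)
  have t1 := h.step S1 0 (by decide)
  have t2 := h.step S2 2 (by decide)
  have t3 := h.step S3 3 (by decide)
  have t4 := h.step S4 4 (by decide)
  have t5 := h.step S5 5 (by decide)
  have t6 := h.step S6 6 (by decide)
  rw [← hS1] at t0
  rw [← hS2] at t1
  rw [← hS3] at t2
  rw [← hS4] at t3
  rw [← hS5] at t4
  rw [← hS6] at t5
  rw [← hS7, e7, h.empty] at t6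
  have v0 : c S0 1 = 49 := by
    obtain ⟨a0, a1, a2, a3, a4, a5, a6⟩ := ce7_pr (c S0)
    have b0 := h.pair S0 0 (by decide)
    have b1 := h.pair S0 1 (by decide)
    have b2 := h.pair S0 2 (by decide)
    have b3 := h.pair S0 3 (by decide)
    have b4 := h.pair S0 4 (by decide)
    have b5 := h.pair S0 5 (by decide)
    have b6 := h.pair S0 6 (by decide)
    linarith
  have v1 : c S1 0 = 6 := by
    obtain ⟨a0, a1, a2, a3, a4, a5, a6⟩ := ce7_pr (c S1)
    have z1 := h.zero S1 1 (by decide)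
    have b0 := h.pair S1 0 (by decide)
    have b2 := h.pair S1 2 (by decide)
    have b3 := h.pair S1 3 (by decide)
    have b4 := h.pair S1 4 (by decide)
    have b5 := h.pair S1 5 (by decide)
    have b6 := h.pair S1 6 (by decide)
    linarith
  have v2 : c S2 2 = 5 := by
    obtain ⟨a0, a1, a2, a3, a4, a5, a6⟩ := ce7_pr (c S2)
    have z0 := h.zero S2 0 (by decide)
    have z1 := h.zero S2 1 (by decide)
    have b2 := h.pair S2 2 (by decide)
    have b3 := h.pair S2 3 (by decide)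
    have b4 := h.pair S2 4 (by decide)
    have b5 := h.pair S2 5 (by decide)
    have b6 := h.pair S2 6 (by decide)
    linarith
  have v3 : c S3 3 = 4 := by
    obtain ⟨a0, a1, a2, a3, a4, a5, a6⟩ := ce7_pr (c S3)
    have z1 := h.zero S3 1 (by decide)
    have z2 := h.zero S3 2 (by decide)
    have b3 := h.pair S3 3 (by decide)
    have b4 := h.pair S3 4 (by decide)
    have b5 := h.pair S3 5 (by decide)
    have b6 := h.pair S3 6 (by decide)
    linarith
  have v4 : c S4 4 = 3 := by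
    obtain ⟨a0, a1, a2, a3, a4, a5, a6⟩ := ce7_pr (c S4)
    have z3 := h.zero S4 3 (by decide)
    have b4 := h.pair S4 4 (by decide)
    have b5 := h.pair S4 5 (by decide)
    have b6 := h.pair S4 6 (by decide)
    linarith
  have v5 : c S5 5 = 2 := by
    obtain ⟨a0, a1, a2, a3, a4, a5, a6⟩ := ce7_pr (c S5)
    have z4 := h.zero S5 4 (by decide)
    have b5 := h.pair S5 5 (by decide)
    have b6 := h.pair S5 6 (by decide)
    linarith
  have v6 : c S6 6 = 1 := by
    obtain ⟨a0, a1, a2, a3, a4, a5, a6⟩ := ce7_pr (c S6)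
    have z5 := h.zero S6 5 (by decide)
    have b6 := h.pair S6 6 (by decide)
    linarith
  linarith

end Pool.Agent.Lib.L8.F7
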