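import Pool.Agent.Lib.L8.F7.Defs

/-!
# F7 CFG (M): the number of positive roots, types F4 and G2 (helper31)
-/

namespace Pool.Agent.Lib.L8.F7

open Matrix

/-- Proof. Remove the nodes in the order 0, 1, 2, 3: with `S_0 = univ`, `S_(r+1) = S_r.erase j_r`: `p S_r ≤ p S_(r+1) + c S_r j_r` (`h.step`), the last set is `∅` (`h.empty`; it is equal to `∅` by `decide`). The numbers `c S_r j_r` are
16, 6, 2, 1; each of them follows by `linarith` from the equations `h.pair S_r i`, `i ∈ S_r` (unfold `pr`, `Fin.sum_univ_succ`, the entries of the matrix by simp) and `h.zero S_r k` for the removed nodes `k`; only `≤` is needed. Membership by `decide`.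
The sum is 25. -/
theorem chF4 {p : Finset (Fin 4) → ℝ} {c : Finset (Fin 4) → Fin 4 → ℝ} (h : Chn CartanMatrix.F₄ p c) : p Finset.univ ≤ 25 := by
  have e1 : (Finset.univ : Finset (Fin 4)).erase 0 = {1, 2, 3} := by decide
  have e2 : ({1, 2, 3} : Finset (Fin 4)).erase 1 = {2, 3} := by decide
  have e3 : ({2, 3} : Finset (Fin 4)).erase 2 = {3} := by decide
  have e4 : ({3} : Finset (Fin 4)).erase 3 = ∅ := by decide
  have s1 := h.step Finset.univ 0 (by decide)
  have s2 := h.step {1, 2, 3} 1 (by decide)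
  have s3 := h.step {2, 3} 2 (by decide)
  have s4 := h.step {3} 3 (by decide)
  rw [e1] at s1
  rw [e2] at s2
  rw [e3] at s3
  rw [e4, h.empty] at s4
  have a0 := h.pair Finset.univ 0 (by decide)
  have a1 := h.pair Finset.univ 1 (by decide)
  have a2 := h.pair Finset.univ 2 (by decide)
  have a3 := h.pair Finset.univ 3 (by decide)
  have b1 := h.pair {1, 2, 3} 1 (by decide)
  have b2 := h.pair {1, 2, 3} 2 (by decide)
  have b3 := h.pair {1, 2, 3} 3 (by decide)
  have b0 := h.zero {1, 2, 3} 0 (by decide)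
  have c2 := h.pair {2, 3} 2 (by decide)
  have c3 := h.pair {2, 3} 3 (by decide)
  have c0 := h.zero {2, 3} 0 (by decide)
  have c1 := h.zero {2, 3} 1 (by decide)
  have d3 := h.pair {3} 3 (by decide)
  have d0 := h.zero {3} 0 (by decide)
  have d1 := h.zero {3} 1 (by decide)
  have d2 := h.zero {3} 2 (by decide)
  have f00 : CartanMatrix.F₄ 0 0 = 2 := rfl
  have f01 : CartanMatrix.F₄ 0 1 = -1 := rfl
  have f02 : CartanMatrix.F₄ 0 2 = 0 := rfl
  have f03 : CartanMatrix.F₄ 0 3 = 0 := rfl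
  have f10 : CartanMatrix.F₄ 1 0 = -1 := rfl
  have f11 : CartanMatrix.F₄ 1 1 = 2 := rfl
  have f12 : CartanMatrix.F₄ 1 2 = -2 := rfl
  have f13 : CartanMatrix.F₄ 1 3 = 0 := rfl
  have f20 : CartanMatrix.F₄ 2 0 = 0 := rfl
  have f21 : CartanMatrix.F₄ 2 1 = -1 := rfl
  have f22 : CartanMatrix.F₄ 2 2 = 2 := rfl
  have f23 : CartanMatrix.F₄ 2 3 = -1 := rfl
  have f30 : CartanMatrix.F₄ 3 0 = 0 := rfl
  have f31 : CartanMatrix.F₄ 3 1 = 0 := rfl
  have f32 : CartanMatrix.F₄ 3 2 = -1 := rfl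
  have f33 : CartanMatrix.F₄ 3 3 = 2 := rfl
  simp only [pr, Fin.sum_univ_four, f00, f01, f02, f03, f10, f11, f12, f13, f20, f21, f22, f23, f30, f31, f32, f33] at a0 a1 a2 a3 b1 b2 b3 c2 c3 d3
  push_cast at a0 a1 a2 a3 b1 b2 b3 c2 c3 d3
  linarith

/-- Proof. The same with the order 0, 1 and the numbers 6, 1. -/
theorem chG2 {p : Finset (Fin 2) → ℝ} {c : Finset (Fin 2) → Fin 2 → ℝ} (h : Chn CartanMatrix.G₂ p c) : p Finset.univ ≤ 7 := by
  have e1 : (Finset.univ : Finset (Fin 2)).erase 0 = {1} := by decide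
  have e2 : ({1} : Finset (Fin 2)).erase 1 = ∅ := by decide
  have s1 := h.step Finset.univ 0 (by decide)
  have s2 := h.step {1} 1 (by decide)
  rw [e1] at s1
  rw [e2, h.empty] at s2
  have a0 := h.pair Finset.univ 0 (by decide)
  have a1 := h.pair Finset.univ 1 (by decide)
  have b1 := h.pair {1} 1 (by decide)
  have b0 := h.zero {1} 0 (by decide)
  have f00 : CartanMatrix.G₂ 0 0 = 2 := rfl
  have f01 : CartanMatrix.G₂ 0 1 = -3 := rfl
  have f10 : CartanMatrix.G₂ 1 0 = -1 := rfl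
  have f11 : CartanMatrix.G₂ 1 1 = 2 := rfl
  simp only [pr, Fin.sum_univ_two, f00, f01, f10, f11] at a0 a1 b1
  push_cast at a0 a1 b1
  linarith

end Pool.Agent.Lib.L8.F7
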