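import Pool.Agent.Lib.L8.F7.IA

/-!
# F7 CLA (helper21): the inequality with the best constant, type A: `D = 3 n ^ 2 / 2`, `n ≥ 5`
-/

namespace Pool.Agent.Lib.L8.F7

open Matrix

/-- The certificate for type A with a constant `D`. -/
theorem clA_gen {n : ℕ} {D : ℝ} (hs : ∀ j b : ℕ, n = j + b → 1 ≤ b →
    ∑ i : Fin n, max (D * (ia_T n j b ((i : ℕ) + 1) : ℝ) - ((j : ℝ) + 1) * b * ((((i : ℕ) + 1 : ℕ) : ℝ) * (n + 1 - (((i : ℕ) + 1 : ℕ) : ℝ)))) 0 ≤ (n : ℝ) * (((j : ℝ) + 1) * b))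
    {c : Fin n → ℝ} (hc : ∀ i, pr (CartanMatrix.A n) c i = 2) {e : Fin n → ℝ} (he : Box (CartanMatrix.A n) e) (j : Fin n) : D * (e j + e j.rev) ≤ c j * (2 * ∑ k, e k + n) := by
  obtain ⟨j, hj⟩ := j
  obtain ⟨b, hb⟩ : ∃ b, n = j + b := ⟨n - j, by omega⟩
  have hb1 : 1 ≤ b := by omega
  have hcj := valA hc ⟨j, hj⟩
  have hnb : (n : ℝ) = j + b := by exact_mod_cast hb
  have hcj' : c ⟨j, hj⟩ = (j + 1) * b := by
    rw [hcj]
    have h1 : (n : ℝ) - ((⟨j, hj⟩ : Fin n) : ℕ) = b := by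
      show (n : ℝ) - (j : ℝ) = b
      linarith
    rw [h1]
  have hrev : ((⟨j, hj⟩ : Fin n).rev : ℕ) = n - (j + 1) := by simp [Fin.rev]
  let G : ℕ → ℝ := fun x => D * (ia_T n j b x : ℝ) - (j + 1) * b * (x * (n + 1 - x))
  have hG0 : G 0 = 0 := by
    have : ia_T n j b 0 = 0 := by unfold ia_T; omega
    simp [G, this]
  have hGn : G (n + 1) = 0 := by
    have : ia_T n j b (n + 1) = 0 := by unfold ia_T; omega
    simp [G, this]
  have hrow : ∀ k : Fin n, rw' (CartanMatrix.A n) (fun i => G (i + 1)) k =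
      D * ((if k = (⟨j, hj⟩ : Fin n) then 1 else 0) + (if k = (⟨j, hj⟩ : Fin n).rev then 1 else 0)) - 2 * ((j + 1) * b) := by
    intro k
    rw [rowA n G hG0 hGn k]
    have h1 := ia_T_rec n j b k hb hb1 k.2
    have h2 : (2 : ℝ) * ia_T n j b (k + 1) = ia_T n j b k + ia_T n j b (k + 2) + (if (k : ℕ) = j then 1 else 0) + (if (k : ℕ) = n - (j + 1) then 1 else 0) := by
      exact_mod_cast h1
    have h3 : (k = (⟨j, hj⟩ : Fin n)) ↔ (k : ℕ) = j := by rw [Fin.ext_iff]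
    have h4 : (k = (⟨j, hj⟩ : Fin n).rev) ↔ (k : ℕ) = n - (j + 1) := by rw [Fin.ext_iff, hrev]
    simp only [h3, h4]
    simp only [G]
    push_cast
    have h5 : (ia_T n j b (k + 1) : ℝ) = (ia_T n j b k + ia_T n j b (k + 2) + (if (k : ℕ) = j then 1 else 0) + (if (k : ℕ) = n - (j + 1) then 1 else 0)) / 2 := by linarith
    rw [h5]
    ring
  have hcert := cert0 he (fun i => G (i + 1))
  have hlhs : ∑ k, e k * rw' (CartanMatrix.A n) (fun i => G (i + 1)) k = D * (e ⟨j, hj⟩ + e (⟨j, hj⟩ : Fin n).rev) - 2 * ((j + 1) * b) * ∑ k, e k := by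
    simp only [hrow]
    have h1 : ∀ k : Fin n, e k * (D * ((if k = (⟨j, hj⟩ : Fin n) then 1 else 0) + (if k = (⟨j, hj⟩ : Fin n).rev then 1 else 0)) - 2 * ((j + 1) * b)) =
        D * (if k = (⟨j, hj⟩ : Fin n) then e k else 0) + D * (if k = (⟨j, hj⟩ : Fin n).rev then e k else 0) - 2 * ((j + 1) * b) * e k := by
      intro k
      split_ifs <;> ring
    rw [Finset.sum_congr rfl fun k _ => h1 k, Finset.sum_sub_distrib, Finset.sum_add_distrib, ← Finset.mul_sum, ← Finset.mul_sum, ← Finset.mul_sum,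
      Finset.sum_ite_eq' , Finset.sum_ite_eq', if_pos (Finset.mem_univ _), if_pos (Finset.mem_univ _)]
    ring
  have hrhs : ∑ i : Fin n, max (G (i + 1)) 0 ≤ n * ((j + 1) * b) := hs j b hb hb1
  rw [hcj']
  rw [hlhs] at hcert
  have h9 := hcert.trans hrhs
  linarith

theorem clA_key (q m : ℕ) (h2 : 2 ≤ q) (hq : 2 * q ≤ m) (hm : 9 ≤ m) : 3 * ((m : ℝ) - 1) ^ 2 ≤ 2 * (q * ((m : ℝ) - q) ^ 2) := by
  obtain ⟨s, rfl⟩ : ∃ s, q = 2 + s := ⟨q - 2, by omega⟩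
  obtain ⟨t, rfl⟩ : ∃ t, m = 2 * (2 + s) + t := ⟨m - 2 * (2 + s), by omega⟩
  rcases s with _ | _ | _ | s
  · have h3 : (5 : ℝ) ≤ t := by exact_mod_cast (by omega : 5 ≤ t)
    push_cast
    nlinarith
  · have h3 : (3 : ℝ) ≤ t := by exact_mod_cast (by omega : 3 ≤ t)
    push_cast
    nlinarith
  · have h3 : (1 : ℝ) ≤ t := by exact_mod_cast (by omega : 1 ≤ t)
    push_cast
    nlinarith
  · have h3 : (0 : ℝ) ≤ 2 * (7 / 2 + 21 * s + 9 * s ^ 2 + s ^ 3) + 2 * (23 + 14 * s + 2 * s ^ 2) * t + 2 * (7 / 2 + s) * t ^ 2 := by positivity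
    push_cast
    nlinarith

/-- The product of two numbers in the middle. -/
theorem clA_prod (n p q : ℕ) (hn : 8 ≤ n) (hp : 1 ≤ p) (hpq : p ≤ q) (h2 : 2 ≤ q) (hq : 2 * q ≤ n + 1) :
    3 * (n : ℝ) ^ 2 / 2 * p ≤ q * (n + 1 - q) * (p * (n + 1 - p)) := by
  have h1 := clA_key q (n + 1) h2 hq (by omega)
  push_cast at h1
  have h3 : (p : ℝ) ≤ q := by exact_mod_cast hpq
  have h4 : (1 : ℝ) ≤ p := by exact_mod_cast hp
  have h5 : (2 : ℝ) * q ≤ n + 1 := by exact_mod_cast hq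
  have h6 : (2 : ℝ) ≤ q := by exact_mod_cast h2
  have h7 : 3 * (n : ℝ) ^ 2 / 2 ≤ q * (n + 1 - q) * (n + 1 - p) := by
    have h8 : (0 : ℝ) ≤ q * (n + 1 - q) * (q - p) := by
      apply mul_nonneg (mul_nonneg (by linarith) (by linarith)) (by linarith)
    nlinarith
  calc 3 * (n : ℝ) ^ 2 / 2 * p ≤ q * (n + 1 - q) * (n + 1 - p) * p := mul_le_mul_of_nonneg_right h7 (by linarith)
    _ = _ := by ring

/-- The sum for `n ≥ 8`. -/
theorem clA_big {n : ℕ} (hn : 8 ≤ n) (j b : ℕ) (hb : n = j + b) (hb1 : 1 ≤ b) :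
    ∑ i : Fin n, max (3 * (n : ℝ) ^ 2 / 2 * (ia_T n j b ((i : ℕ) + 1) : ℝ) - ((j : ℝ) + 1) * b * ((((i : ℕ) + 1 : ℕ) : ℝ) * (n + 1 - (((i : ℕ) + 1 : ℕ) : ℝ)))) 0 ≤ (n : ℝ) * (((j : ℝ) + 1) * b) := by
  have hnb : (n : ℝ) = j + b := by exact_mod_cast hb
  have hpos : (0 : ℝ) ≤ n * ((j + 1) * b) := by positivity
  by_cases hq : 2 ≤ min (j + 1) b
  · have hneg : ∀ i : Fin n, max (3 * (n : ℝ) ^ 2 / 2 * (ia_T n j b ((i : ℕ) + 1) : ℝ) - ((j : ℝ) + 1) * b * ((((i : ℕ) + 1 : ℕ) : ℝ) * (n + 1 - (((i : ℕ) + 1 : ℕ) : ℝ)))) 0 = 0 := by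
      intro i
      apply max_eq_right
      have hi := i.2
      obtain ⟨y, hy⟩ : ∃ y, n = (i : ℕ) + y := ⟨n - i, by omega⟩
      have hyr : (n : ℝ) = (i : ℕ) + y := by exact_mod_cast hy
      have hgen : ∀ p q : ℕ, p ≤ q → 1 ≤ p → 2 ≤ q → 2 * q ≤ n + 1 → 3 * (n : ℝ) ^ 2 / 2 * (p : ℕ) ≤ q * (n + 1 - q) * (p * (n + 1 - p)) :=
        fun p q h1 h2 h3 h4 => clA_prod n p q hn h2 h1 h3 h4
      have hx : (((i : ℕ) + 1 : ℕ) : ℝ) * (n + 1 - ((i : ℕ) + 1 : ℕ)) = (min ((i : ℕ) + 1) y : ℕ) * (n + 1 - (min ((i : ℕ) + 1) y : ℕ)) := by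
        rcases le_total ((i : ℕ) + 1) y with h1 | h1
        · rw [min_eq_left h1]
        · rw [min_eq_right h1]
          push_cast
          rw [hyr]
          ring
      have hjb : ((j : ℝ) + 1) * b = (min (j + 1) b : ℕ) * (n + 1 - (min (j + 1) b : ℕ)) := by
        rcases le_total (j + 1) b with h1 | h1
        · rw [min_eq_left h1]
          push_cast
          rw [hnb]
          ring
        · rw [min_eq_right h1]
          rw [hnb]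
          ring
      have hT : ia_T n j b ((i : ℕ) + 1) = min (min ((i : ℕ) + 1) y) (min (j + 1) b) := by
        unfold ia_T
        omega
      rw [hx, hjb, hT]
      have hp1 : 1 ≤ min ((i : ℕ) + 1) y := by omega
      have hp2 : 2 * min ((i : ℕ) + 1) y ≤ n + 1 := by omega
      have hq2 : 2 * min (j + 1) b ≤ n + 1 := by omega
      generalize min ((i : ℕ) + 1) y = p at *
      generalize min (j + 1) b = q at *
      rcases le_total p q with h1 | h1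
      · rw [min_eq_left h1]
        have := hgen p q h1 hp1 hq hq2
        linarith
      · rw [min_eq_right h1]
        have := hgen q p h1 (by omega) (by omega) hp2
        linarith
    rw [Finset.sum_congr rfl fun i _ => hneg i, Finset.sum_const_zero]
    exact hpos
  · have hq1 : min (j + 1) b = 1 := by omega
    have hjb : ((j : ℝ) + 1) * b = n := by
      rcases le_total (j + 1) b with h1 | h1
      · have : j = 0 := by omega
        subst this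
        rw [hnb]
        push_cast
        ring
      · have : b = 1 := by omega
        subst this
        rw [hnb]
        push_cast
        ring
    have hn8 : (8 : ℝ) ≤ n := by exact_mod_cast hn
    have hterm : ∀ i : Fin n, max (3 * (n : ℝ) ^ 2 / 2 * (ia_T n j b ((i : ℕ) + 1) : ℝ) - ((j : ℝ) + 1) * b * ((((i : ℕ) + 1 : ℕ) : ℝ) * (n + 1 - (((i : ℕ) + 1 : ℕ) : ℝ)))) 0 ≤
        (if (i : ℕ) = 0 then (n : ℝ) ^ 2 / 2 else 0) + (if (i : ℕ) = n - 1 then (n : ℝ) ^ 2 / 2 else 0) := by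
      intro i
      have hi := i.2
      have hT : ia_T n j b ((i : ℕ) + 1) = 1 := by
        unfold ia_T
        omega
      have hG : 3 * (n : ℝ) ^ 2 / 2 * (ia_T n j b ((i : ℕ) + 1) : ℝ) - ((j : ℝ) + 1) * b * ((((i : ℕ) + 1 : ℕ) : ℝ) * (n + 1 - ((i : ℕ) + 1 : ℕ))) = 3 * (n : ℝ) ^ 2 / 2 - n * (((i : ℕ) + 1) * (n - (i : ℕ))) := by
        rw [hT, hjb]
        push_cast
        ring
      rw [hG]
      have hR : (0 : ℝ) ≤ (if (i : ℕ) = 0 then (n : ℝ) ^ 2 / 2 else 0) + (if (i : ℕ) = n - 1 then (n : ℝ) ^ 2 / 2 else 0) := by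
        split_ifs <;> positivity
      apply max_le _ hR
      by_cases h0 : (i : ℕ) = 0
      · have h1 : (if (i : ℕ) = n - 1 then (n : ℝ) ^ 2 / 2 else 0) ≥ 0 := by split_ifs <;> positivity
        have h2 : 3 * (n : ℝ) ^ 2 / 2 - n * ((((i : ℕ) : ℝ) + 1) * (n - (i : ℕ))) = (n : ℝ) ^ 2 / 2 := by
          rw [h0]
          push_cast
          ring
        rw [if_pos h0]
        linarith
      · by_cases h1 : (i : ℕ) = n - 1
        · have h2 : ((i : ℕ) : ℝ) = n - 1 := by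
            rw [h1, Nat.cast_sub (by omega)]
            simp
          rw [if_neg h0, if_pos h1, h2]
          nlinarith
        · rw [if_neg h0, if_neg h1]
          have h2 : (1 : ℝ) ≤ (i : ℕ) := by exact_mod_cast (by omega : 1 ≤ (i : ℕ))
          have h3 : ((i : ℕ) : ℝ) + 2 ≤ n := by exact_mod_cast (by omega : (i : ℕ) + 2 ≤ n)
          have h4 : 2 * ((n : ℝ) - 1) ≤ (((i : ℕ) : ℝ) + 1) * (n - (i : ℕ)) := by nlinarith
          nlinarith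
    calc ∑ i : Fin n, max (3 * (n : ℝ) ^ 2 / 2 * (ia_T n j b ((i : ℕ) + 1) : ℝ) - ((j : ℝ) + 1) * b * ((((i : ℕ) + 1 : ℕ) : ℝ) * (n + 1 - (((i : ℕ) + 1 : ℕ) : ℝ)))) 0 ≤
          ∑ i : Fin n, ((if (i : ℕ) = 0 then (n : ℝ) ^ 2 / 2 else 0) + (if (i : ℕ) = n - 1 then (n : ℝ) ^ 2 / 2 else 0)) :=
          Finset.sum_le_sum fun i _ => hterm i
      _ = (n : ℝ) ^ 2 := by
          rw [Finset.sum_add_distrib, sum_at 0 (fun _ => (n : ℝ) ^ 2 / 2), sum_at (n - 1) (fun _ => (n : ℝ) ^ 2 / 2), if_pos (by omega), if_pos (by omega)]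
          ring
      _ ≤ n * ((j + 1) * b) := by
          rw [hjb]
          nlinarith

/-- The sum for `n = 5, 6, 7`. -/
theorem clA_int (n j : ℕ) (hn : n = 5 ∨ n = 6 ∨ n = 7) (hj : j < n) :
    ∑ i : Fin n, max (3 * (n : ℤ) ^ 2 * (ia_T n j (n - j) ((i : ℕ) + 1) : ℤ) - 2 * ((j + 1 : ℤ) * ((n - j : ℕ) : ℤ) * ((((i : ℕ) + 1 : ℕ) : ℤ) * (n + 1 - (((i : ℕ) + 1 : ℕ) : ℤ))))) 0 ≤
      2 * (n * ((j + 1 : ℤ) * ((n - j : ℕ) : ℤ))) := by
  rcases hn with rfl | rfl | rfl <;> interval_cases j <;> decide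

theorem clA_small {n : ℕ} (hn : n = 5 ∨ n = 6 ∨ n = 7) (j b : ℕ) (hb : n = j + b) (hb1 : 1 ≤ b) :
    ∑ i : Fin n, max (3 * (n : ℝ) ^ 2 / 2 * (ia_T n j b ((i : ℕ) + 1) : ℝ) - ((j : ℝ) + 1) * b * ((((i : ℕ) + 1 : ℕ) : ℝ) * (n + 1 - (((i : ℕ) + 1 : ℕ) : ℝ)))) 0 ≤ (n : ℝ) * (((j : ℝ) + 1) * b) := by
  have hb2 : b = n - j := by omega
  subst hb2
  have h1 := clA_int n j hn (by omega)
  have h2 : ((∑ i : Fin n, max (3 * (n : ℤ) ^ 2 * (ia_T n j (n - j) ((i : ℕ) + 1) : ℤ) - 2 * ((j + 1 : ℤ) * ((n - j : ℕ) : ℤ) * ((((i : ℕ) + 1 : ℕ) : ℤ) * (n + 1 - (((i : ℕ) + 1 : ℕ) : ℤ))))) 0 : ℤ) : ℝ) ≤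
      ((2 * (n * ((j + 1 : ℤ) * ((n - j : ℕ) : ℤ))) : ℤ) : ℝ) := by exact_mod_cast h1
  rw [Int.cast_sum] at h2
  have h3 : ∀ i : Fin n, ((max (3 * (n : ℤ) ^ 2 * (ia_T n j (n - j) ((i : ℕ) + 1) : ℤ) - 2 * ((j + 1 : ℤ) * ((n - j : ℕ) : ℤ) * ((((i : ℕ) + 1 : ℕ) : ℤ) * (n + 1 - (((i : ℕ) + 1 : ℕ) : ℤ))))) 0 : ℤ) : ℝ) =
      2 * max (3 * (n : ℝ) ^ 2 / 2 * (ia_T n j (n - j) ((i : ℕ) + 1) : ℝ) - ((j : ℝ) + 1) * ((n - j : ℕ) : ℝ) * ((((i : ℕ) + 1 : ℕ) : ℝ) * (n + 1 - (((i : ℕ) + 1 : ℕ) : ℝ)))) 0 := by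
    intro i
    rw [Int.cast_max, Int.cast_zero, mul_max_of_nonneg _ _ (zero_le_two : (0 : ℝ) ≤ 2), mul_zero]
    congr 1
    push_cast
    ring
  rw [Finset.sum_congr rfl fun i _ => h3 i, ← Finset.mul_sum] at h2
  push_cast at h2 ⊢
  linarith

/-- **Type A**, `n ≥ 5`, `D = 3 n ^ 2 / 2`. -/
theorem clA {n : ℕ} (hn : 5 ≤ n) {c : Fin n → ℝ} (hc : ∀ i, pr (CartanMatrix.A n) c i = 2) {e : Fin n → ℝ} (he : Box (CartanMatrix.A n) e) (j : Fin n) :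
    3 * (n : ℝ) ^ 2 / 2 * (e j + e j.rev) ≤ c j * (2 * ∑ k, e k + n) := by
  refine clA_gen (fun j b hb hb1 => ?_) hc he j
  by_cases h8 : 8 ≤ n
  · exact clA_big h8 j b hb hb1
  · exact clA_small (by omega) j b hb hb1

end Pool.Agent.Lib.L8.F7
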