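import Pool.Agent.Lib.L8.F7.IC

/-!
# F7 CLC (helper21): the inequality with the best constant, type C: `D = n (3 n - 1)`, `n ≥ 3`
-/

namespace Pool.Agent.Lib.L8.F7

open Matrix

/-- The coordinate of the sum of the positive roots. -/
noncomputable def clC_c (n J : ℕ) : ℝ := if J = n then (n : ℝ) * (n + 1) / 2 else (J : ℝ) * (2 * n + 1 - J)

/-- The function of the certificate. -/
noncomputable def clC_G (n : ℕ) (D : ℝ) (J x : ℕ) : ℝ := D * (if J = n then (x : ℝ) / 2 else ((min x J : ℕ) : ℝ)) - clC_c n J * ((x : ℝ) * (2 * n - x)) / 2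

/-- The certificate for type C with a constant `D`. -/
theorem clC_gen {n : ℕ} {D : ℝ} (hs : ∀ J : ℕ, 1 ≤ J → J ≤ n → ∑ i : Fin n, max (clC_G n D J ((i : ℕ) + 1)) 0 ≤ clC_c n J * (n / 2)) : Sq (CartanMatrix.C n) D := by
  intro c hc e he j
  have hj := j.2
  have hcj := valC hc j
  obtain ⟨J, hJd⟩ : ∃ J : ℕ, J = (j : ℕ) + 1 := ⟨_, rfl⟩
  have hjJ : ((j : ℕ) : ℝ) = J - 1 := by
    rw [hJd]
    push_cast
    ring
  have hcc : c j = clC_c n J := by
    unfold clC_c
    rw [hcj, ← hJd]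
    split_ifs with h
    · rw [Nat.cast_div (Nat.even_mul_succ_self n).two_dvd (by norm_num)]
      push_cast
      ring
    · rw [Nat.cast_mul, Nat.cast_sub (by omega)]
      push_cast
      rw [hjJ]
      ring
  obtain ⟨G, hG⟩ : ∃ G : ℕ → ℝ, ∀ x : ℕ, G x = clC_G n D J x := ⟨_, fun x => rfl⟩
  have hG0 : G 0 = 0 := by
    rw [hG]
    unfold clC_G
    simp
  have hn1 : ((n - 1 : ℕ) : ℝ) = n - 1 := by
    rw [Nat.cast_sub (by omega)]
    simp
  have hcert := cert (A := CartanMatrix.C n) he (g := fun i : Fin n => G ((i : ℕ) + 1)) (D := D) (c := c j) (X := c j * (n / 2)) (j := j) (by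
    intro k
    have hk := k.2
    rw [rowC n G hG0 k, hcc]
    have hkj : (k = j) ↔ ((k : ℕ) = (j : ℕ)) := Fin.ext_iff
    by_cases hk1 : (k : ℕ) + 1 < n
    · rw [if_pos hk1, hG, hG, hG]
      unfold clC_G
      by_cases hJ : J = n
      · have hkj' : ¬ k = j := fun h => by
          have := hkj.1 h
          omega
        rw [if_neg hkj']
        simp only [if_pos hJ]
        push_cast
        ring
      · simp only [if_neg hJ]
        have h1 : 2 * ((min ((k : ℕ) + 1) J : ℕ) : ℝ) - ((min (k : ℕ) J : ℕ) : ℝ) - ((min ((k : ℕ) + 2) J : ℕ) : ℝ) = if k = j then 1 else 0 := by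
          rcases lt_trichotomy (k : ℕ) (j : ℕ) with h | h | h
          · rw [if_neg (fun h' => by have := hkj.1 h'; omega), min_eq_left (show (k : ℕ) + 1 ≤ J by omega), min_eq_left (show (k : ℕ) ≤ J by omega), min_eq_left (show (k : ℕ) + 2 ≤ J by omega)]
            push_cast
            ring
          · rw [if_pos (hkj.2 h), min_eq_left (show (k : ℕ) + 1 ≤ J by omega), min_eq_left (show (k : ℕ) ≤ J by omega), min_eq_right (show J ≤ (k : ℕ) + 2 by omega)]
            have h2 : J = (k : ℕ) + 1 := by omega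
            rw [h2]
            push_cast
            ring
          · rw [if_neg (fun h' => by have := hkj.1 h'; omega), min_eq_right (show J ≤ (k : ℕ) + 1 by omega), min_eq_right (show J ≤ (k : ℕ) by omega), min_eq_right (show J ≤ (k : ℕ) + 2 by omega)]
            ring
        have h2 : (if k = j then D else 0) = D * (if k = j then 1 else 0) := by
          split_ifs <;> ring
        rw [h2, ← h1]
        push_cast
        ring
    · rw [if_neg hk1, hG, hG]
      unfold clC_G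
      rw [hn1]
      by_cases hJ : J = n
      · have hkj' : k = j := Fin.ext (by omega)
        rw [if_pos hkj']
        simp only [if_pos hJ]
        ring
      · have hkj' : ¬ k = j := fun h => by
          have := hkj.1 h
          omega
        rw [if_neg hkj']
        simp only [if_neg hJ]
        rw [min_eq_right (show J ≤ n by omega), min_eq_right (show J ≤ n - 1 by omega)]
        ring) (by
    have h1 := hs J (by omega) (by omega)
    rw [hcc]
    simp only [hG]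
    exact h1)
  have h9 : c j * (∑ k, e k + n / 2) = c j * ∑ k, e k + c j * (n / 2) := by ring
  rw [h9]
  exact hcert

theorem clC_key1 {n x J : ℝ} (hn : 5 ≤ n) (hx : 1 ≤ x) (hxJ : x ≤ J) (hJn : J + 1 ≤ n) (hJ : J = 2 ∨ J = 3 ∨ 4 ≤ J) :
    2 * (n * (3 * n - 1)) * x ≤ J * (2 * n + 1 - J) * (x * (2 * n - x)) := by
  have h3 : 2 * (n * (3 * n - 1)) ≤ J * (2 * n + 1 - J) * (2 * n - x) := by
    rcases hJ with hJ | hJ | hJ
    · subst hJ
      have h1 : 2 * n - 2 ≤ 2 * n - x := by linarith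
      have h2 : (0 : ℝ) ≤ 2 * (2 * n + 1 - 2) := by linarith
      have h3 := mul_le_mul_of_nonneg_left h1 h2
      nlinarith
    · subst hJ
      have h1 : 2 * n - 3 ≤ 2 * n - x := by linarith
      have h2 : (0 : ℝ) ≤ 3 * (2 * n + 1 - 3) := by linarith
      have h3 := mul_le_mul_of_nonneg_left h1 h2
      nlinarith
    · have h4 : 4 * (2 * n - 3) ≤ J * (2 * n + 1 - J) := by
        nlinarith [mul_nonneg (show (0 : ℝ) ≤ J - 4 by linarith) (show (0 : ℝ) ≤ 2 * n - 3 - J by linarith)]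
      have h5 : n + 1 ≤ 2 * n - x := by linarith
      have h6 : 2 * (n * (3 * n - 1)) ≤ 4 * (2 * n - 3) * (n + 1) := by nlinarith
      have h7 : 0 ≤ J * (2 * n + 1 - J) := mul_nonneg (by linarith) (by linarith)
      exact h6.trans (mul_le_mul h4 h5 (by linarith) h7)
  have h7 := mul_le_mul_of_nonneg_left h3 (show (0 : ℝ) ≤ x by linarith)
  calc 2 * (n * (3 * n - 1)) * x = x * (2 * (n * (3 * n - 1))) := by ring
    _ ≤ x * (J * (2 * n + 1 - J) * (2 * n - x)) := h7
    _ = J * (2 * n + 1 - J) * (x * (2 * n - x)) := by ring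

theorem clC_key2 {n x J : ℝ} (hn : 5 ≤ n) (hJ : 1 ≤ J) (hJx : J + 1 ≤ x) (hxn : x ≤ n) (hx : x = 2 ∨ x = 3 ∨ 4 ≤ x) :
    2 * (n * (3 * n - 1)) * J ≤ J * (2 * n + 1 - J) * (x * (2 * n - x)) := by
  have h3 : 2 * (n * (3 * n - 1)) ≤ (2 * n + 1 - J) * (x * (2 * n - x)) := by
    rcases hx with hx | hx | hx
    · subst hx
      have h1 : 2 * n ≤ 2 * n + 1 - J := by linarith
      have h2 : (0 : ℝ) ≤ 2 * (2 * n - 2) := by linarith
      have h3 := mul_le_mul_of_nonneg_right h1 h2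
      nlinarith
    · subst hx
      have h1 : 2 * n - 1 ≤ 2 * n + 1 - J := by linarith
      have h2 : (0 : ℝ) ≤ 3 * (2 * n - 3) := by linarith
      have h3 := mul_le_mul_of_nonneg_right h1 h2
      nlinarith
    · have h4 : 4 * (2 * n - 4) ≤ x * (2 * n - x) := by
        nlinarith [mul_nonneg (show (0 : ℝ) ≤ x - 4 by linarith) (show (0 : ℝ) ≤ 2 * n - 4 - x by linarith)]
      have h5 : n + 2 ≤ 2 * n + 1 - J := by linarith
      have h6 : 2 * (n * (3 * n - 1)) ≤ (n + 2) * (4 * (2 * n - 4)) := by nlinarith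
      exact h6.trans (mul_le_mul h5 h4 (by linarith) (by linarith))
  have h7 := mul_le_mul_of_nonneg_left h3 (show (0 : ℝ) ≤ J by linarith)
  calc 2 * (n * (3 * n - 1)) * J = J * (2 * (n * (3 * n - 1))) := by ring
    _ ≤ J * ((2 * n + 1 - J) * (x * (2 * n - x))) := h7
    _ = J * (2 * n + 1 - J) * (x * (2 * n - x)) := by ring

theorem clC_nat3 (x : ℕ) (hx : 2 ≤ x) : (x : ℝ) = 2 ∨ (x : ℝ) = 3 ∨ 4 ≤ (x : ℝ) := by
  have h1 : x = 2 ∨ x = 3 ∨ 4 ≤ x := by omega
  rcases h1 with h1 | h1 | h1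
  · left
    exact_mod_cast h1
  · right
    left
    exact_mod_cast h1
  · right
    right
    exact_mod_cast h1

theorem clC_sign {n x J : ℕ} (hn : 5 ≤ n) (hx : 1 ≤ x) (hx2 : x ≤ n) (hJ : 1 ≤ J) (hJ2 : J ≤ n) (h : 2 ≤ x ∨ 2 ≤ J) : clC_G n (n * (3 * n - 1)) J x ≤ 0 := by
  have hnr : (5 : ℝ) ≤ n := by exact_mod_cast hn
  have hxr : (1 : ℝ) ≤ x := by exact_mod_cast hx
  have hJr : (1 : ℝ) ≤ J := by exact_mod_cast hJ
  have hx2r : (x : ℝ) ≤ n := by exact_mod_cast hx2
  have hJ2r : (J : ℝ) ≤ n := by exact_mod_cast hJ2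
  unfold clC_G clC_c
  by_cases hJn : J = n
  · rw [if_pos hJn, if_pos hJn]
    have h3 : 2 * (3 * (n : ℝ) - 1) ≤ (n + 1) * (2 * n - x) := by nlinarith
    have h4 := mul_le_mul_of_nonneg_left h3 (show (0 : ℝ) ≤ n * x by positivity)
    nlinarith
  · rw [if_neg hJn, if_neg hJn]
    rcases Nat.lt_or_ge J x with hxJ | hxJ
    · rw [min_eq_right hxJ.le]
      have h1 := clC_key2 hnr hJr (show (J : ℝ) + 1 ≤ x by exact_mod_cast hxJ) hx2r (clC_nat3 x (by omega))
      linarith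
    · rw [min_eq_left hxJ]
      have h1 := clC_key1 hnr hxr (show (x : ℝ) ≤ J by exact_mod_cast hxJ) (by exact_mod_cast (by omega : J + 1 ≤ n)) (clC_nat3 J (by omega))
      linarith

theorem clC_c_nonneg {n J : ℕ} (hJ2 : J ≤ n) : 0 ≤ clC_c n J := by
  have hJ2r : (J : ℝ) ≤ n := by exact_mod_cast hJ2
  have hJ0 : (0 : ℝ) ≤ J := Nat.cast_nonneg _
  unfold clC_c
  split_ifs
  · positivity
  · exact mul_nonneg hJ0 (by linarith)

theorem clC_big {n : ℕ} (hn : 5 ≤ n) (J : ℕ) (hJ : 1 ≤ J) (hJn : J ≤ n) : ∑ i : Fin n, max (clC_G n (n * (3 * n - 1)) J ((i : ℕ) + 1)) 0 ≤ clC_c n J * (n / 2) := by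
  have hnr : (5 : ℝ) ≤ n := by exact_mod_cast hn
  by_cases hJ1 : J = 1
  · have hc : clC_c n J = 2 * n := by
      unfold clC_c
      rw [if_neg (by omega), hJ1]
      push_cast
      ring
    have hG1 : clC_G n (n * (3 * n - 1)) J 1 = (n : ℝ) ^ 2 := by
      unfold clC_G
      rw [hc, if_neg (by omega), hJ1]
      simp only [min_self, Nat.cast_one]
      ring
    have hb : ∀ i : Fin n, max (clC_G n (n * (3 * n - 1)) J ((i : ℕ) + 1)) 0 ≤ if (i : ℕ) = 0 then ((n : ℝ) ^ 2) else 0 := by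
      intro i
      have hi2 := i.2
      by_cases hi0 : (i : ℕ) = 0
      · rw [if_pos hi0, hi0, zero_add, hG1]
        exact max_le le_rfl (by positivity)
      · rw [if_neg hi0]
        exact max_le (clC_sign hn (by omega) (by omega) hJ hJn (Or.inl (by omega))) le_rfl
    refine (Finset.sum_le_sum fun i _ => hb i).trans ?_
    rw [sum_at 0 (fun _ => ((n : ℝ) ^ 2)), if_pos (by omega), hc]
    nlinarith
  · have hb : ∀ i : Fin n, max (clC_G n (n * (3 * n - 1)) J ((i : ℕ) + 1)) 0 ≤ 0 := by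
      intro i
      have hi2 := i.2
      exact max_le (clC_sign hn (by omega) (by omega) hJ hJn (Or.inr (by omega))) le_rfl
    refine (Finset.sum_le_sum fun i _ => hb i).trans ?_
    rw [Finset.sum_const_zero]
    exact mul_nonneg (clC_c_nonneg hJn) (by positivity)

/-- The sum for `n = 3, 4` (four times the value). -/
theorem clC_int (n J : ℕ) (hn : n = 3 ∨ n = 4) (hJ : 1 ≤ J) (hJn : J ≤ n) :
    ∑ i : Fin n, max ((n : ℤ) * (3 * n - 1) * (if J = n then 2 * (((i : ℕ) + 1 : ℕ) : ℤ) else 4 * ((min ((i : ℕ) + 1) J : ℕ) : ℤ)) -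
      (if J = n then (n : ℤ) * (n + 1) else 2 * ((J : ℤ) * (2 * n + 1 - J))) * ((((i : ℕ) + 1 : ℕ) : ℤ) * (2 * n - (((i : ℕ) + 1 : ℕ) : ℤ)))) 0 ≤
      (if J = n then (n : ℤ) * (n + 1) else 2 * ((J : ℤ) * (2 * n + 1 - J))) * n := by
  rcases hn with rfl | rfl <;> interval_cases J <;> decide

theorem clC_small {n : ℕ} (hn : n = 3 ∨ n = 4) (J : ℕ) (hJ : 1 ≤ J) (hJn : J ≤ n) : ∑ i : Fin n, max (clC_G n (n * (3 * n - 1)) J ((i : ℕ) + 1)) 0 ≤ clC_c n J * (n / 2) := by
  have h1 := clC_int n J hn hJ hJn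
  have h2 := (Int.cast_le (R := ℝ)).2 h1
  rw [Int.cast_sum] at h2
  have h3 : ∀ i : Fin n, ((max ((n : ℤ) * (3 * n - 1) * (if J = n then 2 * (((i : ℕ) + 1 : ℕ) : ℤ) else 4 * ((min ((i : ℕ) + 1) J : ℕ) : ℤ)) -
      (if J = n then (n : ℤ) * (n + 1) else 2 * ((J : ℤ) * (2 * n + 1 - J))) * ((((i : ℕ) + 1 : ℕ) : ℤ) * (2 * n - (((i : ℕ) + 1 : ℕ) : ℤ)))) 0 : ℤ) : ℝ) =
      4 * max (clC_G n (n * (3 * n - 1)) J ((i : ℕ) + 1)) 0 := by
    intro i
    rw [Int.cast_max, Int.cast_zero, mul_max_of_nonneg _ _ (by norm_num : (0 : ℝ) ≤ 4), mul_zero]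
    congr 1
    unfold clC_G clC_c
    split_ifs
    · push_cast
      ring
    · push_cast
      ring
  rw [Finset.sum_congr rfl fun i _ => h3 i, ← Finset.mul_sum] at h2
  have h4 : (((if J = n then (n : ℤ) * (n + 1) else 2 * ((J : ℤ) * (2 * n + 1 - J))) * n : ℤ) : ℝ) = 4 * (clC_c n J * (n / 2)) := by
    unfold clC_c
    split_ifs
    · push_cast
      ring
    · push_cast
      ring
  rw [h4] at h2
  linarith

/-- **Type C**, `n ≥ 3`, `D = n (3 n - 1)`. -/
theorem clC {n : ℕ} (hn : 3 ≤ n) : Sq (CartanMatrix.C n) (n * (3 * n - 1)) := by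
  refine clC_gen fun J h1 h2 => ?_
  by_cases h5 : 5 ≤ n
  · exact clC_big h5 J h1 h2
  · exact clC_small (by omega) J h1 h2

end Pool.Agent.Lib.L8.F7
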