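import Pool.Agent.Lib.L8.F7.Defs

/-!
# F7 RA (S/M): rows of the Cartan matrix of type A (helper31)
-/

namespace Pool.Agent.Lib.L8.F7

open Matrix

/-- Proof. Write the entry `A n k i` as `2 [i = k] - [i + 1 = k] - [i = k + 1]` (`CartanMatrix.A`, `Matrix.of_apply`, split_ifs, omega) and use `sum_at` three times (with `m = k`, `m = k - 1` if `1 ≤ k`, `m = k + 1`);
for `k = 0` the second sum is empty and `g 0 = 0`; for `k + 1 = n` the third sum is empty and `g (k + 2) = g (n + 1) = 0`. -/
theorem rowA (n : ℕ) (g : ℕ → ℝ) (h0 : g 0 = 0) (hn : g (n + 1) = 0) (k : Fin n) :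
    rw' (CartanMatrix.A n) (fun i => g (i + 1)) k = 2 * g (k + 1) - g k - g (k + 2) := by
  obtain ⟨k, hk⟩ := k
  have h1 : ∀ i : Fin n, ((CartanMatrix.A n ⟨k, hk⟩ i : ℤ) : ℝ) * g (i + 1) =
      (if (i : ℕ) = k then 2 * g (i + 1) else 0) - (if (i : ℕ) = k + 1 then g (i + 1) else 0) -
        (if (i : ℕ) + 1 = k then g (i + 1) else 0) := by
    intro i
    unfold CartanMatrix.A
    rw [Matrix.of_apply]
    by_cases c1 : (⟨k, hk⟩ : Fin n) = i
    · have c1' : (i : ℕ) = k := by rw [← c1]
      rw [if_pos c1, if_pos c1', if_neg (by omega), if_neg (by omega)]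
      push_cast
      ring
    · have c1' : (i : ℕ) ≠ k := fun h => c1 (Fin.ext h.symm)
      rw [if_neg c1, if_neg c1']
      by_cases c2 : (i : ℕ) = k + 1
      · rw [if_pos (Or.inl c2.symm), if_pos c2, if_neg (by omega)]
        push_cast
        ring
      · by_cases c3 : (i : ℕ) + 1 = k
        · rw [if_pos (Or.inr c3), if_neg c2, if_pos c3]
          push_cast
          ring
        · rw [if_neg (by
            rintro (h | h)
            · exact c2 h.symm
            · exact c3 h), if_neg c2, if_neg c3]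
          push_cast
          ring
  unfold rw'
  rw [Finset.sum_congr rfl fun i _ => h1 i, Finset.sum_sub_distrib, Finset.sum_sub_distrib,
    sum_at k (fun i => 2 * g (i + 1)), sum_at (k + 1) (fun i => g (i + 1)), if_pos hk]
  have h2 : (if k + 1 < n then g (k + 1 + 1) else 0) = g (k + 2) := by
    by_cases c : k + 1 < n
    · rw [if_pos c]
    · rw [if_neg c, show k + 2 = n + 1 by omega, hn]
  have h3 : ∑ i : Fin n, (if (i : ℕ) + 1 = k then g (i + 1) else 0) = g k := by
    cases k with
    | zero =>
      rw [h0]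
      exact Finset.sum_eq_zero fun i _ => if_neg (by omega)
    | succ m =>
      have h4 : ∀ i : Fin n, (if (i : ℕ) + 1 = m + 1 then g (i + 1) else 0) = if (i : ℕ) = m then g (i + 1) else 0 := by
        intro i
        by_cases c : (i : ℕ) = m
        · rw [if_pos c, if_pos (by omega)]
        · rw [if_neg c, if_neg (by omega)]
      rw [Finset.sum_congr rfl fun i _ => h4 i, sum_at m (fun i => g (i + 1)), if_pos (by omega)]
  rw [h2, h3]
  ring

end Pool.Agent.Lib.L8.F7
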