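import Pool.Agent.Lib.L8.F7.Defs

/-!
# F7 V0 (M): weights with nonnegative values have nonnegative coordinates (helper31)
-/

namespace Pool.Agent.Lib.L8.F7

open Matrix

/-- Proof. If `n = 0` nothing is to be proved. Suppose `e k < 0` for some `k`. Let `k₀` be a point where `e k / c k` is minimal (`Finset.exists_min_image`), `m = e k₀ / c k₀ < 0`; `f k = e k - m * c k ≥ 0` for all `k`, `f k₀ = 0`.
`pr A f k₀ = pr A e k₀ - m * pr A c k₀ > 0`. But `pr A f k₀ = ∑ k, f k * A k k₀`: the term `k = k₀` is `0`, the others are `≤ 0` (`f k ≥ 0`, `A k k₀ ≤ 0`). Contradiction. -/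
theorem nonneg_of {n : ℕ} {A : Matrix (Fin n) (Fin n) ℤ} (hA : ∀ k i, k ≠ i → A k i ≤ 0) {c : Fin n → ℝ} (hc : ∀ k, 0 < c k) (hc2 : ∀ i, 0 < pr A c i) {e : Fin n → ℝ} (he : ∀ i, 0 ≤ pr A e i) (k : Fin n) : 0 ≤ e k := by
  by_contra hneg
  push Not at hneg
  obtain ⟨k₀, -, hk₀⟩ := Finset.exists_min_image (Finset.univ : Finset (Fin n)) (fun k => e k / c k) ⟨k, Finset.mem_univ k⟩
  obtain ⟨m, hm⟩ : ∃ m : ℝ, m = e k₀ / c k₀ := ⟨_, rfl⟩
  have hm0 : m < 0 := by
    rw [hm]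
    exact lt_of_le_of_lt (hk₀ k (Finset.mem_univ k)) (div_neg_of_neg_of_pos hneg (hc k))
  have hf : ∀ i, 0 ≤ e i - m * c i := by
    intro i
    have h1 := hk₀ i (Finset.mem_univ i)
    rw [← hm, le_div_iff₀ (hc i)] at h1
    linarith
  have hf0 : e k₀ - m * c k₀ = 0 := by
    rw [hm, div_mul_cancel₀ _ (hc k₀).ne', sub_self]
  have h1 : ∑ i, (e i - m * c i) * ((A i k₀ : ℤ) : ℝ) ≤ 0 := by
    refine Finset.sum_nonpos fun i _ => ?_
    by_cases hi : i = k₀
    · rw [hi, hf0, zero_mul]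
    · refine mul_nonpos_of_nonneg_of_nonpos (hf i) ?_
      exact_mod_cast hA i k₀ hi
  have h2 : ∑ i, (e i - m * c i) * ((A i k₀ : ℤ) : ℝ) = pr A e k₀ - m * pr A c k₀ := by
    unfold pr
    rw [Finset.mul_sum, ← Finset.sum_sub_distrib]
    exact Finset.sum_congr rfl fun i _ => by ring
  have h3 := he k₀
  have h4 := mul_neg_of_neg_of_pos hm0 (hc2 k₀)
  linarith

/-- Proof. `nonneg_of` for `c' - c` and `c - c'` (`pr A` is additive: unfold `pr`, `Finset.sum_sub_distrib`). -/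
theorem uniq {n : ℕ} {A : Matrix (Fin n) (Fin n) ℤ} (hA : ∀ k i, k ≠ i → A k i ≤ 0) {c : Fin n → ℝ} (hc : ∀ k, 0 < c k) (hc2 : ∀ i, pr A c i = 2) {c' : Fin n → ℝ} (hc' : ∀ i, pr A c' i = 2) : c' = c := by
  have hadd : ∀ (u v : Fin n → ℝ) (i : Fin n), pr A (fun k => u k - v k) i = pr A u i - pr A v i := by
    intro u v i
    unfold pr
    rw [← Finset.sum_sub_distrib]
    exact Finset.sum_congr rfl fun k _ => by ring
  have hc2' : ∀ i, 0 < pr A c i := fun i => by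
    rw [hc2 i]
    norm_num
  funext k
  have h1 := nonneg_of hA hc hc2' (e := fun k => c' k - c k) (fun i => by rw [hadd, hc' i, hc2 i, sub_self]) k
  have h2 := nonneg_of hA hc hc2' (e := fun k => c k - c' k) (fun i => by rw [hadd, hc' i, hc2 i, sub_self]) k
  linarith

end Pool.Agent.Lib.L8.F7
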