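import Pool.Agent.Lib.L8.F7.Defs
import Pool.Agent.Lib.L8.F7.V0
import Pool.Agent.Lib.L8.F7.RA
import Pool.Agent.Lib.L8.F7.RD

/-!
# F7 VA (S/M): the sum of the positive roots, types A and D (helper31)
-/

namespace Pool.Agent.Lib.L8.F7

open Matrix

theorem va_sym {n : ℕ} {A : Matrix (Fin n) (Fin n) ℤ} (hA : ∀ k i, A k i = A i k) (e : Fin n → ℝ) (i : Fin n) : pr A e i = rw' A e i := by
  unfold pr rw'
  exact Finset.sum_congr rfl fun k _ => by rw [hA k i, mul_comm]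

/-- Proof. `uniq` (file V0) with `A k i ≤ 0` for `k ≠ i` (`CartanMatrix.A_apply_le_zero_of_ne`) and `c k = (k + 1) (n - k)`: positive; `pr (A n) c i = rw' (A n) c i` since `A n` is symmetric (`CartanMatrix.A_isSymm`, `IsSymm.apply`), and
`rowA` with `g x = x (n + 1 - x)`: `2 g (i + 1) - g i - g (i + 2) = 2`. -/
theorem valA {n : ℕ} {c : Fin n → ℝ} (hc : ∀ i, pr (CartanMatrix.A n) c i = 2) (j : Fin n) : c j = (j + 1) * (n - j) := by
  have hs : ∀ k i, CartanMatrix.A n k i = CartanMatrix.A n i k := fun k i => (CartanMatrix.A_isSymm n).apply i k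
  have hc' : ∀ i, pr (CartanMatrix.A n) (fun k : Fin n => ((k : ℝ) + 1) * (n - k)) i = 2 := by
    intro i
    rw [va_sym hs]
    have h1 := rowA n (fun x : ℕ => (x : ℝ) * (n + 1 - x)) (by simp) (by push_cast; ring) i
    have h2 : (fun k : Fin n => ((k : ℝ) + 1) * (n - k)) = fun k : Fin n => (((k + 1 : ℕ)) : ℝ) * (n + 1 - ((k + 1 : ℕ) : ℝ)) := by
      funext k
      push_cast
      ring
    rw [h2]
    refine h1.trans ?_
    push_cast
    ring
  have hpos : ∀ k : Fin n, 0 < ((k : ℝ) + 1) * (n - k) := by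
    intro k
    have h3 : ((k : ℕ) : ℝ) < n := by exact_mod_cast k.2
    have h4 : (0 : ℝ) ≤ ((k : ℕ) : ℝ) := Nat.cast_nonneg _
    exact mul_pos (by linarith) (by linarith)
  exact congrFun (uniq (CartanMatrix.A_apply_le_zero_of_ne n) hpos hc' hc) j

/-- The statement of `valD` with the arithmetic in `ℝ`. -/
theorem va_D {n : ℕ} (hn : 3 ≤ n) {c : Fin n → ℝ} (hc : ∀ i, pr (CartanMatrix.D n) c i = 2) (j : Fin n) :
    c j = if (j : ℕ) + 2 < n then (((j : ℕ) : ℝ) + 1) * (2 * (n : ℝ) - 2 - ((j : ℕ) : ℝ)) else (n : ℝ) * ((n : ℝ) - 1) / 2 := by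
  have hs : ∀ k i, CartanMatrix.D n k i = CartanMatrix.D n i k := fun k i => (CartanMatrix.D_isSymm n).apply i k
  have hn3 : (3 : ℝ) ≤ n := by exact_mod_cast hn
  have hc' : ∀ i, pr (CartanMatrix.D n) (fun k : Fin n => if (k : ℕ) + 2 < n then ((k : ℝ) + 1) * (2 * n - 2 - k) else (n : ℝ) * (n - 1) / 2) i = 2 := by
    intro i
    rw [va_sym hs]
    have h1 := rowD n hn (fun x : ℕ => (x : ℝ) * (2 * n - 1 - x)) ((n : ℝ) * (n - 1) / 2) ((n : ℝ) * (n - 1) / 2) (by simp)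
      (by
        rw [Nat.cast_sub (by omega : 1 ≤ n)]
        push_cast
        ring) i
    have h2 : (fun k : Fin n => if (k : ℕ) + 2 < n then ((k : ℝ) + 1) * (2 * n - 2 - k) else (n : ℝ) * (n - 1) / 2) =
        fun k : Fin n => if (k : ℕ) + 2 < n then (((k + 1 : ℕ)) : ℝ) * (2 * n - 1 - ((k + 1 : ℕ) : ℝ)) else if (k : ℕ) + 2 = n then (n : ℝ) * (n - 1) / 2 else (n : ℝ) * (n - 1) / 2 := by
      funext k
      rw [ite_self]
      by_cases c1 : (k : ℕ) + 2 < n
      · rw [if_pos c1, if_pos c1]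
        push_cast
        ring
      · rw [if_neg c1, if_neg c1]
    rw [h2]
    refine h1.trans ?_
    have h5 : 2 * ((n : ℝ) * (n - 1) / 2) - ((n - 2 : ℕ) : ℝ) * (2 * n - 1 - ((n - 2 : ℕ) : ℝ)) = 2 := by
      rw [Nat.cast_sub (by omega : 2 ≤ n)]
      push_cast
      ring
    simp only [h5, ite_self]
    by_cases c1 : (i : ℕ) + 2 < n
    · rw [if_pos c1]
      push_cast
      ring
    · rw [if_neg c1]
  have hpos : ∀ k : Fin n, 0 < (if (k : ℕ) + 2 < n then ((k : ℝ) + 1) * (2 * n - 2 - k) else (n : ℝ) * (n - 1) / 2) := by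
    intro k
    have h4 : (0 : ℝ) ≤ ((k : ℕ) : ℝ) := Nat.cast_nonneg _
    by_cases c1 : (k : ℕ) + 2 < n
    · rw [if_pos c1]
      have h3 : ((k : ℕ) : ℝ) + 2 < n := by exact_mod_cast c1
      exact mul_pos (by linarith) (by linarith)
    · rw [if_neg c1]
      have h3 : (0 : ℝ) < (n : ℝ) * (n - 1) := mul_pos (by linarith) (by linarith)
      linarith
  exact congrFun (uniq (CartanMatrix.D_off_diag_nonpos n) hpos hc' hc) j

/-- Proof. The same with `rowD`, `g x = x (2 n - 1 - x)`, `u = v = n (n - 1) / 2` (`u + v = g (n - 1)`, `2 u - g (n - 2) = n (n - 1) - (n - 2) (n + 1) = 2`), `CartanMatrix.D_off_diag_nonpos`, `CartanMatrix.D_isSymm`. -/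
theorem valD {n : ℕ} (hn : 3 ≤ n) {c : Fin n → ℝ} (hc : ∀ i, pr (CartanMatrix.D n) c i = 2) (j : Fin n) : c j = if (j : ℕ) + 2 < n then (j + 1) * (2 * n - 2 - j) else n * (n - 1) / 2 := by
  rw [va_D hn hc j]
  by_cases c1 : (j : ℕ) + 2 < n
  · rw [if_pos c1, if_pos c1, Nat.cast_mul, Nat.cast_sub (by omega), Nat.cast_sub (by omega)]
    push_cast
    ring
  · rw [if_neg c1, if_neg c1, Nat.cast_div (Nat.even_mul_pred_self n).two_dvd (by norm_num), Nat.cast_mul, Nat.cast_sub (by omega)]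
    push_cast
    ring

end Pool.Agent.Lib.L8.F7
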