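import Pool.Agent.Lib.L8.F7.Defs
import Pool.Agent.Lib.L8.F7.VA

/-!
# F7 IDS (M): the inequality, type D, n >= 6, spin nodes (helper31)
-/

namespace Pool.Agent.Lib.L8.F7

open Matrix

/-- Proof. `c j = n (n - 1) / 2` (`valD`). `G x = n (2 n - 1) x / 2 - (n (n - 1) / 2) x (2 n - 1 - x) / 2`, and the vector of `rowD` with `G` and, for `j = n - 1`: `u = n (2 n - 1) (n - 2) / 4 - (n (n - 1) / 2) (n (n - 1) / 4)`, `v = n (2 n - 1) n / 4 - (n (n - 1) / 2) (n (n - 1) / 4)`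
(`u` and `v` exchanged for `j = n - 2`); `u + v = G (n - 1)`. `rowD`: `- c j` for `k + 2 < n`; `2 u - G (n - 2) = - c j`, `2 v - G (n - 2) = n (2 n - 1) - c j`. So `cert` applies with `D = n (2 n - 1)`. Signs: all `≤ 0`: `G x ≤ 0` iff `2 (2 n - 1) ≤ (n - 1) (2 n - 1 - x)`, true for
`1 ≤ x ≤ n - 2` as `(n - 1) (n + 1) ≥ 4 n - 2` for `n ≥ 4`; `u ≤ v = n ^ 2 / 8 (4 n - 2 - (n - 1) ^ 2) ≤ 0` for `n ≥ 6` (`n ^ 2 - 6 n + 3 ≥ 0`). So `∑ max (g i) 0 = 0`, and `0 ≤ c j n / 2`. -/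
theorem inD_spin {n : ℕ} (hn : 6 ≤ n) {c : Fin n → ℝ} (hc : ∀ i, pr (CartanMatrix.D n) c i = 2) {e : Fin n → ℝ} (he : Box (CartanMatrix.D n) e) (j : Fin n) (hj : n ≤ (j : ℕ) + 2) :
    n * (2 * n - 1) * e j ≤ c j * (∑ k, e k + n / 2) := by
  have hnr : (6 : ℝ) ≤ n := by exact_mod_cast hn
  have hjn := j.2
  have hcj : c j = (n : ℝ) * ((n : ℝ) - 1) / 2 := by
    rw [va_D (by omega) hc j, if_neg (by omega)]
  have hc0 : 0 ≤ c j := by
    rw [hcj]
    have h1 : (0 : ℝ) ≤ (n : ℝ) * ((n : ℝ) - 1) := mul_nonneg (by linarith) (by linarith)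
    linarith
  obtain ⟨G, hG⟩ : ∃ G : ℕ → ℝ, ∀ x : ℕ, G x = (n : ℝ) * (2 * n - 1) * x / 2 - c j * ((x : ℝ) * (2 * n - 1 - x)) / 2 :=
    ⟨_, fun x => rfl⟩
  have hG0 : G 0 = 0 := by
    rw [hG]
    simp
  have hn1 : ((n - 1 : ℕ) : ℝ) = n - 1 := by
    rw [Nat.cast_sub (by omega)]
    simp
  have hn2 : ((n - 2 : ℕ) : ℝ) = n - 2 := by
    rw [Nat.cast_sub (by omega)]
    simp
  obtain ⟨u, hu⟩ : ∃ u : ℝ, u = (G (n - 2) - c j + (if (j : ℕ) + 2 = n then (n : ℝ) * (2 * n - 1) else 0)) / 2 := ⟨_, rfl⟩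
  obtain ⟨v, hv⟩ : ∃ v : ℝ, v = (G (n - 2) - c j + (if (j : ℕ) + 2 = n then 0 else (n : ℝ) * (2 * n - 1))) / 2 := ⟨_, rfl⟩
  have huv : u + v = G (n - 1) := by
    have h1 : G (n - 1) = G (n - 2) + (n : ℝ) * (2 * n - 1) / 2 - c j := by
      rw [hG, hG, hn1, hn2]
      ring
    rw [h1, hu, hv]
    split_ifs <;> ring
  have hrow := rowD n (by omega) G u v hG0 huv
  have hg : ∀ k, rw' (CartanMatrix.D n) (fun i : Fin n => if (i : ℕ) + 2 < n then G (i + 1) else if (i : ℕ) + 2 = n then u else v) k =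
      (if k = j then (n : ℝ) * (2 * n - 1) else 0) - c j := by
    intro k
    rw [hrow k]
    have hk := k.2
    by_cases c1 : (k : ℕ) + 2 < n
    · have c4 : k ≠ j := by
        intro h
        rw [h] at c1
        omega
      rw [if_pos c1, if_neg c4, hG, hG, hG]
      push_cast
      ring
    · rw [if_neg c1]
      by_cases c2 : (k : ℕ) + 2 = n
      · rw [if_pos c2, hu]
        by_cases c3 : (j : ℕ) + 2 = n
        · have c4 : k = j := Fin.ext (by omega)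
          rw [if_pos c3, if_pos c4]
          ring
        · have c4 : k ≠ j := by
            intro h
            rw [h] at c2
            exact c3 c2
          rw [if_neg c3, if_neg c4]
          ring
      · rw [if_neg c2, hv]
        by_cases c3 : (j : ℕ) + 2 = n
        · have c4 : k ≠ j := by
            intro h
            rw [h] at c2
            exact c2 c3
          rw [if_pos c3, if_neg c4]
          ring
        · have c4 : k = j := Fin.ext (by omega)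
          rw [if_neg c3, if_pos c4]
          ring
  have hle : ∀ x : ℕ, 1 ≤ x → x ≤ n - 2 → G x ≤ 0 := by
    intro x h1 h2
    have h1r : (1 : ℝ) ≤ x := by exact_mod_cast h1
    have h2r : (x : ℝ) ≤ n - 2 := by
      have h3 : x + 2 ≤ n := by omega
      have h4 : (x : ℝ) + 2 ≤ n := by exact_mod_cast h3
      linarith
    rw [hG, hcj]
    have h5 : (((n : ℝ) - 1)) * (n + 1) ≤ ((n : ℝ) - 1) * (2 * n - 1 - x) :=
      mul_le_mul_of_nonneg_left (by linarith) (by linarith)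
    have h6 : 0 ≤ ((n : ℝ) - 1) * (2 * n - 1 - x) - 2 * (2 * n - 1) := by nlinarith
    have h7 : 0 ≤ (x : ℝ) * n := mul_nonneg (by linarith) (by linarith)
    have h8 := mul_nonneg h7 h6
    have h9 : (n : ℝ) * (2 * n - 1) * x / 2 - (n : ℝ) * (n - 1) / 2 * ((x : ℝ) * (2 * n - 1 - x)) / 2 =
        - ((x : ℝ) * n * (((n : ℝ) - 1) * (2 * n - 1 - x) - 2 * (2 * n - 1))) / 4 := by ring
    rw [h9]
    linarith
  have hE : G (n - 2) - c j + (n : ℝ) * (2 * n - 1) ≤ 0 := by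
    rw [hG, hn2, hcj]
    have h9 : (n : ℝ) * (2 * n - 1) * (n - 2) / 2 - (n : ℝ) * (n - 1) / 2 * (((n : ℝ) - 2) * (2 * n - 1 - (n - 2))) / 2 -
        (n : ℝ) * (n - 1) / 2 + (n : ℝ) * (2 * n - 1) = - ((n : ℝ) * n * ((n : ℝ) * (n - 6) + 3)) / 4 := by ring
    rw [h9]
    have h10 : 0 ≤ (n : ℝ) * (n - 6) + 3 := by
      have := mul_nonneg (show (0 : ℝ) ≤ n by linarith) (show (0 : ℝ) ≤ (n : ℝ) - 6 by linarith)
      linarith
    have h11 : 0 ≤ (n : ℝ) * n * ((n : ℝ) * (n - 6) + 3) :=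
      mul_nonneg (mul_nonneg (by linarith) (by linarith)) h10
    linarith
  have hDp : (0 : ℝ) ≤ (n : ℝ) * (2 * n - 1) := mul_nonneg (by linarith) (by linarith)
  have hu0 : u ≤ 0 := by
    rw [hu]
    split_ifs <;> linarith
  have hv0 : v ≤ 0 := by
    rw [hv]
    split_ifs <;> linarith
  have hs : ∑ i : Fin n, max ((fun i : Fin n => if (i : ℕ) + 2 < n then G (i + 1) else if (i : ℕ) + 2 = n then u else v) i) 0 ≤ (0 : ℝ) := by
    refine Finset.sum_nonpos fun i _ => ?_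
    refine max_le ?_ le_rfl
    show (if (i : ℕ) + 2 < n then G (i + 1) else if (i : ℕ) + 2 = n then u else v) ≤ 0
    by_cases c1 : (i : ℕ) + 2 < n
    · rw [if_pos c1]
      exact hle _ (by omega) (by omega)
    · rw [if_neg c1]
      split_ifs
      · exact hu0
      · exact hv0
  have hfin := cert he hg hs
  have h12 : c j * (∑ k, e k + n / 2) = c j * ∑ k, e k + c j * n / 2 := by ring
  rw [h12]
  have h13 : 0 ≤ c j * n / 2 := by
    have := mul_nonneg hc0 (show (0 : ℝ) ≤ n by linarith)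
    linarith
  linarith

end Pool.Agent.Lib.L8.F7
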