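import Pool.Agent.Lib.L8.F7.ID
import Pool.Agent.Lib.L8.F7.IDS

/-!
# F7 CLD (helper21): the inequality with the best constant, type D: `D = (n - 1) (3 n - 2)`, `n ≥ 4`
-/

namespace Pool.Agent.Lib.L8.F7

open Matrix

/-! ## 1. The nodes of the path -/

/-- The function of the certificate. -/
noncomputable def clD_G (n : ℕ) (D : ℝ) (J x : ℕ) : ℝ := D * ((min x J : ℕ) : ℝ) - (J : ℝ) * (2 * n - 1 - J) * ((x : ℝ) * (2 * n - 1 - x)) / 2

/-- The certificate for type D with a constant `D`, nodes of the path. -/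
theorem clD_gen {n : ℕ} (hn : 3 ≤ n) {D : ℝ} {c : Fin n → ℝ} (hc : ∀ i, pr (CartanMatrix.D n) c i = 2) {e : Fin n → ℝ} (he : Box (CartanMatrix.D n) e) (j : Fin n) (hj : (j : ℕ) + 2 < n) {J : ℕ} (hJ : J = (j : ℕ) + 1)
    (hs : ∑ i : Fin n, max (if (i : ℕ) + 2 < n then clD_G n D J ((i : ℕ) + 1) else clD_G n D J (n - 1) / 2) 0 ≤ (J : ℝ) * (2 * n - 1 - J) * (n / 2)) :
    D * e j ≤ c j * (∑ k, e k + n / 2) := by
  have hJr : (J : ℝ) = j + 1 := by
    rw [hJ]
    push_cast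
    ring
  have hcj : c j = (J : ℝ) * (2 * n - 1 - J) := by
    rw [va_D hn hc j, if_pos hj, hJr]
    ring
  obtain ⟨G, hG⟩ : ∃ G : ℕ → ℝ, ∀ x : ℕ, G x = D * ((min x J : ℕ) : ℝ) - c j * ((x : ℝ) * (2 * n - 1 - x)) / 2 := ⟨_, fun x => rfl⟩
  have hGG : ∀ x, clD_G n D J x = G x := fun x => by
    rw [hG, hcj]
    rfl
  have hG0 : G 0 = 0 := by
    rw [hG]
    simp
  have hn1 : ((n - 1 : ℕ) : ℝ) = n - 1 := by
    rw [Nat.cast_sub (by omega)]
    simp
  have hn2 : ((n - 2 : ℕ) : ℝ) = n - 2 := by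
    rw [Nat.cast_sub (by omega)]
    simp
  have hend : G (n - 1) - G (n - 2) = - c j := by
    rw [hG, hG, min_eq_right (show J ≤ n - 1 by omega), min_eq_right (show J ≤ n - 2 by omega), hn1, hn2]
    ring
  have hstep : ∀ k : ℕ, 2 * G (k + 1) - G k - G (k + 2) = (if k = (j : ℕ) then D else 0) - c j := by
    intro k
    rw [hG, hG, hG]
    have h1 : 2 * ((min (k + 1) J : ℕ) : ℝ) - ((min k J : ℕ) : ℝ) - ((min (k + 2) J : ℕ) : ℝ) = if k = (j : ℕ) then 1 else 0 := by
      rcases lt_trichotomy k (j : ℕ) with h | h | h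
      · rw [if_neg (by omega), min_eq_left (show k + 1 ≤ J by omega), min_eq_left (show k ≤ J by omega), min_eq_left (show k + 2 ≤ J by omega)]
        push_cast
        ring
      · rw [if_pos h, min_eq_left (show k + 1 ≤ J by omega), min_eq_left (show k ≤ J by omega), min_eq_right (show J ≤ k + 2 by omega)]
        have h2 : J = k + 1 := by omega
        rw [h2]
        push_cast
        ring
      · rw [if_neg (by omega), min_eq_right (show J ≤ k + 1 by omega), min_eq_right (show J ≤ k by omega), min_eq_right (show J ≤ k + 2 by omega)]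
        ring
    have h2 : (if k = (j : ℕ) then D else 0) = D * (if k = (j : ℕ) then 1 else 0) := by
      split_ifs <;> ring
    rw [h2, ← h1]
    push_cast
    ring
  have hcert := cert (A := CartanMatrix.D n) he
    (g := fun i : Fin n => if (i : ℕ) + 2 < n then G (i + 1) else if (i : ℕ) + 2 = n then G (n - 1) / 2 else G (n - 1) / 2)
    (D := D) (c := c j) (X := c j * (n / 2)) (j := j) (by
      intro k
      rw [rowD n hn G (G (n - 1) / 2) (G (n - 1) / 2) hG0 (by ring) k]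
      have hkj : (k = j) ↔ ((k : ℕ) = (j : ℕ)) := Fin.ext_iff
      by_cases hk : (k : ℕ) + 2 < n
      · rw [if_pos hk, hstep]
        by_cases h : k = j
        · rw [if_pos h, if_pos (hkj.1 h)]
        · rw [if_neg h, if_neg fun h' => h (hkj.2 h')]
      · rw [if_neg hk]
        have h : k ≠ j := fun h' => hk (by rw [h']; exact hj)
        rw [if_neg h]
        split_ifs
        · linarith
        · linarith) (by
      rw [hcj]
      simp only [hGG] at hs
      simp only [ite_self]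
      exact hs)
  have h9 : c j * (∑ k, e k + n / 2) = c j * ∑ k, e k + c j * (n / 2) := by ring
  rw [h9]
  exact hcert

theorem clD_key {n a b : ℝ} (hn : 6 ≤ n) (ha : 1 ≤ a) (hab : a ≤ b) (hbn : b ≤ n - 1) (hb : b = 2 ∨ b = 3 ∨ b = 4 ∨ 5 ≤ b) :
    2 * ((n - 1) * (3 * n - 2)) * a ≤ a * (2 * n - 1 - a) * (b * (2 * n - 1 - b)) := by
  have hb0 : 0 ≤ b * (2 * n - 1 - b) := mul_nonneg (by linarith) (by linarith)
  have h3 : 2 * ((n - 1) * (3 * n - 2)) ≤ b * (2 * n - 1 - b) * (2 * n - 1 - b) := by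
    rcases hb with hb | hb | hb | hb
    · subst hb
      nlinarith
    · subst hb
      nlinarith
    · subst hb
      nlinarith
    · have h4 : 5 * (2 * n - 6) ≤ b * (2 * n - 1 - b) := by
        nlinarith [mul_nonneg (show (0 : ℝ) ≤ b - 5 by linarith) (show (0 : ℝ) ≤ 2 * n - 6 - b by linarith)]
      have h5 : n ≤ 2 * n - 1 - b := by linarith
      have h6 : 2 * ((n - 1) * (3 * n - 2)) ≤ 5 * (2 * n - 6) * n := by nlinarith
      exact h6.trans (mul_le_mul h4 h5 (by linarith) hb0)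
  have h2 : b * (2 * n - 1 - b) * (2 * n - 1 - b) ≤ b * (2 * n - 1 - b) * (2 * n - 1 - a) :=
    mul_le_mul_of_nonneg_left (by linarith) hb0
  have h7 := mul_le_mul_of_nonneg_left (h3.trans h2) (show (0 : ℝ) ≤ a by linarith)
  calc 2 * ((n - 1) * (3 * n - 2)) * a = a * (2 * ((n - 1) * (3 * n - 2))) := by ring
    _ ≤ a * (b * (2 * n - 1 - b) * (2 * n - 1 - a)) := h7
    _ = a * (2 * n - 1 - a) * (b * (2 * n - 1 - b)) := by ring

theorem clD_nat (x : ℕ) (hx : 2 ≤ x) : (x : ℝ) = 2 ∨ (x : ℝ) = 3 ∨ (x : ℝ) = 4 ∨ 5 ≤ (x : ℝ) := by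
  have h1 : x = 2 ∨ x = 3 ∨ x = 4 ∨ 5 ≤ x := by omega
  rcases h1 with h1 | h1 | h1 | h1
  · left
    exact_mod_cast h1
  · right
    left
    exact_mod_cast h1
  · right
    right
    left
    exact_mod_cast h1
  · right
    right
    right
    exact_mod_cast h1

theorem clD_sign {n x J : ℕ} (hn : 6 ≤ n) (hx : 1 ≤ x) (hx2 : x ≤ n - 1) (hJ : 1 ≤ J) (hJ2 : J ≤ n - 1) (h : 2 ≤ x ∨ 2 ≤ J) : clD_G n ((n - 1) * (3 * n - 2)) J x ≤ 0 := by
  have hnr : (6 : ℝ) ≤ n := by exact_mod_cast hn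
  have hxr : (1 : ℝ) ≤ x := by exact_mod_cast hx
  have hJr : (1 : ℝ) ≤ J := by exact_mod_cast hJ
  have hx2r : (x : ℝ) ≤ n - 1 := by
    have h1 : x + 1 ≤ n := by omega
    have h2 : (x : ℝ) + 1 ≤ n := by exact_mod_cast h1
    linarith
  have hJ2r : (J : ℝ) ≤ n - 1 := by
    have h1 : J + 1 ≤ n := by omega
    have h2 : (J : ℝ) + 1 ≤ n := by exact_mod_cast h1
    linarith
  unfold clD_G
  rcases le_total x J with hxJ | hxJ
  · rw [min_eq_left hxJ]
    have h1 := clD_key hnr hxr (show (x : ℝ) ≤ J by exact_mod_cast hxJ) hJ2r (clD_nat J (by omega))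
    have h2 : (x : ℝ) * (2 * n - 1 - x) * (J * (2 * n - 1 - J)) = (J : ℝ) * (2 * n - 1 - J) * ((x : ℝ) * (2 * n - 1 - x)) := by ring
    linarith
  · rw [min_eq_right hxJ]
    have h1 := clD_key hnr hJr (show (J : ℝ) ≤ x by exact_mod_cast hxJ) hx2r (clD_nat x (by omega))
    linarith

theorem clD_big {n : ℕ} (hn : 6 ≤ n) (J : ℕ) (hJ : 1 ≤ J) (hJn : J + 2 ≤ n) :
    ∑ i : Fin n, max (if (i : ℕ) + 2 < n then clD_G n ((n - 1) * (3 * n - 2)) J ((i : ℕ) + 1) else clD_G n ((n - 1) * (3 * n - 2)) J (n - 1) / 2) 0 ≤ (J : ℝ) * (2 * n - 1 - J) * (n / 2) := by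
  have hnr : (6 : ℝ) ≤ n := by exact_mod_cast hn
  have hJr : (1 : ℝ) ≤ J := by exact_mod_cast hJ
  have hJnr : (J : ℝ) + 2 ≤ n := by exact_mod_cast hJn
  have hlast := fun h : 2 ≤ n - 1 ∨ 2 ≤ J => clD_sign hn (show 1 ≤ n - 1 by omega) le_rfl hJ (by omega) h
  by_cases hJ1 : J = 1
  · have hG1 : clD_G n ((n - 1) * (3 * n - 2)) J 1 = n * (n - 1) := by
      unfold clD_G
      rw [hJ1]
      simp only [min_self, Nat.cast_one]
      ring
    have hb : ∀ i : Fin n, max (if (i : ℕ) + 2 < n then clD_G n ((n - 1) * (3 * n - 2)) J ((i : ℕ) + 1) else clD_G n ((n - 1) * (3 * n - 2)) J (n - 1) / 2) 0 ≤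
        if (i : ℕ) = 0 then ((n : ℝ) * (n - 1)) else 0 := by
      intro i
      by_cases hi : (i : ℕ) + 2 < n
      · rw [if_pos hi]
        by_cases hi0 : (i : ℕ) = 0
        · rw [if_pos hi0, hi0, zero_add, hG1]
          exact max_le le_rfl (mul_nonneg (by linarith) (by linarith))
        · rw [if_neg hi0]
          exact max_le (clD_sign hn (by omega) (by omega) hJ (by omega) (Or.inl (by omega))) le_rfl
      · rw [if_neg hi, if_neg (show ¬ (i : ℕ) = 0 by omega)]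
        have h1 := hlast (Or.inl (by omega))
        exact max_le (by linarith) le_rfl
    refine (Finset.sum_le_sum fun i _ => hb i).trans ?_
    rw [sum_at 0 (fun _ => ((n : ℝ) * (n - 1))), if_pos (by omega), hJ1]
    push_cast
    nlinarith
  · have hb : ∀ i : Fin n, max (if (i : ℕ) + 2 < n then clD_G n ((n - 1) * (3 * n - 2)) J ((i : ℕ) + 1) else clD_G n ((n - 1) * (3 * n - 2)) J (n - 1) / 2) 0 ≤ 0 := by
      intro i
      by_cases hi : (i : ℕ) + 2 < n
      · rw [if_pos hi]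
        exact max_le (clD_sign hn (by omega) (by omega) hJ (by omega) (Or.inr (by omega))) le_rfl
      · rw [if_neg hi]
        have h1 := hlast (Or.inl (by omega))
        exact max_le (by linarith) le_rfl
    refine (Finset.sum_le_sum fun i _ => hb i).trans ?_
    rw [Finset.sum_const_zero]
    exact mul_nonneg (mul_nonneg (by linarith) (by linarith)) (by linarith)

/-- The sum for `n = 4, 5` (four times the value). -/
theorem clD_int (n J : ℕ) (hn : n = 4 ∨ n = 5) (hJ : 1 ≤ J) (hJn : J + 2 ≤ n) :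
    ∑ i : Fin n, max (if (i : ℕ) + 2 < n then 2 * (2 * ((n - 1 : ℤ) * (3 * n - 2)) * ((min ((i : ℕ) + 1) J : ℕ) : ℤ) - (J : ℤ) * (2 * n - 1 - J) * ((((i : ℕ) + 1 : ℕ) : ℤ) * (2 * n - 1 - (((i : ℕ) + 1 : ℕ) : ℤ)))) else
      (2 * ((n - 1 : ℤ) * (3 * n - 2)) * ((min (n - 1) J : ℕ) : ℤ) - (J : ℤ) * (2 * n - 1 - J) * (((n - 1 : ℕ) : ℤ) * (2 * n - 1 - ((n - 1 : ℕ) : ℤ))))) 0 ≤ (J : ℤ) * (2 * n - 1 - J) * (2 * n) := by
  rcases hn with rfl | rfl
  · have h : J = 1 ∨ J = 2 := by omega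
    rcases h with rfl | rfl <;> decide
  · have h : J = 1 ∨ J = 2 ∨ J = 3 := by omega
    rcases h with rfl | rfl | rfl <;> decide

theorem clD_small {n : ℕ} (hn : n = 4 ∨ n = 5) (J : ℕ) (hJ : 1 ≤ J) (hJn : J + 2 ≤ n) :
    ∑ i : Fin n, max (if (i : ℕ) + 2 < n then clD_G n ((n - 1) * (3 * n - 2)) J ((i : ℕ) + 1) else clD_G n ((n - 1) * (3 * n - 2)) J (n - 1) / 2) 0 ≤ (J : ℝ) * (2 * n - 1 - J) * (n / 2) := by
  have h1 := clD_int n J hn hJ hJn
  have h2 := (Int.cast_le (R := ℝ)).2 h1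
  rw [Int.cast_sum] at h2
  have h3 : ∀ i : Fin n, ((max (if (i : ℕ) + 2 < n then 2 * (2 * ((n - 1 : ℤ) * (3 * n - 2)) * ((min ((i : ℕ) + 1) J : ℕ) : ℤ) - (J : ℤ) * (2 * n - 1 - J) * ((((i : ℕ) + 1 : ℕ) : ℤ) * (2 * n - 1 - (((i : ℕ) + 1 : ℕ) : ℤ)))) else
      (2 * ((n - 1 : ℤ) * (3 * n - 2)) * ((min (n - 1) J : ℕ) : ℤ) - (J : ℤ) * (2 * n - 1 - J) * (((n - 1 : ℕ) : ℤ) * (2 * n - 1 - ((n - 1 : ℕ) : ℤ))))) 0 : ℤ) : ℝ) =
      4 * max (if (i : ℕ) + 2 < n then clD_G n ((n - 1) * (3 * n - 2)) J ((i : ℕ) + 1) else clD_G n ((n - 1) * (3 * n - 2)) J (n - 1) / 2) 0 := by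
    intro i
    rw [Int.cast_max, Int.cast_zero, mul_max_of_nonneg _ _ (by norm_num : (0 : ℝ) ≤ 4), mul_zero]
    congr 1
    unfold clD_G
    split_ifs
    · push_cast
      ring
    · push_cast
      ring
  rw [Finset.sum_congr rfl fun i _ => h3 i, ← Finset.mul_sum] at h2
  push_cast at h2
  linarith

/-! ## 2. The spin nodes -/

theorem clD_spin {n : ℕ} (hn : 4 ≤ n) {c : Fin n → ℝ} (hc : ∀ i, pr (CartanMatrix.D n) c i = 2) {e : Fin n → ℝ} (he : Box (CartanMatrix.D n) e) (j : Fin n) (hj : n ≤ (j : ℕ) + 2) :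
    ((n : ℝ) - 1) * (3 * n - 2) * e j ≤ c j * (∑ k, e k + n / 2) := by
  have hnr : (4 : ℝ) ≤ n := by exact_mod_cast hn
  have hjn := j.2
  have hcj : c j = (n : ℝ) * ((n : ℝ) - 1) / 2 := by
    rw [va_D (by omega) hc j, if_neg (by omega)]
  have hc0 : 0 ≤ c j := by
    rw [hcj]
    have h1 : (0 : ℝ) ≤ (n : ℝ) * ((n : ℝ) - 1) := mul_nonneg (by linarith) (by linarith)
    linarith
  obtain ⟨G, hG⟩ : ∃ G : ℕ → ℝ, ∀ x : ℕ, G x = ((n : ℝ) - 1) * (3 * n - 2) * x / 2 - c j * ((x : ℝ) * (2 * n - 1 - x)) / 2 :=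
    ⟨_, fun x => rfl⟩
  have hG0 : G 0 = 0 := by
    rw [hG]
    simp
  have hn1 : ((n - 1 : ℕ) : ℝ) = n - 1 := by
    rw [Nat.cast_sub (by omega)]
    simp
  have hn2 : ((n - 2 : ℕ) : ℝ) = n - 2 := by
    rw [Nat.cast_sub (by omega)]
    simp
  obtain ⟨u, hu⟩ : ∃ u : ℝ, u = (G (n - 2) - c j + (if (j : ℕ) + 2 = n then ((n : ℝ) - 1) * (3 * n - 2) else 0)) / 2 := ⟨_, rfl⟩
  obtain ⟨v, hv⟩ : ∃ v : ℝ, v = (G (n - 2) - c j + (if (j : ℕ) + 2 = n then 0 else ((n : ℝ) - 1) * (3 * n - 2))) / 2 := ⟨_, rfl⟩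
  have huv : u + v = G (n - 1) := by
    have h1 : G (n - 1) = G (n - 2) + ((n : ℝ) - 1) * (3 * n - 2) / 2 - c j := by
      rw [hG, hG, hn1, hn2]
      ring
    rw [h1, hu, hv]
    split_ifs <;> ring
  have hrow := rowD n (by omega) G u v hG0 huv
  have hg : ∀ k, rw' (CartanMatrix.D n) (fun i : Fin n => if (i : ℕ) + 2 < n then G (i + 1) else if (i : ℕ) + 2 = n then u else v) k =
      (if k = j then ((n : ℝ) - 1) * (3 * n - 2) else 0) - c j := by
    intro k
    rw [hrow k]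
    have hk := k.2
    by_cases c1 : (k : ℕ) + 2 < n
    · have c4 : k ≠ j := by
        intro h
        rw [h] at c1
        omega
      rw [if_pos c1, if_neg c4, hG, hG, hG]
      push_cast
      ring
    · rw [if_neg c1]
      by_cases c2 : (k : ℕ) + 2 = n
      · rw [if_pos c2, hu]
        by_cases c3 : (j : ℕ) + 2 = n
        · have c4 : k = j := Fin.ext (by omega)
          rw [if_pos c3, if_pos c4]
          ring
        · have c4 : k ≠ j := by
            intro h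
            rw [h] at c2
            exact c3 c2
          rw [if_neg c3, if_neg c4]
          ring
      · rw [if_neg c2, hv]
        by_cases c3 : (j : ℕ) + 2 = n
        · have c4 : k ≠ j := by
            intro h
            rw [h] at c2
            exact c2 c3
          rw [if_pos c3, if_neg c4]
          ring
        · have c4 : k = j := Fin.ext (by omega)
          rw [if_neg c3, if_pos c4]
          ring
  have hle : ∀ x : ℕ, 1 ≤ x → x ≤ n - 2 → G x ≤ 0 := by
    intro x h1 h2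
    have h1r : (1 : ℝ) ≤ x := by exact_mod_cast h1
    have h2r : (x : ℝ) ≤ n - 2 := by
      have h3 : x + 2 ≤ n := by omega
      have h4 : (x : ℝ) + 2 ≤ n := by exact_mod_cast h3
      linarith
    rw [hG, hcj]
    have h6 : 0 ≤ (n : ℝ) * (2 * n - 1 - x) - 2 * (3 * n - 2) := by nlinarith
    have h7 : 0 ≤ (x : ℝ) * (n - 1) := mul_nonneg (by linarith) (by linarith)
    have h8 := mul_nonneg h7 h6
    have h9 : ((n : ℝ) - 1) * (3 * n - 2) * x / 2 - (n : ℝ) * (n - 1) / 2 * ((x : ℝ) * (2 * n - 1 - x)) / 2 =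
        - ((x : ℝ) * (n - 1) * ((n : ℝ) * (2 * n - 1 - x) - 2 * (3 * n - 2))) / 4 := by ring
    rw [h9]
    linarith
  have hE : G (n - 2) - c j + ((n : ℝ) - 1) * (3 * n - 2) ≤ 2 * (c j * (n / 2)) := by
    rw [hG, hn2, hcj]
    have h9 : ((n : ℝ) - 1) * (3 * n - 2) * (n - 2) / 2 - (n : ℝ) * (n - 1) / 2 * (((n : ℝ) - 2) * (2 * n - 1 - (n - 2))) / 2 -
        (n : ℝ) * (n - 1) / 2 + ((n : ℝ) - 1) * (3 * n - 2) = 2 * ((n : ℝ) * (n - 1) / 2 * (n / 2)) - (n : ℝ) * ((n - 1) * (n - 1)) * (n - 4) / 4 := by ring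
    rw [h9]
    have h10 : 0 ≤ (n : ℝ) * ((n - 1) * (n - 1)) * (n - 4) := mul_nonneg (mul_nonneg (by linarith) (mul_nonneg (by linarith) (by linarith))) (by linarith)
    linarith
  have hE0 : G (n - 2) - c j ≤ 0 := by
    have := hle (n - 2) (by omega) le_rfl
    linarith
  have hX : 0 ≤ c j * (n / 2) := mul_nonneg hc0 (by linarith)
  have hs : ∑ i : Fin n, max ((fun i : Fin n => if (i : ℕ) + 2 < n then G (i + 1) else if (i : ℕ) + 2 = n then u else v) i) 0 ≤ c j * (n / 2) := by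
    have hb : ∀ i : Fin n, max ((fun i : Fin n => if (i : ℕ) + 2 < n then G (i + 1) else if (i : ℕ) + 2 = n then u else v) i) 0 ≤ if i = j then c j * (n / 2) else 0 := by
      intro i
      have hi := i.2
      have hR : 0 ≤ if i = j then c j * (n / 2) else 0 := by
        split_ifs
        · exact hX
        · exact le_rfl
      refine max_le ?_ hR
      show (if (i : ℕ) + 2 < n then G (i + 1) else if (i : ℕ) + 2 = n then u else v) ≤ _
      by_cases c1 : (i : ℕ) + 2 < n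
      · rw [if_pos c1]
        exact (hle _ (by omega) (by omega)).trans hR
      · rw [if_neg c1]
        by_cases c2 : (i : ℕ) + 2 = n
        · rw [if_pos c2, hu]
          by_cases c3 : (j : ℕ) + 2 = n
          · have c4 : i = j := Fin.ext (by omega)
            rw [if_pos c3, if_pos c4]
            linarith
          · rw [if_neg c3]
            exact le_trans (by linarith) hR
        · rw [if_neg c2, hv]
          by_cases c3 : (j : ℕ) + 2 = n
          · rw [if_pos c3]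
            exact le_trans (by linarith) hR
          · have c4 : i = j := Fin.ext (by omega)
            rw [if_neg c3, if_pos c4]
            linarith
    refine (Finset.sum_le_sum fun i _ => hb i).trans ?_
    rw [Finset.sum_ite_eq' Finset.univ j, if_pos (Finset.mem_univ _)]
  have hfin := cert he hg hs
  have h12 : c j * (∑ k, e k + n / 2) = c j * ∑ k, e k + c j * (n / 2) := by ring
  rw [h12]
  exact hfin

/-- **Type D**, `n ≥ 4`, `D = (n - 1) (3 n - 2)`. -/
theorem clD {n : ℕ} (hn : 4 ≤ n) : Sq (CartanMatrix.D n) ((n - 1) * (3 * n - 2)) := by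
  intro c hc e he j
  by_cases hj : (j : ℕ) + 2 < n
  · refine clD_gen (by omega) hc he j hj rfl ?_
    by_cases h6 : 6 ≤ n
    · exact clD_big h6 _ (by omega) (by omega)
    · exact clD_small (by omega) _ (by omega) (by omega)
  · exact clD_spin hn hc he j (not_lt.1 hj)

end Pool.Agent.Lib.L8.F7
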