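import Pool.Agent.Lib.L8.F7.EX3
import Pool.Agent.Lib.L8.FC.D3

/-!
# F7 CM0 (helper21): the inequality of the density theorem with `rank + 1` in the place of the rank
-/

namespace Pool.Agent.Lib.L8.F7

open Matrix Pool.Agent.Lib.L1S Pool.Agent.Lib.L8.FL

noncomputable section

set_option linter.unusedSectionVars false

/-- The inequality for a Cartan matrix, with `(n + 1) / 2`. -/
def Sq1 {n : ℕ} (A : Matrix (Fin n) (Fin n) ℤ) (D : ℝ) : Prop :=
  ∀ c : Fin n → ℝ, (∀ i, pr A c i = 2) → ∀ e, Box A e → ∀ j, D * e j ≤ c j * (∑ k, e k + ((n : ℝ) + 1) / 2)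

variable {ι M N : Type} [Fintype ι] [DecidableEq ι] [AddCommGroup M] [Module ℚ M] [AddCommGroup N] [Module ℚ N]
  {P : RootPairing ι ℚ M N} [P.IsCrystallographic] [P.IsReduced] [P.IsIrreducible] [P.IsRootSystem] {b : P.Base}

/-- The inequality in coordinates, with a constant `D` and `rank + 1`. -/
def CI1 (b : P.Base) (D : ℝ) : Prop :=
  ∀ (σ : Equiv.Perm b.support) (w : Equiv.Perm ι), IsOp b σ w → ∀ E E' : b.support → ℝ, (∀ i, 0 ≤ xe b E i ∧ xe b E i ≤ 1) → (∀ i, 0 ≤ xe b E' i ∧ xe b E' i ≤ 1) → (∀ k, E' (σ k) = E k) →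
    ∀ j, D * (E j + E' j) ≤ ((cI b Finset.univ j : ℤ) : ℝ) * (∑ k, E k + ∑ k, E' k + ((Fintype.card b.support : ℝ) + 1))

theorem core1_sq {n : ℕ} {A : Matrix (Fin n) (Fin n) ℤ} (h : Typ b A) {D : ℝ} (hS : Sq1 A D) {E : b.support → ℝ} (hE : ∀ i, 0 ≤ xe b E i ∧ xe b E i ≤ 1) (j : b.support) :
    D * E j ≤ ((cI b Finset.univ j : ℤ) : ℝ) * (∑ k, E k + ((Fintype.card b.support : ℝ) + 1) / 2) := by
  obtain ⟨e, he⟩ := h
  have h1 := hS _ (pr_cI e he) _ (box_of e he hE) (e j)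
  simp only [Equiv.symm_apply_apply] at h1
  rw [Equiv.sum_comp e.symm E] at h1
  rw [card_of e]
  exact h1

theorem ci1_sq {n : ℕ} {A : Matrix (Fin n) (Fin n) ℤ} (h : Typ b A) {D : ℝ} (hS : Sq1 A D) : CI1 b D := by
  intro σ w _ E E' hE hE' _ j
  have h1 := core1_sq h hS hE j
  have h2 := core1_sq h hS hE' j
  linarith

/-- Type A from the inequality for `e j + e j.rev`. -/
theorem ci1_A {n : ℕ} (hn : 2 ≤ n) (h0 : Typ b (CartanMatrix.A n)) {D : ℝ}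
    (hS : ∀ {c : Fin n → ℝ}, (∀ i, pr (CartanMatrix.A n) c i = 2) → ∀ {e : Fin n → ℝ}, Box (CartanMatrix.A n) e → ∀ j : Fin n, D * (e j + e j.rev) ≤ c j * (2 * ∑ k, e k + ((n : ℝ) + 1))) : CI1 b D := by
  intro σ w h E E' hE hE' hs j
  obtain ⟨e, he⟩ := h0
  have h1 := hS (pr_cI e he) (box_of e he hE) (e j)
  simp only [Equiv.symm_apply_apply] at h1
  rw [Equiv.sum_comp e.symm E] at h1
  have h5 : E (e.symm (e j).rev) = E' j := by
    have h6 : e (σ (e.symm (e j).rev)) = e j := by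
      rw [star_A hn e he h, Equiv.apply_symm_apply, Fin.rev_rev]
    rw [← hs, e.injective h6]
  have h7 : ∑ k, E' k = ∑ k, E k := by
    rw [← Equiv.sum_comp σ E']
    exact Finset.sum_congr rfl fun k _ => hs k
  rw [h5] at h1
  rw [h7, card_of e]
  refine h1.trans (le_of_eq ?_)
  ring

/-- **The inequality of the density theorem**, with a constant `D` and `rank + 1`. -/
theorem c7_gen1 {D : ℝ} (hD : CI1 b D) {J : Finset b.support} {w : Equiv.Perm ι} (hw : IsWJ b J w) {Λ : b.support → ℝ} (hΛ : ∀ i, 0 ≤ al (cA b) i Λ) :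
    D * (∑ j ∈ J, Λ j + ∑ j ∈ Js b w, Λ j) ≤ 2 * (∑ k, Λ k) * (∑ j ∈ J, rr b j + ∑ j ∈ Js b w, rr b j + ((Fintype.card b.support : ℝ) + 1)) := by
  obtain ⟨σ, w₀, h⟩ := exists_op b
  rw [js_eq h hw]
  have h1 : ∀ j, D * (FL.ex b (ind J) j + FL.ex b (ind (J.map σ.toEmbedding)) j) ≤
      ((cI b Finset.univ j : ℤ) : ℝ) * (∑ k, FL.ex b (ind J) k + ∑ k, FL.ex b (ind (J.map σ.toEmbedding)) k + ((Fintype.card b.support : ℝ) + 1)) := fun j =>
    hD σ w₀ h _ _ (ind_box J) (ind_box _) (ex_star h J) j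
  have h2 := Finset.sum_le_sum fun j (_ : j ∈ Finset.univ) => mul_le_mul_of_nonneg_right (h1 j) (hΛ j)
  have h3 : ∑ j, D * (FL.ex b (ind J) j + FL.ex b (ind (J.map σ.toEmbedding)) j) * al (cA b) j Λ = D * (∑ j ∈ J, Λ j + ∑ j ∈ J.map σ.toEmbedding, Λ j) := by
    rw [← ind_sum J Λ, ← ind_sum (J.map σ.toEmbedding) Λ, ← ex_al (ind J) Λ, ← ex_al (ind (J.map σ.toEmbedding)) Λ, ← Finset.sum_add_distrib, Finset.mul_sum]
    exact Finset.sum_congr rfl fun j _ => by ring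
  have h4 : ∑ j, ((cI b Finset.univ j : ℤ) : ℝ) * (∑ k, FL.ex b (ind J) k + ∑ k, FL.ex b (ind (J.map σ.toEmbedding)) k + ((Fintype.card b.support : ℝ) + 1)) * al (cA b) j Λ =
      2 * (∑ k, Λ k) * (∑ j ∈ J, rr b j + ∑ j ∈ J.map σ.toEmbedding, rr b j + ((Fintype.card b.support : ℝ) + 1)) := by
    rw [← cI_al Λ, sum_ex, sum_ex, ind_sum, ind_sum, Finset.sum_mul]
    exact Finset.sum_congr rfl fun j _ => by ring
  rw [h3, h4] at h2
  exact h2

end

end Pool.Agent.Lib.L8.F7
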