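import Pool.Agent.Lib.L8.F7.CM0

/-!
# F7 CMB (helper21): the inequality with `rank + 1`, type B: `D = (2 n - 1) (3 n + 1) / 2`, `n ≥ 3`
-/

namespace Pool.Agent.Lib.L8.F7

open Matrix

/-- The function of the certificate. -/
noncomputable def cmB_G (n : ℕ) (D : ℝ) (J x : ℕ) : ℝ := D * ((min x J : ℕ) : ℝ) - (J : ℝ) * (2 * n - J) * ((x : ℝ) * (2 * n + 1 - x)) / 2

/-- The certificate for type B with a constant `D`. -/
theorem cmB_gen {n : ℕ} {D : ℝ} (hs : ∀ J : ℕ, 1 ≤ J → J ≤ n → ∑ i : Fin n, max (if (i : ℕ) + 1 = n then cmB_G n D J n / 2 else cmB_G n D J ((i : ℕ) + 1)) 0 ≤ (J : ℝ) * (2 * n - J) * ((n + 1) / 2)) :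
    Sq1 (CartanMatrix.B n) D := by
  intro c hc e he j
  obtain ⟨J, hJ⟩ : ∃ J, J = (j : ℕ) + 1 := ⟨_, rfl⟩
  have hjlt := j.2
  have hJr : (J : ℝ) = ((j : ℕ) : ℝ) + 1 := by
    rw [hJ]
    push_cast
    ring
  have hcj : c j = (J : ℝ) * (2 * n - J) := by
    rw [valB hc j, hJr]
    ring
  obtain ⟨G, hG⟩ : ∃ G : ℕ → ℝ, ∀ x : ℕ, G x = D * ((min x J : ℕ) : ℝ) - c j * ((x : ℝ) * (2 * n + 1 - x)) / 2 :=
    ⟨_, fun x => rfl⟩
  have hGG : ∀ x, cmB_G n D J x = G x := fun x => by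
    rw [hG, hcj]
    rfl
  have hG0 : G 0 = 0 := by
    rw [hG]
    simp
  have hn1 : ((n - 1 : ℕ) : ℝ) = n - 1 := by
    rw [Nat.cast_sub (by omega)]
    simp
  have hstep : ∀ k : ℕ, 2 * G (k + 1) - G k - G (k + 2) = (if k = (j : ℕ) then D else 0) - c j := by
    intro k
    rw [hG, hG, hG]
    have h1 : 2 * ((min (k + 1) J : ℕ) : ℝ) - ((min k J : ℕ) : ℝ) - ((min (k + 2) J : ℕ) : ℝ) = if k = (j : ℕ) then 1 else 0 := by
      rcases lt_trichotomy k (j : ℕ) with h | h | h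
      · rw [if_neg (by omega), min_eq_left (show k + 1 ≤ J by omega), min_eq_left (show k ≤ J by omega), min_eq_left (show k + 2 ≤ J by omega)]
        push_cast
        ring
      · rw [if_pos h, min_eq_left (show k + 1 ≤ J by omega), min_eq_left (show k ≤ J by omega), min_eq_right (show J ≤ k + 2 by omega)]
        have h2 : J = k + 1 := by omega
        rw [h2]
        push_cast
        ring
      · rw [if_neg (by omega), min_eq_right (show J ≤ k + 1 by omega), min_eq_right (show J ≤ k by omega), min_eq_right (show J ≤ k + 2 by omega)]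
        ring
    have h2 : (if k = (j : ℕ) then D else 0) = D * (if k = (j : ℕ) then 1 else 0) := by
      split_ifs <;> ring
    rw [h2, ← h1]
    push_cast
    ring
  have hend : G n - G (n - 1) = (if J = n then D else 0) - c j := by
    rw [hG, hG, hn1]
    by_cases h : J = n
    · rw [if_pos h, h, min_self, min_eq_left (show n - 1 ≤ n by omega), hn1]
      ring
    · rw [if_neg h, min_eq_right (show J ≤ n by omega), min_eq_right (show J ≤ n - 1 by omega)]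
      ring
  have hcert := cert (A := CartanMatrix.B n) he
    (g := fun i : Fin n => if (i : ℕ) + 1 = n then G n / 2 else G (i + 1))
    (D := D) (c := c j) (X := c j * ((n + 1) / 2)) (j := j) (by
      intro k
      rw [rowB n G hG0 k]
      have hkj : (k = j) ↔ ((k : ℕ) = (j : ℕ)) := Fin.ext_iff
      have hk2 := k.2
      by_cases hk : (k : ℕ) + 1 < n
      · rw [if_pos hk, hstep]
        by_cases h : k = j
        · rw [if_pos h, if_pos (hkj.1 h)]
        · rw [if_neg h, if_neg fun h' => h (hkj.2 h')]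
      · rw [if_neg hk, hend]
        by_cases h : k = j
        · have h1 := hkj.1 h
          rw [if_pos h, if_pos (by omega)]
        · have h1 : ¬ (k : ℕ) = (j : ℕ) := fun h' => h (hkj.2 h')
          rw [if_neg h, if_neg (by omega)]) (by
      have h1 := hs J (by omega) (by omega)
      rw [hcj]
      simp only [hGG] at h1
      exact h1)
  have h9 : c j * (∑ k, e k + ((n : ℝ) + 1) / 2) = c j * ∑ k, e k + c j * ((n + 1) / 2) := by ring
  rw [h9]
  exact hcert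

theorem cmB_key1 {n x J : ℝ} (hn : 5 ≤ n) (hx : 1 ≤ x) (hxJ : x ≤ J) (hJn : J ≤ n) (hJ : J = 2 ∨ J = 3 ∨ 4 ≤ J) :
    (2 * n - 1) * (3 * n + 1) * x ≤ J * (2 * n - J) * (x * (2 * n + 1 - x)) := by
  have h3 : (2 * n - 1) * (3 * n + 1) ≤ J * (2 * n - J) * (2 * n + 1 - x) := by
    rcases hJ with hJ | hJ | hJ
    · subst hJ
      have h1 : 2 * n - 1 ≤ 2 * n + 1 - x := by linarith
      have h2 : (0 : ℝ) ≤ 2 * (2 * n - 2) := by linarith
      have h3 := mul_le_mul_of_nonneg_left h1 h2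
      nlinarith
    · subst hJ
      have h1 : 2 * n - 2 ≤ 2 * n + 1 - x := by linarith
      have h2 : (0 : ℝ) ≤ 3 * (2 * n - 3) := by linarith
      have h3 := mul_le_mul_of_nonneg_left h1 h2
      nlinarith
    · have h4 : 4 * (2 * n - 4) ≤ J * (2 * n - J) := by
        nlinarith [mul_nonneg (show (0 : ℝ) ≤ J - 4 by linarith) (show (0 : ℝ) ≤ 2 * n - 4 - J by linarith)]
      have h5 : n + 1 ≤ 2 * n + 1 - x := by linarith
      have h6 : (2 * n - 1) * (3 * n + 1) ≤ 4 * (2 * n - 4) * (n + 1) := by nlinarith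
      have h7 : 0 ≤ J * (2 * n - J) := mul_nonneg (by linarith) (by linarith)
      exact h6.trans (mul_le_mul h4 h5 (by linarith) h7)
  have h7 := mul_le_mul_of_nonneg_left h3 (show (0 : ℝ) ≤ x by linarith)
  calc (2 * n - 1) * (3 * n + 1) * x = x * ((2 * n - 1) * (3 * n + 1)) := by ring
    _ ≤ x * (J * (2 * n - J) * (2 * n + 1 - x)) := h7
    _ = J * (2 * n - J) * (x * (2 * n + 1 - x)) := by ring

theorem cmB_key2 {n x J : ℝ} (hn : 5 ≤ n) (hJ : 1 ≤ J) (hJx : J + 1 ≤ x) (hxn : x ≤ n) (hx : x = 2 ∨ x = 3 ∨ 4 ≤ x) :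
    (2 * n - 1) * (3 * n + 1) * J ≤ J * (2 * n - J) * (x * (2 * n + 1 - x)) := by
  have h3 : (2 * n - 1) * (3 * n + 1) ≤ (2 * n - J) * (x * (2 * n + 1 - x)) := by
    rcases hx with hx | hx | hx
    · subst hx
      have h1 : 2 * n - 1 ≤ 2 * n - J := by linarith
      have h2 : (0 : ℝ) ≤ 2 * (2 * n + 1 - 2) := by linarith
      have h3 := mul_le_mul_of_nonneg_right h1 h2
      nlinarith
    · subst hx
      have h1 : 2 * n - 2 ≤ 2 * n - J := by linarith
      have h2 : (0 : ℝ) ≤ 3 * (2 * n + 1 - 3) := by linarith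
      have h3 := mul_le_mul_of_nonneg_right h1 h2
      nlinarith
    · have h4 : 4 * (2 * n - 3) ≤ x * (2 * n + 1 - x) := by
        nlinarith [mul_nonneg (show (0 : ℝ) ≤ x - 4 by linarith) (show (0 : ℝ) ≤ 2 * n - 3 - x by linarith)]
      have h5 : n + 1 ≤ 2 * n - J := by linarith
      have h6 : (2 * n - 1) * (3 * n + 1) ≤ (n + 1) * (4 * (2 * n - 3)) := by nlinarith
      exact h6.trans (mul_le_mul h5 h4 (by linarith) (by linarith))
  have h7 := mul_le_mul_of_nonneg_left h3 (show (0 : ℝ) ≤ J by linarith)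
  calc (2 * n - 1) * (3 * n + 1) * J = J * ((2 * n - 1) * (3 * n + 1)) := by ring
    _ ≤ J * ((2 * n - J) * (x * (2 * n + 1 - x))) := h7
    _ = J * (2 * n - J) * (x * (2 * n + 1 - x)) := by ring

theorem cmB_nat3 (x : ℕ) (hx : 2 ≤ x) : (x : ℝ) = 2 ∨ (x : ℝ) = 3 ∨ 4 ≤ (x : ℝ) := by
  have h1 : x = 2 ∨ x = 3 ∨ 4 ≤ x := by omega
  rcases h1 with h1 | h1 | h1
  · left
    exact_mod_cast h1
  · right
    left
    exact_mod_cast h1
  · right
    right
    exact_mod_cast h1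

theorem cmB_sign {n x J : ℕ} (hn : 5 ≤ n) (hx : 1 ≤ x) (hx2 : x ≤ n) (hJ : 1 ≤ J) (hJ2 : J ≤ n) (h : 2 ≤ x ∨ 2 ≤ J) : cmB_G n ((2 * n - 1) * (3 * n + 1) / 2) J x ≤ 0 := by
  have hnr : (5 : ℝ) ≤ n := by exact_mod_cast hn
  have hxr : (1 : ℝ) ≤ x := by exact_mod_cast hx
  have hJr : (1 : ℝ) ≤ J := by exact_mod_cast hJ
  have hx2r : (x : ℝ) ≤ n := by exact_mod_cast hx2
  have hJ2r : (J : ℝ) ≤ n := by exact_mod_cast hJ2
  unfold cmB_G
  rcases Nat.lt_or_ge J x with hxJ | hxJ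
  · rw [min_eq_right hxJ.le]
    have h1 := cmB_key2 hnr hJr (show (J : ℝ) + 1 ≤ x by exact_mod_cast hxJ) hx2r (cmB_nat3 x (by omega))
    linarith
  · rw [min_eq_left hxJ]
    have h1 := cmB_key1 hnr hxr (show (x : ℝ) ≤ J by exact_mod_cast hxJ) hJ2r (cmB_nat3 J (by omega))
    linarith

theorem cmB_big {n : ℕ} (hn : 5 ≤ n) (J : ℕ) (hJ : 1 ≤ J) (hJn : J ≤ n) :
    ∑ i : Fin n, max (if (i : ℕ) + 1 = n then cmB_G n ((2 * n - 1) * (3 * n + 1) / 2) J n / 2 else cmB_G n ((2 * n - 1) * (3 * n + 1) / 2) J ((i : ℕ) + 1)) 0 ≤ (J : ℝ) * (2 * n - J) * ((n + 1) / 2) := by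
  have hnr : (5 : ℝ) ≤ n := by exact_mod_cast hn
  have hJr : (1 : ℝ) ≤ J := by exact_mod_cast hJ
  have hJnr : (J : ℝ) ≤ n := by exact_mod_cast hJn
  by_cases hJ1 : J = 1
  · have hG1 : cmB_G n ((2 * n - 1) * (3 * n + 1) / 2) J 1 = (2 * n - 1) * ((n + 1) / 2) := by
      unfold cmB_G
      rw [hJ1]
      simp only [min_self, Nat.cast_one]
      ring
    have hb : ∀ i : Fin n, max (if (i : ℕ) + 1 = n then cmB_G n ((2 * n - 1) * (3 * n + 1) / 2) J n / 2 else cmB_G n ((2 * n - 1) * (3 * n + 1) / 2) J ((i : ℕ) + 1)) 0 ≤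
        if (i : ℕ) = 0 then ((2 * n - 1) * ((n + 1) / 2) : ℝ) else 0 := by
      intro i
      have hi2 := i.2
      by_cases hi : (i : ℕ) + 1 = n
      · rw [if_pos hi, if_neg (show ¬ (i : ℕ) = 0 by omega)]
        have h1 := cmB_sign hn (show 1 ≤ n by omega) le_rfl hJ hJn (Or.inl (by omega))
        exact max_le (by linarith) le_rfl
      · rw [if_neg hi]
        by_cases hi0 : (i : ℕ) = 0
        · rw [if_pos hi0, hi0, zero_add, hG1]
          exact max_le le_rfl (mul_nonneg (by linarith) (by linarith))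
        · rw [if_neg hi0]
          exact max_le (cmB_sign hn (by omega) (by omega) hJ hJn (Or.inl (by omega))) le_rfl
    refine (Finset.sum_le_sum fun i _ => hb i).trans ?_
    rw [sum_at 0 (fun _ => ((2 * n - 1) * ((n + 1) / 2) : ℝ)), if_pos (by omega), hJ1]
    push_cast
    linarith
  · have hb : ∀ i : Fin n, max (if (i : ℕ) + 1 = n then cmB_G n ((2 * n - 1) * (3 * n + 1) / 2) J n / 2 else cmB_G n ((2 * n - 1) * (3 * n + 1) / 2) J ((i : ℕ) + 1)) 0 ≤ 0 := by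
      intro i
      have hi2 := i.2
      by_cases hi : (i : ℕ) + 1 = n
      · rw [if_pos hi]
        have h1 := cmB_sign hn (show 1 ≤ n by omega) le_rfl hJ hJn (Or.inl (by omega))
        exact max_le (by linarith) le_rfl
      · rw [if_neg hi]
        exact max_le (cmB_sign hn (by omega) (by omega) hJ hJn (Or.inr (by omega))) le_rfl
    refine (Finset.sum_le_sum fun i _ => hb i).trans ?_
    rw [Finset.sum_const_zero]
    exact mul_nonneg (mul_nonneg (by linarith) (by linarith)) (by linarith)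

/-- The sum for `n = 3, 4` (four times the value). -/
theorem cmB_int (n J : ℕ) (hn : n = 3 ∨ n = 4) (hJ : 1 ≤ J) (hJn : J ≤ n) :
    ∑ i : Fin n, max (if (i : ℕ) + 1 = n then ((2 * n - 1) * (3 * n + 1) * ((min n J : ℕ) : ℤ) - (J : ℤ) * (2 * n - J) * ((n : ℤ) * (2 * n + 1 - n))) else
      2 * ((2 * n - 1) * (3 * n + 1) * ((min ((i : ℕ) + 1) J : ℕ) : ℤ) - (J : ℤ) * (2 * n - J) * ((((i : ℕ) + 1 : ℕ) : ℤ) * (2 * n + 1 - (((i : ℕ) + 1 : ℕ) : ℤ))))) 0 ≤ (J : ℤ) * (2 * n - J) * (2 * (n + 1)) := by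
  rcases hn with rfl | rfl <;> interval_cases J <;> decide

theorem cmB_small {n : ℕ} (hn : n = 3 ∨ n = 4) (J : ℕ) (hJ : 1 ≤ J) (hJn : J ≤ n) :
    ∑ i : Fin n, max (if (i : ℕ) + 1 = n then cmB_G n ((2 * n - 1) * (3 * n + 1) / 2) J n / 2 else cmB_G n ((2 * n - 1) * (3 * n + 1) / 2) J ((i : ℕ) + 1)) 0 ≤ (J : ℝ) * (2 * n - J) * ((n + 1) / 2) := by
  have h1 := cmB_int n J hn hJ hJn
  have h2 := (Int.cast_le (R := ℝ)).2 h1
  rw [Int.cast_sum] at h2
  have h3 : ∀ i : Fin n, ((max (if (i : ℕ) + 1 = n then ((2 * n - 1) * (3 * n + 1) * ((min n J : ℕ) : ℤ) - (J : ℤ) * (2 * n - J) * ((n : ℤ) * (2 * n + 1 - n))) else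
      2 * ((2 * n - 1) * (3 * n + 1) * ((min ((i : ℕ) + 1) J : ℕ) : ℤ) - (J : ℤ) * (2 * n - J) * ((((i : ℕ) + 1 : ℕ) : ℤ) * (2 * n + 1 - (((i : ℕ) + 1 : ℕ) : ℤ))))) 0 : ℤ) : ℝ) =
      4 * max (if (i : ℕ) + 1 = n then cmB_G n ((2 * n - 1) * (3 * n + 1) / 2) J n / 2 else cmB_G n ((2 * n - 1) * (3 * n + 1) / 2) J ((i : ℕ) + 1)) 0 := by
    intro i
    rw [Int.cast_max, Int.cast_zero, mul_max_of_nonneg _ _ (by norm_num : (0 : ℝ) ≤ 4), mul_zero]
    congr 1
    unfold cmB_G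
    split_ifs
    · push_cast
      ring
    · push_cast
      ring
  rw [Finset.sum_congr rfl fun i _ => h3 i, ← Finset.mul_sum] at h2
  push_cast at h2
  linarith

/-- **Type B**, `n ≥ 3`, `D = (2 n - 1) (3 n + 1) / 2`. -/
theorem cmB {n : ℕ} (hn : 3 ≤ n) : Sq1 (CartanMatrix.B n) ((2 * n - 1) * (3 * n + 1) / 2) := by
  refine cmB_gen fun J h1 h2 => ?_
  by_cases h5 : 5 ≤ n
  · exact cmB_big h5 J h1 h2
  · exact cmB_small (by omega) J h1 h2

end Pool.Agent.Lib.L8.F7
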