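import Pool.Agent.Lib.L8.F7.Defs
import Pool.Agent.Lib.L8.F7.V0
import Pool.Agent.Lib.L8.F7.RB
import Pool.Agent.Lib.L8.F7.RC

/-!
# F7 VB (S/M): the sum of the positive roots, types B and C (helper31)
-/

namespace Pool.Agent.Lib.L8.F7

open Matrix

theorem vb_prB {n : ℕ} (c : Fin n → ℝ) (i : Fin n) : pr (CartanMatrix.B n) c i = rw' (CartanMatrix.C n) c i := by
  unfold pr rw'
  refine Finset.sum_congr rfl fun k _ => ?_
  rw [← CartanMatrix.B_transpose, Matrix.transpose_apply, mul_comm]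

theorem vb_prC {n : ℕ} (c : Fin n → ℝ) (i : Fin n) : pr (CartanMatrix.C n) c i = rw' (CartanMatrix.B n) c i := by
  unfold pr rw'
  refine Finset.sum_congr rfl fun k _ => ?_
  rw [← CartanMatrix.C_transpose, Matrix.transpose_apply, mul_comm]

/-- Proof. `uniq` (file V0) with `CartanMatrix.B_off_diag_nonpos` and `c k = (k + 1) (2 n - 1 - k)`; `pr (B n) c i = rw' (C n) c i` (`CartanMatrix.B_transpose`), and `rowC` with `g x = x (2 n - x)`: `2` for `i + 1 < n`, and
`2 g n - 2 g (n - 1) = 2 n ^ 2 - 2 (n - 1) (n + 1) = 2`. -/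
theorem valB {n : ℕ} {c : Fin n → ℝ} (hc : ∀ i, pr (CartanMatrix.B n) c i = 2) (j : Fin n) : c j = (j + 1) * (2 * n - 1 - j) := by
  have hn := j.2
  have hcpos : ∀ k : Fin n, (0 : ℝ) < ((k : ℕ) + 1) * (2 * n - 1 - (k : ℕ)) := by
    intro k
    have hk : ((k : ℕ) : ℝ) + 1 ≤ n := by exact_mod_cast k.2
    have h0 : (0 : ℝ) ≤ ((k : ℕ) : ℝ) := Nat.cast_nonneg _
    exact mul_pos (by linarith) (by linarith)
  have hval : ∀ i : Fin n, pr (CartanMatrix.B n) (fun k : Fin n => ((k : ℕ) + 1 : ℝ) * (2 * n - 1 - (k : ℕ))) i = 2 := by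
    intro i
    rw [vb_prB]
    have h1 := rowC n (fun x : ℕ => (x : ℝ) * (2 * n - x)) (by simp) i
    have h2 : (fun k : Fin n => ((k : ℕ) + 1 : ℝ) * (2 * n - 1 - (k : ℕ))) = fun k : Fin n => (((k : ℕ) + 1 : ℕ) : ℝ) * (2 * n - (((k : ℕ) + 1 : ℕ) : ℝ)) := by
      funext k
      push_cast
      ring
    rw [h2, h1]
    by_cases c : (i : ℕ) + 1 < n
    · rw [if_pos c]
      push_cast
      ring
    · rw [if_neg c, Nat.cast_sub (by omega)]
      push_cast
      ring
  have h := uniq (CartanMatrix.B_off_diag_nonpos n) hcpos hval hc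
  rw [h]

/-- Proof. The same with `pr (C n) c i = rw' (B n) c i` (`CartanMatrix.C_transpose`), `rowB` with `g x = x (2 n + 1 - x)` (`g n / 2 = n (n + 1) / 2`, `g n - g (n - 1) = n (n + 1) - (n - 1) (n + 2) = 2`), `CartanMatrix.C_off_diag_nonpos`. -/
theorem valC {n : ℕ} {c : Fin n → ℝ} (hc : ∀ i, pr (CartanMatrix.C n) c i = 2) (j : Fin n) : c j = if (j : ℕ) + 1 = n then n * (n + 1) / 2 else (j + 1) * (2 * n - j) := by
  have hn := j.2
  have hcpos : ∀ k : Fin n, (0 : ℝ) < if (k : ℕ) + 1 = n then (n : ℝ) * (n + 1) / 2 else ((k : ℕ) + 1) * (2 * n - (k : ℕ)) := by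
    intro k
    have hk : ((k : ℕ) : ℝ) + 1 ≤ n := by exact_mod_cast k.2
    have h0 : (0 : ℝ) ≤ ((k : ℕ) : ℝ) := Nat.cast_nonneg _
    split_ifs
    · exact div_pos (mul_pos (by linarith) (by linarith)) (by norm_num)
    · exact mul_pos (by linarith) (by linarith)
  have hval : ∀ i : Fin n, pr (CartanMatrix.C n) (fun k : Fin n => if (k : ℕ) + 1 = n then (n : ℝ) * (n + 1) / 2 else ((k : ℕ) + 1) * (2 * n - (k : ℕ))) i = 2 := by
    intro i
    rw [vb_prC]
    have h1 := rowB n (fun x : ℕ => (x : ℝ) * (2 * n + 1 - x)) (by simp) i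
    have h2 : (fun k : Fin n => if (k : ℕ) + 1 = n then (n : ℝ) * (n + 1) / 2 else ((k : ℕ) + 1) * (2 * n - (k : ℕ))) = fun k : Fin n => if (k : ℕ) + 1 = n then ((n : ℝ) * (2 * n + 1 - n)) / 2 else (((k : ℕ) + 1 : ℕ) : ℝ) * (2 * n + 1 - (((k : ℕ) + 1 : ℕ) : ℝ)) := by
      funext k
      by_cases c : (k : ℕ) + 1 = n
      · rw [if_pos c, if_pos c]
        ring
      · rw [if_neg c, if_neg c]
        push_cast
        ring
    rw [h2, h1]
    by_cases c : (i : ℕ) + 1 < n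
    · rw [if_pos c]
      push_cast
      ring
    · rw [if_neg c, Nat.cast_sub (by omega)]
      push_cast
      ring
  have h := uniq (CartanMatrix.C_off_diag_nonpos n) hcpos hval hc
  rw [h]
  beta_reduce
  by_cases c : (j : ℕ) + 1 = n
  · rw [if_pos c, if_pos c, Nat.cast_div (Nat.even_mul_succ_self n).two_dvd (by norm_num)]
    push_cast
    ring
  · rw [if_neg c, if_neg c, Nat.cast_mul, Nat.cast_sub (by omega)]
    push_cast
    ring

end Pool.Agent.Lib.L8.F7
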