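import Pool.Agent.Lib.L8.F7.Defs
import Pool.Agent.Lib.L8.F7.VA
import Pool.Agent.Lib.L8.F7.VB

/-!
# F7 IS (S/M): the inequality, types B3, C3, D4, D5 (helper31)
-/

namespace Pool.Agent.Lib.L8.F7

open Matrix

theorem is_B3 : CartanMatrix.B 3 = !![2, -1, 0; -1, 2, -2; 0, -1, 2] := by decide

theorem is_C3 : CartanMatrix.C 3 = !![2, -1, 0; -1, 2, -1; 0, -2, 2] := by decide

theorem is_D4 : CartanMatrix.D 4 = !![2, -1, 0, 0; -1, 2, -1, -1; 0, -1, 2, 0; 0, -1, 0, 2] := by decide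

theorem is_D5 : CartanMatrix.D 5 = !![2, -1, 0, 0, 0; -1, 2, -1, 0, 0; 0, -1, 2, -1, -1; 0, 0, -1, 2, 0; 0, 0, -1, 0, 2] := by decide

/-- Proof. `c = (5, 8, 9)` (`valB`); for each `j` the inequality is linear in `e`, and follows by `linarith` from the inequalities `0 ≤ pr (B 3) e i ≤ 1` (unfold `Box`, `pr`, `Fin.sum_univ_succ`, entries by simp / decide). `fin_cases j`. -/
theorem inB3 : Sq (CartanMatrix.B 3) 21 := by
  intro c hc e he j
  unfold Box at he
  rw [is_B3] at hc he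
  have a0 := hc 0
  have a1 := hc 1
  have a2 := hc 2
  obtain ⟨b0, d0⟩ := he 0
  obtain ⟨b1, d1⟩ := he 1
  obtain ⟨b2, d2⟩ := he 2
  simp [pr, Fin.sum_univ_succ] at a0 b0 d0 a1 b1 d1 a2 b2 d2
  have c0 : c 0 = 5 := by linarith
  have c1 : c 1 = 8 := by linarith
  have c2 : c 2 = 9 := by linarith
  fin_cases j
  · simp [Fin.sum_univ_succ]
    rw [c0]
    linarith
  · simp [Fin.sum_univ_succ]
    rw [c1]
    linarith
  · simp [Fin.sum_univ_succ]
    rw [c2]
    linarith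

/-- Proof. The same with `c = (6, 10, 6)`. -/
theorem inC3 : Sq (CartanMatrix.C 3) 21 := by
  intro c hc e he j
  unfold Box at he
  rw [is_C3] at hc he
  have a0 := hc 0
  have a1 := hc 1
  have a2 := hc 2
  obtain ⟨b0, d0⟩ := he 0
  obtain ⟨b1, d1⟩ := he 1
  obtain ⟨b2, d2⟩ := he 2
  simp [pr, Fin.sum_univ_succ] at a0 b0 d0 a1 b1 d1 a2 b2 d2
  have c0 : c 0 = 6 := by linarith
  have c1 : c 1 = 10 := by linarith
  have c2 : c 2 = 6 := by linarith
  fin_cases j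
  · simp [Fin.sum_univ_succ]
    rw [c0]
    linarith
  · simp [Fin.sum_univ_succ]
    rw [c1]
    linarith
  · simp [Fin.sum_univ_succ]
    rw [c2]
    linarith

/-- Proof. The same with `c = (6, 10, 6, 6)`. -/
theorem inD4 : Sq (CartanMatrix.D 4) 28 := by
  intro c hc e he j
  unfold Box at he
  rw [is_D4] at hc he
  have a0 := hc 0
  have a1 := hc 1
  have a2 := hc 2
  have a3 := hc 3
  obtain ⟨b0, d0⟩ := he 0
  obtain ⟨b1, d1⟩ := he 1
  obtain ⟨b2, d2⟩ := he 2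
  obtain ⟨b3, d3⟩ := he 3
  simp [pr, Fin.sum_univ_succ] at a0 b0 d0 a1 b1 d1 a2 b2 d2 a3 b3 d3
  have c0 : c 0 = 6 := by linarith
  have c1 : c 1 = 10 := by linarith
  have c2 : c 2 = 6 := by linarith
  have c3 : c 3 = 6 := by linarith
  fin_cases j
  · simp [Fin.sum_univ_succ]
    rw [c0]
    linarith
  · simp [Fin.sum_univ_succ]
    rw [c1]
    linarith
  · simp [Fin.sum_univ_succ]
    rw [c2]
    linarith
  · simp [Fin.sum_univ_succ]
    rw [c3]
    linarith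

/-- Proof. The same with `c = (8, 14, 18, 10, 10)`. -/
theorem inD5 : Sq (CartanMatrix.D 5) 45 := by
  intro c hc e he j
  unfold Box at he
  rw [is_D5] at hc he
  have a0 := hc 0
  have a1 := hc 1
  have a2 := hc 2
  have a3 := hc 3
  have a4 := hc 4
  obtain ⟨b0, d0⟩ := he 0
  obtain ⟨b1, d1⟩ := he 1
  obtain ⟨b2, d2⟩ := he 2
  obtain ⟨b3, d3⟩ := he 3
  obtain ⟨b4, d4⟩ := he 4
  simp [pr, Fin.sum_univ_succ] at a0 b0 d0 a1 b1 d1 a2 b2 d2 a3 b3 d3 a4 b4 d4
  have c0 : c 0 = 8 := by linarith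
  have c1 : c 1 = 14 := by linarith
  have c2 : c 2 = 18 := by linarith
  have c3 : c 3 = 10 := by linarith
  have c4 : c 4 = 10 := by linarith
  fin_cases j
  · simp [Fin.sum_univ_succ]
    rw [c0]
    linarith
  · simp [Fin.sum_univ_succ]
    rw [c1]
    linarith
  · simp [Fin.sum_univ_succ]
    rw [c2]
    linarith
  · simp [Fin.sum_univ_succ]
    rw [c3]
    linarith
  · simp [Fin.sum_univ_succ]
    rw [c4]
    linarith

end Pool.Agent.Lib.L8.F7
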