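import Pool.Agent.Lib.L8.F7.CM0
import Pool.Agent.Lib.L8.F7.IS

/-!
# F7 CMD: the inequality with `rank + 1`, type D (helper66)
-/

namespace Pool.Agent.Lib.L8.F7

open Matrix

/-- The key inequality off the diagonal: `a = min`, `b = max`. -/
theorem cmd_key {n a b : ℝ} (hn : 5 ≤ n) (ha : 1 ≤ a) (hbn : b ≤ n - 2) (h : (b = 2 ∧ a = 1) ∨ (3 ≤ b ∧ a ≤ b - 1)) :
    2 * ((n - 1) * (3 * n - 1)) * a ≤ a * (2 * n - 1 - a) * (b * (2 * n - 1 - b)) := by
  have h3 : 2 * ((n - 1) * (3 * n - 1)) ≤ (2 * n - 1 - a) * (b * (2 * n - 1 - b)) := by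
    rcases h with ⟨hb, ha1⟩ | ⟨hb, hab⟩
    · rw [hb, ha1]
      nlinarith [mul_nonneg (show (0 : ℝ) ≤ n - 1 by linarith) (show (0 : ℝ) ≤ n - 5 by linarith)]
    · have h4 : 3 * (2 * n - 4) ≤ b * (2 * n - 1 - b) := by
        nlinarith [mul_nonneg (show (0 : ℝ) ≤ b - 3 by linarith) (show (0 : ℝ) ≤ 2 * n - 4 - b by linarith)]
      have h5 : n + 2 ≤ 2 * n - 1 - a := by linarith
      have h6 : 2 * ((n - 1) * (3 * n - 1)) ≤ (n + 2) * (3 * (2 * n - 4)) := by nlinarith
      exact h6.trans (mul_le_mul h5 h4 (by linarith) (by linarith))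
  have h7 := mul_le_mul_of_nonneg_left h3 (show (0 : ℝ) ≤ a by linarith)
  calc 2 * ((n - 1) * (3 * n - 1)) * a = a * (2 * ((n - 1) * (3 * n - 1))) := by ring
    _ ≤ a * ((2 * n - 1 - a) * (b * (2 * n - 1 - b))) := h7
    _ = a * (2 * n - 1 - a) * (b * (2 * n - 1 - b)) := by ring

theorem cmd_sign {n x J : ℕ} (hn : 5 ≤ n) (hx : 1 ≤ x) (hx2 : x ≤ n - 1) (hJ : 1 ≤ J) (hJ2 : J ≤ n - 2) (h : x ≠ J) :
    ((n : ℝ) - 1) * (3 * n - 1) * ((min x J : ℕ) : ℝ) - (J : ℝ) * (2 * n - 1 - J) * ((x : ℝ) * (2 * n - 1 - x)) / 2 ≤ 0 := by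
  have hnr : (5 : ℝ) ≤ n := by exact_mod_cast hn
  have hxr : (1 : ℝ) ≤ x := by exact_mod_cast hx
  have hJr : (1 : ℝ) ≤ J := by exact_mod_cast hJ
  have hJ2r : (J : ℝ) ≤ n - 2 := by
    have h1 : J + 2 ≤ n := by omega
    have h2 : (J : ℝ) + 2 ≤ n := by exact_mod_cast h1
    linarith
  by_cases hxn : x + 1 = n
  · have hxr2 : (x : ℝ) = n - 1 := by
      have h2 : (x : ℝ) + 1 = n := by exact_mod_cast hxn
      linarith
    rw [min_eq_right (show J ≤ x by omega), hxr2]
    have h5 : 0 ≤ (n : ℝ) * (2 * n - 1 - J) - 2 * (3 * n - 1) := by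
      have h6 : (n : ℝ) * (n + 1) ≤ (n : ℝ) * (2 * n - 1 - J) := mul_le_mul_of_nonneg_left (by linarith) (by linarith)
      nlinarith
    have h7 : 0 ≤ (J : ℝ) * (n - 1) := mul_nonneg (by linarith) (by linarith)
    have h8 := mul_nonneg h7 h5
    have h9 : ((n : ℝ) - 1) * (3 * n - 1) * (J : ℝ) - (J : ℝ) * (2 * n - 1 - J) * (((n : ℝ) - 1) * (2 * n - 1 - (n - 1))) / 2 =
        - ((J : ℝ) * (n - 1) * ((n : ℝ) * (2 * n - 1 - J) - 2 * (3 * n - 1))) / 2 := by ring
    rw [h9]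
    linarith
  · have hx2r : (x : ℝ) ≤ n - 2 := by
      have h1 : x + 2 ≤ n := by omega
      have h2 : (x : ℝ) + 2 ≤ n := by exact_mod_cast h1
      linarith
    rcases lt_or_gt_of_ne h with hxJ | hxJ
    · rw [min_eq_left hxJ.le]
      have hb : ((J : ℝ) = 2 ∧ (x : ℝ) = 1) ∨ ((3 : ℝ) ≤ J ∧ (x : ℝ) ≤ J - 1) := by
        have h1 : (J = 2 ∧ x = 1) ∨ (3 ≤ J ∧ x + 1 ≤ J) := by omega
        rcases h1 with ⟨h1, h2⟩ | ⟨h1, h2⟩
        · left
          exact ⟨by exact_mod_cast h1, by exact_mod_cast h2⟩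
        · right
          have h3 : (x : ℝ) + 1 ≤ J := by exact_mod_cast h2
          exact ⟨by exact_mod_cast h1, by linarith⟩
      have h1 := cmd_key hnr hxr hJ2r hb
      have h2 : (x : ℝ) * (2 * n - 1 - x) * (J * (2 * n - 1 - J)) = (J : ℝ) * (2 * n - 1 - J) * ((x : ℝ) * (2 * n - 1 - x)) := by ring
      linarith
    · rw [min_eq_right hxJ.le]
      have hb : ((x : ℝ) = 2 ∧ (J : ℝ) = 1) ∨ ((3 : ℝ) ≤ x ∧ (J : ℝ) ≤ x - 1) := by
        have h1 : (x = 2 ∧ J = 1) ∨ (3 ≤ x ∧ J + 1 ≤ x) := by omega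
        rcases h1 with ⟨h1, h2⟩ | ⟨h1, h2⟩
        · left
          exact ⟨by exact_mod_cast h1, by exact_mod_cast h2⟩
        · right
          have h3 : (J : ℝ) + 1 ≤ x := by exact_mod_cast h2
          exact ⟨by exact_mod_cast h1, by linarith⟩
      have h1 := cmd_key hnr hJr hx2r hb
      linarith

/-- The value at the node itself. -/
theorem cmd_peak {n J : ℝ} (hJ : 1 ≤ J) (hJ2 : J ≤ n - 2) :
    (n - 1) * (3 * n - 1) * J - J * (2 * n - 1 - J) * (J * (2 * n - 1 - J)) / 2 ≤ J * (2 * n - 1 - J) * ((n + 1) / 2) := by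
  have h1 : 0 ≤ (2 * n - 1 - J) ^ 2 - 2 * (2 * n - 2) + (J - 1) - (n + 1) := by
    nlinarith [mul_nonneg (show (0 : ℝ) ≤ n - 2 - J by linarith) (show (0 : ℝ) ≤ n - 2 - J by linarith), mul_nonneg (show (0 : ℝ) ≤ n - 2 - J by linarith) (show (0 : ℝ) ≤ n - 3 by linarith),
      mul_nonneg (show (0 : ℝ) ≤ n - 3 by linarith) (show (0 : ℝ) ≤ n - 3 by linarith)]
  have h2 := mul_nonneg (mul_nonneg (show (0 : ℝ) ≤ J by linarith) (show (0 : ℝ) ≤ J - 1 by linarith)) h1
  have h3 : J * (2 * n - 1 - J) * ((n + 1) / 2) - ((n - 1) * (3 * n - 1) * J - J * (2 * n - 1 - J) * (J * (2 * n - 1 - J)) / 2) =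
      J * (J - 1) * ((2 * n - 1 - J) ^ 2 - 2 * (2 * n - 2) + (J - 1) - (n + 1)) / 2 := by ring
  linarith

/-- The nodes of the path. -/
theorem cmd_path {n : ℕ} (hn : 5 ≤ n) {c : Fin n → ℝ} (hc : ∀ i, pr (CartanMatrix.D n) c i = 2) {e : Fin n → ℝ} (he : Box (CartanMatrix.D n) e) (j : Fin n) (hj : (j : ℕ) + 2 < n) :
    ((n : ℝ) - 1) * (3 * n - 1) * e j ≤ c j * (∑ k, e k + ((n : ℝ) + 1) / 2) := by
  obtain ⟨J, hJ⟩ : ∃ J, J = (j : ℕ) + 1 := ⟨_, rfl⟩
  have hnr : (5 : ℝ) ≤ n := by exact_mod_cast hn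
  have hjn : (j : ℝ) + 3 ≤ n := by
    have h1 : (j : ℕ) + 3 ≤ n := by omega
    exact_mod_cast h1
  have hj0 : (0 : ℝ) ≤ j := Nat.cast_nonneg _
  have hJr : (J : ℝ) = j + 1 := by
    rw [hJ]
    push_cast
    ring
  have hcj : c j = (J : ℝ) * (2 * n - 1 - J) := by
    rw [valD (by omega) hc j, if_pos hj, hJr]
    have h1 : ((2 * n - 2 - (j : ℕ) : ℕ) : ℝ) = 2 * n - 2 - j := by
      rw [Nat.cast_sub (by omega), Nat.cast_sub (by omega)]
      push_cast
      ring
    first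
      | (rw [Nat.cast_mul, h1]; push_cast; ring)
      | ring
  have hc0 : 0 ≤ c j := by
    rw [hcj]
    exact mul_nonneg (by linarith) (by linarith)
  obtain ⟨G, hG⟩ : ∃ G : ℕ → ℝ, ∀ x : ℕ, G x = ((n : ℝ) - 1) * (3 * n - 1) * ((min x J : ℕ) : ℝ) - c j * ((x : ℝ) * (2 * n - 1 - x)) / 2 :=
    ⟨_, fun x => rfl⟩
  have hG0 : G 0 = 0 := by
    rw [hG]
    simp
  have hle : ∀ x : ℕ, 1 ≤ x → x ≤ n - 1 → x ≠ J → G x ≤ 0 := by
    intro x h1 h2 h3
    rw [hG, hcj]
    exact cmd_sign hn h1 h2 (by omega) (by omega) h3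
  have hpk : G J ≤ c j * (((n : ℝ) + 1) / 2) := by
    rw [hG, hcj, min_self]
    exact cmd_peak (by linarith) (by linarith)
  have hn1 : ((n - 1 : ℕ) : ℝ) = n - 1 := by
    rw [Nat.cast_sub (by omega)]
    simp
  have hn2 : ((n - 2 : ℕ) : ℝ) = n - 2 := by
    rw [Nat.cast_sub (by omega)]
    simp
  have hend : G (n - 1) - G (n - 2) = - c j := by
    rw [hG, hG, min_eq_right (show J ≤ n - 1 by omega), min_eq_right (show J ≤ n - 2 by omega), hn1, hn2]
    ring
  have hstep : ∀ k : ℕ, 2 * G (k + 1) - G k - G (k + 2) = (if k = (j : ℕ) then ((n : ℝ) - 1) * (3 * n - 1) else 0) - c j := by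
    intro k
    rw [hG, hG, hG]
    have h1 : 2 * ((min (k + 1) J : ℕ) : ℝ) - ((min k J : ℕ) : ℝ) - ((min (k + 2) J : ℕ) : ℝ) = if k = (j : ℕ) then 1 else 0 := by
      rcases lt_trichotomy k (j : ℕ) with h | h | h
      · rw [if_neg (by omega), min_eq_left (show k + 1 ≤ J by omega), min_eq_left (show k ≤ J by omega), min_eq_left (show k + 2 ≤ J by omega)]
        push_cast
        ring
      · rw [if_pos h, min_eq_left (show k + 1 ≤ J by omega), min_eq_left (show k ≤ J by omega), min_eq_right (show J ≤ k + 2 by omega)]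
        have h2 : J = k + 1 := by omega
        rw [h2]
        push_cast
        ring
      · rw [if_neg (by omega), min_eq_right (show J ≤ k + 1 by omega), min_eq_right (show J ≤ k by omega), min_eq_right (show J ≤ k + 2 by omega)]
        ring
    have h2 : (if k = (j : ℕ) then ((n : ℝ) - 1) * (3 * n - 1) else 0) = ((n : ℝ) - 1) * (3 * n - 1) * (if k = (j : ℕ) then 1 else 0) := by
      split_ifs <;> ring
    rw [h2, ← h1]
    push_cast
    ring
  have hcert := cert (A := CartanMatrix.D n) he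
    (g := fun i : Fin n => if (i : ℕ) + 2 < n then G (i + 1) else if (i : ℕ) + 2 = n then G (n - 1) / 2 else G (n - 1) / 2)
    (D := ((n : ℝ) - 1) * (3 * n - 1)) (c := c j) (X := c j * (((n : ℝ) + 1) / 2)) (j := j) (by
      intro k
      rw [rowD n (by omega) G (G (n - 1) / 2) (G (n - 1) / 2) hG0 (by ring) k]
      have hkj : (k = j) ↔ ((k : ℕ) = (j : ℕ)) := Fin.ext_iff
      by_cases hk : (k : ℕ) + 2 < n
      · rw [if_pos hk, hstep]
        by_cases h : k = j
        · rw [if_pos h, if_pos (hkj.1 h)]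
        · rw [if_neg h, if_neg fun h' => h (hkj.2 h')]
      · rw [if_neg hk]
        have h : k ≠ j := fun h' => hk (by rw [h']; exact hj)
        rw [if_neg h]
        split_ifs
        · linarith
        · linarith) (by
      have hb : ∀ i : Fin n, max (if (i : ℕ) + 2 < n then G (i + 1) else if (i : ℕ) + 2 = n then G (n - 1) / 2 else G (n - 1) / 2) 0 ≤
          if i = j then c j * (((n : ℝ) + 1) / 2) else 0 := by
        intro i
        by_cases hi : (i : ℕ) + 2 < n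
        · rw [if_pos hi]
          by_cases hij : i = j
          · rw [if_pos hij, hij, ← hJ]
            exact max_le hpk (mul_nonneg hc0 (by linarith))
          · rw [if_neg hij]
            have hij2 : (i : ℕ) ≠ (j : ℕ) := fun h => hij (Fin.ext h)
            exact max_le (hle _ (by omega) (by omega) (by omega)) le_rfl
        · have hij : ¬ i = j := by
            intro h
            rw [h] at hi
            exact hi hj
          rw [if_neg hi, if_neg hij]
          have h1 := hle (n - 1) (by omega) le_rfl (by omega)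
          split_ifs
          · exact max_le (by linarith) le_rfl
          · exact max_le (by linarith) le_rfl
      refine (Finset.sum_le_sum fun i _ => hb i).trans (le_of_eq ?_)
      rw [Finset.sum_ite_eq' Finset.univ j (fun _ => c j * (((n : ℝ) + 1) / 2)), if_pos (Finset.mem_univ j)])
  have h9 : c j * (∑ k, e k + ((n : ℝ) + 1) / 2) = c j * ∑ k, e k + c j * (((n : ℝ) + 1) / 2) := by ring
  rw [h9]
  exact hcert

/-- The spin nodes. -/
theorem cmd_spin {n : ℕ} (hn : 5 ≤ n) {c : Fin n → ℝ} (hc : ∀ i, pr (CartanMatrix.D n) c i = 2) {e : Fin n → ℝ} (he : Box (CartanMatrix.D n) e) (j : Fin n) (hj : n ≤ (j : ℕ) + 2) :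
    ((n : ℝ) - 1) * (3 * n - 1) * e j ≤ c j * (∑ k, e k + ((n : ℝ) + 1) / 2) := by
  have hnr : (5 : ℝ) ≤ n := by exact_mod_cast hn
  have hjn := j.2
  have hcj : c j = (n : ℝ) * ((n : ℝ) - 1) / 2 := by
    rw [va_D (by omega) hc j, if_neg (by omega)]
  have hc0 : 0 ≤ c j := by
    rw [hcj]
    have h1 : (0 : ℝ) ≤ (n : ℝ) * ((n : ℝ) - 1) := mul_nonneg (by linarith) (by linarith)
    linarith
  obtain ⟨G, hG⟩ : ∃ G : ℕ → ℝ, ∀ x : ℕ, G x = ((n : ℝ) - 1) * (3 * n - 1) * x / 2 - c j * ((x : ℝ) * (2 * n - 1 - x)) / 2 :=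
    ⟨_, fun x => rfl⟩
  have hG0 : G 0 = 0 := by
    rw [hG]
    simp
  have hn1 : ((n - 1 : ℕ) : ℝ) = n - 1 := by
    rw [Nat.cast_sub (by omega)]
    simp
  have hn2 : ((n - 2 : ℕ) : ℝ) = n - 2 := by
    rw [Nat.cast_sub (by omega)]
    simp
  obtain ⟨u, hu⟩ : ∃ u : ℝ, u = (G (n - 2) - c j + (if (j : ℕ) + 2 = n then ((n : ℝ) - 1) * (3 * n - 1) else 0)) / 2 := ⟨_, rfl⟩
  obtain ⟨v, hv⟩ : ∃ v : ℝ, v = (G (n - 2) - c j + (if (j : ℕ) + 2 = n then 0 else ((n : ℝ) - 1) * (3 * n - 1))) / 2 := ⟨_, rfl⟩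
  have huv : u + v = G (n - 1) := by
    have h1 : G (n - 1) = G (n - 2) + ((n : ℝ) - 1) * (3 * n - 1) / 2 - c j := by
      rw [hG, hG, hn1, hn2]
      ring
    rw [h1, hu, hv]
    split_ifs <;> ring
  have hrow := rowD n (by omega) G u v hG0 huv
  have hg : ∀ k, rw' (CartanMatrix.D n) (fun i : Fin n => if (i : ℕ) + 2 < n then G (i + 1) else if (i : ℕ) + 2 = n then u else v) k =
      (if k = j then ((n : ℝ) - 1) * (3 * n - 1) else 0) - c j := by
    intro k
    rw [hrow k]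
    have hk := k.2
    by_cases c1 : (k : ℕ) + 2 < n
    · have c4 : k ≠ j := by
        intro h
        rw [h] at c1
        omega
      rw [if_pos c1, if_neg c4, hG, hG, hG]
      push_cast
      ring
    · rw [if_neg c1]
      by_cases c2 : (k : ℕ) + 2 = n
      · rw [if_pos c2, hu]
        by_cases c3 : (j : ℕ) + 2 = n
        · have c4 : k = j := Fin.ext (by omega)
          rw [if_pos c3, if_pos c4]
          ring
        · have c4 : k ≠ j := by
            intro h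
            rw [h] at c2
            exact c3 c2
          rw [if_neg c3, if_neg c4]
          ring
      · rw [if_neg c2, hv]
        by_cases c3 : (j : ℕ) + 2 = n
        · have c4 : k ≠ j := by
            intro h
            rw [h] at c2
            exact c2 c3
          rw [if_pos c3, if_neg c4]
          ring
        · have c4 : k = j := Fin.ext (by omega)
          rw [if_neg c3, if_pos c4]
          ring
  have hle : ∀ x : ℕ, 1 ≤ x → x ≤ n - 2 → G x ≤ 0 := by
    intro x h1 h2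
    have h1r : (1 : ℝ) ≤ x := by exact_mod_cast h1
    have h2r : (x : ℝ) ≤ n - 2 := by
      have h3 : x + 2 ≤ n := by omega
      have h4 : (x : ℝ) + 2 ≤ n := by exact_mod_cast h3
      linarith
    rw [hG, hcj]
    have h5 : 0 ≤ (n : ℝ) * (2 * n - 1 - x) - 2 * (3 * n - 1) := by
      have h6 : (n : ℝ) * (n + 1) ≤ (n : ℝ) * (2 * n - 1 - x) := mul_le_mul_of_nonneg_left (by linarith) (by linarith)
      nlinarith
    have h7 : 0 ≤ (x : ℝ) * (n - 1) := mul_nonneg (by linarith) (by linarith)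
    have h8 := mul_nonneg h7 h5
    have h9 : ((n : ℝ) - 1) * (3 * n - 1) * x / 2 - (n : ℝ) * (n - 1) / 2 * ((x : ℝ) * (2 * n - 1 - x)) / 2 =
        - ((x : ℝ) * (n - 1) * ((n : ℝ) * (2 * n - 1 - x) - 2 * (3 * n - 1))) / 4 := by ring
    rw [h9]
    linarith
  have hE : (G (n - 2) - c j + ((n : ℝ) - 1) * (3 * n - 1)) / 2 ≤ (n : ℝ) * (n - 1) * (n + 1) / 4 := by
    rw [hG, hn2, hcj]
    have h9 : (n : ℝ) * (n - 1) * (n + 1) / 4 - (((n : ℝ) - 1) * (3 * n - 1) * (n - 2) / 2 -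
        (n : ℝ) * (n - 1) / 2 * (((n : ℝ) - 2) * (2 * n - 1 - (n - 2))) / 2 -
        (n : ℝ) * (n - 1) / 2 + ((n : ℝ) - 1) * (3 * n - 1)) / 2 = (n : ℝ) * (n - 1) * ((n - 1) * (n - 4)) / 8 := by ring
    have h10 : 0 ≤ (n : ℝ) * (n - 1) * ((n - 1) * (n - 4)) :=
      mul_nonneg (mul_nonneg (by linarith) (by linarith)) (mul_nonneg (by linarith) (by linarith))
    linarith
  have hE2 : (G (n - 2) - c j) / 2 ≤ 0 := by
    have h1 := hle (n - 2) (by omega) le_rfl
    linarith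
  have hK : (0 : ℝ) ≤ (n : ℝ) * (n - 1) * (n + 1) / 4 := by
    have := mul_nonneg (mul_nonneg (show (0 : ℝ) ≤ n by linarith) (show (0 : ℝ) ≤ (n : ℝ) - 1 by linarith)) (show (0 : ℝ) ≤ (n : ℝ) + 1 by linarith)
    linarith
  have hs : ∑ i : Fin n, max ((fun i : Fin n => if (i : ℕ) + 2 < n then G (i + 1) else if (i : ℕ) + 2 = n then u else v) i) 0 ≤ (n : ℝ) * (n - 1) * (n + 1) / 4 := by
    have hb : ∀ i : Fin n, max ((fun i : Fin n => if (i : ℕ) + 2 < n then G (i + 1) else if (i : ℕ) + 2 = n then u else v) i) 0 ≤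
        if i = j then (n : ℝ) * (n - 1) * (n + 1) / 4 else 0 := by
      intro i
      have hi := i.2
      show max (if (i : ℕ) + 2 < n then G (i + 1) else if (i : ℕ) + 2 = n then u else v) 0 ≤ _
      by_cases c1 : (i : ℕ) + 2 < n
      · have c4 : i ≠ j := by
          intro h
          rw [h] at c1
          omega
        rw [if_pos c1, if_neg c4]
        exact max_le (hle _ (by omega) (by omega)) le_rfl
      · rw [if_neg c1]
        by_cases c2 : (i : ℕ) + 2 = n
        · rw [if_pos c2, hu]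
          by_cases c3 : (j : ℕ) + 2 = n
          · rw [if_pos c3, if_pos (Fin.ext (by omega) : i = j)]
            exact max_le hE hK
          · rw [if_neg c3, if_neg (by
              intro h
              rw [h] at c2
              exact c3 c2)]
            exact max_le (by rw [add_zero]; exact hE2) le_rfl
        · rw [if_neg c2, hv]
          by_cases c3 : (j : ℕ) + 2 = n
          · rw [if_pos c3, if_neg (by
              intro h
              rw [h] at c2
              exact c2 c3)]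
            exact max_le (by rw [add_zero]; exact hE2) le_rfl
          · rw [if_neg c3, if_pos (Fin.ext (by omega) : i = j)]
            exact max_le hE hK
    refine (Finset.sum_le_sum fun i _ => hb i).trans (le_of_eq ?_)
    rw [Finset.sum_ite_eq' Finset.univ j (fun _ => (n : ℝ) * (n - 1) * (n + 1) / 4), if_pos (Finset.mem_univ j)]
  have hfin := cert he hg hs
  have h12 : c j * (∑ k, e k + ((n : ℝ) + 1) / 2) = c j * ∑ k, e k + c j * (n + 1) / 2 := by ring
  rw [h12]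
  have h13 : c j * (n + 1) / 2 = (n : ℝ) * (n - 1) * (n + 1) / 4 := by
    rw [hcj]
    ring
  linarith

/-- Type `D_n`, `n ≥ 5`. -/
theorem cmD {n : ℕ} (hn : 5 ≤ n) : Sq1 (CartanMatrix.D n) (((n : ℝ) - 1) * (3 * n - 1)) := by
  intro c hc e he j
  by_cases hj : (j : ℕ) + 2 < n
  · exact cmd_path hn hc he j hj
  · exact cmd_spin hn hc he j (by omega)

/-- Type `D₄`. -/
theorem cmD4 : Sq1 (CartanMatrix.D 4) (63 / 2) := by
  intro c hc e he j
  unfold Box at he
  rw [is_D4] at hc he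
  have a0 := hc 0
  have a1 := hc 1
  have a2 := hc 2
  have a3 := hc 3
  obtain ⟨b0, d0⟩ := he 0
  obtain ⟨b1, d1⟩ := he 1
  obtain ⟨b2, d2⟩ := he 2
  obtain ⟨b3, d3⟩ := he 3
  simp [pr, Fin.sum_univ_succ] at a0 b0 d0 a1 b1 d1 a2 b2 d2 a3 b3 d3
  have c0 : c 0 = 6 := by linarith
  have c1 : c 1 = 10 := by linarith
  have c2 : c 2 = 6 := by linarith
  have c3 : c 3 = 6 := by linarith
  fin_cases j
  · simp [Fin.sum_univ_succ]
    rw [c0]
    linarith
  · simp [Fin.sum_univ_succ]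
    rw [c1]
    linarith
  · simp [Fin.sum_univ_succ]
    rw [c2]
    linarith
  · simp [Fin.sum_univ_succ]
    rw [c3]
    linarith

end Pool.Agent.Lib.L8.F7
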