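import Mathlib

/-!
# F7: the inequality behind the density theorem for all types (helper31): matrix part, definitions

`A` is a Cartan matrix, `A k i = ⟨α_k, α_i^∨⟩`. Weights are given by their coordinates `e` in the simple roots.
-/

namespace Pool.Agent.Lib.L8.F7

open Matrix

variable {n : ℕ}

/-- The value `⟨∑ e_k α_k, α_i^∨⟩`. -/
def pr (A : Matrix (Fin n) (Fin n) ℤ) (e : Fin n → ℝ) (i : Fin n) : ℝ := ∑ k, e k * ((A k i : ℤ) : ℝ)

/-- The value `⟨α_k, ∑ y_i α_i^∨⟩`. -/
def rw' (A : Matrix (Fin n) (Fin n) ℤ) (y : Fin n → ℝ) (k : Fin n) : ℝ := ∑ i, ((A k i : ℤ) : ℝ) * y i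

/-- All values of the weight on the simple coroots are in `[0, 1]`. -/
def Box (A : Matrix (Fin n) (Fin n) ℤ) (e : Fin n → ℝ) : Prop := ∀ i, 0 ≤ pr A e i ∧ pr A e i ≤ 1

/-- The chain of parabolic subsystems: `p S` is the number of the positive roots with support in `S`, `c S` the sum of these roots. -/
structure Chn (A : Matrix (Fin n) (Fin n) ℤ) (p : Finset (Fin n) → ℝ) (c : Finset (Fin n) → Fin n → ℝ) : Prop where
  empty : p ∅ = 0
  step : ∀ S j, j ∈ S → p S ≤ p (S.erase j) + c S j
  zero : ∀ S k, k ∉ S → c S k = 0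
  pair : ∀ S i, i ∈ S → pr A (c S) i = 2

/-- **Duality.** -/
theorem dual (A : Matrix (Fin n) (Fin n) ℤ) (e y : Fin n → ℝ) : ∑ i, pr A e i * y i = ∑ k, e k * rw' A y k := by
  unfold pr rw'
  simp only [Finset.sum_mul, Finset.mul_sum]
  rw [Finset.sum_comm]
  exact Finset.sum_congr rfl fun k _ => Finset.sum_congr rfl fun i _ => by ring

/-- **The certificate for an inequality**, general form. -/
theorem cert0 {A : Matrix (Fin n) (Fin n) ℤ} {e : Fin n → ℝ} (he : Box A e) (g : Fin n → ℝ) : ∑ k, e k * rw' A g k ≤ ∑ i, max (g i) 0 := by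
  rw [← dual A e g]
  refine Finset.sum_le_sum fun i _ => ?_
  have h4 := he i
  rcases le_total (g i) 0 with h5 | h5
  · exact le_trans (mul_nonpos_of_nonneg_of_nonpos h4.1 h5) (le_max_right _ _)
  · exact le_trans (mul_le_of_le_one_left h5 h4.2) (le_max_left _ _)

/-- **The certificate for an inequality.** -/
theorem cert {A : Matrix (Fin n) (Fin n) ℤ} {e g : Fin n → ℝ} (he : Box A e) {D c X : ℝ} {j : Fin n} (hg : ∀ k, rw' A g k = (if k = j then D else 0) - c) (hs : ∑ i, max (g i) 0 ≤ X) :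
    D * e j ≤ c * ∑ k, e k + X := by
  have h1 := cert0 he g
  have h2 : ∑ k, e k * rw' A g k = D * e j - c * ∑ k, e k := by
    simp only [hg, mul_sub, Finset.sum_sub_distrib, mul_ite, mul_zero, Finset.sum_ite_eq', Finset.mem_univ, if_true]
    rw [Finset.mul_sum, mul_comm (e j) D]
    congr 1
    exact Finset.sum_congr rfl fun k _ => mul_comm _ _
  linarith

/-- **The certificate for a coordinate of the sum of the positive roots.** -/
theorem cert_c {A : Matrix (Fin n) (Fin n) ℤ} {p : Finset (Fin n) → ℝ} {c : Finset (Fin n) → Fin n → ℝ} (h : Chn A p c) {S : Finset (Fin n)} {y : Fin n → ℝ} {j : Fin n} (hj : j ∈ S) (hy : ∀ i, i ∉ S → y i = 0)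
    (hr : ∀ k ∈ S, rw' A y k = if k = j then 1 else 0) : c S j = 2 * ∑ i, y i := by
  have h1 := dual A (c S) y
  have h2 : ∑ k, c S k * rw' A y k = c S j := by
    rw [Finset.sum_eq_single j]
    · rw [hr j hj, if_pos rfl, mul_one]
    · intro k _ hk
      by_cases hS : k ∈ S
      · rw [hr k hS, if_neg hk, mul_zero]
      · rw [h.zero S k hS, zero_mul]
    · intro hk
      exact absurd (Finset.mem_univ j) hk
  have h3 : ∑ i, pr A (c S) i * y i = 2 * ∑ i, y i := by
    rw [Finset.mul_sum]
    refine Finset.sum_congr rfl fun i _ => ?_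
    by_cases hS : i ∈ S
    · rw [h.pair S i hS]
    · rw [hy i hS, mul_zero, mul_zero]
  linarith

/-- The inequality of the density theorem for a Cartan matrix and an upper bound `D` of the dimension of the group. -/
def Sq (A : Matrix (Fin n) (Fin n) ℤ) (D : ℝ) : Prop :=
  ∀ c : Fin n → ℝ, (∀ i, pr A c i = 2) → ∀ e, Box A e → ∀ j, D * e j ≤ c j * (∑ k, e k + n / 2)

/-- A sum over `Fin n` with one term. -/
theorem sum_at (m : ℕ) (f : ℕ → ℝ) : ∑ i : Fin n, (if (i : ℕ) = m then f i else 0) = if m < n then f m else 0 := by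
  split_ifs with h
  · rw [Finset.sum_eq_single (⟨m, h⟩ : Fin n)]
    · simp
    · intro b _ hb
      rw [if_neg]
      intro h1
      exact hb (Fin.ext h1)
    · intro h1
      exact absurd (Finset.mem_univ _) h1
  · refine Finset.sum_eq_zero fun i _ => if_neg ?_
    intro h1
    exact h (h1 ▸ i.2)

end Pool.Agent.Lib.L8.F7
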