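import Pool.Agent.Lib.L8.F7.RDefs
import Pool.Agent.Lib.L8.FC.D3
import Pool.Agent.Lib.L1S.D5

/-!
# F7 EX0: -1 in the Weyl group acts trivially on the coweights modulo the coroots (helper31)
-/

namespace Pool.Agent.Lib.L8.F7

open Matrix Pool.Agent.Lib.L1S Pool.Agent.Lib.L8.FL

noncomputable section

set_option linter.unusedSectionVars false

variable {ι M N : Type} [Fintype ι] [DecidableEq ι] [AddCommGroup M] [Module ℚ M] [AddCommGroup N] [Module ℚ N]
  {P : RootPairing ι ℚ M N} [P.IsCrystallographic] [P.IsReduced] [P.IsIrreducible] [P.IsRootSystem] {b : P.Base}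

theorem ex0_span {g : N ≃ₗ[ℚ] N} {w : Equiv.Perm ι} (h : ∀ β, g (P.coroot β) = P.coroot (w β)) {y : N} (hy : y ∈ Submodule.span ℤ (Set.range P.coroot)) : g y ∈ Submodule.span ℤ (Set.range P.coroot) := by
  induction hy using Submodule.span_induction with
  | mem x hx =>
    obtain ⟨β, rfl⟩ := hx
    rw [h]
    exact Submodule.subset_span ⟨_, rfl⟩
  | zero =>
    rw [map_zero]
    exact Submodule.zero_mem _
  | add x y _ _ hx hy =>
    rw [map_add]
    exact Submodule.add_mem _ hx hy
  | smul a x _ hx =>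
    rw [map_zsmul]
    exact Submodule.smul_mem _ _ hx

theorem ex0_act {w : Equiv.Perm ι} (hw : w ∈ WP P) : ∃ g : N ≃ₗ[ℚ] N, (∀ β, g (P.coroot β) = P.coroot (w β)) ∧
    ∀ y : N, (∀ β, ∃ m : ℤ, P.root' β y = m) → g y - y ∈ Submodule.span ℤ (Set.range P.coroot) := by
  induction hw using Subgroup.closure_induction with
  | mem x hx =>
    obtain ⟨i, rfl⟩ := hx
    refine ⟨P.coreflection i, fun β => (P.coroot_reflectionPerm i β).symm, fun y hy => ?_⟩
    obtain ⟨m, hm⟩ := hy i
    rw [P.coreflection_apply, hm, sub_sub_cancel_left, Int.cast_smul_eq_zsmul]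
    exact Submodule.neg_mem _ (Submodule.smul_mem _ _ (Submodule.subset_span ⟨i, rfl⟩))
  | one =>
    refine ⟨LinearEquiv.refl ℚ N, fun β => rfl, fun y _ => ?_⟩
    rw [LinearEquiv.refl_apply, sub_self]
    exact Submodule.zero_mem _
  | mul x y _ _ hx hy =>
    obtain ⟨g1, h1, k1⟩ := hx
    obtain ⟨g2, h2, k2⟩ := hy
    refine ⟨g2.trans g1, fun β => by rw [LinearEquiv.trans_apply, h2, h1]; rfl, fun z hz => ?_⟩
    have e : (g2.trans g1) z - z = g1 (g2 z - z) + (g1 z - z) := by
      rw [LinearEquiv.trans_apply, map_sub]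
      abel
    rw [e]
    exact Submodule.add_mem _ (ex0_span h1 (k2 z hz)) (k1 z hz)
  | inv x _ hx =>
    obtain ⟨g, h, k⟩ := hx
    have h' : ∀ β, g.symm (P.coroot β) = P.coroot (x⁻¹ β) := by
      intro β
      rw [LinearEquiv.symm_apply_eq, h]
      simp
    refine ⟨g.symm, h', fun z hz => ?_⟩
    have e : g.symm z - z = -g.symm (g z - z) := by
      rw [map_sub, LinearEquiv.symm_apply_apply]
      abel
    rw [e]
    exact Submodule.neg_mem _ (ex0_span h' (k z hz))

theorem ex0_int {y : N} (hy : y ∈ Submodule.span ℤ (Set.range P.coroot)) (k : b.support) : ∃ m : ℤ, b.toCoweightBasis.repr y k = m := by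
  induction hy using Submodule.span_induction with
  | mem x hx =>
    obtain ⟨β, rfl⟩ := hx
    rw [FC.ck_repr]
    exact FC.ck_int b k β
  | zero => exact ⟨0, by simp⟩
  | add x y _ _ hx hy =>
    obtain ⟨m, hm⟩ := hx
    obtain ⟨m', hm'⟩ := hy
    exact ⟨m + m', by rw [map_add, Finsupp.add_apply, hm, hm']; push_cast; rfl⟩
  | smul a x _ hx =>
    obtain ⟨m, hm⟩ := hx
    refine ⟨a * m, ?_⟩
    rw [← Int.cast_smul_eq_zsmul ℚ, map_smul, Finsupp.smul_apply, hm, smul_eq_mul]
    push_cast
    rfl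

/-- **-1 in the Weyl group acts trivially on the coweights modulo the coroots.** -/
theorem no_minus_gen {w : Equiv.Perm ι} (hw : w ∈ WP P) (h1 : ∀ i : b.support, w i = P.reflectionPerm i i) (y : b.support → ℚ) (hy : ∀ i, ∃ m : ℤ, ∑ k, (b.cartanMatrix i k : ℚ) * y k = m) (k : b.support) :
    ∃ m : ℤ, 2 * y k = m := by
  obtain ⟨g, hg, hk⟩ := ex0_act hw
  have hneg : ∀ z : N, g z = -z := by
    have e : (g : N →ₗ[ℚ] N) = -LinearMap.id := by
      refine b.toCoweightBasis.ext fun i => ?_
      rw [b.toCoweightBasis_apply]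
      show g (P.coroot i) = -(P.coroot i)
      rw [hg, h1 i]
      simp
    intro z
    have := congrArg (fun f : N →ₗ[ℚ] N => f z) e
    exact this
  set Y : N := ∑ k, y k • P.coroot (k : ι) with hY
  have hrepr : b.toCoweightBasis.repr Y k = y k := by
    rw [hY, map_sum, Finsupp.finsetSum_apply, Finset.sum_eq_single k]
    · rw [map_smul, Finsupp.smul_apply, b.toCoweightBasis_repr_coroot, Finsupp.single_eq_same, smul_eq_mul, mul_one]
    · intro l _ hl
      rw [map_smul, Finsupp.smul_apply, b.toCoweightBasis_repr_coroot, Finsupp.single_eq_of_ne hl.symm, smul_zero]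
    · intro h
      exact absurd (Finset.mem_univ k) h
  have hsimple : ∀ i : b.support, P.root' (i : ι) Y = ∑ k, (b.cartanMatrix i k : ℚ) * y k := by
    intro i
    rw [hY, map_sum]
    refine Finset.sum_congr rfl fun l _ => ?_
    rw [map_smul, smul_eq_mul, mul_comm]
    congr 1
    rw [P.root'_coroot_eq_pairing, ← P.algebraMap_pairingIn ℤ]
    rfl
  clear_value Y
  choose m hm using hy
  have hint : ∀ β, ∃ m : ℤ, P.root' β Y = m := by
    intro β
    refine ⟨∑ l, mc b l (Sum.inr β) * m l, ?_⟩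
    have h2 : P.root' β Y = P.toLinearMap (P.root β) Y := rfl
    rw [h2, d5_root b β, map_sum, LinearMap.sum_apply]
    push_cast
    refine Finset.sum_congr rfl fun l _ => ?_
    rw [map_smul, LinearMap.smul_apply, smul_eq_mul]
    congr 1
    have h3 : P.toLinearMap (P.root (l : ι)) Y = P.root' (l : ι) Y := rfl
    rw [h3, hsimple, hm]
  have h4 := hk Y hint
  rw [hneg] at h4
  obtain ⟨z, hz⟩ := ex0_int (b := b) h4 k
  rw [map_sub, map_neg, Finsupp.sub_apply, Finsupp.neg_apply, hrepr] at hz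
  refine ⟨-z, ?_⟩
  push_cast
  rw [← hz]
  ring

end

end Pool.Agent.Lib.L8.F7
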