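import Pool.Agent.Lib.L8.F7.Defs

/-!
# F7 EX1: the inequality for the exceptional types, the best constants (helper31)
-/

namespace Pool.Agent.Lib.L8.F7

open Matrix

theorem ex1_G2 : Sq CartanMatrix.G₂ 18 := by
  intro c hc e he j
  have a0 := hc 0
  have a1 := hc 1
  have b0 := he 0
  have b1 := he 1
  simp [pr, CartanMatrix.G₂, Fin.sum_univ_succ] at a0 a1 b0 b1
  obtain ⟨p0, q0⟩ := b0
  obtain ⟨p1, q1⟩ := b1
  have c0 : c 0 = 6 := by linarith
  have c1 : c 1 = 10 := by linarith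
  fin_cases j <;> simp [Fin.sum_univ_succ, c0, c1] <;> linarith

theorem ex1_F4 : Sq CartanMatrix.F₄ 104 := by
  intro c hc e he j
  have a0 := hc 0
  have a1 := hc 1
  have a2 := hc 2
  have a3 := hc 3
  have b0 := he 0
  have b1 := he 1
  have b2 := he 2
  have b3 := he 3
  simp [pr, CartanMatrix.F₄, Fin.sum_univ_succ] at a0 a1 a2 a3 b0 b1 b2 b3
  obtain ⟨p0, q0⟩ := b0
  obtain ⟨p1, q1⟩ := b1
  obtain ⟨p2, q2⟩ := b2
  obtain ⟨p3, q3⟩ := b3
  have c0 : c 0 = 16 := by linarith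
  have c1 : c 1 = 30 := by linarith
  have c2 : c 2 = 42 := by linarith
  have c3 : c 3 = 22 := by linarith
  fin_cases j <;> simp [Fin.sum_univ_succ, c0, c1, c2, c3] <;> linarith

theorem ex1_E7 : Sq CartanMatrix.E₇ 306 := by
  intro c hc e he j
  have a0 := hc 0
  have a1 := hc 1
  have a2 := hc 2
  have a3 := hc 3
  have a4 := hc 4
  have a5 := hc 5
  have a6 := hc 6
  have b0 := he 0
  have b1 := he 1
  have b2 := he 2
  have b3 := he 3
  have b4 := he 4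
  have b5 := he 5
  have b6 := he 6
  simp [pr, CartanMatrix.E₇, Fin.sum_univ_succ] at a0 a1 a2 a3 a4 a5 a6 b0 b1 b2 b3 b4 b5 b6
  obtain ⟨p0, q0⟩ := b0
  obtain ⟨p1, q1⟩ := b1
  obtain ⟨p2, q2⟩ := b2
  obtain ⟨p3, q3⟩ := b3
  obtain ⟨p4, q4⟩ := b4
  obtain ⟨p5, q5⟩ := b5
  obtain ⟨p6, q6⟩ := b6
  have c0 : c 0 = 34 := by linarith
  have c1 : c 1 = 49 := by linarith
  have c2 : c 2 = 66 := by linarith
  have c3 : c 3 = 96 := by linarith
  have c4 : c 4 = 75 := by linarith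
  have c5 : c 5 = 52 := by linarith
  have c6 : c 6 = 27 := by linarith
  fin_cases j <;> simp [Fin.sum_univ_succ, c0, c1, c2, c3, c4, c5, c6] <;> linarith

theorem ex1_E8 : Sq CartanMatrix.E₈ 957 := by
  intro c hc e he j
  have a0 := hc 0
  have a1 := hc 1
  have a2 := hc 2
  have a3 := hc 3
  have a4 := hc 4
  have a5 := hc 5
  have a6 := hc 6
  have a7 := hc 7
  have b0 := he 0
  have b1 := he 1
  have b2 := he 2
  have b3 := he 3
  have b4 := he 4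
  have b5 := he 5
  have b6 := he 6
  have b7 := he 7
  simp [pr, CartanMatrix.E₈, Fin.sum_univ_succ] at a0 a1 a2 a3 a4 a5 a6 a7 b0 b1 b2 b3 b4 b5 b6 b7
  obtain ⟨p0, q0⟩ := b0
  obtain ⟨p1, q1⟩ := b1
  obtain ⟨p2, q2⟩ := b2
  obtain ⟨p3, q3⟩ := b3
  obtain ⟨p4, q4⟩ := b4
  obtain ⟨p5, q5⟩ := b5
  obtain ⟨p6, q6⟩ := b6
  obtain ⟨p7, q7⟩ := b7
  have c0 : c 0 = 92 := by linarith
  have c1 : c 1 = 136 := by linarith
  have c2 : c 2 = 182 := by linarith
  have c3 : c 3 = 270 := by linarith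
  have c4 : c 4 = 220 := by linarith
  have c5 : c 5 = 168 := by linarith
  have c6 : c 6 = 114 := by linarith
  have c7 : c 7 = 58 := by linarith
  fin_cases j <;> simp [Fin.sum_univ_succ, c0, c1, c2, c3, c4, c5, c6, c7] <;> linarith

/-- Type `E₆`, with the symmetry. -/
theorem ex1_E6 {c : Fin 6 → ℝ} (hc : ∀ i, pr CartanMatrix.E₆ c i = 2) {e : Fin 6 → ℝ} (he : Box CartanMatrix.E₆ e) (j : Fin 6) :
    152 * (e j + e (![5, 1, 4, 3, 2, 0] j)) ≤ c j * (2 * ∑ k, e k + 6) := by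
  have a0 := hc 0
  have a1 := hc 1
  have a2 := hc 2
  have a3 := hc 3
  have a4 := hc 4
  have a5 := hc 5
  have b0 := he 0
  have b1 := he 1
  have b2 := he 2
  have b3 := he 3
  have b4 := he 4
  have b5 := he 5
  simp [pr, CartanMatrix.E₆, Fin.sum_univ_succ] at a0 a1 a2 a3 a4 a5 b0 b1 b2 b3 b4 b5
  obtain ⟨p0, q0⟩ := b0
  obtain ⟨p1, q1⟩ := b1
  obtain ⟨p2, q2⟩ := b2
  obtain ⟨p3, q3⟩ := b3
  obtain ⟨p4, q4⟩ := b4
  obtain ⟨p5, q5⟩ := b5
  have c0 : c 0 = 16 := by linarith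
  have c1 : c 1 = 22 := by linarith
  have c2 : c 2 = 30 := by linarith
  have c3 : c 3 = 42 := by linarith
  have c4 : c 4 = 30 := by linarith
  have c5 : c 5 = 16 := by linarith
  fin_cases j <;> simp [Fin.sum_univ_succ, c0, c1, c2, c3, c4, c5] <;> linarith

end Pool.Agent.Lib.L8.F7
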