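import Mathlib

/-!
# F7 EX2: automorphisms of the diagram `E₆` (helper31)
-/

namespace Pool.Agent.Lib.L8.F7

open Matrix

theorem ex2_a : ∀ a3 a1 : Fin 6, CartanMatrix.E₆ a3 a1 = -1 → ∀ a2 : Fin 6, CartanMatrix.E₆ a3 a2 = -1 → CartanMatrix.E₆ a1 a2 = 0 → ∀ a4 : Fin 6, CartanMatrix.E₆ a3 a4 = -1 → CartanMatrix.E₆ a1 a4 = 0 →
    CartanMatrix.E₆ a2 a4 = 0 → a3 = 3 := by
  decide

theorem ex2_b : ∀ a2 : Fin 6, CartanMatrix.E₆ 3 a2 = -1 → ∀ a0 : Fin 6, CartanMatrix.E₆ a2 a0 = -1 → CartanMatrix.E₆ 3 a0 = 0 → (a2 = 2 ∧ a0 = 0) ∨ (a2 = 4 ∧ a0 = 5) := by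
  decide

theorem ex2_c : ∀ a1 : Fin 6, CartanMatrix.E₆ 3 a1 = -1 → CartanMatrix.E₆ a1 2 = 0 → CartanMatrix.E₆ a1 4 = 0 → a1 = 1 := by
  decide

theorem aut_E6 (τ : Fin 6 → Fin 6) (hτ : ∀ i j, CartanMatrix.E₆ (τ i) (τ j) = CartanMatrix.E₆ i j) : (∀ i, τ i = i) ∨ ∀ i, τ i = (![5, 1, 4, 3, 2, 0] : Fin 6 → Fin 6) i := by
  have h3 : τ 3 = 3 := ex2_a (τ 3) (τ 1) (by rw [hτ]; decide) (τ 2) (by rw [hτ]; decide) (by rw [hτ]; decide) (τ 4) (by rw [hτ]; decide) (by rw [hτ]; decide) (by rw [hτ]; decide)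
  have k1 := hτ 3 1
  have k2 := hτ 3 2
  have k4 := hτ 3 4
  have k0 := hτ 3 0
  have k5 := hτ 3 5
  rw [h3] at k1 k2 k4 k0 k5
  have e1 : CartanMatrix.E₆ 3 1 = -1 := by decide
  have e2 : CartanMatrix.E₆ 3 2 = -1 := by decide
  have e4 : CartanMatrix.E₆ 3 4 = -1 := by decide
  have e0 : CartanMatrix.E₆ 3 0 = 0 := by decide
  have e5 : CartanMatrix.E₆ 3 5 = 0 := by decide
  have m1 : CartanMatrix.E₆ (τ 1) (τ 2) = 0 := by
    rw [hτ]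
    decide
  have m2 : CartanMatrix.E₆ (τ 1) (τ 4) = 0 := by
    rw [hτ]
    decide
  have m3 : CartanMatrix.E₆ (τ 2) (τ 4) = 0 := by
    rw [hτ]
    decide
  have h2 := ex2_b (τ 2) (k2.trans e2) (τ 0) (by rw [hτ]; decide) (k0.trans e0)
  have h4 := ex2_b (τ 4) (k4.trans e4) (τ 5) (by rw [hτ]; decide) (k5.trans e5)
  rcases h2 with ⟨h2, h0⟩ | ⟨h2, h0⟩ <;> rcases h4 with ⟨h4, h5⟩ | ⟨h4, h5⟩
  · rw [h2, h4] at m3
    exact absurd m3 (by decide)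
  · rw [h2] at m1
    rw [h4] at m2
    have h1 := ex2_c (τ 1) (k1.trans e1) m1 m2
    left
    intro i
    fin_cases i
    · exact h0
    · exact h1
    · exact h2
    · exact h3
    · exact h4
    · exact h5
  · rw [h2] at m1
    rw [h4] at m2
    have h1 := ex2_c (τ 1) (k1.trans e1) m2 m1
    right
    intro i
    fin_cases i
    · exact h0
    · exact h1
    · exact h2
    · exact h3
    · exact h4
    · exact h5
  · rw [h2, h4] at m3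
    exact absurd m3 (by decide)

end Pool.Agent.Lib.L8.F7
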