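import Pool.Agent.Lib.L8.F7.Main
import Pool.Agent.Lib.L8.F7.EX0
import Pool.Agent.Lib.L8.F7.EX1
import Pool.Agent.Lib.L8.F7.EX2

/-!
# F7 EX3: the exceptional types with the best constants (helper31)
-/

namespace Pool.Agent.Lib.L8.F7

open Matrix Pool.Agent.Lib.L1S Pool.Agent.Lib.L8.FL

noncomputable section

set_option linter.unusedSectionVars false

variable {ι M N : Type} [Fintype ι] [DecidableEq ι] [AddCommGroup M] [Module ℚ M] [AddCommGroup N] [Module ℚ N]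
  {P : RootPairing ι ℚ M N} [P.IsCrystallographic] [P.IsReduced] [P.IsIrreducible] [P.IsRootSystem] {b : P.Base}

theorem no_minus_E6 (e : b.support ≃ Fin 6) (he : ∀ i j : b.support, P.pairingIn ℤ i j = CartanMatrix.E₆ (e i) (e j)) {w : Equiv.Perm ι} (hw : w ∈ WP P) : ¬∀ i : b.support, w i = P.reflectionPerm i i := by
  intro h
  have h1 := no_minus_gen (b := b) hw h (fun k => (![4 / 3, 1, 5 / 3, 2, 4 / 3, 2 / 3] : Fin 6 → ℚ) (e k)) (fun i => by
    have h2 : ∑ k, (b.cartanMatrix i k : ℚ) * (![4 / 3, 1, 5 / 3, 2, 4 / 3, 2 / 3] : Fin 6 → ℚ) (e k) = ∑ k, (CartanMatrix.E₆ (e i) k : ℚ) * (![4 / 3, 1, 5 / 3, 2, 4 / 3, 2 / 3] : Fin 6 → ℚ) k := by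
      rw [← Equiv.sum_comp e]
      refine Finset.sum_congr rfl fun k _ => ?_
      have h3 : b.cartanMatrix i k = CartanMatrix.E₆ (e i) (e k) := he i k
      rw [h3]
    rw [h2]
    generalize e i = a
    fin_cases a <;> simp [CartanMatrix.E₆, Fin.sum_univ_succ]
    · exact ⟨1, by norm_num⟩
    · exact ⟨0, by norm_num⟩
    · exact ⟨0, by norm_num⟩
    · exact ⟨0, by norm_num⟩
    · exact ⟨0, by norm_num⟩
    · exact ⟨0, by norm_num⟩) (e.symm 5)
  obtain ⟨m, hm⟩ := h1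
  simp at hm
  have h3 : (4 : ℚ) = 3 * m := by linarith
  have h4 : (4 : ℤ) = 3 * m := by exact_mod_cast h3
  omega

theorem star_E6 (e : b.support ≃ Fin 6) (he : ∀ i j : b.support, P.pairingIn ℤ i j = CartanMatrix.E₆ (e i) (e j)) {σ : Equiv.Perm b.support} {w : Equiv.Perm ι} (h : IsOp b σ w) (i : b.support) :
    e (σ i) = (![5, 1, 4, 3, 2, 0] : Fin 6 → Fin 6) (e i) := by
  have h1 := aut_E6 (fun k => e (σ (e.symm k))) (by
    intro k l
    rw [← he, op_pair h, he, Equiv.apply_symm_apply, Equiv.apply_symm_apply])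
  rcases h1 with h1 | h1
  · exfalso
    refine no_minus_E6 e he h.1 fun i => ?_
    have h2 := h1 (e i)
    simp only [Equiv.symm_apply_apply] at h2
    have h3 := e.injective h2
    have h4 := h.2 i
    rw [h3] at h4
    exact h4
  · have h2 := h1 (e i)
    simp only [Equiv.symm_apply_apply] at h2
    exact h2

/-- **The exceptional types and the constants** `18, 104, 152, 306, 957` (the dimensions of the groups are `14, 52, 78, 133, 248`). -/
def ExD (b : P.Base) (D : ℕ) : Prop :=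
  (Typ b CartanMatrix.G₂ ∧ D = 18) ∨ (Typ b CartanMatrix.F₄ ∧ D = 104) ∨ (Typ b CartanMatrix.E₆ ∧ D = 152) ∨ (Typ b CartanMatrix.E₇ ∧ D = 306) ∨ (Typ b CartanMatrix.E₈ ∧ D = 957)

theorem core_sq' {n : ℕ} {A : Matrix (Fin n) (Fin n) ℤ} (h : Typ b A) {D : ℝ} (hS : Sq A D) {E : b.support → ℝ} (hE : ∀ i, 0 ≤ xe b E i ∧ xe b E i ≤ 1) (j : b.support) :
    D * E j ≤ ((cI b Finset.univ j : ℤ) : ℝ) * (∑ k, E k + (Fintype.card b.support : ℝ) / 2) := by
  obtain ⟨e, he⟩ := h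
  have h1 := hS _ (pr_cI e he) _ (box_of e he hE) (e j)
  simp only [Equiv.symm_apply_apply] at h1
  rw [Equiv.sum_comp e.symm E] at h1
  rw [card_of e]
  exact h1

theorem ci_sq {n : ℕ} {A : Matrix (Fin n) (Fin n) ℤ} (h : Typ b A) {D : ℝ} (hS : Sq A D) : CI b D := by
  intro σ w _ E E' hE hE' _ j
  have h1 := core_sq' h hS hE j
  have h2 := core_sq' h hS hE' j
  linarith

theorem ci_E6 (h0 : Typ b CartanMatrix.E₆) : CI b 152 := by
  intro σ w h E E' hE hE' hs j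
  obtain ⟨e, he⟩ := h0
  have h1 := ex1_E6 (pr_cI e he) (box_of e he hE) (e j)
  simp only [Equiv.symm_apply_apply] at h1
  rw [Equiv.sum_comp e.symm E] at h1
  have h5 : E (e.symm ((![5, 1, 4, 3, 2, 0] : Fin 6 → Fin 6) (e j))) = E' j := by
    have h6 : e (σ (e.symm ((![5, 1, 4, 3, 2, 0] : Fin 6 → Fin 6) (e j)))) = e j := by
      rw [star_E6 e he h, Equiv.apply_symm_apply]
      generalize e j = a
      revert a
      decide
    rw [← hs, e.injective h6]
  have h7 : ∑ k, E' k = ∑ k, E k := by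
    rw [← Equiv.sum_comp σ E']
    exact Finset.sum_congr rfl fun k _ => hs k
  rw [h5] at h1
  rw [h7, card_of e]
  refine h1.trans (le_of_eq ?_)
  push_cast
  ring

theorem ci_ex {D : ℕ} (hD : ExD b D) : CI b D := by
  rcases hD with ⟨h, rfl⟩ | ⟨h, rfl⟩ | ⟨h, rfl⟩ | ⟨h, rfl⟩ | ⟨h, rfl⟩
  · exact ci_sq h (by exact_mod_cast ex1_G2)
  · exact ci_sq h (by exact_mod_cast ex1_F4)
  · exact_mod_cast ci_E6 h
  · exact ci_sq h (by exact_mod_cast ex1_E7)
  · exact ci_sq h (by exact_mod_cast ex1_E8)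

/-- **C7 for the exceptional types.** -/
theorem c7x {D : ℕ} (hD : ExD b D) {J : Finset b.support} {w : Equiv.Perm ι} (hw : IsWJ b J w) {Λ : b.support → ℝ} (hΛ : ∀ i, 0 ≤ al (cA b) i Λ) :
    (D : ℝ) * (∑ j ∈ J, Λ j + ∑ j ∈ Js b w, Λ j) ≤ 2 * (∑ k, Λ k) * (∑ j ∈ J, rr b j + ∑ j ∈ Js b w, rr b j + Fintype.card b.support) := c7_gen (ci_ex hD) hw hΛ

end

end Pool.Agent.Lib.L8.F7
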