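import Pool.Agent.Lib.L8.F7.CM0

/-!
# F7 EXM: the exceptional types with `rank + 1` in the place of the rank (helper31)
-/

namespace Pool.Agent.Lib.L8.F7

open Matrix Pool.Agent.Lib.L1S Pool.Agent.Lib.L8.FL

noncomputable section

set_option linter.unusedSectionVars false

theorem exm_G2 : Sq1 CartanMatrix.G₂ 19 := by
  intro c hc e he j
  have a0 := hc 0
  have a1 := hc 1
  have b0 := he 0
  have b1 := he 1
  simp [pr, CartanMatrix.G₂, Fin.sum_univ_succ] at a0 a1 b0 b1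
  obtain ⟨p0, q0⟩ := b0
  obtain ⟨p1, q1⟩ := b1
  have c0 : c 0 = 6 := by linarith
  have c1 : c 1 = 10 := by linarith
  fin_cases j <;> simp [Fin.sum_univ_succ, c0, c1] <;> linarith

theorem exm_F4 : Sq1 CartanMatrix.F₄ 108 := by
  intro c hc e he j
  have a0 := hc 0
  have a1 := hc 1
  have a2 := hc 2
  have a3 := hc 3
  have b0 := he 0
  have b1 := he 1
  have b2 := he 2
  have b3 := he 3
  simp [pr, CartanMatrix.F₄, Fin.sum_univ_succ] at a0 a1 a2 a3 b0 b1 b2 b3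
  obtain ⟨p0, q0⟩ := b0
  obtain ⟨p1, q1⟩ := b1
  obtain ⟨p2, q2⟩ := b2
  obtain ⟨p3, q3⟩ := b3
  have c0 : c 0 = 16 := by linarith
  have c1 : c 1 = 30 := by linarith
  have c2 : c 2 = 42 := by linarith
  have c3 : c 3 = 22 := by linarith
  fin_cases j <;> simp [Fin.sum_univ_succ, c0, c1, c2, c3] <;> linarith

theorem exm_E7 : Sq1 CartanMatrix.E₇ 315 := by
  intro c hc e he j
  have a0 := hc 0
  have a1 := hc 1
  have a2 := hc 2
  have a3 := hc 3
  have a4 := hc 4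
  have a5 := hc 5
  have a6 := hc 6
  have b0 := he 0
  have b1 := he 1
  have b2 := he 2
  have b3 := he 3
  have b4 := he 4
  have b5 := he 5
  have b6 := he 6
  simp [pr, CartanMatrix.E₇, Fin.sum_univ_succ] at a0 a1 a2 a3 a4 a5 a6 b0 b1 b2 b3 b4 b5 b6
  obtain ⟨p0, q0⟩ := b0
  obtain ⟨p1, q1⟩ := b1
  obtain ⟨p2, q2⟩ := b2
  obtain ⟨p3, q3⟩ := b3
  obtain ⟨p4, q4⟩ := b4
  obtain ⟨p5, q5⟩ := b5
  obtain ⟨p6, q6⟩ := b6
  have c0 : c 0 = 34 := by linarith
  have c1 : c 1 = 49 := by linarith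
  have c2 : c 2 = 66 := by linarith
  have c3 : c 3 = 96 := by linarith
  have c4 : c 4 = 75 := by linarith
  have c5 : c 5 = 52 := by linarith
  have c6 : c 6 = 27 := by linarith
  fin_cases j <;> simp [Fin.sum_univ_succ, c0, c1, c2, c3, c4, c5, c6] <;> linarith

theorem exm_E8 : Sq1 CartanMatrix.E₈ (1943 / 2) := by
  intro c hc e he j
  have a0 := hc 0
  have a1 := hc 1
  have a2 := hc 2
  have a3 := hc 3
  have a4 := hc 4
  have a5 := hc 5
  have a6 := hc 6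
  have a7 := hc 7
  have b0 := he 0
  have b1 := he 1
  have b2 := he 2
  have b3 := he 3
  have b4 := he 4
  have b5 := he 5
  have b6 := he 6
  have b7 := he 7
  simp [pr, CartanMatrix.E₈, Fin.sum_univ_succ] at a0 a1 a2 a3 a4 a5 a6 a7 b0 b1 b2 b3 b4 b5 b6 b7
  obtain ⟨p0, q0⟩ := b0
  obtain ⟨p1, q1⟩ := b1
  obtain ⟨p2, q2⟩ := b2
  obtain ⟨p3, q3⟩ := b3
  obtain ⟨p4, q4⟩ := b4
  obtain ⟨p5, q5⟩ := b5
  obtain ⟨p6, q6⟩ := b6
  obtain ⟨p7, q7⟩ := b7
  have c0 : c 0 = 92 := by linarith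
  have c1 : c 1 = 136 := by linarith
  have c2 : c 2 = 182 := by linarith
  have c3 : c 3 = 270 := by linarith
  have c4 : c 4 = 220 := by linarith
  have c5 : c 5 = 168 := by linarith
  have c6 : c 6 = 114 := by linarith
  have c7 : c 7 = 58 := by linarith
  fin_cases j <;> simp [Fin.sum_univ_succ, c0, c1, c2, c3, c4, c5, c6, c7] <;> linarith

/-- Type `E₆`, with the symmetry. -/
theorem exm_E6 {c : Fin 6 → ℝ} (hc : ∀ i, pr CartanMatrix.E₆ c i = 2) {e : Fin 6 → ℝ} (he : Box CartanMatrix.E₆ e) (j : Fin 6) :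
    156 * (e j + e (![5, 1, 4, 3, 2, 0] j)) ≤ c j * (2 * ∑ k, e k + 7) := by
  have a0 := hc 0
  have a1 := hc 1
  have a2 := hc 2
  have a3 := hc 3
  have a4 := hc 4
  have a5 := hc 5
  have b0 := he 0
  have b1 := he 1
  have b2 := he 2
  have b3 := he 3
  have b4 := he 4
  have b5 := he 5
  simp [pr, CartanMatrix.E₆, Fin.sum_univ_succ] at a0 a1 a2 a3 a4 a5 b0 b1 b2 b3 b4 b5
  obtain ⟨p0, q0⟩ := b0
  obtain ⟨p1, q1⟩ := b1
  obtain ⟨p2, q2⟩ := b2
  obtain ⟨p3, q3⟩ := b3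
  obtain ⟨p4, q4⟩ := b4
  obtain ⟨p5, q5⟩ := b5
  have c0 : c 0 = 16 := by linarith
  have c1 : c 1 = 22 := by linarith
  have c2 : c 2 = 30 := by linarith
  have c3 : c 3 = 42 := by linarith
  have c4 : c 4 = 30 := by linarith
  have c5 : c 5 = 16 := by linarith
  fin_cases j <;> simp [Fin.sum_univ_succ, c0, c1, c2, c3, c4, c5] <;> linarith

variable {ι M N : Type} [Fintype ι] [DecidableEq ι] [AddCommGroup M] [Module ℚ M] [AddCommGroup N] [Module ℚ N]
  {P : RootPairing ι ℚ M N} [P.IsCrystallographic] [P.IsReduced] [P.IsIrreducible] [P.IsRootSystem] {b : P.Base}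

theorem ci1_G2 (h : Typ b CartanMatrix.G₂) : CI1 b 19 := ci1_sq h exm_G2

theorem ci1_F4 (h : Typ b CartanMatrix.F₄) : CI1 b 108 := ci1_sq h exm_F4

theorem ci1_E7 (h : Typ b CartanMatrix.E₇) : CI1 b 315 := ci1_sq h exm_E7

theorem ci1_E8 (h : Typ b CartanMatrix.E₈) : CI1 b (1943 / 2) := ci1_sq h exm_E8

theorem ci1_E6 (h0 : Typ b CartanMatrix.E₆) : CI1 b 156 := by
  intro σ w h E E' hE hE' hs j
  obtain ⟨e, he⟩ := h0
  have h1 := exm_E6 (pr_cI e he) (box_of e he hE) (e j)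
  simp only [Equiv.symm_apply_apply] at h1
  rw [Equiv.sum_comp e.symm E] at h1
  have h5 : E (e.symm ((![5, 1, 4, 3, 2, 0] : Fin 6 → Fin 6) (e j))) = E' j := by
    have h6 : e (σ (e.symm ((![5, 1, 4, 3, 2, 0] : Fin 6 → Fin 6) (e j)))) = e j := by
      rw [star_E6 e he h, Equiv.apply_symm_apply]
      generalize e j = a
      revert a
      decide
    rw [← hs, e.injective h6]
  have h7 : ∑ k, E' k = ∑ k, E k := by
    rw [← Equiv.sum_comp σ E']
    exact Finset.sum_congr rfl fun k _ => hs k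
  rw [h5] at h1
  rw [h7, card_of e]
  refine h1.trans (le_of_eq ?_)
  push_cast
  ring

end

end Pool.Agent.Lib.L8.F7
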