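import Pool.Agent.Lib.L8.F7.IB
import Pool.Agent.Lib.L8.F7.IS

/-!
# F7 GB (helper33): the inequality with the number `3 n (2 n - 1) / 2`, type B, n >= 3

As in `IB`: `G x = D min x J - J (2 n - J) x (2 n + 1 - x) / 2` with `D = 3 n (2 n - 1) / 2`. For `J = 1` the only positive value is `G 1 = n (2 n - 1) / 2 = c_1 n / 2` (equality in the certificate).
-/

namespace Pool.Agent.Lib.L8.F7

open Matrix

theorem gb_key {n x J : ℝ} (hn : 5 ≤ n) (hx : 1 ≤ x) (hxn : x ≤ n) (hJ : 1 ≤ J) (hJn : J ≤ n) (hx' : x = 1 ∨ x = 2 ∨ x = 3 ∨ 4 ≤ x) (hJ' : J = 1 ∨ J = 2 ∨ J = 3 ∨ 4 ≤ J)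
    (hc : x ≤ J ∨ J + 1 ≤ x) (hxJ : ¬(x = 1 ∧ J = 1)) : 3 * n * (2 * n - 1) * min x J ≤ J * (2 * n - J) * (x * (2 * n + 1 - x)) := by
  rcases hc with h | h
  · rw [min_eq_left h]
    have key : 3 * n * (2 * n - 1) ≤ J * (2 * n - J) * (2 * n + 1 - x) := by
      have h0 : J * (2 * n - J) * (2 * n + 1 - J) ≤ J * (2 * n - J) * (2 * n + 1 - x) :=
        mul_le_mul_of_nonneg_left (by linarith) (mul_nonneg (by linarith) (by linarith))
      refine le_trans ?_ h0
      rcases hJ' with h1 | h1 | h1 | h1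
      · exact absurd ⟨le_antisymm (h.trans h1.le) hx, h1⟩ hxJ
      · subst h1
        nlinarith
      · subst h1
        nlinarith
      · have h2 : 4 * (2 * n - 4) ≤ J * (2 * n - J) := by nlinarith [mul_nonneg (show (0 : ℝ) ≤ J - 4 by linarith) (show (0 : ℝ) ≤ 2 * n - 4 - J by linarith)]
        have h3 : 4 * (2 * n - 4) * (n + 1) ≤ J * (2 * n - J) * (2 * n + 1 - J) := mul_le_mul h2 (by linarith) (by linarith) (mul_nonneg (by linarith) (by linarith))
        nlinarith
    calc 3 * n * (2 * n - 1) * x ≤ J * (2 * n - J) * (2 * n + 1 - x) * x := mul_le_mul_of_nonneg_right key (by linarith)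
      _ = _ := by ring
  · rw [min_eq_right (by linarith)]
    have key : 3 * n * (2 * n - 1) ≤ (2 * n - J) * (x * (2 * n + 1 - x)) := by
      rcases hx' with h1 | h1 | h1 | h1
      · linarith
      · subst h1
        have h2 : (2 * n - 1) * (2 * (2 * n + 1 - 2)) ≤ (2 * n - J) * (2 * (2 * n + 1 - 2)) := mul_le_mul_of_nonneg_right (by linarith) (by linarith)
        nlinarith
      · subst h1
        have h2 : (2 * n - 2) * (3 * (2 * n + 1 - 3)) ≤ (2 * n - J) * (3 * (2 * n + 1 - 3)) := mul_le_mul_of_nonneg_right (by linarith) (by linarith)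
        nlinarith
      · have h2 : 4 * (2 * n - 3) ≤ x * (2 * n + 1 - x) := by nlinarith [mul_nonneg (show (0 : ℝ) ≤ x - 4 by linarith) (show (0 : ℝ) ≤ 2 * n - 3 - x by linarith)]
        have h3 : (n + 1) * (4 * (2 * n - 3)) ≤ (2 * n - J) * (x * (2 * n + 1 - x)) := mul_le_mul (by linarith) h2 (by linarith) (by linarith)
        nlinarith
    calc 3 * n * (2 * n - 1) * J ≤ (2 * n - J) * (x * (2 * n + 1 - x)) * J := mul_le_mul_of_nonneg_right key (by linarith)
      _ = _ := by ring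

theorem gb_nat (x : ℕ) (hx : 1 ≤ x) : (x : ℝ) = 1 ∨ (x : ℝ) = 2 ∨ (x : ℝ) = 3 ∨ 4 ≤ (x : ℝ) := by
  rcases Nat.lt_or_ge x 4 with h | h
  · have h1 : x = 1 ∨ x = 2 ∨ x = 3 := by omega
    rcases h1 with h1 | h1 | h1
    · left; rw [h1]; norm_num
    · right; left; rw [h1]; norm_num
    · right; right; left; rw [h1]; norm_num
  · right; right; right; exact_mod_cast h

theorem gb_sign {n x J : ℕ} (hn : 5 ≤ n) (hx : 1 ≤ x) (hx2 : x ≤ n) (hJ : 1 ≤ J) (hJ2 : J ≤ n) (h : 2 ≤ x ∨ 2 ≤ J) :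
    3 * (n : ℝ) * (2 * n - 1) / 2 * ((min x J : ℕ) : ℝ) - (J : ℝ) * (2 * n - J) * ((x : ℝ) * (2 * n + 1 - x)) / 2 ≤ 0 := by
  have hc : (x : ℝ) ≤ J ∨ (J : ℝ) + 1 ≤ x := by
    rcases Nat.lt_or_ge J x with h1 | h1
    · right
      exact_mod_cast h1
    · left
      exact_mod_cast h1
  have h1 := gb_key (n := n) (x := x) (J := J) (by exact_mod_cast hn) (by exact_mod_cast hx) (by exact_mod_cast hx2) (by exact_mod_cast hJ) (by exact_mod_cast hJ2) (gb_nat x hx) (gb_nat J hJ) hc (by
    rintro ⟨h2, h3⟩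
    have h4 : x = 1 := by exact_mod_cast h2
    have h5 : J = 1 := by exact_mod_cast h3
    omega)
  rw [Nat.cast_min]
  linarith

/-- Type `B_n`, `n ≥ 5`. -/
theorem gB_big {n : ℕ} (hn : 5 ≤ n) : Sq (CartanMatrix.B n) (3 * n * (2 * n - 1) / 2) := by
  intro c hc e he j
  obtain ⟨J, hJ⟩ : ∃ J, J = (j : ℕ) + 1 := ⟨_, rfl⟩
  have hnr : (5 : ℝ) ≤ n := by exact_mod_cast hn
  have hjlt := j.2
  have hjn : ((j : ℕ) : ℝ) + 1 ≤ n := by exact_mod_cast j.2
  have hj0 : (0 : ℝ) ≤ ((j : ℕ) : ℝ) := Nat.cast_nonneg _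
  have hJr : (J : ℝ) = ((j : ℕ) : ℝ) + 1 := by
    rw [hJ]
    push_cast
    ring
  have hcj : c j = (J : ℝ) * (2 * n - J) := by
    rw [valB hc j, hJr]
    ring
  have hc0 : 0 ≤ c j := by
    rw [hcj]
    exact mul_nonneg (by linarith) (by linarith)
  obtain ⟨D, hD⟩ : ∃ D : ℝ, D = 3 * (n : ℝ) * (2 * n - 1) / 2 := ⟨_, rfl⟩
  obtain ⟨G, hG⟩ : ∃ G : ℕ → ℝ, ∀ x : ℕ, G x = D * ((min x J : ℕ) : ℝ) - c j * ((x : ℝ) * (2 * n + 1 - x)) / 2 :=
    ⟨_, fun x => rfl⟩
  have hG0 : G 0 = 0 := by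
    rw [hG]
    simp
  have hle : ∀ x : ℕ, 1 ≤ x → x ≤ n → (2 ≤ x ∨ 2 ≤ J) → G x ≤ 0 := by
    intro x h1 h2 h3
    rw [hG, hcj, hD]
    exact gb_sign hn h1 h2 (by omega) (by omega) h3
  have hn1 : ((n - 1 : ℕ) : ℝ) = n - 1 := by
    rw [Nat.cast_sub (by omega)]
    simp
  have hstep : ∀ k : ℕ, 2 * G (k + 1) - G k - G (k + 2) = (if k = (j : ℕ) then D else 0) - c j := by
    intro k
    rw [hG, hG, hG]
    have h1 : 2 * ((min (k + 1) J : ℕ) : ℝ) - ((min k J : ℕ) : ℝ) - ((min (k + 2) J : ℕ) : ℝ) = if k = (j : ℕ) then 1 else 0 := by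
      rcases lt_trichotomy k (j : ℕ) with h | h | h
      · rw [if_neg (by omega), min_eq_left (show k + 1 ≤ J by omega), min_eq_left (show k ≤ J by omega), min_eq_left (show k + 2 ≤ J by omega)]
        push_cast
        ring
      · rw [if_pos h, min_eq_left (show k + 1 ≤ J by omega), min_eq_left (show k ≤ J by omega), min_eq_right (show J ≤ k + 2 by omega)]
        have h2 : J = k + 1 := by omega
        rw [h2]
        push_cast
        ring
      · rw [if_neg (by omega), min_eq_right (show J ≤ k + 1 by omega), min_eq_right (show J ≤ k by omega), min_eq_right (show J ≤ k + 2 by omega)]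
        ring
    have h2 : (if k = (j : ℕ) then D else 0) = D * (if k = (j : ℕ) then 1 else 0) := by
      split_ifs <;> ring
    rw [h2, ← h1]
    push_cast
    ring
  have hend : G n - G (n - 1) = (if J = n then D else 0) - c j := by
    rw [hG, hG, hn1]
    by_cases h : J = n
    · rw [if_pos h, h, min_self, min_eq_left (show n - 1 ≤ n by omega), hn1]
      ring
    · rw [if_neg h, min_eq_right (show J ≤ n by omega), min_eq_right (show J ≤ n - 1 by omega)]
      ring
  have hcert := cert (A := CartanMatrix.B n) he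
    (g := fun i : Fin n => if (i : ℕ) + 1 = n then G n / 2 else G (i + 1))
    (D := D) (c := c j) (X := c j * (n / 2)) (j := j) (by
      intro k
      rw [rowB n G hG0 k]
      have hkj : (k = j) ↔ ((k : ℕ) = (j : ℕ)) := Fin.ext_iff
      have hk2 := k.2
      by_cases hk : (k : ℕ) + 1 < n
      · rw [if_pos hk, hstep]
        by_cases h : k = j
        · rw [if_pos h, if_pos (hkj.1 h)]
        · rw [if_neg h, if_neg fun h' => h (hkj.2 h')]
      · rw [if_neg hk, hend]
        by_cases h : k = j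
        · have h1 := hkj.1 h
          rw [if_pos h, if_pos (by omega)]
        · have h1 : ¬ (k : ℕ) = (j : ℕ) := fun h' => h (hkj.2 h')
          rw [if_neg h, if_neg (by omega)]) (by
      by_cases hJ1 : J = 1
      · have hG1 : G 1 = (n : ℝ) * (2 * n - 1) / 2 := by
          rw [hG, hcj, hJ1, hD]
          simp only [min_self, Nat.cast_one]
          ring
        have hpos : (0 : ℝ) ≤ (n : ℝ) * (2 * n - 1) / 2 := div_nonneg (mul_nonneg (by linarith) (by linarith)) (by norm_num)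
        have hb : ∀ i : Fin n, max (if (i : ℕ) + 1 = n then G n / 2 else G (i + 1)) 0 ≤
            if (i : ℕ) = 0 then ((n : ℝ) * (2 * n - 1) / 2) else 0 := by
          intro i
          have hi2 := i.2
          by_cases hi : (i : ℕ) + 1 = n
          · rw [if_pos hi, if_neg (show ¬ (i : ℕ) = 0 by omega)]
            have h1 := hle n (by omega) le_rfl (Or.inl (by omega))
            exact max_le (by linarith) le_rfl
          · rw [if_neg hi]
            by_cases hi0 : (i : ℕ) = 0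
            · rw [if_pos hi0, hi0, zero_add, hG1]
              exact max_le le_rfl hpos
            · rw [if_neg hi0]
              exact max_le (hle _ (by omega) (by omega) (Or.inl (by omega))) le_rfl
        refine (Finset.sum_le_sum fun i _ => hb i).trans ?_
        rw [sum_at 0 (fun _ => (n : ℝ) * (2 * n - 1) / 2), if_pos (by omega), hcj, hJ1]
        push_cast
        nlinarith
      · have hb : ∀ i : Fin n, max (if (i : ℕ) + 1 = n then G n / 2 else G (i + 1)) 0 ≤ 0 := by
          intro i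
          have hi2 := i.2
          by_cases hi : (i : ℕ) + 1 = n
          · rw [if_pos hi]
            have h1 := hle n (by omega) le_rfl (Or.inl (by omega))
            exact max_le (by linarith) le_rfl
          · rw [if_neg hi]
            exact max_le (hle _ (by omega) (by omega) (Or.inr (by omega))) le_rfl
        refine (Finset.sum_le_sum fun i _ => hb i).trans ?_
        rw [Finset.sum_const_zero]
        exact mul_nonneg hc0 (by positivity))
  have h9 : c j * (∑ k, e k + n / 2) = c j * ∑ k, e k + c j * (n / 2) := by ring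
  rw [h9, ← hD]
  exact hcert

/-- Type `B_3`. -/
theorem gB3 : Sq (CartanMatrix.B 3) (45 / 2) := by
  intro c hc e he j
  unfold Box at he
  rw [is_B3] at hc he
  have a0 := hc 0
  have a1 := hc 1
  have a2 := hc 2
  obtain ⟨b0, d0⟩ := he 0
  obtain ⟨b1, d1⟩ := he 1
  obtain ⟨b2, d2⟩ := he 2
  simp [pr, Fin.sum_univ_succ] at a0 b0 d0 a1 b1 d1 a2 b2 d2
  have c0 : c 0 = 5 := by linarith
  have c1 : c 1 = 8 := by linarith
  have c2 : c 2 = 9 := by linarith
  fin_cases j
  · simp [Fin.sum_univ_succ]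
    rw [c0]
    linarith
  · simp [Fin.sum_univ_succ]
    rw [c1]
    linarith
  · simp [Fin.sum_univ_succ]
    rw [c2]
    linarith

theorem gb_B4 : CartanMatrix.B 4 = !![2, -1, 0, 0; -1, 2, -1, 0; 0, -1, 2, -2; 0, 0, -1, 2] := by decide

/-- Type `B_4`. -/
theorem gB4 : Sq (CartanMatrix.B 4) 42 := by
  intro c hc e he j
  unfold Box at he
  rw [gb_B4] at hc he
  have a0 := hc 0
  have a1 := hc 1
  have a2 := hc 2
  have a3 := hc 3
  obtain ⟨b0, d0⟩ := he 0
  obtain ⟨b1, d1⟩ := he 1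
  obtain ⟨b2, d2⟩ := he 2
  obtain ⟨b3, d3⟩ := he 3
  simp [pr, Fin.sum_univ_succ] at a0 b0 d0 a1 b1 d1 a2 b2 d2 a3 b3 d3
  have c0 : c 0 = 7 := by linarith
  have c1 : c 1 = 12 := by linarith
  have c2 : c 2 = 15 := by linarith
  have c3 : c 3 = 16 := by linarith
  fin_cases j
  · simp [Fin.sum_univ_succ]
    rw [c0]
    linarith
  · simp [Fin.sum_univ_succ]
    rw [c1]
    linarith
  · simp [Fin.sum_univ_succ]
    rw [c2]
    linarith
  · simp [Fin.sum_univ_succ]
    rw [c3]
    linarith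

/-- **Type `B_n`, `n ≥ 3`.** -/
theorem gB {n : ℕ} (hn : 3 ≤ n) : Sq (CartanMatrix.B n) (3 * n * (2 * n - 1) / 2) := by
  by_cases h5 : 5 ≤ n
  · exact gB_big h5
  · have h : n = 3 ∨ n = 4 := by omega
    rcases h with rfl | rfl
    · have := gB3
      norm_num
      exact this
    · have := gB4
      norm_num
      exact this

end Pool.Agent.Lib.L8.F7
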