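import Pool.Agent.Lib.L8.F7.Defs
import Pool.Agent.Lib.L8.F7.VA

/-!
# F7 GDS: the inequality with the number (n - 1)(3 n - 2), type D, spin nodes (helper66)
-/

namespace Pool.Agent.Lib.L8.F7

open Matrix

/-- The vector of `rowD` with `G x = (n - 1) (3 n - 2) x / 2 - (n (n - 1) / 2) x (2 n - 1 - x) / 2`; `G x ≤ 0` for `1 ≤ x ≤ n - 2`,
the larger of `u`, `v` is at most `n ^ 2 (n - 1) / 4`. -/
theorem gnD_spin {n : ℕ} (hn : 4 ≤ n) {c : Fin n → ℝ} (hc : ∀ i, pr (CartanMatrix.D n) c i = 2) {e : Fin n → ℝ} (he : Box (CartanMatrix.D n) e) (j : Fin n) (hj : n ≤ (j : ℕ) + 2) :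
    ((n : ℝ) - 1) * (3 * n - 2) * e j ≤ c j * (∑ k, e k + n / 2) := by
  have hnr : (4 : ℝ) ≤ n := by exact_mod_cast hn
  have hjn := j.2
  have hcj : c j = (n : ℝ) * ((n : ℝ) - 1) / 2 := by
    rw [va_D (by omega) hc j, if_neg (by omega)]
  have hc0 : 0 ≤ c j := by
    rw [hcj]
    have h1 : (0 : ℝ) ≤ (n : ℝ) * ((n : ℝ) - 1) := mul_nonneg (by linarith) (by linarith)
    linarith
  obtain ⟨G, hG⟩ : ∃ G : ℕ → ℝ, ∀ x : ℕ, G x = ((n : ℝ) - 1) * (3 * n - 2) * x / 2 - c j * ((x : ℝ) * (2 * n - 1 - x)) / 2 :=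
    ⟨_, fun x => rfl⟩
  have hG0 : G 0 = 0 := by
    rw [hG]
    simp
  have hn1 : ((n - 1 : ℕ) : ℝ) = n - 1 := by
    rw [Nat.cast_sub (by omega)]
    simp
  have hn2 : ((n - 2 : ℕ) : ℝ) = n - 2 := by
    rw [Nat.cast_sub (by omega)]
    simp
  obtain ⟨u, hu⟩ : ∃ u : ℝ, u = (G (n - 2) - c j + (if (j : ℕ) + 2 = n then ((n : ℝ) - 1) * (3 * n - 2) else 0)) / 2 := ⟨_, rfl⟩
  obtain ⟨v, hv⟩ : ∃ v : ℝ, v = (G (n - 2) - c j + (if (j : ℕ) + 2 = n then 0 else ((n : ℝ) - 1) * (3 * n - 2))) / 2 := ⟨_, rfl⟩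
  have huv : u + v = G (n - 1) := by
    have h1 : G (n - 1) = G (n - 2) + ((n : ℝ) - 1) * (3 * n - 2) / 2 - c j := by
      rw [hG, hG, hn1, hn2]
      ring
    rw [h1, hu, hv]
    split_ifs <;> ring
  have hrow := rowD n (by omega) G u v hG0 huv
  have hg : ∀ k, rw' (CartanMatrix.D n) (fun i : Fin n => if (i : ℕ) + 2 < n then G (i + 1) else if (i : ℕ) + 2 = n then u else v) k =
      (if k = j then ((n : ℝ) - 1) * (3 * n - 2) else 0) - c j := by
    intro k
    rw [hrow k]
    have hk := k.2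
    by_cases c1 : (k : ℕ) + 2 < n
    · have c4 : k ≠ j := by
        intro h
        rw [h] at c1
        omega
      rw [if_pos c1, if_neg c4, hG, hG, hG]
      push_cast
      ring
    · rw [if_neg c1]
      by_cases c2 : (k : ℕ) + 2 = n
      · rw [if_pos c2, hu]
        by_cases c3 : (j : ℕ) + 2 = n
        · have c4 : k = j := Fin.ext (by omega)
          rw [if_pos c3, if_pos c4]
          ring
        · have c4 : k ≠ j := by
            intro h
            rw [h] at c2
            exact c3 c2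
          rw [if_neg c3, if_neg c4]
          ring
      · rw [if_neg c2, hv]
        by_cases c3 : (j : ℕ) + 2 = n
        · have c4 : k ≠ j := by
            intro h
            rw [h] at c2
            exact c2 c3
          rw [if_pos c3, if_neg c4]
          ring
        · have c4 : k = j := Fin.ext (by omega)
          rw [if_neg c3, if_pos c4]
          ring
  have hle : ∀ x : ℕ, 1 ≤ x → x ≤ n - 2 → G x ≤ 0 := by
    intro x h1 h2
    have h1r : (1 : ℝ) ≤ x := by exact_mod_cast h1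
    have h2r : (x : ℝ) ≤ n - 2 := by
      have h3 : x + 2 ≤ n := by omega
      have h4 : (x : ℝ) + 2 ≤ n := by exact_mod_cast h3
      linarith
    rw [hG, hcj]
    have h5 : 0 ≤ (n : ℝ) * (2 * n - 1 - x) - 2 * (3 * n - 2) := by
      have h6 : (n : ℝ) * (n + 1) ≤ (n : ℝ) * (2 * n - 1 - x) := mul_le_mul_of_nonneg_left (by linarith) (by linarith)
      nlinarith
    have h7 : 0 ≤ (x : ℝ) * (n - 1) := mul_nonneg (by linarith) (by linarith)
    have h8 := mul_nonneg h7 h5
    have h9 : ((n : ℝ) - 1) * (3 * n - 2) * x / 2 - (n : ℝ) * (n - 1) / 2 * ((x : ℝ) * (2 * n - 1 - x)) / 2 =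
        - ((x : ℝ) * (n - 1) * ((n : ℝ) * (2 * n - 1 - x) - 2 * (3 * n - 2))) / 4 := by ring
    rw [h9]
    linarith
  have hE : (G (n - 2) - c j + ((n : ℝ) - 1) * (3 * n - 2)) / 2 ≤ (n : ℝ) * n * (n - 1) / 4 := by
    rw [hG, hn2, hcj]
    have h9 : (n : ℝ) * n * (n - 1) / 4 - (((n : ℝ) - 1) * (3 * n - 2) * (n - 2) / 2 -
        (n : ℝ) * (n - 1) / 2 * (((n : ℝ) - 2) * (2 * n - 1 - (n - 2))) / 2 -
        (n : ℝ) * (n - 1) / 2 + ((n : ℝ) - 1) * (3 * n - 2)) / 2 = (n : ℝ) * (n - 1) * ((n - 1) * (n - 4)) / 8 := by ring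
    have h10 : 0 ≤ (n : ℝ) * (n - 1) * ((n - 1) * (n - 4)) :=
      mul_nonneg (mul_nonneg (by linarith) (by linarith)) (mul_nonneg (by linarith) (by linarith))
    linarith
  have hE2 : (G (n - 2) - c j) / 2 ≤ 0 := by
    have h1 := hle (n - 2) (by omega) le_rfl
    linarith
  have hK : (0 : ℝ) ≤ (n : ℝ) * n * (n - 1) / 4 := by
    have := mul_nonneg (mul_nonneg (show (0 : ℝ) ≤ n by linarith) (show (0 : ℝ) ≤ n by linarith)) (show (0 : ℝ) ≤ (n : ℝ) - 1 by linarith)
    linarith
  have hs : ∑ i : Fin n, max ((fun i : Fin n => if (i : ℕ) + 2 < n then G (i + 1) else if (i : ℕ) + 2 = n then u else v) i) 0 ≤ (n : ℝ) * n * (n - 1) / 4 := by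
    have hb : ∀ i : Fin n, max ((fun i : Fin n => if (i : ℕ) + 2 < n then G (i + 1) else if (i : ℕ) + 2 = n then u else v) i) 0 ≤
        if i = j then (n : ℝ) * n * (n - 1) / 4 else 0 := by
      intro i
      have hi := i.2
      show max (if (i : ℕ) + 2 < n then G (i + 1) else if (i : ℕ) + 2 = n then u else v) 0 ≤ _
      by_cases c1 : (i : ℕ) + 2 < n
      · have c4 : i ≠ j := by
          intro h
          rw [h] at c1
          omega
        rw [if_pos c1, if_neg c4]
        exact max_le (hle _ (by omega) (by omega)) le_rfl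
      · rw [if_neg c1]
        by_cases c2 : (i : ℕ) + 2 = n
        · rw [if_pos c2, hu]
          by_cases c3 : (j : ℕ) + 2 = n
          · rw [if_pos c3, if_pos (Fin.ext (by omega) : i = j)]
            exact max_le hE hK
          · rw [if_neg c3, if_neg (by
              intro h
              rw [h] at c2
              exact c3 c2)]
            exact max_le (by rw [add_zero]; exact hE2) le_rfl
        · rw [if_neg c2, hv]
          by_cases c3 : (j : ℕ) + 2 = n
          · rw [if_pos c3, if_neg (by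
              intro h
              rw [h] at c2
              exact c2 c3)]
            exact max_le (by rw [add_zero]; exact hE2) le_rfl
          · rw [if_neg c3, if_pos (Fin.ext (by omega) : i = j)]
            exact max_le hE hK
    refine (Finset.sum_le_sum fun i _ => hb i).trans (le_of_eq ?_)
    rw [Finset.sum_ite_eq' Finset.univ j (fun _ => (n : ℝ) * n * (n - 1) / 4), if_pos (Finset.mem_univ j)]
  have hfin := cert he hg hs
  have h12 : c j * (∑ k, e k + n / 2) = c j * ∑ k, e k + c j * n / 2 := by ring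
  rw [h12]
  have h13 : c j * n / 2 = (n : ℝ) * n * (n - 1) / 4 := by
    rw [hcj]
    ring
  linarith

end Pool.Agent.Lib.L8.F7
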