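import Pool.Agent.Lib.L8.F7.Defs
import Pool.Agent.Lib.L8.F7.VA

/-!
# F7 IA (M): the inequality, type A, n >= 6 (helper31)
-/

namespace Pool.Agent.Lib.L8.F7

open Matrix

/-- The truncated tent. -/
def ia_T (n j b x : ℕ) : ℕ := min (min x (n + 1 - x)) (min (j + 1) b)

theorem ia_T_rec (n j b k : ℕ) (hn : n = j + b) (hb : 1 ≤ b) (hk : k < n) :
    2 * ia_T n j b (k + 1) = ia_T n j b k + ia_T n j b (k + 2) + (if k = j then 1 else 0) + (if k = n - (j + 1) then 1 else 0) := by
  unfold ia_T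
  split_ifs <;> omega

theorem ia_key (q m : ℕ) (h2 : 2 ≤ q) (hq : 2 * q ≤ m) (hm : 7 ≤ m) : ((m : ℝ) - 1) * ((m : ℝ) + 1) ≤ q * ((m : ℝ) - q) ^ 2 := by
  obtain ⟨s, rfl⟩ : ∃ s, q = 2 + s := ⟨q - 2, by omega⟩
  obtain ⟨t, rfl⟩ : ∃ t, m = 2 * (2 + s) + t := ⟨m - 2 * (2 + s), by omega⟩
  rcases s with _ | _ | s
  · have h3 : (3 : ℝ) ≤ t := by exact_mod_cast (by omega : 3 ≤ t)
    push_cast
    nlinarith
  · have h3 : (1 : ℝ) ≤ t := by exact_mod_cast (by omega : 1 ≤ t)
    push_cast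
    nlinarith
  · have h3 : (0 : ℝ) ≤ s * (4 + s) ^ 2 + 2 * (4 + s) * (2 + s) * t + (3 + s) * t ^ 2 + 1 := by positivity
    push_cast
    nlinarith

/-- The product of two numbers in the middle. -/
theorem ia_prod (n p q : ℕ) (hn : 6 ≤ n) (hp : 1 ≤ p) (hpq : p ≤ q) (h2 : 2 ≤ q) (hq : 2 * q ≤ n + 1) :
    (n : ℝ) * (n + 2) * p ≤ q * (n + 1 - q) * (p * (n + 1 - p)) := by
  have h1 := ia_key q (n + 1) h2 hq (by omega)
  push_cast at h1
  have h3 : (p : ℝ) ≤ q := by exact_mod_cast hpq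
  have h4 : (1 : ℝ) ≤ p := by exact_mod_cast hp
  have h5 : (2 : ℝ) * q ≤ n + 1 := by exact_mod_cast hq
  have h6 : (2 : ℝ) ≤ q := by exact_mod_cast h2
  have h7 : (n : ℝ) * (n + 2) ≤ q * (n + 1 - q) * (n + 1 - p) := by
    have h8 : (0 : ℝ) ≤ q * (n + 1 - q) * (q - p) := by
      apply mul_nonneg (mul_nonneg (by linarith) (by linarith)) (by linarith)
    nlinarith
  calc (n : ℝ) * (n + 2) * p ≤ q * (n + 1 - q) * (n + 1 - p) * p := mul_le_mul_of_nonneg_right h7 (by linarith)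
    _ = _ := by ring

/-- Proof. Put `q = min (j + 1) (n - j)`, so `c j = (j + 1) (n - j) = q (n + 1 - q)` (`valA`), and
`G x = n (n + 2) min (min x (n + 1 - x)) q - q (n + 1 - q) x (n + 1 - x)` for `x : ℕ` (`x ≤ n + 1`; real numbers). `rowA` with `G` (`G 0 = 0`, `G (n + 1) = 0`) gives for the vector `g i = G (i + 1)`:
`rw' (A n) g k = 2 G (k + 1) - G k - G (k + 2) = n (n + 2) ([k = j] + [k = rev j]) - 2 c j`: the second difference of `x (n + 1 - x)` is `2`, and the one of the truncated tent `T x = min (min x (n + 1 - x)) q` at `x = k + 1` is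
`[x = q] + [x = n + 1 - q]` (`2` if both hold); `{q, n + 1 - q} = {j + 1, n - j}` (rev j = n - 1 - j). (Cases on `x < q`, `x = q`, `q < x < n + 1 - q`, ...: `rcases`, `omega` for natural numbers first, then push_cast.)
So `cert0 he g` gives `n (n + 2) (e j + e j.rev) - 2 c j ∑ e ≤ ∑ i, max (g i) 0`. Signs: let `p = min x (n + 1 - x) ≥ 1`, both `p, q ≤ (n + 1) / 2`: `G x = n (n + 2) min p q - q (n + 1 - q) p (n + 1 - p)`, symmetric in `p, q`. For `p ≤ q`, `q ≥ 2`: `G x ≤ 0`, that is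
`n (n + 2) ≤ q (n + 1 - q) (n + 1 - p)`: for `p ≤ q`: `n + 1 - p ≥ n + 1 - q ≥ (n + 1) / 2`; `q = 2`: `2 (n - 1) (n - 1) ≥ n (n + 2)` for `n ≥ 6`; `q ≥ 3`: `q (n + 1 - q) ≥ 3 (n - 2)` and `3 (n - 2) (n + 1) / 2 ≥ n (n + 2)` for `n ≥ 8`; for
`n = 6` (`q = 3`: `3 · 4 · 4 ≥ 48`) and `n = 7` (`q = 3`: `3 · 5 · 5 ≥ 63`, `q = 4`: `4 · 4 · 4 ≥ 63`) directly. So `g i ≤ 0` for all `i` if `q ≥ 2`; if `q = 1` then `g i ≤ 0` except for `i = 0` and `i = n - 1`, where `g i = n (n + 2) - n n = 2 n`.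
Hence `∑ max (g i) 0 ≤ 4 n ≤ n · n = n (c j)` if `q = 1` (`c j = n`), and `≤ 0` otherwise. -/
theorem inA_big {n : ℕ} (hn : 6 ≤ n) {c : Fin n → ℝ} (hc : ∀ i, pr (CartanMatrix.A n) c i = 2) {e : Fin n → ℝ} (he : Box (CartanMatrix.A n) e) (j : Fin n) :
    n * (n + 2) * (e j + e j.rev) ≤ c j * (2 * ∑ k, e k + n) := by
  obtain ⟨j, hj⟩ := j
  obtain ⟨b, hb⟩ : ∃ b, n = j + b := ⟨n - j, by omega⟩
  have hb1 : 1 ≤ b := by omega
  have hcj := valA hc ⟨j, hj⟩
  have hnb : (n : ℝ) = j + b := by exact_mod_cast hb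
  have hcj' : c ⟨j, hj⟩ = (j + 1) * b := by
    rw [hcj]
    have h1 : (n : ℝ) - ((⟨j, hj⟩ : Fin n) : ℕ) = b := by
      show (n : ℝ) - (j : ℝ) = b
      linarith
    rw [h1]
  have hrev : ((⟨j, hj⟩ : Fin n).rev : ℕ) = n - (j + 1) := by simp [Fin.rev]
  -- the function
  let G : ℕ → ℝ := fun x => (n : ℝ) * (n + 2) * (ia_T n j b x : ℝ) - (j + 1) * b * (x * (n + 1 - x))
  have hG0 : G 0 = 0 := by
    have : ia_T n j b 0 = 0 := by unfold ia_T; omega
    simp [G, this]
  have hGn : G (n + 1) = 0 := by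
    have : ia_T n j b (n + 1) = 0 := by unfold ia_T; omega
    simp [G, this]
  have hrow : ∀ k : Fin n, rw' (CartanMatrix.A n) (fun i => G (i + 1)) k =
      (n : ℝ) * (n + 2) * ((if k = (⟨j, hj⟩ : Fin n) then 1 else 0) + (if k = (⟨j, hj⟩ : Fin n).rev then 1 else 0)) - 2 * ((j + 1) * b) := by
    intro k
    rw [rowA n G hG0 hGn k]
    have h1 := ia_T_rec n j b k hb hb1 k.2
    have h2 : (2 : ℝ) * ia_T n j b (k + 1) = ia_T n j b k + ia_T n j b (k + 2) + (if (k : ℕ) = j then 1 else 0) + (if (k : ℕ) = n - (j + 1) then 1 else 0) := by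
      exact_mod_cast h1
    have h3 : (k = (⟨j, hj⟩ : Fin n)) ↔ (k : ℕ) = j := by rw [Fin.ext_iff]
    have h4 : (k = (⟨j, hj⟩ : Fin n).rev) ↔ (k : ℕ) = n - (j + 1) := by rw [Fin.ext_iff, hrev]
    simp only [h3, h4]
    simp only [G]
    push_cast
    have h5 : (ia_T n j b (k + 1) : ℝ) = (ia_T n j b k + ia_T n j b (k + 2) + (if (k : ℕ) = j then 1 else 0) + (if (k : ℕ) = n - (j + 1) then 1 else 0)) / 2 := by linarith
    rw [h5]
    ring
  have hcert := cert0 he (fun i => G (i + 1))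
  have hlhs : ∑ k, e k * rw' (CartanMatrix.A n) (fun i => G (i + 1)) k = (n : ℝ) * (n + 2) * (e ⟨j, hj⟩ + e (⟨j, hj⟩ : Fin n).rev) - 2 * ((j + 1) * b) * ∑ k, e k := by
    simp only [hrow]
    have h1 : ∀ k : Fin n, e k * ((n : ℝ) * (n + 2) * ((if k = (⟨j, hj⟩ : Fin n) then 1 else 0) + (if k = (⟨j, hj⟩ : Fin n).rev then 1 else 0)) - 2 * ((j + 1) * b)) =
        (n : ℝ) * (n + 2) * (if k = (⟨j, hj⟩ : Fin n) then e k else 0) + (n : ℝ) * (n + 2) * (if k = (⟨j, hj⟩ : Fin n).rev then e k else 0) - 2 * ((j + 1) * b) * e k := by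
      intro k
      split_ifs <;> ring
    rw [Finset.sum_congr rfl fun k _ => h1 k, Finset.sum_sub_distrib, Finset.sum_add_distrib, ← Finset.mul_sum, ← Finset.mul_sum, ← Finset.mul_sum,
      Finset.sum_ite_eq' , Finset.sum_ite_eq', if_pos (Finset.mem_univ _), if_pos (Finset.mem_univ _)]
    ring
  have hrhs : ∑ i : Fin n, max (G (i + 1)) 0 ≤ n * ((j + 1) * b) := by
    -- the numbers p and q
    have hpos : (0 : ℝ) ≤ n * ((j + 1) * b) := by positivity
    by_cases hq : 2 ≤ min (j + 1) b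
    · have hneg : ∀ i : Fin n, max (G (i + 1)) 0 = 0 := by
        intro i
        apply max_eq_right
        have hi := i.2
        obtain ⟨y, hy⟩ : ∃ y, n = (i : ℕ) + y := ⟨n - i, by omega⟩
        have hyr : (n : ℝ) = (i : ℕ) + y := by exact_mod_cast hy
        -- general bound
        have hgen : ∀ p q : ℕ, p ≤ q → 1 ≤ p → 2 ≤ q → 2 * q ≤ n + 1 → (n : ℝ) * (n + 2) * (p : ℕ) ≤ q * (n + 1 - q) * (p * (n + 1 - p)) :=
          fun p q h1 h2 h3 h4 => ia_prod n p q hn h2 h1 h3 h4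
        -- the products in terms of minima
        have hx : (((i : ℕ) + 1 : ℕ) : ℝ) * (n + 1 - ((i : ℕ) + 1 : ℕ)) = (min ((i : ℕ) + 1) y : ℕ) * (n + 1 - (min ((i : ℕ) + 1) y : ℕ)) := by
          rcases le_total ((i : ℕ) + 1) y with h1 | h1
          · rw [min_eq_left h1]
          · rw [min_eq_right h1]
            push_cast
            rw [hyr]
            ring
        have hjb : ((j : ℝ) + 1) * b = (min (j + 1) b : ℕ) * (n + 1 - (min (j + 1) b : ℕ)) := by
          rcases le_total (j + 1) b with h1 | h1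
          · rw [min_eq_left h1]
            push_cast
            rw [hnb]
            ring
          · rw [min_eq_right h1]
            rw [hnb]
            ring
        have hT : ia_T n j b ((i : ℕ) + 1) = min (min ((i : ℕ) + 1) y) (min (j + 1) b) := by
          unfold ia_T
          omega
        show (n : ℝ) * (n + 2) * (ia_T n j b ((i : ℕ) + 1) : ℝ) - (j + 1) * b * ((((i : ℕ) + 1 : ℕ) : ℝ) * (n + 1 - ((i : ℕ) + 1 : ℕ))) ≤ 0
        rw [hx, hjb, hT]
        have hp1 : 1 ≤ min ((i : ℕ) + 1) y := by omega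
        have hp2 : 2 * min ((i : ℕ) + 1) y ≤ n + 1 := by omega
        have hq2 : 2 * min (j + 1) b ≤ n + 1 := by omega
        generalize min ((i : ℕ) + 1) y = p at *
        generalize min (j + 1) b = q at *
        rcases le_total p q with h1 | h1
        · rw [min_eq_left h1]
          have := hgen p q h1 hp1 hq hq2
          linarith
        · rw [min_eq_right h1]
          have := hgen q p h1 (by omega) (by omega) hp2
          linarith
      rw [Finset.sum_congr rfl fun i _ => hneg i, Finset.sum_const_zero]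
      exact hpos
    · have hq1 : min (j + 1) b = 1 := by omega
      have hjb : ((j : ℝ) + 1) * b = n := by
        rcases le_total (j + 1) b with h1 | h1
        · have : j = 0 := by omega
          subst this
          rw [hnb]
          push_cast
          ring
        · have : b = 1 := by omega
          subst this
          rw [hnb]
          push_cast
          ring
      have hterm : ∀ i : Fin n, max (G (i + 1)) 0 ≤ (if (i : ℕ) = 0 then 2 * (n : ℝ) else 0) + (if (i : ℕ) = n - 1 then 2 * (n : ℝ) else 0) := by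
        intro i
        have hi := i.2
        have hn6 : (6 : ℝ) ≤ n := by exact_mod_cast hn
        have hT : ia_T n j b ((i : ℕ) + 1) = 1 := by
          unfold ia_T
          omega
        have hG : G (i + 1) = (n : ℝ) * (n + 2) - n * (((i : ℕ) + 1) * (n - (i : ℕ))) := by
          show (n : ℝ) * (n + 2) * (ia_T n j b ((i : ℕ) + 1) : ℝ) - (j + 1) * b * ((((i : ℕ) + 1 : ℕ) : ℝ) * (n + 1 - ((i : ℕ) + 1 : ℕ))) = _
          rw [hT, hjb]
          push_cast
          ring
        rw [hG]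
        have hR : (0 : ℝ) ≤ (if (i : ℕ) = 0 then 2 * (n : ℝ) else 0) + (if (i : ℕ) = n - 1 then 2 * (n : ℝ) else 0) := by
          split_ifs <;> linarith
        apply max_le _ hR
        by_cases h0 : (i : ℕ) = 0
        · have h1 : (if (i : ℕ) = n - 1 then 2 * (n : ℝ) else 0) ≥ 0 := by split_ifs <;> linarith
          have h2 : (n : ℝ) * (n + 2) - n * ((((i : ℕ) : ℝ) + 1) * (n - (i : ℕ))) = 2 * n := by
            rw [h0]
            push_cast
            ring
          rw [if_pos h0]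
          linarith
        · by_cases h1 : (i : ℕ) = n - 1
          · have h2 : ((i : ℕ) : ℝ) = n - 1 := by
              rw [h1, Nat.cast_sub (by omega)]
              simp
            rw [if_neg h0, if_pos h1, h2]
            nlinarith
          · rw [if_neg h0, if_neg h1]
            have h2 : (1 : ℝ) ≤ (i : ℕ) := by exact_mod_cast (by omega : 1 ≤ (i : ℕ))
            have h3 : ((i : ℕ) : ℝ) + 2 ≤ n := by exact_mod_cast (by omega : (i : ℕ) + 2 ≤ n)
            have h4 : (n : ℝ) + 2 ≤ (((i : ℕ) : ℝ) + 1) * (n - (i : ℕ)) := by nlinarith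
            nlinarith
      calc ∑ i : Fin n, max (G (i + 1)) 0 ≤ ∑ i : Fin n, ((if (i : ℕ) = 0 then 2 * (n : ℝ) else 0) + (if (i : ℕ) = n - 1 then 2 * (n : ℝ) else 0)) :=
            Finset.sum_le_sum fun i _ => hterm i
        _ = 4 * n := by
            rw [Finset.sum_add_distrib, sum_at 0 (fun _ => 2 * (n : ℝ)), sum_at (n - 1) (fun _ => 2 * (n : ℝ)), if_pos (by omega), if_pos (by omega)]
            ring
        _ ≤ n * ((j + 1) * b) := by
            rw [hjb]
            have hn6 : (6 : ℝ) ≤ n := by exact_mod_cast hn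
            nlinarith
  rw [hcj']
  rw [hlhs] at hcert
  have h9 := hcert.trans hrhs
  linarith

end Pool.Agent.Lib.L8.F7
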