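import Pool.Agent.Lib.L8.F7.Defs
import Pool.Agent.Lib.L8.F7.VA

/-!
# F7 IA4 (S/M): the inequality, types A4 and A5 (helper31)
-/

namespace Pool.Agent.Lib.L8.F7

open Matrix

theorem ia4_pr4 (e : Fin 4 → ℝ) : pr (CartanMatrix.A 4) e 0 = 2 * e 0 - e 1 ∧ pr (CartanMatrix.A 4) e 1 = 2 * e 1 - e 0 - e 2 ∧
    pr (CartanMatrix.A 4) e 2 = 2 * e 2 - e 1 - e 3 ∧ pr (CartanMatrix.A 4) e 3 = 2 * e 3 - e 2 := by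
  have h : ∀ k i : Fin 4, CartanMatrix.A 4 k i = (!![2, -1, 0, 0; -1, 2, -1, 0; 0, -1, 2, -1; 0, 0, -1, 2] : Matrix (Fin 4) (Fin 4) ℤ) k i := by
    intro k i
    fin_cases k <;> fin_cases i <;> rfl
  refine ⟨?_, ?_, ?_, ?_⟩ <;> (unfold pr; simp only [h, Fin.sum_univ_four]; simp; ring)
theorem ia4_pr5 (e : Fin 5 → ℝ) : pr (CartanMatrix.A 5) e 0 = 2 * e 0 - e 1 ∧ pr (CartanMatrix.A 5) e 1 = 2 * e 1 - e 0 - e 2 ∧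
    pr (CartanMatrix.A 5) e 2 = 2 * e 2 - e 1 - e 3 ∧ pr (CartanMatrix.A 5) e 3 = 2 * e 3 - e 2 - e 4 ∧ pr (CartanMatrix.A 5) e 4 = 2 * e 4 - e 3 := by
  have h : ∀ k i : Fin 5, CartanMatrix.A 5 k i = (!![2, -1, 0, 0, 0; -1, 2, -1, 0, 0; 0, -1, 2, -1, 0; 0, 0, -1, 2, -1; 0, 0, 0, -1, 2] : Matrix (Fin 5) (Fin 5) ℤ) k i := by
    intro k i
    fin_cases k <;> fin_cases i <;> rfl
  refine ⟨?_, ?_, ?_, ?_, ?_⟩ <;> (unfold pr; simp only [h, Fin.sum_univ_five]; simp; ring)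

/-- Proof. `c = (4, 6, 6, 4)` (`valA`). The four numbers `t i = pr (A 4) e i ∈ [0, 1]` (unfold `pr`, `Fin.sum_univ_succ`, entries by simp). For each `j` the inequality is linear: `linarith` (`24 (e 0 + e 3) - 8 ∑ e = 8 t 0 + 8 t 3 ≤ 16`,
`24 (e 1 + e 2) - 12 ∑ e = 12 t 1 + 12 t 2 ≤ 24`; equality is possible). `fin_cases j`. -/
theorem inA4 {c : Fin 4 → ℝ} (hc : ∀ i, pr (CartanMatrix.A 4) c i = 2) {e : Fin 4 → ℝ} (he : Box (CartanMatrix.A 4) e) (j : Fin 4) :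
    4 * (4 + 2) * (e j + e j.rev) ≤ c j * (2 * ∑ k, e k + 4) := by
  obtain ⟨p0, p1, p2, p3⟩ := ia4_pr4 e
  have h0 := he 0
  have h1 := he 1
  have h2 := he 2
  have h3 := he 3
  rw [p0] at h0
  rw [p1] at h1
  rw [p2] at h2
  rw [p3] at h3
  have hs : ∑ k, e k = e 0 + e 1 + e 2 + e 3 := Fin.sum_univ_four e
  rw [hs, valA hc j]
  fin_cases j
  · show 4 * (4 + 2) * (e 0 + e 3) ≤ (((0 : ℕ) : ℝ) + 1) * (((4 : ℕ) : ℝ) - ((0 : ℕ) : ℝ)) * (2 * (e 0 + e 1 + e 2 + e 3) + 4)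
    push_cast
    linarith [h0.1, h0.2, h1.1, h1.2, h2.1, h2.2, h3.1, h3.2]
  · show 4 * (4 + 2) * (e 1 + e 2) ≤ (((1 : ℕ) : ℝ) + 1) * (((4 : ℕ) : ℝ) - ((1 : ℕ) : ℝ)) * (2 * (e 0 + e 1 + e 2 + e 3) + 4)
    push_cast
    linarith [h0.1, h0.2, h1.1, h1.2, h2.1, h2.2, h3.1, h3.2]
  · show 4 * (4 + 2) * (e 2 + e 1) ≤ (((2 : ℕ) : ℝ) + 1) * (((4 : ℕ) : ℝ) - ((2 : ℕ) : ℝ)) * (2 * (e 0 + e 1 + e 2 + e 3) + 4)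
    push_cast
    linarith [h0.1, h0.2, h1.1, h1.2, h2.1, h2.2, h3.1, h3.2]
  · show 4 * (4 + 2) * (e 3 + e 0) ≤ (((3 : ℕ) : ℝ) + 1) * (((4 : ℕ) : ℝ) - ((3 : ℕ) : ℝ)) * (2 * (e 0 + e 1 + e 2 + e 3) + 4)
    push_cast
    linarith [h0.1, h0.2, h1.1, h1.2, h2.1, h2.2, h3.1, h3.2]

/-- Proof. The same with `c = (5, 8, 9, 8, 5)`: `35 (e 0 + e 4) - 10 ∑ e = 10 t 0 - 5 t 1 - 10 t 2 - 5 t 3 + 10 t 4` (or similar numbers; linarith finds them), at most `25`, ... -/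
theorem inA5 {c : Fin 5 → ℝ} (hc : ∀ i, pr (CartanMatrix.A 5) c i = 2) {e : Fin 5 → ℝ} (he : Box (CartanMatrix.A 5) e) (j : Fin 5) :
    5 * (5 + 2) * (e j + e j.rev) ≤ c j * (2 * ∑ k, e k + 5) := by
  obtain ⟨p0, p1, p2, p3, p4⟩ := ia4_pr5 e
  have h0 := he 0
  have h1 := he 1
  have h2 := he 2
  have h3 := he 3
  have h4 := he 4
  rw [p0] at h0
  rw [p1] at h1
  rw [p2] at h2
  rw [p3] at h3
  rw [p4] at h4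
  have hs : ∑ k, e k = e 0 + e 1 + e 2 + e 3 + e 4 := Fin.sum_univ_five e
  rw [hs, valA hc j]
  fin_cases j
  · show 5 * (5 + 2) * (e 0 + e 4) ≤ (((0 : ℕ) : ℝ) + 1) * (((5 : ℕ) : ℝ) - ((0 : ℕ) : ℝ)) * (2 * (e 0 + e 1 + e 2 + e 3 + e 4) + 5)
    push_cast
    linarith [h0.1, h0.2, h1.1, h1.2, h2.1, h2.2, h3.1, h3.2, h4.1, h4.2]
  · show 5 * (5 + 2) * (e 1 + e 3) ≤ (((1 : ℕ) : ℝ) + 1) * (((5 : ℕ) : ℝ) - ((1 : ℕ) : ℝ)) * (2 * (e 0 + e 1 + e 2 + e 3 + e 4) + 5)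
    push_cast
    linarith [h0.1, h0.2, h1.1, h1.2, h2.1, h2.2, h3.1, h3.2, h4.1, h4.2]
  · show 5 * (5 + 2) * (e 2 + e 2) ≤ (((2 : ℕ) : ℝ) + 1) * (((5 : ℕ) : ℝ) - ((2 : ℕ) : ℝ)) * (2 * (e 0 + e 1 + e 2 + e 3 + e 4) + 5)
    push_cast
    linarith [h0.1, h0.2, h1.1, h1.2, h2.1, h2.2, h3.1, h3.2, h4.1, h4.2]
  · show 5 * (5 + 2) * (e 3 + e 1) ≤ (((3 : ℕ) : ℝ) + 1) * (((5 : ℕ) : ℝ) - ((3 : ℕ) : ℝ)) * (2 * (e 0 + e 1 + e 2 + e 3 + e 4) + 5)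
    push_cast
    linarith [h0.1, h0.2, h1.1, h1.2, h2.1, h2.2, h3.1, h3.2, h4.1, h4.2]
  · show 5 * (5 + 2) * (e 4 + e 0) ≤ (((4 : ℕ) : ℝ) + 1) * (((5 : ℕ) : ℝ) - ((4 : ℕ) : ℝ)) * (2 * (e 0 + e 1 + e 2 + e 3 + e 4) + 5)
    push_cast
    linarith [h0.1, h0.2, h1.1, h1.2, h2.1, h2.2, h3.1, h3.2, h4.1, h4.2]

end Pool.Agent.Lib.L8.F7
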