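import Pool.Agent.Lib.L8.F7.Defs
import Pool.Agent.Lib.L8.F7.VB

/-!
# F7 IB (M): the inequality, type B, n >= 4 (helper31)
-/

namespace Pool.Agent.Lib.L8.F7

open Matrix

theorem ib_key1 {n x J : ℝ} (hn : 4 ≤ n) (hx : 1 ≤ x) (hxJ : x ≤ J) (hJn : J ≤ n) (hJ : J = 2 ∨ 3 ≤ J) :
    2 * n * (2 * n + 1) * x ≤ J * (2 * n - J) * (x * (2 * n + 1 - x)) := by
  have h3 : 2 * n * (2 * n + 1) ≤ J * (2 * n - J) * (2 * n + 1 - x) := by
    rcases hJ with hJ | hJ
    · subst hJ
      have h1 : 2 * n - 1 ≤ 2 * n + 1 - x := by linarith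
      have h2 : (0 : ℝ) ≤ 2 * (2 * n - 2) := by linarith
      have h3 := mul_le_mul_of_nonneg_left h1 h2
      nlinarith
    · have h4 : 3 * (2 * n - 3) ≤ J * (2 * n - J) := by
        nlinarith [mul_nonneg (show (0 : ℝ) ≤ J - 3 by linarith) (show (0 : ℝ) ≤ 2 * n - 3 - J by linarith)]
      have h5 : n + 1 ≤ 2 * n + 1 - x := by linarith
      have h6 : 2 * n * (2 * n + 1) ≤ 3 * (2 * n - 3) * (n + 1) := by nlinarith
      have h7 : 0 ≤ J * (2 * n - J) := mul_nonneg (by linarith) (by linarith)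
      exact h6.trans (mul_le_mul h4 h5 (by linarith) h7)
  have h7 := mul_le_mul_of_nonneg_left h3 (show (0 : ℝ) ≤ x by linarith)
  calc 2 * n * (2 * n + 1) * x = x * (2 * n * (2 * n + 1)) := by ring
    _ ≤ x * (J * (2 * n - J) * (2 * n + 1 - x)) := h7
    _ = J * (2 * n - J) * (x * (2 * n + 1 - x)) := by ring

theorem ib_key2 {n x J : ℝ} (hn : 4 ≤ n) (hJ : 1 ≤ J) (hJx : J + 1 ≤ x) (hxn : x ≤ n) (hx : x = 2 ∨ 3 ≤ x) :
    2 * n * (2 * n + 1) * J ≤ J * (2 * n - J) * (x * (2 * n + 1 - x)) := by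
  have h3 : 2 * n * (2 * n + 1) ≤ (2 * n - J) * (x * (2 * n + 1 - x)) := by
    rcases hx with hx | hx
    · subst hx
      have h1 : 2 * n - 1 ≤ 2 * n - J := by linarith
      have h2 : (0 : ℝ) ≤ 2 * (2 * n + 1 - 2) := by linarith
      have h3 := mul_le_mul_of_nonneg_right h1 h2
      nlinarith
    · have h4 : 3 * (2 * n - 2) ≤ x * (2 * n + 1 - x) := by
        nlinarith [mul_nonneg (show (0 : ℝ) ≤ x - 3 by linarith) (show (0 : ℝ) ≤ 2 * n - 2 - x by linarith)]
      have h5 : n + 1 ≤ 2 * n - J := by linarith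
      have h6 : 2 * n * (2 * n + 1) ≤ (n + 1) * (3 * (2 * n - 2)) := by nlinarith
      exact h6.trans (mul_le_mul h5 h4 (by linarith) (by linarith))
  have h7 := mul_le_mul_of_nonneg_left h3 (show (0 : ℝ) ≤ J by linarith)
  calc 2 * n * (2 * n + 1) * J = J * (2 * n * (2 * n + 1)) := by ring
    _ ≤ J * ((2 * n - J) * (x * (2 * n + 1 - x))) := h7
    _ = J * (2 * n - J) * (x * (2 * n + 1 - x)) := by ring

theorem ib_sign {n x J : ℕ} (hn : 4 ≤ n) (hx : 1 ≤ x) (hx2 : x ≤ n) (hJ : 1 ≤ J) (hJ2 : J ≤ n) (h : 2 ≤ x ∨ 2 ≤ J) :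
    (n : ℝ) * (2 * n + 1) * ((min x J : ℕ) : ℝ) - (J : ℝ) * (2 * n - J) * ((x : ℝ) * (2 * n + 1 - x)) / 2 ≤ 0 := by
  have hnr : (4 : ℝ) ≤ n := by exact_mod_cast hn
  have hxr : (1 : ℝ) ≤ x := by exact_mod_cast hx
  have hJr : (1 : ℝ) ≤ J := by exact_mod_cast hJ
  have hx2r : (x : ℝ) ≤ n := by exact_mod_cast hx2
  have hJ2r : (J : ℝ) ≤ n := by exact_mod_cast hJ2
  rcases Nat.lt_or_ge J x with hxJ | hxJ
  · rw [min_eq_right hxJ.le]
    have hb : (x : ℝ) = 2 ∨ (3 : ℝ) ≤ x := by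
      have h1 : x = 2 ∨ 3 ≤ x := by omega
      rcases h1 with h1 | h1
      · left
        exact_mod_cast h1
      · right
        exact_mod_cast h1
    have h1 := ib_key2 hnr hJr (show (J : ℝ) + 1 ≤ x by exact_mod_cast hxJ) hx2r hb
    linarith
  · rw [min_eq_left hxJ]
    have hb : (J : ℝ) = 2 ∨ (3 : ℝ) ≤ J := by
      have h1 : J = 2 ∨ 3 ≤ J := by omega
      rcases h1 with h1 | h1
      · left
        exact_mod_cast h1
      · right
        exact_mod_cast h1
    have h1 := ib_key1 hnr hxr (show (x : ℝ) ≤ J by exact_mod_cast hxJ) hJ2r hb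
    linarith

/-- Proof. Write `J = j + 1`, `c j = J (2 n - J)` (`valB`), `G x = n (2 n + 1) min x J - J (2 n - J) x (2 n + 1 - x) / 2` for `x : ℕ`, and let `g` be the vector of `rowB` for `G`: `g i = G (i + 1)` for `i + 1 < n`, `g (n - 1) = G n / 2`.
`rowB`: `rw' (B n) g k = 2 G (k + 1) - G k - G (k + 2) = n (2 n + 1) [k + 1 = J] - J (2 n - J)` for `k + 1 < n` (the second difference of `x (2 n + 1 - x) / 2` is `1`), and for `k = n - 1`:
`G n - G (n - 1) = n (2 n + 1) (min n J - min (n - 1) J) - J (2 n - J) (n (n + 1) - (n - 1) (n + 2)) / 2 = n (2 n + 1) [J = n] - J (2 n - J)`. So `cert` applies with `D = n (2 n + 1)`, `c = c j`.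
Signs: `G x ≤ 0` for `1 ≤ x ≤ n` except for `x = J = 1`, where `G 1 = n (2 n + 1) - (2 n - 1) n = 2 n`: one needs `2 n (2 n + 1) min x J ≤ J (2 n - J) x (2 n + 1 - x)`. If `x ≤ J` (`J ≥ 2`): `2 n + 1 - x ≥ 2 n + 1 - J ≥ n + 1`; `J = 2`:
`2 (2 n - 2) (2 n - 1) ≥ 2 n (2 n + 1)` for `n ≥ 4`; `3 ≤ J ≤ n`: `J (2 n - J) ≥ 3 (2 n - 3)`, `3 (2 n - 3) (n + 1) ≥ 2 n (2 n + 1)` for `n ≥ 4`. If `x > J` (`x ≥ 2`): `2 n - J ≥ 2 n + 1 - x`, need `2 n (2 n + 1) ≤ (2 n - J) x (2 n + 1 - x)`: `x = 2`, `J = 1`: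
`(2 n - 1) 2 (2 n - 1)`; `3 ≤ x ≤ n`: `2 n - J ≥ n + 1`, `x (2 n + 1 - x) ≥ 3 (2 n - 2)`, `3 (2 n - 2) (n + 1) ≥ 2 n (2 n + 1)`.
Hence `∑ max (g i) 0 ≤ 2 n` if `J = 1` and `≤ 0` otherwise (`G 1 / 2` for the last node does not occur since `n ≥ 2`), and `2 n ≤ (2 n - 1) n / 2 = c j n / 2`. -/
theorem inB_big {n : ℕ} (hn : 4 ≤ n) : Sq (CartanMatrix.B n) (n * (2 * n + 1)) := by
  intro c hc e he j
  obtain ⟨J, hJ⟩ : ∃ J, J = (j : ℕ) + 1 := ⟨_, rfl⟩
  have hnr : (4 : ℝ) ≤ n := by exact_mod_cast hn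
  have hjlt := j.2
  have hjn : ((j : ℕ) : ℝ) + 1 ≤ n := by exact_mod_cast j.2
  have hj0 : (0 : ℝ) ≤ ((j : ℕ) : ℝ) := Nat.cast_nonneg _
  have hJr : (J : ℝ) = ((j : ℕ) : ℝ) + 1 := by
    rw [hJ]
    push_cast
    ring
  have hcj : c j = (J : ℝ) * (2 * n - J) := by
    rw [valB hc j, hJr]
    ring
  have hc0 : 0 ≤ c j := by
    rw [hcj]
    exact mul_nonneg (by linarith) (by linarith)
  obtain ⟨G, hG⟩ : ∃ G : ℕ → ℝ, ∀ x : ℕ, G x = (n : ℝ) * (2 * n + 1) * ((min x J : ℕ) : ℝ) - c j * ((x : ℝ) * (2 * n + 1 - x)) / 2 :=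
    ⟨_, fun x => rfl⟩
  have hG0 : G 0 = 0 := by
    rw [hG]
    simp
  have hle : ∀ x : ℕ, 1 ≤ x → x ≤ n → (2 ≤ x ∨ 2 ≤ J) → G x ≤ 0 := by
    intro x h1 h2 h3
    rw [hG, hcj]
    exact ib_sign hn h1 h2 (by omega) (by omega) h3
  have hn1 : ((n - 1 : ℕ) : ℝ) = n - 1 := by
    rw [Nat.cast_sub (by omega)]
    simp
  have hstep : ∀ k : ℕ, 2 * G (k + 1) - G k - G (k + 2) = (if k = (j : ℕ) then (n : ℝ) * (2 * n + 1) else 0) - c j := by
    intro k
    rw [hG, hG, hG]
    have h1 : 2 * ((min (k + 1) J : ℕ) : ℝ) - ((min k J : ℕ) : ℝ) - ((min (k + 2) J : ℕ) : ℝ) = if k = (j : ℕ) then 1 else 0 := by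
      rcases lt_trichotomy k (j : ℕ) with h | h | h
      · rw [if_neg (by omega), min_eq_left (show k + 1 ≤ J by omega), min_eq_left (show k ≤ J by omega), min_eq_left (show k + 2 ≤ J by omega)]
        push_cast
        ring
      · rw [if_pos h, min_eq_left (show k + 1 ≤ J by omega), min_eq_left (show k ≤ J by omega), min_eq_right (show J ≤ k + 2 by omega)]
        have h2 : J = k + 1 := by omega
        rw [h2]
        push_cast
        ring
      · rw [if_neg (by omega), min_eq_right (show J ≤ k + 1 by omega), min_eq_right (show J ≤ k by omega), min_eq_right (show J ≤ k + 2 by omega)]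
        ring
    have h2 : (if k = (j : ℕ) then (n : ℝ) * (2 * n + 1) else 0) = (n : ℝ) * (2 * n + 1) * (if k = (j : ℕ) then 1 else 0) := by
      split_ifs <;> ring
    rw [h2, ← h1]
    push_cast
    ring
  have hend : G n - G (n - 1) = (if J = n then (n : ℝ) * (2 * n + 1) else 0) - c j := by
    rw [hG, hG, hn1]
    by_cases h : J = n
    · rw [if_pos h, h, min_self, min_eq_left (show n - 1 ≤ n by omega), hn1]
      ring
    · rw [if_neg h, min_eq_right (show J ≤ n by omega), min_eq_right (show J ≤ n - 1 by omega)]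
      ring
  have hcert := cert (A := CartanMatrix.B n) he
    (g := fun i : Fin n => if (i : ℕ) + 1 = n then G n / 2 else G (i + 1))
    (D := (n : ℝ) * (2 * n + 1)) (c := c j) (X := c j * (n / 2)) (j := j) (by
      intro k
      rw [rowB n G hG0 k]
      have hkj : (k = j) ↔ ((k : ℕ) = (j : ℕ)) := Fin.ext_iff
      have hk2 := k.2
      by_cases hk : (k : ℕ) + 1 < n
      · rw [if_pos hk, hstep]
        by_cases h : k = j
        · rw [if_pos h, if_pos (hkj.1 h)]
        · rw [if_neg h, if_neg fun h' => h (hkj.2 h')]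
      · rw [if_neg hk, hend]
        by_cases h : k = j
        · have h1 := hkj.1 h
          rw [if_pos h, if_pos (by omega)]
        · have h1 : ¬ (k : ℕ) = (j : ℕ) := fun h' => h (hkj.2 h')
          rw [if_neg h, if_neg (by omega)]) (by
      by_cases hJ1 : J = 1
      · have hG1 : G 1 = 2 * n := by
          rw [hG, hcj, hJ1]
          simp only [min_self, Nat.cast_one]
          ring
        have hb : ∀ i : Fin n, max (if (i : ℕ) + 1 = n then G n / 2 else G (i + 1)) 0 ≤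
            if (i : ℕ) = 0 then (2 * (n : ℝ)) else 0 := by
          intro i
          have hi2 := i.2
          by_cases hi : (i : ℕ) + 1 = n
          · rw [if_pos hi, if_neg (show ¬ (i : ℕ) = 0 by omega)]
            have h1 := hle n (by omega) le_rfl (Or.inl (by omega))
            exact max_le (by linarith) le_rfl
          · rw [if_neg hi]
            by_cases hi0 : (i : ℕ) = 0
            · rw [if_pos hi0, hi0, zero_add, hG1]
              exact max_le le_rfl (by linarith)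
            · rw [if_neg hi0]
              exact max_le (hle _ (by omega) (by omega) (Or.inl (by omega))) le_rfl
        refine (Finset.sum_le_sum fun i _ => hb i).trans ?_
        rw [sum_at 0 (fun _ => 2 * (n : ℝ)), if_pos (by omega), hcj, hJ1]
        push_cast
        nlinarith
      · have hb : ∀ i : Fin n, max (if (i : ℕ) + 1 = n then G n / 2 else G (i + 1)) 0 ≤ 0 := by
          intro i
          have hi2 := i.2
          by_cases hi : (i : ℕ) + 1 = n
          · rw [if_pos hi]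
            have h1 := hle n (by omega) le_rfl (Or.inl (by omega))
            exact max_le (by linarith) le_rfl
          · rw [if_neg hi]
            exact max_le (hle _ (by omega) (by omega) (Or.inr (by omega))) le_rfl
        refine (Finset.sum_le_sum fun i _ => hb i).trans ?_
        rw [Finset.sum_const_zero]
        exact mul_nonneg hc0 (by positivity))
  have h9 : c j * (∑ k, e k + n / 2) = c j * ∑ k, e k + c j * (n / 2) := by ring
  rw [h9]
  exact hcert

end Pool.Agent.Lib.L8.F7
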