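import Pool.Agent.Lib.L8.F7.Defs
import Pool.Agent.Lib.L8.F7.VB

/-!
# F7 IC (M): the inequality, type C, n >= 4 (helper31)
-/

namespace Pool.Agent.Lib.L8.F7

open Matrix

theorem ic_ineq {n x J : ℝ} (hn : 4 ≤ n) (hx : 1 ≤ x) (hxn : x ≤ n) (hJ : 1 ≤ J) (hJn : J ≤ n)
    (hx' : x = 1 ∨ x = 2 ∨ 3 ≤ x) (hJ' : J = 1 ∨ J = 2 ∨ 3 ≤ J) (hc : x ≤ J ∨ J ≤ x) (hxJ : ¬ (x = 1 ∧ J = 1))
    (hlt : x ≤ J → x = J ∨ x + 1 ≤ J) :
    n * (2 * n + 1) * min x J - J * (2 * n + 1 - J) * (x * (2 * n - x)) / 2 ≤ 0 := by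
  rcases le_total J x with h | h
  · rw [min_eq_right h]
    have key : 2 * n * (2 * n + 1) ≤ x * (2 * n - x) * (2 * n + 1 - J) := by
      rcases hx' with h1 | h1 | h1
      · exfalso
        exact hxJ ⟨h1, le_antisymm (h.trans h1.le) hJ⟩
      · subst h1
        nlinarith
      · have h2 : 3 * (2 * n - 3) ≤ x * (2 * n - x) := by nlinarith
        have h3 : n + 1 ≤ 2 * n + 1 - J := by linarith
        have h4 : 3 * (2 * n - 3) * (n + 1) ≤ x * (2 * n - x) * (2 * n + 1 - J) :=
          mul_le_mul h2 h3 (by linarith) (by nlinarith)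
        nlinarith
    nlinarith [mul_le_mul_of_nonneg_left key (show (0 : ℝ) ≤ J by linarith)]
  · rw [min_eq_left h]
    rcases hlt h with h0 | h0
    · subst h0
      have key : 2 * n * (2 * n + 1) ≤ x * (2 * n - x) * (2 * n + 1 - x) := by
        rcases hx' with h1 | h1 | h1
        · exact absurd ⟨h1, h1⟩ hxJ
        · subst h1
          nlinarith
        · have h2 : 3 * (2 * n - 3) ≤ x * (2 * n - x) := by nlinarith
          have h3 : n + 1 ≤ 2 * n + 1 - x := by linarith
          have h4 : 3 * (2 * n - 3) * (n + 1) ≤ x * (2 * n - x) * (2 * n + 1 - x) :=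
            mul_le_mul h2 h3 (by linarith) (by nlinarith)
          nlinarith
      nlinarith [mul_le_mul_of_nonneg_left key (show (0 : ℝ) ≤ x by linarith)]
    · have key : 2 * n * (2 * n + 1) ≤ (2 * n - x) * (J * (2 * n + 1 - J)) := by
        rcases hJ' with h1 | h1 | h1
        · exfalso
          linarith
        · subst h1
          have h2 : x = 1 := by linarith
          subst h2
          nlinarith
        · have h2 : 3 * (2 * n - 2) ≤ J * (2 * n + 1 - J) := by nlinarith
          have h3 : n + 1 ≤ 2 * n - x := by linarith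
          have h4 : (n + 1) * (3 * (2 * n - 2)) ≤ (2 * n - x) * (J * (2 * n + 1 - J)) :=
            mul_le_mul h3 h2 (by nlinarith) (by linarith)
          nlinarith
      nlinarith [mul_le_mul_of_nonneg_left key (show (0 : ℝ) ≤ x by linarith)]

theorem ic_nat (x : ℕ) (hx : 1 ≤ x) : (x : ℝ) = 1 ∨ (x : ℝ) = 2 ∨ 3 ≤ (x : ℝ) := by
  rcases Nat.lt_or_ge x 3 with h | h
  · have h1 : x = 1 ∨ x = 2 := by omega
    rcases h1 with h1 | h1
    · left; rw [h1]; norm_num
    · right; left; rw [h1]; norm_num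
  · right; right; exact_mod_cast h

/-- Proof. Write `J = j + 1`.
(a) `J < n`: `c j = J (2 n + 1 - J)` (`valC`), `G x = n (2 n + 1) min x J - J (2 n + 1 - J) x (2 n - x) / 2`, `g i = G (i + 1)`. `rowC`: `2 G (k + 1) - G k - G (k + 2) = n (2 n + 1) [k + 1 = J] - c j` for `k + 1 < n`, and `2 G n - 2 G (n - 1) = - c j (n ^ 2 - (n ^ 2 - 1)) = - c j`
for `k + 1 = n` (as `J ≤ n - 1`): `cert` with `D = n (2 n + 1)`. Signs: `G x ≤ 0` for `1 ≤ x ≤ n` except `x = J = 1` (`G 1 = n (2 n + 1) - n (2 n - 1) = 2 n`): need `2 n (2 n + 1) min x J ≤ J (2 n + 1 - J) x (2 n - x)`: this is the inequality of the file IB with `x` and `J`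
exchanged. `2 n ≤ c j n / 2 = n ^ 2` for `J = 1`.
(b) `J = n`: `c j = n (n + 1) / 2`, `G x = n (2 n + 1) x / 2 - (n (n + 1) / 2) x (2 n - x) / 2`: `rowC` gives `- c j` for `k + 1 < n` and `n (2 n + 1) - c j` for `k = n - 1`. Signs: `G x ≤ 0` for `1 ≤ x ≤ n`: `2 (2 n + 1) ≤ (n + 1) (2 n - x)`, true since `2 n - x ≥ n` and
`n (n + 1) ≥ 2 (2 n + 1)` for `n ≥ 4`. -/
theorem inC_big {n : ℕ} (hn : 4 ≤ n) : Sq (CartanMatrix.C n) (n * (2 * n + 1)) := by
  intro c hc e he j
  have hnR : (4 : ℝ) ≤ n := by exact_mod_cast hn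
  have hj := j.2
  have hcj := valC hc j
  by_cases hJ : (j : ℕ) + 1 = n
  · rw [if_pos hJ] at hcj
    replace hcj : c j = (n : ℝ) * (n + 1) / 2 := by
      first
        | exact hcj
        | (rw [hcj, Nat.cast_div (Nat.even_mul_succ_self n).two_dvd (by norm_num)]
           push_cast
           ring)
    have hs : ∀ x : ℕ, 1 ≤ x → x ≤ n → (n : ℝ) * (2 * n + 1) * x / 2 - n * (n + 1) / 2 * (x * (2 * n - x)) / 2 ≤ 0 := by
      intro x hx1 hx2
      have h1 : (1 : ℝ) ≤ x := by exact_mod_cast hx1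
      have h2 : (x : ℝ) ≤ n := by exact_mod_cast hx2
      have h3 : 2 * (2 * (n : ℝ) + 1) ≤ (n + 1) * (2 * n - x) := by nlinarith
      have h4 := mul_le_mul_of_nonneg_left h3 (show (0 : ℝ) ≤ n * x by positivity)
      nlinarith
    have hmain := cert (A := CartanMatrix.C n) (D := (n : ℝ) * (2 * n + 1)) (c := c j) (X := c j * (n / 2)) (j := j) he
      (g := fun i : Fin n => (fun x : ℕ => (n : ℝ) * (2 * n + 1) * x / 2 - n * (n + 1) / 2 * (x * (2 * n - x)) / 2) ((i : ℕ) + 1)) ?_ ?_
    · linarith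
    · intro k
      have hk := k.2
      rw [rowC n (fun x : ℕ => (n : ℝ) * (2 * n + 1) * x / 2 - n * (n + 1) / 2 * (x * (2 * n - x)) / 2) (by simp) k]
      by_cases hk1 : (k : ℕ) + 1 < n
      · have hkj : k ≠ j := by
          intro h
          rw [h] at hk1
          omega
        rw [if_pos hk1, if_neg hkj, hcj]
        push_cast
        ring
      · have hkj : k = j := Fin.ext (by omega)
        rw [if_neg hk1, if_pos hkj, hcj]
        have h1 : ((n - 1 : ℕ) : ℝ) = n - 1 := by
          rw [Nat.cast_sub (by omega)]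
          simp
        simp only [h1]
        ring
    · rw [Finset.sum_eq_zero]
      · rw [hcj]
        positivity
      · intro i _
        have hi := i.2
        exact max_eq_right (hs ((i : ℕ) + 1) (by omega) (by omega))
  · rw [if_neg hJ] at hcj
    replace hcj : c j = (((j : ℕ) : ℝ) + 1) * (2 * n - ((j : ℕ) : ℝ)) := by
      first
        | exact hcj
        | (rw [hcj, Nat.cast_mul, Nat.cast_sub (by omega)]
           push_cast
           ring)
    obtain ⟨J, hJd⟩ : ∃ J : ℕ, J = (j : ℕ) + 1 := ⟨_, rfl⟩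
    have hJ1 : 1 ≤ J := by omega
    have hJn : J < n := by omega
    have hJR : (1 : ℝ) ≤ J := by exact_mod_cast hJ1
    have hJnR : (J : ℝ) ≤ n := by exact_mod_cast hJn.le
    have hjJ : ((j : ℕ) : ℝ) = J - 1 := by
      rw [hJd]
      push_cast
      ring
    have hcj' : c j = J * (2 * n + 1 - J) := by
      rw [hcj, hjJ]
      ring
    have hs : ∀ x : ℕ, 1 ≤ x → x ≤ n → ¬ (x = 1 ∧ J = 1) →
        (n : ℝ) * (2 * n + 1) * ((min x J : ℕ) : ℝ) - J * (2 * n + 1 - J) * (x * (2 * n - x)) / 2 ≤ 0 := by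
      intro x hx1 hx2 hxJ
      rw [Nat.cast_min]
      refine ic_ineq hnR (by exact_mod_cast hx1) (by exact_mod_cast hx2) hJR hJnR (ic_nat x hx1) (ic_nat J hJ1)
        (le_total _ _) ?_ ?_
      · rintro ⟨h1, h2⟩
        exact hxJ ⟨by exact_mod_cast h1, by exact_mod_cast h2⟩
      · intro h
        have h1 : x ≤ J := by exact_mod_cast h
        rcases Nat.eq_or_lt_of_le h1 with h2 | h2
        · left
          rw [h2]
        · right
          have h3 : x + 1 ≤ J := h2
          exact_mod_cast h3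
    have hmain := cert (A := CartanMatrix.C n) (D := (n : ℝ) * (2 * n + 1)) (c := c j) (X := c j * (n / 2)) (j := j) he
      (g := fun i : Fin n => (fun x : ℕ => (n : ℝ) * (2 * n + 1) * ((min x J : ℕ) : ℝ) - J * (2 * n + 1 - J) * (x * (2 * n - x)) / 2) ((i : ℕ) + 1)) ?_ ?_
    · linarith
    · intro k
      have hk := k.2
      rw [rowC n (fun x : ℕ => (n : ℝ) * (2 * n + 1) * ((min x J : ℕ) : ℝ) - J * (2 * n + 1 - J) * (x * (2 * n - x)) / 2) (by simp) k]
      by_cases hk1 : (k : ℕ) + 1 < n
      · rw [if_pos hk1, hcj']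
        by_cases hkj : k = j
        · have hkJ : (k : ℕ) + 1 = J := by rw [hkj, hJd]
          rw [if_pos hkj]
          have e1 : min ((k : ℕ) + 1) J = J := by omega
          have e2 : min (k : ℕ) J = (k : ℕ) := by omega
          have e3 : min ((k : ℕ) + 2) J = J := by omega
          simp only [e1, e2, e3]
          have e4 : (J : ℝ) = (k : ℕ) + 1 := by
            rw [← hkJ]
            push_cast
            ring
          rw [e4]
          push_cast
          ring
        · rw [if_neg hkj]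
          have hkJ : (k : ℕ) + 1 ≠ J := by
            intro h
            exact hkj (Fin.ext (by omega))
          have e0 : (2 : ℝ) * ((min ((k : ℕ) + 1) J : ℕ) : ℝ) - ((min (k : ℕ) J : ℕ) : ℝ) - ((min ((k : ℕ) + 2) J : ℕ) : ℝ) = 0 := by
            rcases Nat.lt_or_ge J ((k : ℕ) + 1) with h | h
            · have e1 : min ((k : ℕ) + 1) J = J := by omega
              have e2 : min (k : ℕ) J = J := by omega
              have e3 : min ((k : ℕ) + 2) J = J := by omega
              rw [e1, e2, e3]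
              ring
            · have e1 : min ((k : ℕ) + 1) J = (k : ℕ) + 1 := by omega
              have e2 : min (k : ℕ) J = (k : ℕ) := by omega
              have e3 : min ((k : ℕ) + 2) J = (k : ℕ) + 2 := by omega
              rw [e1, e2, e3]
              push_cast
              ring
          have e5 := congrArg (fun t : ℝ => (n : ℝ) * (2 * n + 1) * t) e0
          simp only [mul_zero] at e5
          have e6 : ∀ a b d : ℝ, 2 * ((n : ℝ) * (2 * n + 1) * a - J * (2 * n + 1 - J) * ((((k : ℕ) + 1 : ℕ) : ℝ) * (2 * n - (((k : ℕ) + 1 : ℕ) : ℝ))) / 2) -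
              ((n : ℝ) * (2 * n + 1) * b - J * (2 * n + 1 - J) * (((k : ℕ) : ℝ) * (2 * n - ((k : ℕ) : ℝ))) / 2) -
              ((n : ℝ) * (2 * n + 1) * d - J * (2 * n + 1 - J) * ((((k : ℕ) + 2 : ℕ) : ℝ) * (2 * n - (((k : ℕ) + 2 : ℕ) : ℝ))) / 2) =
              (n : ℝ) * (2 * n + 1) * (2 * a - b - d) + (0 - J * (2 * n + 1 - J)) := by
            intro a b d
            push_cast
            ring
          have e7 := e6 ((min ((k : ℕ) + 1) J : ℕ) : ℝ) ((min (k : ℕ) J : ℕ) : ℝ) ((min ((k : ℕ) + 2) J : ℕ) : ℝ)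
          rw [e5, zero_add] at e7
          exact e7
      · have hkj : k ≠ j := by
          intro h
          rw [h] at hk1
          omega
        rw [if_neg hk1, if_neg hkj, hcj']
        have h1 : ((n - 1 : ℕ) : ℝ) = n - 1 := by
          rw [Nat.cast_sub (by omega)]
          simp
        have e1 : min n J = J := by omega
        have e2 : min (n - 1) J = J := by omega
        simp only [h1, e1, e2]
        ring
    · by_cases h1 : J = 1
      · have hcj2 : c j = 2 * n := by
          rw [hcj', h1]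
          push_cast
          ring
        have hb : ∀ i : Fin n, max ((fun x : ℕ => (n : ℝ) * (2 * n + 1) * ((min x J : ℕ) : ℝ) - J * (2 * n + 1 - J) * (x * (2 * n - x)) / 2) ((i : ℕ) + 1)) 0 ≤
            if (i : ℕ) = 0 then (2 * n : ℝ) else 0 := by
          intro i
          have hi := i.2
          by_cases hi0 : (i : ℕ) = 0
          · rw [if_pos hi0]
            refine max_le ?_ (by positivity)
            show (n : ℝ) * (2 * n + 1) * ((min ((i : ℕ) + 1) J : ℕ) : ℝ) - J * (2 * n + 1 - J) * ((((i : ℕ) + 1 : ℕ) : ℝ) * (2 * n - (((i : ℕ) + 1 : ℕ) : ℝ))) / 2 ≤ 2 * n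
            rw [hi0, h1]
            norm_num
            nlinarith
          · rw [if_neg hi0]
            exact (max_eq_right (hs ((i : ℕ) + 1) (by omega) (by omega) (by omega))).le
        refine (Finset.sum_le_sum fun i _ => hb i).trans ?_
        rw [sum_at 0 (fun _ => (2 * n : ℝ)), if_pos (by omega), hcj2]
        nlinarith
      · rw [Finset.sum_eq_zero]
        · rw [hcj']
          have h2 : (0 : ℝ) ≤ 2 * n + 1 - J := by linarith
          positivity
        · intro i _
          have hi := i.2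
          exact max_eq_right (hs ((i : ℕ) + 1) (by omega) (by omega) (by omega))

end Pool.Agent.Lib.L8.F7
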