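import Pool.Agent.Lib.L8.F7.Defs
import Pool.Agent.Lib.L8.F7.VA

/-!
# F7 ID (M): the inequality, type D, n >= 6, nodes of the path (helper31)
-/

namespace Pool.Agent.Lib.L8.F7

open Matrix

theorem id_key {n a b : ℝ} (hn : 6 ≤ n) (ha : 1 ≤ a) (hab : a ≤ b) (hbn : b ≤ n - 1) (hb : b = 2 ∨ 3 ≤ b) :
    2 * n * (2 * n - 1) * a ≤ a * (2 * n - 1 - a) * (b * (2 * n - 1 - b)) := by
  have hb0 : 0 ≤ b * (2 * n - 1 - b) := mul_nonneg (by linarith) (by linarith)
  have h3 : 2 * n * (2 * n - 1) ≤ b * (2 * n - 1 - b) * (2 * n - 1 - b) := by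
    rcases hb with hb | hb
    · subst hb
      nlinarith
    · have h4 : 3 * (2 * n - 4) ≤ b * (2 * n - 1 - b) := by
        nlinarith [mul_nonneg (show (0 : ℝ) ≤ b - 3 by linarith) (show (0 : ℝ) ≤ 2 * n - 4 - b by linarith)]
      have h5 : n ≤ 2 * n - 1 - b := by linarith
      have h6 : 2 * n * (2 * n - 1) ≤ 3 * (2 * n - 4) * n := by nlinarith
      exact h6.trans (mul_le_mul h4 h5 (by linarith) hb0)
  have h2 : b * (2 * n - 1 - b) * (2 * n - 1 - b) ≤ b * (2 * n - 1 - b) * (2 * n - 1 - a) :=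
    mul_le_mul_of_nonneg_left (by linarith) hb0
  have h7 := mul_le_mul_of_nonneg_left (h3.trans h2) (show (0 : ℝ) ≤ a by linarith)
  calc 2 * n * (2 * n - 1) * a = a * (2 * n * (2 * n - 1)) := by ring
    _ ≤ a * (b * (2 * n - 1 - b) * (2 * n - 1 - a)) := h7
    _ = a * (2 * n - 1 - a) * (b * (2 * n - 1 - b)) := by ring

theorem id_sign {n x J : ℕ} (hn : 6 ≤ n) (hx : 1 ≤ x) (hx2 : x ≤ n - 1) (hJ : 1 ≤ J) (hJ2 : J ≤ n - 1) (h : 2 ≤ x ∨ 2 ≤ J) :
    (n : ℝ) * (2 * n - 1) * ((min x J : ℕ) : ℝ) - (J : ℝ) * (2 * n - 1 - J) * ((x : ℝ) * (2 * n - 1 - x)) / 2 ≤ 0 := by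
  have hnr : (6 : ℝ) ≤ n := by exact_mod_cast hn
  have hxr : (1 : ℝ) ≤ x := by exact_mod_cast hx
  have hJr : (1 : ℝ) ≤ J := by exact_mod_cast hJ
  have hx2r : (x : ℝ) ≤ n - 1 := by
    have h1 : x + 1 ≤ n := by omega
    have h2 : (x : ℝ) + 1 ≤ n := by exact_mod_cast h1
    linarith
  have hJ2r : (J : ℝ) ≤ n - 1 := by
    have h1 : J + 1 ≤ n := by omega
    have h2 : (J : ℝ) + 1 ≤ n := by exact_mod_cast h1
    linarith
  rcases le_total x J with hxJ | hxJ
  · rw [min_eq_left hxJ]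
    have hb : (J : ℝ) = 2 ∨ (3 : ℝ) ≤ J := by
      have h1 : J = 2 ∨ 3 ≤ J := by omega
      rcases h1 with h1 | h1
      · left
        exact_mod_cast h1
      · right
        exact_mod_cast h1
    have h1 := id_key hnr hxr (show (x : ℝ) ≤ J by exact_mod_cast hxJ) hJ2r hb
    have h2 : (x : ℝ) * (2 * n - 1 - x) * (J * (2 * n - 1 - J)) = (J : ℝ) * (2 * n - 1 - J) * ((x : ℝ) * (2 * n - 1 - x)) := by ring
    linarith
  · rw [min_eq_right hxJ]
    have hb : (x : ℝ) = 2 ∨ (3 : ℝ) ≤ x := by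
      have h1 : x = 2 ∨ 3 ≤ x := by omega
      rcases h1 with h1 | h1
      · left
        exact_mod_cast h1
      · right
        exact_mod_cast h1
    have h1 := id_key hnr hJr (show (J : ℝ) ≤ x by exact_mod_cast hxJ) hx2r hb
    linarith

/-- Proof. Write `J = j + 1 ≤ n - 2`, `c j = J (2 n - 1 - J)` (`valD`), `G x = n (2 n - 1) min x J - J (2 n - 1 - J) x (2 n - 1 - x) / 2` and let `g` be the vector of `rowD` for `G`, `u = v = G (n - 1) / 2`. `rowD`: `n (2 n - 1) [k + 1 = J] - c j` for `k + 2 < n`,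
`2 u - G (n - 2) = G (n - 1) - G (n - 2) = - c j ((n - 1) n - (n - 2) (n + 1)) / 2 = - c j` for the last two nodes. So `cert` applies with `D = n (2 n - 1)`. Signs: `G x ≤ 0` for `1 ≤ x ≤ n - 1` except `x = J = 1` (`G 1 = n (2 n - 1) - (2 n - 2) ^ 2 / 2 = 3 n - 2`): need
`2 n (2 n - 1) min x J ≤ J (2 n - 1 - J) x (2 n - 1 - x)`. By symmetry let `a = min`, `b = max ≥ 2` (both in `[1, n - 1]`): need `2 n (2 n - 1) ≤ b (2 n - 1 - b) (2 n - 1 - a)`, enough with `a = b`: `b (2 n - 1 - b) ^ 2`: `b = 2`: `2 (2 n - 3) ^ 2 ≥ 2 n (2 n - 1)` for `n ≥ 6`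
(`2 n ^ 2 - 11 n + 9 ≥ 0`); `b ≥ 3`: `b (2 n - 1 - b) ≥ 3 (2 n - 4)` and `2 n - 1 - b ≥ n`: `3 (2 n - 4) n ≥ 2 n (2 n - 1)` for `n ≥ 5`.
Hence `∑ max (g i) 0 ≤ 3 n - 2` if `J = 1`, `≤ 0` otherwise, and `3 n - 2 ≤ (2 n - 2) n / 2 = c j n / 2` for `J = 1`. -/
theorem inD_path {n : ℕ} (hn : 6 ≤ n) {c : Fin n → ℝ} (hc : ∀ i, pr (CartanMatrix.D n) c i = 2) {e : Fin n → ℝ} (he : Box (CartanMatrix.D n) e) (j : Fin n) (hj : (j : ℕ) + 2 < n) :
    n * (2 * n - 1) * e j ≤ c j * (∑ k, e k + n / 2) := by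
  obtain ⟨J, hJ⟩ : ∃ J, J = (j : ℕ) + 1 := ⟨_, rfl⟩
  have hnr : (6 : ℝ) ≤ n := by exact_mod_cast hn
  have hjn : (j : ℝ) + 3 ≤ n := by
    have h1 : (j : ℕ) + 3 ≤ n := by omega
    exact_mod_cast h1
  have hj0 : (0 : ℝ) ≤ j := Nat.cast_nonneg _
  have hJr : (J : ℝ) = j + 1 := by
    rw [hJ]
    push_cast
    ring
  have hcj : c j = (J : ℝ) * (2 * n - 1 - J) := by
    rw [valD (by omega) hc j, if_pos hj, hJr]
    have h1 : ((2 * n - 2 - (j : ℕ) : ℕ) : ℝ) = 2 * n - 2 - j := by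
      rw [Nat.cast_sub (by omega), Nat.cast_sub (by omega)]
      push_cast
      ring
    first
      | (rw [Nat.cast_mul, h1]; push_cast; ring)
      | ring
  have hc0 : 0 ≤ c j := by
    rw [hcj]
    exact mul_nonneg (by linarith) (by linarith)
  obtain ⟨G, hG⟩ : ∃ G : ℕ → ℝ, ∀ x : ℕ, G x = (n : ℝ) * (2 * n - 1) * ((min x J : ℕ) : ℝ) - c j * ((x : ℝ) * (2 * n - 1 - x)) / 2 :=
    ⟨_, fun x => rfl⟩
  have hG0 : G 0 = 0 := by
    rw [hG]
    simp
  have hle : ∀ x : ℕ, 1 ≤ x → x ≤ n - 1 → (2 ≤ x ∨ 2 ≤ J) → G x ≤ 0 := by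
    intro x h1 h2 h3
    rw [hG, hcj]
    exact id_sign hn h1 h2 (by omega) (by omega) h3
  have hn1 : ((n - 1 : ℕ) : ℝ) = n - 1 := by
    rw [Nat.cast_sub (by omega)]
    simp
  have hn2 : ((n - 2 : ℕ) : ℝ) = n - 2 := by
    rw [Nat.cast_sub (by omega)]
    simp
  have hend : G (n - 1) - G (n - 2) = - c j := by
    rw [hG, hG, min_eq_right (show J ≤ n - 1 by omega), min_eq_right (show J ≤ n - 2 by omega), hn1, hn2]
    ring
  have hstep : ∀ k : ℕ, 2 * G (k + 1) - G k - G (k + 2) = (if k = (j : ℕ) then (n : ℝ) * (2 * n - 1) else 0) - c j := by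
    intro k
    rw [hG, hG, hG]
    have h1 : 2 * ((min (k + 1) J : ℕ) : ℝ) - ((min k J : ℕ) : ℝ) - ((min (k + 2) J : ℕ) : ℝ) = if k = (j : ℕ) then 1 else 0 := by
      rcases lt_trichotomy k (j : ℕ) with h | h | h
      · rw [if_neg (by omega), min_eq_left (show k + 1 ≤ J by omega), min_eq_left (show k ≤ J by omega), min_eq_left (show k + 2 ≤ J by omega)]
        push_cast
        ring
      · rw [if_pos h, min_eq_left (show k + 1 ≤ J by omega), min_eq_left (show k ≤ J by omega), min_eq_right (show J ≤ k + 2 by omega)]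
        have h2 : J = k + 1 := by omega
        rw [h2]
        push_cast
        ring
      · rw [if_neg (by omega), min_eq_right (show J ≤ k + 1 by omega), min_eq_right (show J ≤ k by omega), min_eq_right (show J ≤ k + 2 by omega)]
        ring
    have h2 : (if k = (j : ℕ) then (n : ℝ) * (2 * n - 1) else 0) = (n : ℝ) * (2 * n - 1) * (if k = (j : ℕ) then 1 else 0) := by
      split_ifs <;> ring
    rw [h2, ← h1]
    push_cast
    ring
  have hcert := cert (A := CartanMatrix.D n) he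
    (g := fun i : Fin n => if (i : ℕ) + 2 < n then G (i + 1) else if (i : ℕ) + 2 = n then G (n - 1) / 2 else G (n - 1) / 2)
    (D := (n : ℝ) * (2 * n - 1)) (c := c j) (X := c j * (n / 2)) (j := j) (by
      intro k
      rw [rowD n (by omega) G (G (n - 1) / 2) (G (n - 1) / 2) hG0 (by ring) k]
      have hkj : (k = j) ↔ ((k : ℕ) = (j : ℕ)) := Fin.ext_iff
      by_cases hk : (k : ℕ) + 2 < n
      · rw [if_pos hk, hstep]
        by_cases h : k = j
        · rw [if_pos h, if_pos (hkj.1 h)]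
        · rw [if_neg h, if_neg fun h' => h (hkj.2 h')]
      · rw [if_neg hk]
        have h : k ≠ j := fun h' => hk (by rw [h']; exact hj)
        rw [if_neg h]
        split_ifs
        · linarith
        · linarith) (by
      by_cases hJ1 : J = 1
      · have hG1 : G 1 = 3 * n - 2 := by
          rw [hG, hcj, hJ1]
          simp only [min_self, Nat.cast_one]
          ring
        have hb : ∀ i : Fin n, max (if (i : ℕ) + 2 < n then G (i + 1) else if (i : ℕ) + 2 = n then G (n - 1) / 2 else G (n - 1) / 2) 0 ≤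
            if (i : ℕ) = 0 then (3 * (n : ℝ) - 2) else 0 := by
          intro i
          by_cases hi : (i : ℕ) + 2 < n
          · rw [if_pos hi]
            by_cases hi0 : (i : ℕ) = 0
            · rw [if_pos hi0, hi0, zero_add, hG1]
              exact max_le le_rfl (by linarith)
            · rw [if_neg hi0]
              exact max_le (hle _ (by omega) (by omega) (Or.inl (by omega))) le_rfl
          · rw [if_neg hi, if_neg (show ¬ (i : ℕ) = 0 by omega)]
            have h1 := hle (n - 1) (by omega) le_rfl (Or.inl (by omega))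
            split_ifs
            · exact max_le (by linarith) le_rfl
            · exact max_le (by linarith) le_rfl
        refine (Finset.sum_le_sum fun i _ => hb i).trans ?_
        rw [sum_at 0 (fun _ => 3 * (n : ℝ) - 2), if_pos (by omega), hcj, hJ1]
        push_cast
        nlinarith
      · have hb : ∀ i : Fin n, max (if (i : ℕ) + 2 < n then G (i + 1) else if (i : ℕ) + 2 = n then G (n - 1) / 2 else G (n - 1) / 2) 0 ≤ 0 := by
          intro i
          by_cases hi : (i : ℕ) + 2 < n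
          · rw [if_pos hi]
            exact max_le (hle _ (by omega) (by omega) (Or.inr (by omega))) le_rfl
          · rw [if_neg hi]
            have h1 := hle (n - 1) (by omega) le_rfl (Or.inl (by omega))
            split_ifs
            · exact max_le (by linarith) le_rfl
            · exact max_le (by linarith) le_rfl
        refine (Finset.sum_le_sum fun i _ => hb i).trans ?_
        rw [Finset.sum_const_zero]
        exact mul_nonneg hc0 (by positivity))
  have h9 : c j * (∑ k, e k + n / 2) = c j * ∑ k, e k + c j * (n / 2) := by ring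
  rw [h9]
  exact hcert

end Pool.Agent.Lib.L8.F7
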