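import Pool.Agent.Lib.L8.F7.Defs
import Pool.Agent.Lib.L8.F7.V0
import Pool.Agent.Lib.L8.PW.Num

/-!
# F7 IE (M): the inequality, exceptional types (helper31)
-/

namespace Pool.Agent.Lib.L8.F7

open Matrix

/-- Proof. First `c = (6, 10)` from the two equations `hc` (linarith). Then for each `j` linear in `e`: `linarith` from `0 ≤ pr G₂ e i ≤ 1`. -/
theorem inG2 : Sq CartanMatrix.G₂ 16 := by
  intro c hc e he j
  have a0 := hc 0
  have a1 := hc 1
  obtain ⟨b0, d0⟩ := he 0
  obtain ⟨b1, d1⟩ := he 1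
  simp [pr, CartanMatrix.G₂, Fin.sum_univ_succ] at a0 b0 d0 a1 b1 d1
  have c0 : c 0 = 6 := by linarith
  have c1 : c 1 = 10 := by linarith
  fin_cases j
  · simp [Fin.sum_univ_succ]
    rw [c0]
    linarith
  · simp [Fin.sum_univ_succ]
    rw [c1]
    linarith

/-- Proof. First `c = (16, 30, 42, 22)` from the four equations `hc` (linarith). Then for each `j`: `linarith` from `0 ≤ pr F₄ e i ≤ 1`; all coefficients are `≤ 0`: `54 e j ≤ c j ∑ e`. (`∑ e ≥ 0`.) -/
theorem inF4 : Sq CartanMatrix.F₄ 54 := by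
  intro c hc e he j
  have a0 := hc 0
  have a1 := hc 1
  have a2 := hc 2
  have a3 := hc 3
  obtain ⟨b0, d0⟩ := he 0
  obtain ⟨b1, d1⟩ := he 1
  obtain ⟨b2, d2⟩ := he 2
  obtain ⟨b3, d3⟩ := he 3
  simp [pr, CartanMatrix.F₄, Fin.sum_univ_succ] at a0 b0 d0 a1 b1 d1 a2 b2 d2 a3 b3 d3
  have c0 : c 0 = 16 := by linarith
  have c1 : c 1 = 30 := by linarith
  have c2 : c 2 = 42 := by linarith
  have c3 : c 3 = 22 := by linarith
  fin_cases j
  · simp [Fin.sum_univ_succ]
    rw [c0]
    linarith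
  · simp [Fin.sum_univ_succ]
    rw [c1]
    linarith
  · simp [Fin.sum_univ_succ]
    rw [c2]
    linarith
  · simp [Fin.sum_univ_succ]
    rw [c3]
    linarith

/-- Proof. First `c = 2 (8, 11, 15, 21, 15, 8)` from the equations `hc` (linarith). The matrix is symmetric, so `0 ≤ pr E₆ e i` is the hypothesis of `PW.num_E6` for `y = e`: `96 e j ≤ c j ∑ e`; `e j ≥ 0` by `nonneg_of` with `c` (file V0), so `80 e j ≤ 96 e j`. -/
theorem inE6 : Sq CartanMatrix.E₆ 80 := by
  intro c hc e he j
  have a0 := hc 0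
  have a1 := hc 1
  have a2 := hc 2
  have a3 := hc 3
  have a4 := hc 4
  have a5 := hc 5
  simp [pr, CartanMatrix.E₆, Fin.sum_univ_succ] at a0 a1 a2 a3 a4 a5
  have c0 : c 0 = 16 := by linarith
  have c1 : c 1 = 22 := by linarith
  have c2 : c 2 = 30 := by linarith
  have c3 : c 3 = 42 := by linarith
  have c4 : c 4 = 30 := by linarith
  have c5 : c 5 = 16 := by linarith
  have hs : ∀ k i, CartanMatrix.E₆ k i = CartanMatrix.E₆ i k := fun k i => CartanMatrix.E₆_isSymm.apply i k
  have hp : ∀ k, 0 ≤ ∑ j, ((CartanMatrix.E₆ k j : ℤ) : ℝ) * e j := by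
    intro k
    refine (he k).1.trans (le_of_eq ?_)
    unfold pr
    exact Finset.sum_congr rfl fun i _ => by rw [hs k i, mul_comm]
  have h1 := PW.num_E6 e hp j
  have hA : ∀ k i, k ≠ i → CartanMatrix.E₆ k i ≤ 0 := CartanMatrix.E₆_off_diag_nonpos
  have hc0 : ∀ k, 0 < c k := by
    intro k
    fin_cases k
    · show 0 < c 0
      rw [c0]
      norm_num
    · show 0 < c 1
      rw [c1]
      norm_num
    · show 0 < c 2
      rw [c2]
      norm_num
    · show 0 < c 3
      rw [c3]
      norm_num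
    · show 0 < c 4
      rw [c4]
      norm_num
    · show 0 < c 5
      rw [c5]
      norm_num
  have he0 := nonneg_of hA hc0 (fun i => by rw [hc i]; norm_num) (fun i => (he i).1)
  have hj := he0 j
  have hsum : 0 ≤ ∑ k, e k := Finset.sum_nonneg fun k _ => he0 k
  have hcj : c j = 2 * (![8, 11, 15, 21, 15, 8] : Fin 6 → ℝ) j := by
    fin_cases j
    · show c 0 = _
      rw [c0]
      norm_num
    · show c 1 = _
      rw [c1]
      norm_num
    · show c 2 = _
      rw [c2]
      norm_num
    · show c 3 = _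
      rw [c3]
      norm_num
    · show c 4 = _
      rw [c4]
      norm_num
    · show c 5 = _
      rw [c5]
      norm_num
  rw [← hcj] at h1
  have h3 := (hc0 j).le
  have h4 : c j * (∑ k, e k + (6 : ℕ) / 2) = c j * ∑ k, e k + c j * ((6 : ℕ) / 2) := by ring
  rw [h4]
  have h5 : (0 : ℝ) ≤ c j * ((6 : ℕ) / 2) := mul_nonneg h3 (by positivity)
  linarith

/-- Proof. The same with `c = 2 (17, 49 / 2, 33, 48, 75 / 2, 26, 27 / 2)` and `PW.num_E7`. -/
theorem inE7 : Sq CartanMatrix.E₇ 147 := by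
  intro c hc e he j
  have a0 := hc 0
  have a1 := hc 1
  have a2 := hc 2
  have a3 := hc 3
  have a4 := hc 4
  have a5 := hc 5
  have a6 := hc 6
  simp [pr, CartanMatrix.E₇, Fin.sum_univ_succ] at a0 a1 a2 a3 a4 a5 a6
  have c0 : c 0 = 34 := by linarith
  have c1 : c 1 = 49 := by linarith
  have c2 : c 2 = 66 := by linarith
  have c3 : c 3 = 96 := by linarith
  have c4 : c 4 = 75 := by linarith
  have c5 : c 5 = 52 := by linarith
  have c6 : c 6 = 27 := by linarith
  have hs : ∀ k i, CartanMatrix.E₇ k i = CartanMatrix.E₇ i k := fun k i => CartanMatrix.E₇_isSymm.apply i k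
  have hp : ∀ k, 0 ≤ ∑ j, ((CartanMatrix.E₇ k j : ℤ) : ℝ) * e j := by
    intro k
    refine (he k).1.trans (le_of_eq ?_)
    unfold pr
    exact Finset.sum_congr rfl fun i _ => by rw [hs k i, mul_comm]
  have h1 := PW.num_E7 e hp j
  have hA : ∀ k i, k ≠ i → CartanMatrix.E₇ k i ≤ 0 := CartanMatrix.E₇_off_diag_nonpos
  have hc0 : ∀ k, 0 < c k := by
    intro k
    fin_cases k
    · show 0 < c 0
      rw [c0]
      norm_num
    · show 0 < c 1
      rw [c1]
      norm_num
    · show 0 < c 2
      rw [c2]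
      norm_num
    · show 0 < c 3
      rw [c3]
      norm_num
    · show 0 < c 4
      rw [c4]
      norm_num
    · show 0 < c 5
      rw [c5]
      norm_num
    · show 0 < c 6
      rw [c6]
      norm_num
  have he0 := nonneg_of hA hc0 (fun i => by rw [hc i]; norm_num) (fun i => (he i).1)
  have hj := he0 j
  have hsum : 0 ≤ ∑ k, e k := Finset.sum_nonneg fun k _ => he0 k
  have hcj : c j = 2 * (![17, 49 / 2, 33, 48, 75 / 2, 26, 27 / 2] : Fin 7 → ℝ) j := by
    fin_cases j
    · show c 0 = _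
      rw [c0]
      norm_num
    · show c 1 = _
      rw [c1]
      norm_num
    · show c 2 = _
      rw [c2]
      norm_num
    · show c 3 = _
      rw [c3]
      norm_num
    · show c 4 = _
      rw [c4]
      norm_num
    · show c 5 = _
      rw [c5]
      norm_num
    · show c 6 = _
      rw [c6]
      norm_num
  rw [← hcj] at h1
  have h3 := (hc0 j).le
  have h4 : c j * (∑ k, e k + (7 : ℕ) / 2) = c j * ∑ k, e k + c j * ((7 : ℕ) / 2) := by ring
  rw [h4]
  have h5 : (0 : ℝ) ≤ c j * ((7 : ℕ) / 2) := mul_nonneg h3 (by positivity)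
  linarith

/-- Proof. The same with `c = 2 (46, 68, 91, 135, 110, 84, 57, 29)` and `PW.num_E8`. -/
theorem inE8 : Sq CartanMatrix.E₈ 336 := by
  intro c hc e he j
  have a0 := hc 0
  have a1 := hc 1
  have a2 := hc 2
  have a3 := hc 3
  have a4 := hc 4
  have a5 := hc 5
  have a6 := hc 6
  have a7 := hc 7
  simp [pr, CartanMatrix.E₈, Fin.sum_univ_succ] at a0 a1 a2 a3 a4 a5 a6 a7
  have c0 : c 0 = 92 := by linarith
  have c1 : c 1 = 136 := by linarith
  have c2 : c 2 = 182 := by linarith
  have c3 : c 3 = 270 := by linarith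
  have c4 : c 4 = 220 := by linarith
  have c5 : c 5 = 168 := by linarith
  have c6 : c 6 = 114 := by linarith
  have c7 : c 7 = 58 := by linarith
  have hs : ∀ k i, CartanMatrix.E₈ k i = CartanMatrix.E₈ i k := fun k i => CartanMatrix.E₈_isSymm.apply i k
  have hp : ∀ k, 0 ≤ ∑ j, ((CartanMatrix.E₈ k j : ℤ) : ℝ) * e j := by
    intro k
    refine (he k).1.trans (le_of_eq ?_)
    unfold pr
    exact Finset.sum_congr rfl fun i _ => by rw [hs k i, mul_comm]
  have h1 := PW.num_E8 e hp j
  have hA : ∀ k i, k ≠ i → CartanMatrix.E₈ k i ≤ 0 := CartanMatrix.E₈_off_diag_nonpos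
  have hc0 : ∀ k, 0 < c k := by
    intro k
    fin_cases k
    · show 0 < c 0
      rw [c0]
      norm_num
    · show 0 < c 1
      rw [c1]
      norm_num
    · show 0 < c 2
      rw [c2]
      norm_num
    · show 0 < c 3
      rw [c3]
      norm_num
    · show 0 < c 4
      rw [c4]
      norm_num
    · show 0 < c 5
      rw [c5]
      norm_num
    · show 0 < c 6
      rw [c6]
      norm_num
    · show 0 < c 7
      rw [c7]
      norm_num
  have he0 := nonneg_of hA hc0 (fun i => by rw [hc i]; norm_num) (fun i => (he i).1)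
  have hj := he0 j
  have hsum : 0 ≤ ∑ k, e k := Finset.sum_nonneg fun k _ => he0 k
  have hcj : c j = 2 * (![46, 68, 91, 135, 110, 84, 57, 29] : Fin 8 → ℝ) j := by
    fin_cases j
    · show c 0 = _
      rw [c0]
      norm_num
    · show c 1 = _
      rw [c1]
      norm_num
    · show c 2 = _
      rw [c2]
      norm_num
    · show c 3 = _
      rw [c3]
      norm_num
    · show c 4 = _
      rw [c4]
      norm_num
    · show c 5 = _
      rw [c5]
      norm_num
    · show c 6 = _
      rw [c6]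
      norm_num
    · show c 7 = _
      rw [c7]
      norm_num
  rw [← hcj] at h1
  have h3 := (hc0 j).le
  have h4 : c j * (∑ k, e k + (8 : ℕ) / 2) = c j * ∑ k, e k + c j * ((8 : ℕ) / 2) := by ring
  rw [h4]
  have h5 : (0 : ℝ) ≤ c j * ((8 : ℕ) / 2) := mul_nonneg h3 (by positivity)
  linarith

end Pool.Agent.Lib.L8.F7
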