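import Pool.Agent.Lib.L8.F7.RDefs
import Pool.Agent.Lib.L1S.D5

/-!
# F7 Q1 (M): twice rho of a parabolic subsystem (helper31)
-/

namespace Pool.Agent.Lib.L8.F7

open Matrix Pool.Agent.Lib.L1S Pool.Agent.Lib.L8.FL

noncomputable section

set_option linter.unusedSectionVars false

variable {ι M N : Type} [Fintype ι] [DecidableEq ι] [AddCommGroup M] [Module ℚ M] [AddCommGroup N] [Module ℚ N]
  {P : RootPairing ι ℚ M N} [P.IsCrystallographic] [P.IsReduced] [P.IsIrreducible] [P.IsRootSystem] {b : P.Base}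

theorem c7q1_coef (i k : b.support) (hk : k ≠ i) (β : ι) : mc b k (Sum.inr (P.reflectionPerm i β)) = mc b k (Sum.inr β) := by
  have h1 : ((mc b k (Sum.inr (P.reflectionPerm i β)) : ℤ) : ℚ) = ((mc b k (Sum.inr β) : ℤ) : ℚ) := by
    rw [d5_mc, d5_mc]
    change b.toWeightBasis.repr (P.root (P.reflectionPerm i β)) k = b.toWeightBasis.repr (P.root β) k
    rw [P.root_reflectionPerm, P.reflection_apply_root, map_sub, map_smul, Finsupp.sub_apply, Finsupp.smul_apply, b.toWeightBasis_repr_root, Finsupp.single_eq_of_ne hk, smul_zero, sub_zero]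
  exact_mod_cast h1

theorem c7q1_mem (S : Finset b.support) {i : b.support} (hi : i ∈ S) {β : ι} (hβ : β ∈ PI b S) (hne : β ≠ i) :
    P.reflectionPerm i β ∈ PI b S ∧ P.reflectionPerm i β ≠ i := by
  rw [mem_PI] at hβ
  refine ⟨?_, ?_⟩
  · rw [mem_PI]
    refine ⟨hβ.1.reflectionPerm i.2 hne, fun k hk => ?_⟩
    rw [c7q1_coef i k (fun h => hk (h ▸ hi))]
    exact hβ.2 k hk
  · intro h
    have h1 : β = P.reflectionPerm i i := by
      rw [← P.reflectionPerm_self (i : ι) β, h]
    have h2 := hβ.1
    rw [RootPairing.Base.isPos_iff, h1] at h2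
    have h3 := RootPairing.Base.height_reflectionPerm_self (b := b) (i : ι)
    have h4 : b.height (P.reflectionPerm i i) = - b.height i := h3
    rw [h4, RootPairing.Base.height_one_of_mem_support i.2] at h2
    omega

theorem c7q1_self (S : Finset b.support) {i : b.support} (hi : i ∈ S) : (i : ι) ∈ PI b S := by
  rw [mem_PI]
  refine ⟨?_, fun k hk => ?_⟩
  · rw [RootPairing.Base.isPos_iff, RootPairing.Base.height_one_of_mem_support i.2]
    norm_num
  · have hki : k ≠ i := fun h => hk (h ▸ hi)
    have h1 : ((mc b k (Sum.inr (i : ι)) : ℤ) : ℚ) = 0 := by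
      rw [d5_mc]
      change b.toWeightBasis.repr (P.root i) k = 0
      rw [b.toWeightBasis_repr_root, Finsupp.single_eq_of_ne hki]
    exact_mod_cast h1

/-- **`⟨2ρ_S, α_i^∨⟩ = 2` for `i ∈ S`.**
Proof. `∑ k, mc b k (inr β) * A k i = pairingIn β i` (`L1S.d5_pairing`), so the left side is `∑ β ∈ PI b S, P.pairingIn ℤ β i`. Let `s = P.reflectionPerm i` (an involution). For `β ∈ PI b S`, `β ≠ i`: `s β ∈ PI b S`, `s β ≠ i`:
positive by `RootPairing.Base.IsPos.reflectionPerm`; `P.root (s β) = P.root β - pairing • P.root i`, so the coefficients `mc b k` for `k ≠ i` do not change (`L1S.d5_mc`, `wq`, `map_sub`, `toWeightBasis.repr` of a simple root; or compare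
`L1S.iw_mc`), in particular for `k ∉ S`; and `pairingIn (s β) i = - pairingIn β i`. So the sum over `(PI b S).erase i` is `0` (`Finset.sum_involution`, or: it is equal to its negative by `Finset.sum_bij`), and the term `β = i` is `2`
(`i ∈ PI b S`: positive, and `mc b k (inr i) = 0` for `k ≠ i`). -/
theorem cI_pair (S : Finset b.support) {i : b.support} (hi : i ∈ S) : ∑ k, cI b S k * b.cartanMatrix k i = 2 := by
  have h1 : ∑ k, cI b S k * b.cartanMatrix k i = ∑ β ∈ PI b S, P.pairingIn ℤ β i := by
    unfold cI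
    simp_rw [Finset.sum_mul]
    rw [Finset.sum_comm]
    refine Finset.sum_congr rfl fun β _ => ?_
    rw [d5_pairing]
  rw [h1, ← Finset.add_sum_erase (PI b S) _ (c7q1_self S hi), P.pairingIn_same ℤ]
  have h2 : ∑ β ∈ (PI b S).erase (i : ι), P.pairingIn ℤ β i = 0 := by
    have hneg : ∀ β : ι, P.pairingIn ℤ (P.reflectionPerm i β) i = - P.pairingIn ℤ β i := by
      intro β
      rw [← P.pairingIn_reflectionPerm, P.pairingIn_reflectionPerm_self_right]
    refine Finset.sum_involution (fun β _ => P.reflectionPerm i β) ?_ ?_ ?_ ?_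
    · intro β _
      change P.pairingIn ℤ β i + P.pairingIn ℤ (P.reflectionPerm i β) i = 0
      rw [hneg]
      ring
    · intro β _ hne h
      have h3 := hneg β
      have h4 : P.reflectionPerm i β = β := h
      rw [h4] at h3
      exact hne (by omega)
    · intro β hβ
      rw [Finset.mem_erase] at hβ ⊢
      obtain ⟨h3, h4⟩ := c7q1_mem S hi hβ.2 hβ.1
      exact ⟨h4, h3⟩
    · intro β _
      exact P.reflectionPerm_self (i : ι) β
  rw [h2, add_zero]

end

end Pool.Agent.Lib.L8.F7
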