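import Pool.Agent.Lib.L8.F7.RDefs
import Pool.Agent.Lib.L1S.D5

/-!
# F7 Q2 (S/M): counting positive roots (helper31)
-/

namespace Pool.Agent.Lib.L8.F7

open Matrix Pool.Agent.Lib.L1S Pool.Agent.Lib.L8.FL

noncomputable section

set_option linter.unusedSectionVars false

variable {ι M N : Type} [Fintype ι] [DecidableEq ι] [AddCommGroup M] [Module ℚ M] [AddCommGroup N] [Module ℚ N]
  {P : RootPairing ι ℚ M N} [P.IsCrystallographic] [P.IsReduced] [P.IsIrreducible] [P.IsRootSystem] {b : P.Base}

/-- Proof. A positive root is `∑ k, mc k • α_k` (`L1S.d5_root`); if all `mc` are `0` it is `0`, impossible. -/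
theorem PI_empty : PI b ∅ = ∅ := by
  rw [Finset.eq_empty_iff_forall_notMem]
  intro β hβ
  obtain ⟨-, h⟩ := mem_PI.1 hβ
  apply P.ne_zero β
  rw [d5_root b β]
  refine Finset.sum_eq_zero fun k _ => ?_
  rw [h k (Finset.notMem_empty k), Int.cast_zero, zero_smul]

/-- Proof. By definition all terms are `0`. -/
theorem cI_zero {S : Finset b.support} {k : b.support} (hk : k ∉ S) : cI b S k = 0 := by
  unfold cI
  exact Finset.sum_eq_zero fun β hβ => (mem_PI.1 hβ).2 k hk

/-- Proof. `PI b S` is the disjoint union of `PI b (S.erase j)` (the roots with `mc b j = 0`; for `k = j` use this, for `k ∉ S` the definition) and of the roots with `mc b j (inr β) ≥ 1` (`mc ≥ 0` for positive roots: `L1S.d5_mc_nonneg`);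
the number of the latter is at most the sum of their `mc b j`, and this is `cI b S j`. -/
theorem card_PI_le {S : Finset b.support} {j : b.support} (hj : j ∈ S) : ((PI b S).card : ℤ) ≤ (PI b (S.erase j)).card + cI b S j := by
  classical
  have h1 : PI b S ⊆ PI b (S.erase j) ∪ (PI b S).filter (fun β => 0 < mc b j (Sum.inr β)) := by
    intro β hβ
    obtain ⟨hp, h0⟩ := mem_PI.1 hβ
    rw [Finset.mem_union]
    by_cases h : 0 < mc b j (Sum.inr β)
    · exact Or.inr (Finset.mem_filter.2 ⟨hβ, h⟩)
    · left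
      rw [mem_PI]
      refine ⟨hp, fun k hk => ?_⟩
      by_cases hkj : k = j
      · rw [hkj]
        exact le_antisymm (not_lt.1 h) (d5_mc_nonneg j hp)
      · exact h0 k fun hkS => hk (Finset.mem_erase.2 ⟨hkj, hkS⟩)
  have h2 := (Finset.card_le_card h1).trans (Finset.card_union_le _ _)
  have h3 : (((PI b S).filter (fun β => 0 < mc b j (Sum.inr β))).card : ℤ) ≤ cI b S j := by
    unfold cI
    calc (((PI b S).filter (fun β => 0 < mc b j (Sum.inr β))).card : ℤ)
        = ∑ β ∈ (PI b S).filter (fun β => 0 < mc b j (Sum.inr β)), (1 : ℤ) := by simp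
      _ ≤ ∑ β ∈ (PI b S).filter (fun β => 0 < mc b j (Sum.inr β)), mc b j (Sum.inr β) :=
        Finset.sum_le_sum fun β hβ => (Finset.mem_filter.1 hβ).2
      _ ≤ ∑ β ∈ PI b S, mc b j (Sum.inr β) :=
        Finset.sum_le_sum_of_subset_of_nonneg (Finset.filter_subset _ _) fun β hβ _ => d5_mc_nonneg j (mem_PI.1 hβ).1
  have h4 : ((PI b S).card : ℤ) ≤ ((PI b (S.erase j)).card : ℤ) +
      (((PI b S).filter (fun β => 0 < mc b j (Sum.inr β))).card : ℤ) := by exact_mod_cast h2
  linarith

/-- Proof. `β ↦ P.reflectionPerm β β` (`= -β`) is a bijection between the positive and the other roots (`L1S.b2_root_neg`, `RootPairing.Base.IsPos.neg_iff_not`, `IsPos.or_neg`). -/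
theorem card_roots : Fintype.card ι = 2 * (PI b Finset.univ).card := by
  classical
  have h1 : PI b Finset.univ = Finset.univ.filter fun β => b.IsPos β := by
    ext β
    rw [mem_PI, Finset.mem_filter]
    exact ⟨fun h => ⟨Finset.mem_univ _, h.1⟩, fun h => ⟨h.2, fun k hk => absurd (Finset.mem_univ k) hk⟩⟩
  have h2 : (Finset.univ.filter fun β : ι => ¬ b.IsPos β).card = (Finset.univ.filter fun β : ι => b.IsPos β).card := by
    refine Finset.card_bij (fun β _ => P.reflectionPerm β β) ?_ ?_ ?_
    · intro β hβ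
      rw [Finset.mem_filter] at hβ ⊢
      exact ⟨Finset.mem_univ _, (RootPairing.Base.IsPos.neg_iff_not b β).2 hβ.2⟩
    · intro β _ γ _ h
      apply P.root.injective
      have h5 := congrArg P.root h
      rw [b2_root_neg, b2_root_neg] at h5
      exact neg_injective h5
    · intro γ hγ
      rw [Finset.mem_filter] at hγ
      refine ⟨P.reflectionPerm γ γ, ?_, ?_⟩
      · rw [Finset.mem_filter]
        refine ⟨Finset.mem_univ _, fun h => ?_⟩
        exact (RootPairing.Base.IsPos.neg_iff_not b γ).1 h hγ.2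
      · apply P.root.injective
        rw [b2_root_neg, b2_root_neg, neg_neg]
  have h3 := Finset.card_filter_add_card_filter_not (s := (Finset.univ : Finset ι)) (p := fun β => b.IsPos β)
  rw [Finset.card_univ] at h3
  rw [h1]
  omega

/-- Proof. All terms are `≥ 0` (`L1S.d5_mc_nonneg`) and the term `β = k` is `1`. -/
theorem cI_pos (k : b.support) : 0 < cI b Finset.univ k := by
  unfold cI
  have hk : (k : ι) ∈ PI b Finset.univ :=
    mem_PI.2 ⟨RootPairing.Base.isPos_of_mem_support k.2, fun l hl => absurd (Finset.mem_univ l) hl⟩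
  refine Finset.sum_pos' (fun β hβ => d5_mc_nonneg k (mem_PI.1 hβ).1) ⟨k, hk, ?_⟩
  have h1 : ((mc b k (Sum.inr (k : ι)) : ℤ) : ℚ) = 1 := by
    rw [d5_mc]
    change b.toWeightBasis.repr (P.root k) k = 1
    rw [b.toWeightBasis_repr_root, Finsupp.single_eq_same]
  have h2 : mc b k (Sum.inr (k : ι)) = 1 := by exact_mod_cast h1
  rw [h2]
  exact one_pos

end

end Pool.Agent.Lib.L8.F7
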