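import Pool.Agent.Lib.L8.F7.RDefs
import Pool.Agent.Lib.L8.F7.Q1
import Pool.Agent.Lib.L8.F7.Q2

/-!
# F7 Q3 (S/M): transfer to matrices (helper31)
-/

namespace Pool.Agent.Lib.L8.F7

open Matrix Pool.Agent.Lib.L1S Pool.Agent.Lib.L8.FL

noncomputable section

set_option linter.unusedSectionVars false

variable {ι M N : Type} [Fintype ι] [DecidableEq ι] [AddCommGroup M] [Module ℚ M] [AddCommGroup N] [Module ℚ N]
  {P : RootPairing ι ℚ M N} [P.IsCrystallographic] [P.IsReduced] [P.IsIrreducible] [P.IsRootSystem] {b : P.Base}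

/-- Proof. `empty`: `PI_empty`. `step`: `card_PI_le` for `S.map e.symm` and `e.symm j` (`Finset.map_erase`; cast to the real numbers). `zero`: `cI_zero`. `pair`: `cI_pair`, the sum over `Fin n` reindexed with `e`
(`Equiv.sum_comp`), `b.cartanMatrix k i = P.pairingIn ℤ k i` (`rfl`) `= A (e k) (e i)`. -/
theorem chn_of {n : ℕ} {A : Matrix (Fin n) (Fin n) ℤ} (e : b.support ≃ Fin n) (he : ∀ i j : b.support, P.pairingIn ℤ i j = A (e i) (e j)) :
    Chn A (fun S => ((PI b (S.map e.symm.toEmbedding)).card : ℝ)) (fun S k => ((cI b (S.map e.symm.toEmbedding) (e.symm k) : ℤ) : ℝ)) := by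
  refine ⟨?_, ?_, ?_, ?_⟩
  · simp [PI_empty]
  · intro S j hj
    have h1 := card_PI_le (b := b) (S := S.map e.symm.toEmbedding) (j := e.symm j)
      (Finset.mem_map_of_mem _ hj)
    have h2 : (S.map e.symm.toEmbedding).erase (e.symm j) = (S.erase j).map e.symm.toEmbedding :=
      (Finset.map_erase _ _ _).symm
    rw [h2] at h1
    exact_mod_cast h1
  · intro S k hk
    have h1 : e.symm k ∉ S.map e.symm.toEmbedding := by
      rw [Finset.mem_map_equiv, Equiv.symm_symm, Equiv.apply_symm_apply]
      exact hk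
    change ((cI b (S.map e.symm.toEmbedding) (e.symm k) : ℤ) : ℝ) = 0
    rw [cI_zero h1, Int.cast_zero]
  · intro S i hi
    have h1 := cI_pair (b := b) (S.map e.symm.toEmbedding) (i := e.symm i) (Finset.mem_map_of_mem _ hi)
    have h2 : ∀ k : b.support, b.cartanMatrix k (e.symm i) = A (e k) i := by
      intro k
      have h3 := he k (e.symm i)
      rw [Equiv.apply_symm_apply] at h3
      exact h3
    unfold pr
    rw [← Equiv.sum_comp e]
    have h4 : ((∑ k, cI b (S.map e.symm.toEmbedding) k * b.cartanMatrix k (e.symm i) : ℤ) : ℝ) = 2 := by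
      rw [h1]
      norm_num
    rw [← h4]
    push_cast
    refine Finset.sum_congr rfl fun k _ => ?_
    rw [Equiv.symm_apply_apply, h2]

end

end Pool.Agent.Lib.L8.F7
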