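import Pool.Agent.Lib.L8.F7.RDefs
import Pool.Agent.Lib.L8.FV4

/-!
# F7 Q4 (M): the fundamental weights (helper31)
-/

namespace Pool.Agent.Lib.L8.F7

open Matrix Pool.Agent.Lib.L1S Pool.Agent.Lib.L8.FL

noncomputable section

set_option linter.unusedSectionVars false

variable {ι M N : Type} [Fintype ι] [DecidableEq ι] [AddCommGroup M] [Module ℚ M] [AddCommGroup N] [Module ℚ N]
  {P : RootPairing ι ℚ M N} [P.IsCrystallographic] [P.IsReduced] [P.IsIrreducible] [P.IsRootSystem] {b : P.Base}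

/-- **`om` is the inverse Cartan matrix.**
Proof. `xe b (om b j) i = (∑ β ∈ Phi b j, ∑ k, mc b k (inr β) * A k i) / cw b j = (∑ β ∈ Phi b j, pairingIn β i) / cw b j` (`L1S.d5_pairing`, cast), and `L8.sum_phi j y` (file FV4) with `y = Pi.single i 1`: `pry b y (inr β) = pairingIn β i` (unfold `pry`, `pj`),
right side `cw b j * [i = j]`; `cw_pos`. -/
theorem om_pair (j i : b.support) : xe b (om b j) i = if i = j then 1 else 0 := by
  have h1 := L8.sum_phi j (Pi.single i (1 : ℝ))
  have h2 : ∀ β : ι, L8.pry b (Pi.single i (1 : ℝ)) (Sum.inr β) = ((P.pairingIn ℤ β i : ℤ) : ℝ) := by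
    intro β
    unfold L8.pry
    rw [Finset.sum_eq_single i]
    · rw [Pi.single_eq_same, mul_one]
      rfl
    · intro k _ hk
      rw [Pi.single_eq_of_ne hk, mul_zero]
    · intro h
      exact absurd (Finset.mem_univ i) h
  simp only [h2] at h1
  have hc : (0 : ℝ) < ((cw b j : ℤ) : ℝ) := by exact_mod_cast L8.cw_pos j
  have h3 : xe b (om b j) i = (∑ β ∈ Phi b j, ((P.pairingIn ℤ β i : ℤ) : ℝ)) / ((cw b j : ℤ) : ℝ) := by
    unfold xe om
    rw [Finset.sum_div]
    have h4 : ∀ k : b.support, (∑ β ∈ Phi b j, (mc b k (Sum.inr β) : ℝ)) / ((cw b j : ℤ) : ℝ) * (b.cartanMatrix k i : ℝ) = ∑ β ∈ Phi b j, ((mc b k (Sum.inr β) : ℝ) * (b.cartanMatrix k i : ℝ)) / ((cw b j : ℤ) : ℝ) := by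
      intro k
      rw [Finset.sum_div, Finset.sum_mul]
      exact Finset.sum_congr rfl fun β _ => by ring
    simp only [h4]
    rw [Finset.sum_comm]
    refine Finset.sum_congr rfl fun β _ => ?_
    rw [← Finset.sum_div, d5_pairing]
    push_cast
    rfl
  rw [h3, h1]
  split_ifs with h
  · subst h
    rw [Pi.single_eq_same, mul_one, div_self hc.ne']
  · rw [Pi.single_eq_of_ne (fun e => h e.symm), mul_zero, zero_div]

/-- Proof. `xe` is linear; `om_pair`. -/
theorem xe_ex (x : b.support → ℝ) (i : b.support) : xe b (ex b x) i = x i := by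
  have h1 : xe b (ex b x) i = ∑ j, x j * xe b (om b j) i := by
    unfold xe FL.ex
    simp only [Finset.sum_mul, Finset.mul_sum]
    rw [Finset.sum_comm]
    exact Finset.sum_congr rfl fun j _ => Finset.sum_congr rfl fun k _ => by ring
  rw [h1]
  simp only [om_pair, mul_ite, mul_one, mul_zero, Finset.sum_ite_eq, Finset.mem_univ, if_true]

/-- Proof. `∑ k, om b j k * al (cA b) k Λ = ∑ i, xe b (om b j) i * Λ i` (unfold `al`, `cA`, `xe`, `Finset.sum_comm`), `om_pair`. -/
theorem om_al (j : b.support) (Λ : b.support → ℝ) : ∑ k, om b j k * al (cA b) k Λ = Λ j := by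
  have h1 : ∑ k, om b j k * al (cA b) k Λ = ∑ i, xe b (om b j) i * Λ i := by
    unfold al cA xe
    simp only [Finset.sum_mul, Finset.mul_sum]
    rw [Finset.sum_comm]
    exact Finset.sum_congr rfl fun j _ => Finset.sum_congr rfl fun k _ => by ring
  rw [h1]
  simp only [om_pair, ite_mul, one_mul, zero_mul, Finset.sum_ite_eq', Finset.mem_univ, if_true]

/-- Proof. `∑ k, ex b x k = ∑ j, x j * ∑ k, om b j k` (`Finset.sum_comm`). -/
theorem sum_ex (x : b.support → ℝ) : ∑ k, ex b x k = ∑ j, x j * rr b j := by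
  unfold FL.ex rr
  rw [Finset.sum_comm]
  exact Finset.sum_congr rfl fun j _ => by rw [Finset.mul_sum]

end

end Pool.Agent.Lib.L8.F7
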