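import Pool.Agent.Lib.L8.F7.RDefs
import Pool.Agent.Lib.L8.F7.Q1
import Pool.Agent.Lib.L8.F7.Q2

/-!
# F7 Q5 (S/M): twice rho and the coroots (helper31)
-/

namespace Pool.Agent.Lib.L8.F7

open Matrix Pool.Agent.Lib.L1S Pool.Agent.Lib.L8.FL

noncomputable section

set_option linter.unusedSectionVars false

variable {ι M N : Type} [Fintype ι] [DecidableEq ι] [AddCommGroup M] [Module ℚ M] [AddCommGroup N] [Module ℚ N]
  {P : RootPairing ι ℚ M N} [P.IsCrystallographic] [P.IsReduced] [P.IsIrreducible] [P.IsRootSystem] {b : P.Base}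

theorem cI_pairR (i : b.support) : ∑ k, ((cI b Finset.univ k : ℤ) : ℝ) * (b.cartanMatrix k i : ℝ) = 2 := by
  have h := cI_pair (b := b) Finset.univ (Finset.mem_univ i)
  have h' : (((∑ k, cI b Finset.univ k * b.cartanMatrix k i : ℤ)) : ℝ) = ((2 : ℤ) : ℝ) := by rw [h]
  push_cast at h'
  exact h'

/-- Proof. `al (cA b) k Λ = ∑ i, A k i * Λ i`; exchange the sums (`Finset.sum_comm`) and use `cI_pair` for `S = univ` (cast). -/
theorem cI_al (Λ : b.support → ℝ) : ∑ k, ((cI b Finset.univ k : ℤ) : ℝ) * al (cA b) k Λ = 2 * ∑ k, Λ k := by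
  unfold al cA
  simp only [Finset.mul_sum]
  rw [Finset.sum_comm]
  refine Finset.sum_congr rfl fun i _ => ?_
  rw [← cI_pairR i, Finset.sum_mul]
  exact Finset.sum_congr rfl fun k _ => by ring

/-- Proof. `xe b e i = ∑ k, e k * A k i`; with a vector `c > 0` (`c = cI b univ`, `cI_pos` in file Q2 or directly: every `mc ≥ 0` for positive roots and the term of `α_k` itself is `1`) with `∑ k, c k * A k i = 2 > 0` (`cI_pair`): suppose some `e k < 0`, take `k₀` with `e k / c k`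
minimal (`= m < 0`), then `f = e - m c ≥ 0`, `f k₀ = 0` and `∑ k, f k * A k k₀ ≤ 0` since `A k k₀ ≤ 0` for `k ≠ k₀` (`RootPairing.Base.cartanMatrix_le_zero_of_ne`), but it is `xe b e k₀ - 2 m > 0`. (If `n = 0` there is nothing to prove.) -/
theorem xe_nonneg {e : b.support → ℝ} (he : ∀ i, 0 ≤ xe b e i) (k : b.support) : 0 ≤ e k := by
  by_contra hk
  have hk' : e k < 0 := not_le.1 hk
  have hc : ∀ k : b.support, (0 : ℝ) < ((cI b Finset.univ k : ℤ) : ℝ) := fun k => by exact_mod_cast cI_pos k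
  obtain ⟨k0, -, hmin⟩ := Finset.exists_min_image Finset.univ (fun k : b.support => e k / ((cI b Finset.univ k : ℤ) : ℝ)) ⟨k, Finset.mem_univ k⟩
  obtain ⟨m, hm⟩ : ∃ m : ℝ, m = e k0 / ((cI b Finset.univ k0 : ℤ) : ℝ) := ⟨_, rfl⟩
  have hm0 : m < 0 := by
    have h1 := hmin k (Finset.mem_univ k)
    rw [← hm] at h1
    exact lt_of_le_of_lt h1 (div_neg_of_neg_of_pos hk' (hc k))
  have hf : ∀ k : b.support, 0 ≤ e k - m * ((cI b Finset.univ k : ℤ) : ℝ) := by
    intro k
    have h1 := hmin k (Finset.mem_univ k)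
    rw [← hm] at h1
    have h2 := (le_div_iff₀ (hc k)).1 h1
    linarith
  have hf0 : e k0 - m * ((cI b Finset.univ k0 : ℤ) : ℝ) = 0 := by
    rw [hm, div_mul_cancel₀ _ (hc k0).ne']
    ring
  have h1 : ∑ k, (e k - m * ((cI b Finset.univ k : ℤ) : ℝ)) * (b.cartanMatrix k k0 : ℝ) ≤ 0 := by
    refine Finset.sum_nonpos fun k _ => ?_
    by_cases h : k = k0
    · rw [h, hf0, zero_mul]
    · refine mul_nonpos_of_nonneg_of_nonpos (hf k) ?_
      exact_mod_cast b.cartanMatrix_le_zero_of_ne k k0 h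
  have h2 : ∑ k, (e k - m * ((cI b Finset.univ k : ℤ) : ℝ)) * (b.cartanMatrix k k0 : ℝ) = xe b e k0 - m * 2 := by
    rw [← cI_pairR k0, Finset.mul_sum]
    unfold xe
    rw [← Finset.sum_sub_distrib]
    exact Finset.sum_congr rfl fun k _ => by ring
  have h3 := he k0
  linarith

end

end Pool.Agent.Lib.L8.F7
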