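import Pool.Agent.Lib.L8.F7.RDefs
import Pool.Agent.Lib.L1S.D5

/-!
# F7 Q6 (M): longest elements of parabolic subgroups (helper31)
-/

namespace Pool.Agent.Lib.L8.F7

open Matrix Pool.Agent.Lib.L1S Pool.Agent.Lib.L8.FL

noncomputable section

set_option linter.unusedSectionVars false

variable {ι M N : Type} [Fintype ι] [DecidableEq ι] [AddCommGroup M] [Module ℚ M] [AddCommGroup N] [Module ℚ N]
  {P : RootPairing ι ℚ M N} [P.IsCrystallographic] [P.IsReduced] [P.IsIrreducible] [P.IsRootSystem] {b : P.Base}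

variable (b) in
/-- The parabolic subgroup of the Weyl group. -/
def WS (S : Finset b.support) : Subgroup (Equiv.Perm ι) := Subgroup.closure {s | ∃ i ∈ S, s = P.reflectionPerm i}

/-- Proof. `Subgroup.closure_mono`-like: every generator is in `Set.range P.reflectionPerm`. -/
theorem WS_le {S : Finset b.support} : WS b S ≤ WP P := by
  refine Subgroup.closure_mono ?_
  rintro s ⟨i, _, rfl⟩
  exact ⟨i, rfl⟩

private theorem mc_simple {i k : b.support} (h : i ≠ k) : mc b k (Sum.inr (i : ι)) = 0 := by
  have h1 : ((mc b k (Sum.inr (i : ι)) : ℤ) : ℚ) = 0 := by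
    rw [d5_mc]
    unfold wq
    simp only [Sum.elim_inr]
    rw [b.toWeightBasis_repr_root i, Finsupp.single_apply, if_neg h]
  exact_mod_cast h1

/-- Proof. `Subgroup.closure_induction`. For `s_i`, `i ∈ S`, `k ≠ i`: `P.root (s_i β) = P.root β - pairing • P.root i`, the coefficient at `k` does not change (`L1S.d5_mc`, `wq`). Product: clear. Inverse: apply the hypothesis to `x⁻¹ β`. -/
theorem WS_mc {S : Finset b.support} {w : Equiv.Perm ι} (hw : w ∈ WS b S) {k : b.support} (hk : k ∉ S) (β : ι) : mc b k (Sum.inr (w β)) = mc b k (Sum.inr β) := by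
  induction hw using Subgroup.closure_induction generalizing β with
  | mem x hx =>
    obtain ⟨i, hi, rfl⟩ := hx
    have hik : i ≠ k := fun h => hk (h ▸ hi)
    have h1 : ((mc b k (Sum.inr (P.reflectionPerm i β)) : ℤ) : ℚ) = ((mc b k (Sum.inr β) : ℤ) : ℚ) := by
      rw [d5_mc, d5_mc]
      unfold wq
      simp only [Sum.elim_inr]
      rw [P.root_reflectionPerm, P.reflection_apply_root, map_sub, map_smul, Finsupp.sub_apply, Finsupp.smul_apply, b.toWeightBasis_repr_root i, Finsupp.single_apply, if_neg hik, smul_zero,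
        sub_zero]
    exact_mod_cast h1
  | one => rfl
  | mul x y _ _ hx hy =>
    rw [Equiv.Perm.mul_apply, hx, hy]
  | inv x _ hx =>
    have h := hx (x⁻¹ β)
    have e : x (x⁻¹ β) = β := x.apply_symm_apply β
    rw [e] at h
    exact h.symm

/-- **Longest elements.**
Proof. Among the elements `w` of `WS b S` (a finite set) choose one with the maximal number `N(w)` of `β ∈ PI b S` with `w β` not positive. If `w i` is positive for some `i ∈ S` then for `w' = w * s_i ∈ WS b S`: the map `β ↦ s_i β` is a bijection of `(PI b S).erase i`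
(positivity: `RootPairing.Base.IsPos.reflectionPerm`; coefficients outside `S` unchanged: `WS_mc`; involution), and `w' i = w (-α_i) = -(w i)` is negative (`L1S.b1_neg` or `b2_lin`), so `N(w') = N(w) + 1`: contradiction. So `w i` is not positive for all `i ∈ S`. For `β ∈ PI b S`:
`P.root β = ∑ k, mc k • P.root k` (`L1S.d5_root`), only `k ∈ S` occur, with `mc ≥ 0` (`L1S.d5_mc_nonneg`); with the linear map of `L1S.b2_lin`: `P.root (w β) = ∑ k, mc k • P.root (w k)`, and all coefficients of `P.root (w k)`, `k ∈ S`, are `≤ 0` (`L1S.b2_nonpos`); so all coefficients of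
`w β` are `≤ 0`, and it is not positive (a positive root has all coefficients `≥ 0`, `L1S.b2_nonneg`, so it would be `0`; or via `b1_height`: the height is `≤ 0`). -/
theorem exists_long (S : Finset b.support) : ∃ w ∈ WS b S, ∀ β ∈ PI b S, ¬b.IsPos (w β) := by
  classical
  let NN : Equiv.Perm ι → ℕ := fun w => ((PI b S).filter fun β => ¬b.IsPos (w β)).card
  obtain ⟨w, hw, hmax⟩ := (Set.toFinite ((WS b S : Subgroup (Equiv.Perm ι)) : Set (Equiv.Perm ι))).exists_maximalFor NN _ ⟨1, (WS b S).one_mem⟩
  have hinv : ∀ (i β : ι), P.reflectionPerm i (P.reflectionPerm i β) = β := fun i β => by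
    have h := P.reflectionPerm_sq i
    have h2 := congrArg (fun e : Equiv.Perm ι => e β) h
    simpa [pow_two] using h2
  -- no simple root of `S` stays positive
  have hsimple : ∀ i ∈ S, ¬b.IsPos (w i) := by
    intro i hi hpos
    have hsi : P.reflectionPerm i ∈ WS b S := Subgroup.subset_closure ⟨i, hi, rfl⟩
    have hw' : w * P.reflectionPerm i ∈ WS b S := (WS b S).mul_mem hw hsi
    have hle : NN w + 1 ≤ NN (w * P.reflectionPerm i) := by
      have h1 : ((PI b S).filter fun β => ¬b.IsPos (w β)).image (P.reflectionPerm i) ⊆ ((PI b S).filter fun β => ¬b.IsPos ((w * P.reflectionPerm i) β)).erase (i : ι) := by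
        intro γ hγ
        obtain ⟨β, hβ, rfl⟩ := Finset.mem_image.1 hγ
        obtain ⟨hβ1, hβ2⟩ := Finset.mem_filter.1 hβ
        obtain ⟨hβ3, hβ4⟩ := mem_PI.1 hβ1
        have hne : β ≠ (i : ι) := fun h => hβ2 (h ▸ hpos)
        refine Finset.mem_erase.2 ⟨?_, Finset.mem_filter.2 ⟨mem_PI.2 ⟨hβ3.reflectionPerm i.2 hne, fun k hk => ?_⟩, ?_⟩⟩
        · intro h
          have h2 : β = P.reflectionPerm i i := (hinv i β).symm.trans (by rw [h])
          have h3 : b.IsPos (P.reflectionPerm (i : ι) (i : ι)) := h2 ▸ hβ3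
          exact (RootPairing.Base.IsPos.neg_iff_not b (i : ι)).1 h3 (RootPairing.Base.isPos_of_mem_support i.2)
        · rw [WS_mc hsi hk]
          exact hβ4 k hk
        · rw [Equiv.Perm.mul_apply, hinv]
          exact hβ2
      have h2 := Finset.card_le_card h1
      rw [Finset.card_image_of_injective _ (P.reflectionPerm (i : ι)).injective] at h2
      have h3 : (i : ι) ∈ (PI b S).filter fun β => ¬b.IsPos ((w * P.reflectionPerm i) β) := by
        refine Finset.mem_filter.2 ⟨mem_PI.2 ⟨RootPairing.Base.isPos_of_mem_support i.2, fun k hk => mc_simple fun h => hk (h ▸ hi)⟩, ?_⟩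
        rw [Equiv.Perm.mul_apply]
        have h4 : w (P.reflectionPerm (i : ι) (i : ι)) = P.reflectionPerm (w i) (w i) := b1_neg (WS_le hw) (i : ι)
        rw [h4]
        intro h5
        exact (RootPairing.Base.IsPos.neg_iff_not b (w i)).1 h5 hpos
      rw [Finset.card_erase_of_mem h3] at h2
      have h4 := Finset.card_pos.2 ⟨_, h3⟩
      show ((PI b S).filter fun β => ¬b.IsPos (w β)).card + 1 ≤ ((PI b S).filter fun β => ¬b.IsPos ((w * P.reflectionPerm i) β)).card
      omega
    have h5 := hmax hw' (by omega)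
    omega
  refine ⟨w, hw, fun β hβ hpos => ?_⟩
  obtain ⟨hβ1, hβ2⟩ := mem_PI.1 hβ
  obtain ⟨L, hL⟩ := b2_lin (WS_le hw)
  have hroot : P.root (w β) = ∑ k : b.support, ((mc b k (Sum.inr β) : ℤ) : ℚ) • P.root (w k) := by
    rw [← hL, d5_root b β, map_sum]
    exact Finset.sum_congr rfl fun k _ => by rw [map_smul, hL]
  have hcoef : ∀ j, b.toWeightBasis.repr (P.root (w β)) j ≤ 0 := by
    intro j
    rw [hroot, map_sum, Finsupp.finset_sum_apply]
    refine Finset.sum_nonpos fun k _ => ?_
    rw [map_smul, Finsupp.smul_apply, smul_eq_mul]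
    by_cases hk : k ∈ S
    · refine mul_nonpos_of_nonneg_of_nonpos ?_ (b2_nonpos b (hsimple k hk) j)
      exact_mod_cast d5_mc_nonneg k hβ1
    · rw [hβ2 k hk]
      simp
  have hh : ((b.height (w β) : ℤ) : ℚ) ≤ 0 := by
    rw [b1_height]
    exact Finset.sum_nonpos fun j _ => hcoef j
  have hh2 : (0 : ℤ) < b.height (w β) := hpos
  have : b.height (w β) ≤ 0 := by exact_mod_cast hh
  omega

end

end Pool.Agent.Lib.L8.F7
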