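import Pool.Agent.Lib.L8.F7.RDefs
import Pool.Agent.Lib.L8.F7.Q6
import Pool.Agent.Lib.L1S.D5

/-!
# F7 Q7 (M): the opposition (helper31)
-/

namespace Pool.Agent.Lib.L8.F7

open Matrix Pool.Agent.Lib.L1S Pool.Agent.Lib.L8.FL

noncomputable section

set_option linter.unusedSectionVars false

variable {ι M N : Type} [Fintype ι] [DecidableEq ι] [AddCommGroup M] [Module ℚ M] [AddCommGroup N] [Module ℚ N]
  {P : RootPairing ι ℚ M N} [P.IsCrystallographic] [P.IsReduced] [P.IsIrreducible] [P.IsRootSystem] {b : P.Base}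

/-- The height is linear. -/
def q7H (b : P.Base) : M →ₗ[ℚ] ℚ where
  toFun x := ∑ j, b.toWeightBasis.repr x j
  map_add' x y := by
    rw [map_add, ← Finset.sum_add_distrib]
    rfl
  map_smul' c x := by
    rw [map_smul, RingHom.id_apply, smul_eq_mul, Finset.mul_sum]
    rfl

theorem q7_H (b : P.Base) (β : ι) : q7H b (P.root β) = ((b.height β : ℤ) : ℚ) := (b1_height b β).symm

theorem q7_height (b : P.Base) (β : ι) : b.height β = ∑ k : b.support, mc b k (Sum.inr β) := by
  have h1 : ((b.height β : ℤ) : ℚ) = ((∑ k : b.support, mc b k (Sum.inr β) : ℤ) : ℚ) := by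
    rw [b1_height, Int.cast_sum]
    refine Finset.sum_congr rfl fun k _ => ?_
    rw [d5_mc]
    rfl
  exact_mod_cast h1

theorem q7_simple_height (b : P.Base) (i : b.support) : b.height (i : ι) = 1 := by
  have h1 : ((b.height (i : ι) : ℤ) : ℚ) = 1 := by
    rw [b1_height, b.toWeightBasis_repr_root, Finset.sum_eq_single i]
    · rw [Finsupp.single_eq_same]
    · intro k _ hk
      rw [Finsupp.single_eq_of_ne hk]
    · intro h
      exact absurd (Finset.mem_univ i) h
  exact_mod_cast h1

/-- A root of height one is simple. -/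
theorem q7_simple (b : P.Base) {γ : ι} (h : b.height γ = 1) : ∃ k : b.support, γ = (k : ι) := by
  have h0 : ∀ k : b.support, 0 ≤ mc b k (Sum.inr γ) := fun k => d5_mc_nonneg k (by omega)
  have h1 : ∑ k : b.support, mc b k (Sum.inr γ) = 1 := (q7_height b γ).symm.trans h
  obtain ⟨k, -, hk⟩ : ∃ k ∈ (Finset.univ : Finset b.support), mc b k (Sum.inr γ) ≠ 0 := by
    by_contra hc
    push Not at hc
    rw [Finset.sum_eq_zero hc] at h1
    exact absurd h1 (by norm_num)
  have hk1 : 1 ≤ mc b k (Sum.inr γ) := by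
    have := h0 k
    omega
  have h2 := Finset.add_sum_erase Finset.univ (fun k : b.support => mc b k (Sum.inr γ)) (Finset.mem_univ k)
  have h3 : 0 ≤ ∑ l ∈ Finset.univ.erase k, mc b l (Sum.inr γ) := Finset.sum_nonneg fun l _ => h0 l
  have h4 : ∑ l ∈ Finset.univ.erase k, mc b l (Sum.inr γ) = 0 := by
    omega
  have h5 : mc b k (Sum.inr γ) = 1 := by
    omega
  have h6 := (Finset.sum_eq_zero_iff_of_nonneg fun l _ => h0 l).1 h4
  refine ⟨k, P.root.injective ?_⟩
  rw [d5_root b γ, Finset.sum_eq_single k]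
  · rw [h5, Int.cast_one, one_smul]
  · intro l _ hl
    rw [h6 l (Finset.mem_erase.2 ⟨hl, Finset.mem_univ l⟩), Int.cast_zero, zero_smul]
  · intro h
    exact absurd (Finset.mem_univ k) h

/-- **The opposition exists.**
Proof. `exists_long univ` gives `w` with `w β` negative for all positive `β` (`PI b univ` = all positive roots). So `w` exchanges positive and negative roots (a bijection of a finite set: if `w β` is negative with `β` negative, then `-β` is positive and `w (-β) = -(w β)` positive: contradiction,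
`L1S.b1_neg`); `w⁻¹` too. For a simple root `i` let `γ = -(w i)` (`P.reflectionPerm (w i) (w i)`), positive. Claim: `γ` is simple. `i = -(w⁻¹ γ)`, and with `P.root γ = ∑ k, mc k • P.root k` (`L1S.d5_root`) and the linear map of `w⁻¹` (`L1S.b2_lin`): `P.root i = ∑ k, mc k(γ) • P.root (-(w⁻¹ k))`, where all `-(w⁻¹ k)` are
positive roots, of height `≥ 1`; taking heights (`L1S.b1_height`, linear): `1 = ∑ k, mc k(γ) * height(-(w⁻¹ k)) ≥ ∑ k, mc k(γ) = height γ ≥ 1`. So `height γ = 1`, and a root of height `1` is simple (its coefficients are integers `≥ 0` with sum `1`, so `P.root γ = P.root k` for some `k`; or a Mathlib lemma on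
`height = 1`). So `σ i = γ` is a map `b.support → b.support`, injective, hence a permutation (`Equiv.ofBijective`, `Finite.injective_iff_bijective`). Finally `w i = -(σ i)`. -/
theorem exists_op (b : P.Base) : ∃ (σ : Equiv.Perm b.support) (w : Equiv.Perm ι), IsOp b σ w := by
  obtain ⟨w, hw, hneg⟩ := exists_long (b := b) Finset.univ
  have hwW : w ∈ WP P := WS_le hw
  have h1 : ∀ β, b.IsPos β → ¬b.IsPos (w β) := fun β h => hneg β (mem_PI.2 ⟨h, fun k hk => absurd (Finset.mem_univ k) hk⟩)
  have h3 : ∀ β, b.IsPos β → ¬b.IsPos (w⁻¹ β) := by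
    intro β h h2
    have h4 := h1 _ h2
    rw [show w (w⁻¹ β) = β from w.apply_symm_apply β] at h4
    exact h4 h
  have hn : ∀ β, b.IsPos (P.reflectionPerm β β) ↔ ¬b.IsPos β := fun β => RootPairing.Base.IsPos.neg_iff_not b β
  have hsp : ∀ i : b.support, b.IsPos (i : ι) := by
    intro i
    show 0 < b.height (i : ι)
    rw [q7_simple_height]
    norm_num
  obtain ⟨L, hL⟩ := b2_lin ((WP P).inv_mem hwW)
  have key : ∀ i : b.support, ∃ k : b.support, P.reflectionPerm (w i) (w i) = (k : ι) := by
    intro i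
    apply q7_simple
    have hp : b.IsPos (P.reflectionPerm (w i) (w i)) := (hn _).2 (h1 _ (hsp i))
    have hp' : 0 < b.height (P.reflectionPerm (w i) (w i)) := hp
    set γ := P.reflectionPerm (w i) (w i) with hγ
    have e1 : P.root i = ∑ k : b.support, ((mc b k (Sum.inr γ) : ℤ) : ℚ) • P.root (P.reflectionPerm (w⁻¹ k) (w⁻¹ k)) := by
      have e2 : L (P.root γ) = -P.root i := by
        rw [hγ, b2_root_neg, map_neg, hL, show w⁻¹ (w i) = i from w.symm_apply_apply i]
      rw [d5_root b γ, map_sum] at e2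
      have e3 : P.root i = -∑ k : b.support, L (((mc b k (Sum.inr γ) : ℤ) : ℚ) • P.root k) := by
        rw [e2, neg_neg]
      rw [e3, ← Finset.sum_neg_distrib]
      refine Finset.sum_congr rfl fun k _ => ?_
      rw [map_smul, hL, b2_root_neg, smul_neg]
    have e4 := congrArg (q7H b) e1
    rw [map_sum, q7_H, q7_simple_height] at e4
    have e5 : ((1 : ℤ) : ℚ) = ((∑ k : b.support, mc b k (Sum.inr γ) * b.height (P.reflectionPerm (w⁻¹ k) (w⁻¹ k)) : ℤ) : ℚ) := by
      rw [e4, Int.cast_sum]
      refine Finset.sum_congr rfl fun k _ => ?_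
      rw [map_smul, q7_H, smul_eq_mul, Int.cast_mul]
    have e6 : (1 : ℤ) = ∑ k : b.support, mc b k (Sum.inr γ) * b.height (P.reflectionPerm (w⁻¹ k) (w⁻¹ k)) := by exact_mod_cast e5
    have e7 : b.height γ ≤ 1 := by
      rw [q7_height b γ, e6]
      refine Finset.sum_le_sum fun k _ => ?_
      have e8 : 0 ≤ mc b k (Sum.inr γ) := d5_mc_nonneg k hp'
      have e9 : b.IsPos (P.reflectionPerm (w⁻¹ k) (w⁻¹ k)) := (hn _).2 (h3 _ (hsp k))
      have e10 : 0 < b.height (P.reflectionPerm (w⁻¹ k) (w⁻¹ k)) := e9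
      nlinarith
    omega
  choose f hf using key
  have hinj : Function.Injective f := by
    intro i j hij
    have e1 : P.reflectionPerm (w i) (w i) = P.reflectionPerm (w j) (w j) := by rw [hf i, hf j, hij]
    have e2 := congrArg P.root e1
    rw [b2_root_neg, b2_root_neg] at e2
    exact Subtype.ext (w.injective (P.root.injective (neg_injective e2)))
  refine ⟨Equiv.ofBijective f (Finite.injective_iff_bijective.1 hinj), w, hwW, fun i => ?_⟩
  rw [Equiv.ofBijective_apply, ← hf i]
  apply P.root.injective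
  rw [b2_root_neg, b2_root_neg, neg_neg]

end

end Pool.Agent.Lib.L8.F7
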