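import Pool.Agent.Lib.L8.F7.RDefs
import Pool.Agent.Lib.L8.F7.Q6
import Pool.Agent.Lib.L1S.D5

/-!
# F7 Q7B (M): the set J* (helper31)
-/

namespace Pool.Agent.Lib.L8.F7

open Matrix Pool.Agent.Lib.L1S Pool.Agent.Lib.L8.FL

noncomputable section

set_option linter.unusedSectionVars false

variable {ι M N : Type} [Fintype ι] [DecidableEq ι] [AddCommGroup M] [Module ℚ M] [AddCommGroup N] [Module ℚ N]
  {P : RootPairing ι ℚ M N} [P.IsCrystallographic] [P.IsReduced] [P.IsIrreducible] [P.IsRootSystem] {b : P.Base}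

theorem q7b_mc (β : ι) (l : b.support) : ((mc b l (Sum.inr β) : ℤ) : ℚ) = b.toWeightBasis.repr (P.root β) l := by
  rw [d5_mc]
  rfl

theorem q7b_pos {β : ι} {k : b.support} (h : 0 < mc b k (Sum.inr β)) : b.IsPos β := by
  by_contra hc
  have h1 := b2_nonpos b hc k
  rw [← q7b_mc] at h1
  have h2 : mc b k (Sum.inr β) ≤ 0 := by exact_mod_cast h1
  omega

theorem q7b_neg (β : ι) (k : b.support) : mc b k (Sum.inr (ng P β)) = -mc b k (Sum.inr β) := by
  have h1 : ((mc b k (Sum.inr (ng P β)) : ℤ) : ℚ) = ((-mc b k (Sum.inr β) : ℤ) : ℚ) := by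
    rw [q7b_mc, b2_root_neg, map_neg, Finsupp.neg_apply, ← q7b_mc]
    push_cast
    rfl
  exact_mod_cast h1

theorem q7b_simple (i k : b.support) : mc b k (Sum.inr (i : ι)) = if i = k then 1 else 0 := by
  have h1 : ((mc b k (Sum.inr (i : ι)) : ℤ) : ℚ) = ((if i = k then 1 else 0 : ℤ) : ℚ) := by
    rw [q7b_mc, b.toWeightBasis_repr_root i, Finsupp.single_apply]
    split_ifs <;> simp
  exact_mod_cast h1

theorem q7b_ng (β : ι) : ng P (ng P β) = β := by
  apply P.root.injective
  rw [b2_root_neg, b2_root_neg, neg_neg]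

theorem q7b_w0 {σ : Equiv.Perm b.support} {w₀ : Equiv.Perm ι} (h : IsOp b σ w₀) {β : ι}
    (hβ : b.IsPos β) : ¬b.IsPos (w₀ β) := by
  intro hp
  obtain ⟨L, hL⟩ := b2_lin h.1
  have h1 : ∀ l, mc b (σ l) (Sum.inr (w₀ β)) = -mc b l (Sum.inr β) := by
    intro l
    have h2 : ((mc b (σ l) (Sum.inr (w₀ β)) : ℤ) : ℚ) = ((-mc b l (Sum.inr β) : ℤ) : ℚ) := by
      rw [q7b_mc, ← hL, d5_root b β, map_sum, map_sum, Finsupp.finset_sum_apply]
      have h3 : ∀ k : b.support, (b.toWeightBasis.repr (L (((mc b k (Sum.inr β) : ℤ) : ℚ) • P.root k))) (σ l) =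
          if k = l then -((mc b l (Sum.inr β) : ℤ) : ℚ) else 0 := by
        intro k
        rw [map_smul, map_smul, Finsupp.smul_apply, hL, h.2 k, b2_root_neg, map_neg, Finsupp.neg_apply,
          b.toWeightBasis_repr_root (σ k), Finsupp.single_apply, smul_eq_mul]
        by_cases hk : k = l
        · subst hk
          simp
        · rw [if_neg (fun h4 => hk (σ.injective h4)), if_neg hk]
          simp
      rw [Finset.sum_congr rfl fun k _ => h3 k, Finset.sum_ite_eq' Finset.univ l, if_pos (Finset.mem_univ _)]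
      push_cast
      rfl
    exact_mod_cast h2
  have h2 : ∀ l : b.support, mc b l (Sum.inr β) = 0 := by
    intro l
    have h3 := d5_mc_nonneg (b := b) l (β := β) hβ
    have h4 := d5_mc_nonneg (b := b) (σ l) (β := w₀ β) hp
    rw [h1] at h4
    omega
  have h3 : P.root β = 0 := by
    rw [d5_root b β]
    exact Finset.sum_eq_zero fun k _ => by rw [h2, Int.cast_zero, zero_smul]
  exact P.ne_zero β h3

/-- **`J* = - w_0 J`.**
Proof. Let `S = univ \ J` (the complement), `u ∈ WS b S` with `u β` not positive for `β ∈ PI b S` (`exists_long S`).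
(1) `x = w * u` maps every positive root `β` to a root which is not positive. If all `mc b k (inr β)`, `k ∈ J`, are `0`: `β ∈ PI b S`, `u β` is not positive and `mc b k (inr (u β)) = 0` for `k ∈ J` (`WS_mc`), so `-(u β)` is positive of degree `dJ b J = 0` and `w (-(u β))` is positive (`hw.2`), `w (u β) = -(w (-(u β)))` is not
(`L1S.b1_neg`: `w` commutes with the negation `β ↦ P.reflectionPerm β β`). If `mc b k (inr β) > 0` for some `k ∈ J`: `mc b k (inr (u β)) > 0` (`WS_mc`), so `u β` is positive (`L1S.d5_mc`, `L1S.b2_nonpos`), `dJ b J (inr (u β)) > 0` (all `mc ≥ 0`, `L1S.d5_mc_nonneg`), so `w (u β)` is not positive.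
(2) `w₀` maps positive roots to roots which are not positive: with the linear map of `L1S.b2_lin` and `L1S.d5_root`: `P.root (w₀ β) = - ∑ mc b k • P.root (σ k)`, coefficients `≤ 0`. Hence `w₀⁻¹` maps roots which are not positive to positive roots. So `w₀⁻¹ * x` maps simple roots to positive roots and is in `WP P` (`WS_le`): it is `1` by
`L1S.b2_trans`, `w * u = w₀`, `w⁻¹ = u * w₀⁻¹`.
(3) For a simple root `j = σ i`: `w₀ (-i) = j` (from `w₀ i = -(σ i)`), so `w₀⁻¹ j = -i` and `w⁻¹ j = -(u i)`. If `i ∉ J`: `i ∈ PI b S`, `u i` is not positive, so `w⁻¹ j` is positive. If `i ∈ J`: `mc b i (inr (u i)) = mc b i (inr i) = 1 > 0`, `u i` is positive, `w⁻¹ j` is not positive. So `j ∈ Js b w ↔ i ∈ J`. -/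
theorem js_eq {σ : Equiv.Perm b.support} {w₀ : Equiv.Perm ι} (h : IsOp b σ w₀) {J : Finset b.support} {w : Equiv.Perm ι} (hw : IsWJ b J w) : Js b w = J.map σ.toEmbedding := by
  classical
  obtain ⟨u, hu, hul⟩ := exists_long (b := b) Jᶜ
  have huW : u ∈ WP P := WS_le hu
  have hS : ∀ k, k ∉ Jᶜ ↔ k ∈ J := fun k => by simp
  have hng : ∀ β : ι, b.IsPos (ng P β) ↔ ¬b.IsPos β := fun β => RootPairing.Base.IsPos.neg_iff_not b β
  have hx : ∀ β, b.IsPos β → ¬b.IsPos (w (u β)) := by
    intro β hβ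
    by_cases hall : ∀ k ∈ J, mc b k (Sum.inr β) = 0
    · have h1 : β ∈ PI b Jᶜ := mem_PI.2 ⟨hβ, fun k hk => hall k ((hS k).1 hk)⟩
      have h2 := hul β h1
      have h3 : b.IsPos (ng P (u β)) := (hng _).2 h2
      have h4 : dJ b J (Sum.inr (ng P (u β))) = 0 := by
        unfold dJ
        refine Finset.sum_eq_zero fun k hk => ?_
        rw [q7b_neg, WS_mc hu ((hS k).2 hk), hall k hk, neg_zero]
      have h5 := (hw.2 _ h3).2 h4
      rw [b1_neg hw.1] at h5
      exact (hng _).1 h5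
    · push Not at hall
      obtain ⟨k, hk, hk0⟩ := hall
      have h1 : 0 < mc b k (Sum.inr β) := lt_of_le_of_ne (d5_mc_nonneg k hβ) (Ne.symm hk0)
      have h2 : 0 < mc b k (Sum.inr (u β)) := by
        rw [WS_mc hu ((hS k).2 hk)]
        exact h1
      have h3 : b.IsPos (u β) := q7b_pos h2
      have h4 : 0 < dJ b J (Sum.inr (u β)) := by
        unfold dJ
        exact Finset.sum_pos' (fun l _ => d5_mc_nonneg l h3) ⟨k, hk, h2⟩
      intro h5
      have h6 := (hw.2 _ h3).1 h5
      omega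
  have hone : w₀⁻¹ * (w * u) = 1 := by
    refine b2_trans b (mul_mem (inv_mem h.1) (mul_mem hw.1 huW)) fun i hi => ?_
    by_contra hc
    have h1 : b.IsPos (ng P ((w₀⁻¹ * (w * u)) i)) := (hng _).2 hc
    have h2 := q7b_w0 h h1
    rw [b1_neg h.1] at h2
    have h3 : w₀ ((w₀⁻¹ * (w * u)) i) = w (u i) := by
      rw [← Equiv.Perm.mul_apply, mul_inv_cancel_left]
      rfl
    rw [h3] at h2
    have h4 := hx i (b.isPos_of_mem_support hi)
    exact h2 ((hng _).2 h4)
  have hinv : w⁻¹ = u * w₀⁻¹ := by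
    have h1 : w * u = w₀ := by
      have h2 := congrArg (fun x => w₀ * x) hone
      simpa using h2
    rw [← h1, _root_.mul_inv_rev, mul_inv_cancel_left]
  ext j
  rw [Finset.mem_map_equiv]
  unfold Js
  rw [Finset.mem_filter]
  have h1 : w⁻¹ (j : ι) = ng P (u (σ.symm j : ι)) := by
    have h2 : w₀ (ng P (σ.symm j : ι)) = j := by
      rw [b1_neg h.1, h.2 (σ.symm j), Equiv.apply_symm_apply]
      exact q7b_ng _
    rw [hinv, Equiv.Perm.mul_apply, ← b1_neg huW]
    congr 1
    rw [Equiv.Perm.inv_eq_iff_eq]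
    exact h2.symm
  rw [h1, hng, not_not]
  constructor
  · rintro ⟨-, h2⟩
    by_contra h3
    refine hul (σ.symm j : ι) (mem_PI.2 ⟨b.isPos_of_mem_support (σ.symm j).2, fun k hk => ?_⟩) h2
    rw [q7b_simple, if_neg]
    intro h4
    rw [← h4] at hk
    exact h3 ((hS _).1 hk)
  · intro h2
    refine ⟨Finset.mem_univ _, q7b_pos (k := σ.symm j) ?_⟩
    rw [WS_mc hu ((hS _).2 h2), q7b_simple, if_pos rfl]
    exact one_pos

end

end Pool.Agent.Lib.L8.F7
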