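import Pool.Agent.Lib.L8.F7.RDefs
import Pool.Agent.Lib.L8.F7.Q4
import Pool.Agent.Lib.L8.F7.Q5

/-!
# F7 Q8A (S/M): the opposition preserves the Cartan matrix (helper31)
-/

namespace Pool.Agent.Lib.L8.F7

open Matrix Pool.Agent.Lib.L1S Pool.Agent.Lib.L8.FL

noncomputable section

set_option linter.unusedSectionVars false

variable {ι M N : Type} [Fintype ι] [DecidableEq ι] [AddCommGroup M] [Module ℚ M] [AddCommGroup N] [Module ℚ N]
  {P : RootPairing ι ℚ M N} [P.IsCrystallographic] [P.IsReduced] [P.IsIrreducible] [P.IsRootSystem] {b : P.Base}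

theorem q8a_pair {w : Equiv.Perm ι} (hw : w ∈ WP P) : ∀ i j : ι, P.pairing (w i) (w j) = P.pairing i j := by
  induction hw using Subgroup.closure_induction with
  | mem x hx =>
    obtain ⟨k, rfl⟩ := hx
    intro i j
    rw [P.pairing_reflectionPerm, P.reflectionPerm_self]
  | one => exact fun i j => rfl
  | mul x y _ _ hx hy =>
    intro i j
    rw [Equiv.Perm.mul_apply, Equiv.Perm.mul_apply, hx, hy]
  | inv x _ hx =>
    intro i j
    rw [← hx]
    simp

/-- Proof. The Weyl group preserves `pairingIn` (induction over the closure, `P.pairingIn_reflectionPerm` or `L1S.b2_conj` with `b2_lin`; look for an existing lemma in L1S / L8, e.g. used in `vl`), and `pairingIn (-β) (-γ) = pairingIn β γ`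
(`P.pairing_reflectionPerm_self_left / right`). -/
theorem op_pair {σ : Equiv.Perm b.support} {w : Equiv.Perm ι} (h : IsOp b σ w) (i j : b.support) : P.pairingIn ℤ (σ i) (σ j) = P.pairingIn ℤ i j := by
  have h1 := q8a_pair h.1 (i : ι) (j : ι)
  rw [h.2 i, h.2 j, P.pairing_reflectionPerm_self_left, P.pairing_reflectionPerm_self_right, neg_neg] at h1
  rw [← P.algebraMap_pairingIn ℤ, ← P.algebraMap_pairingIn ℤ] at h1
  exact_mod_cast h1

/-- Proof. Let `e k = om b (σ j) (σ k) - om b j k`. By `op_pair` and `om_pair` (reindex the sum by `σ`) `xe b e i = 0` for all `i`; `xe_nonneg` for `e` and `-e` gives `e = 0`. -/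
theorem om_star {σ : Equiv.Perm b.support} {w : Equiv.Perm ι} (h : IsOp b σ w) (j k : b.support) : om b (σ j) (σ k) = om b j k := by
  have h1 : ∀ i, xe b (fun k => om b (σ j) (σ k)) i = xe b (om b j) i := by
    intro i
    have h2 : xe b (fun k => om b (σ j) (σ k)) i = xe b (om b (σ j)) (σ i) := by
      unfold xe
      rw [← Equiv.sum_comp σ (fun k => om b (σ j) k * (b.cartanMatrix k (σ i) : ℝ))]
      refine Finset.sum_congr rfl fun k _ => ?_
      have h3 : b.cartanMatrix (σ k) (σ i) = b.cartanMatrix k i := op_pair h k i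
      rw [h3]
    rw [h2, om_pair, om_pair]
    simp only [EmbeddingLike.apply_eq_iff_eq]
  have h4 : ∀ i, xe b (fun k => om b (σ j) (σ k) - om b j k) i = 0 := by
    intro i
    have h5 := h1 i
    unfold xe at h5 ⊢
    simp only [sub_mul, Finset.sum_sub_distrib]
    linarith
  have h6 : ∀ i, xe b (fun k => om b j k - om b (σ j) (σ k)) i = 0 := by
    intro i
    have h5 := h1 i
    unfold xe at h5 ⊢
    simp only [sub_mul, Finset.sum_sub_distrib]
    linarith
  have h7 := xe_nonneg (fun i => (h4 i).ge) k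
  have h8 := xe_nonneg (fun i => (h6 i).ge) k
  linarith

/-- Proof. Sum `om_star` over `k`. -/
theorem rr_star {σ : Equiv.Perm b.support} {w : Equiv.Perm ι} (h : IsOp b σ w) (j : b.support) : rr b (σ j) = rr b j := by
  unfold rr
  rw [← Equiv.sum_comp σ (fun k => om b (σ j) k)]
  exact Finset.sum_congr rfl fun k _ => om_star h j k

end

end Pool.Agent.Lib.L8.F7
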