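import Mathlib

/-!
# F7 Q8B (M): automorphisms of a path (helper31)
-/

namespace Pool.Agent.Lib.L8.F7

open Matrix

/-- Proof. `n ≤ 1`: clear. `τ` is injective: if `τ i = τ j` then `A (τ i) (τ j) = 2`, so `A i j = 2`, `i = j`. Hence bijective. It preserves adjacency (`A = -1` iff the numbers differ by one). The node `0` has at most one neighbour, so `τ 0` has at most one neighbour (`τ` is bijective and
preserves and reflects adjacency): for `n ≥ 3` every node except `0` and `n - 1` has two different neighbours, so `τ 0 = 0` or `τ 0 = n - 1` (for `n = 2` the same trivially). Case `τ 0 = 0`: induction on `i`: `τ i = i` for all `i` (strong induction: `τ (i + 1)` is adjacent to `τ i = i` and different from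
`τ (i - 1) = i - 1`, so it is `i + 1`). Case `τ 0 = n - 1`: `rev ∘ τ` also preserves `A n` (`A (rev i) (rev j) = A i j`) and fixes `0`, so `rev ∘ τ = id`. -/
theorem aut_path {n : ℕ} (τ : Fin n → Fin n) (hτ : ∀ i j, CartanMatrix.A n (τ i) (τ j) = CartanMatrix.A n i j) : (∀ i, τ i = i) ∨ ∀ i, τ i = i.rev := by
  have hadj : ∀ i j : Fin n, CartanMatrix.A n i j = -1 ↔ (i.val + 1 = j.val ∨ j.val + 1 = i.val) := by
    intro i j
    simp only [CartanMatrix.A, Matrix.of_apply]
    by_cases h : i = j
    · subst h
      rw [if_pos rfl]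
      constructor
      · intro h
        omega
      · intro h
        omega
    · rw [if_neg h]
      split_ifs with h1
      · exact ⟨fun _ => h1, fun _ => rfl⟩
      · exact ⟨fun h2 => absurd h2 (by norm_num), fun h2 => absurd h2 h1⟩
  have h2 : ∀ i j : Fin n, CartanMatrix.A n i j = 2 → i = j := by
    intro i j hij
    by_contra h
    have h3 := CartanMatrix.A_apply_le_zero_of_ne n i j h
    omega
  have hinj : ∀ i j, τ i = τ j → i = j := by
    intro i j h
    apply h2
    rw [← hτ i j, h]
    simp [CartanMatrix.A]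
  rcases Nat.lt_or_ge n 2 with hn | hn
  · left
    intro i
    have h3 := i.2
    have h4 := (τ i).2
    apply Fin.ext
    omega
  · have h0 : 0 < n := by omega
    have h1 : 1 < n := by omega
    have h01 := (hadj (τ ⟨0, h0⟩) (τ ⟨1, h1⟩)).1 (by rw [hτ]; exact (hadj _ _).2 (Or.inl rfl))
    have key : ∀ i (hi : i < n), ((τ ⟨i, hi⟩).val : ℤ) = (τ ⟨0, h0⟩).val +
        i * (((τ ⟨1, h1⟩).val : ℤ) - (τ ⟨0, h0⟩).val) := by
      intro i
      induction i using Nat.strong_induction_on with
      | _ i ih =>
        intro hi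
        match i, ih, hi with
        | 0, _, _ => simp
        | 1, _, _ =>
          push_cast
          ring
        | k + 2, ih, hi =>
          have hk : k < n := by omega
          have hk1 : k + 1 < n := by omega
          have h3 := ih k (by omega) hk
          have h4 := ih (k + 1) (by omega) hk1
          have h5 := (hadj (τ ⟨k, hk⟩) (τ ⟨k + 1, hk1⟩)).1 (by rw [hτ]; exact (hadj _ _).2 (Or.inl rfl))
          have h6 := (hadj (τ ⟨k + 1, hk1⟩) (τ ⟨k + 2, hi⟩)).1 (by rw [hτ]; exact (hadj _ _).2 (Or.inl rfl))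
          have h7 : (τ ⟨k, hk⟩).val ≠ (τ ⟨k + 2, hi⟩).val := fun h => by
            have h8 := Fin.mk.inj (hinj _ _ (Fin.ext h))
            omega
          have h8 : ((τ ⟨k + 2, hi⟩).val : ℤ) = 2 * (τ ⟨k + 1, hk1⟩).val - (τ ⟨k, hk⟩).val := by omega
          rw [h8, h3, h4]
          push_cast
          ring
    have hlast := key (n - 1) (by omega)
    have hc : ((n - 1 : ℕ) : ℤ) = (n : ℤ) - 1 := by omega
    have hb0 := (τ ⟨0, h0⟩).2
    have hbl := (τ ⟨n - 1, by omega⟩).2
    rw [hc] at hlast
    rcases h01 with h01 | h01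
    · left
      intro i
      have h5 := key i.1 i.2
      have h6 : ((τ ⟨1, h1⟩).val : ℤ) - (τ ⟨0, h0⟩).val = 1 := by omega
      rw [h6, mul_one] at h5 hlast
      apply Fin.ext
      have h7 : τ ⟨i.1, i.2⟩ = τ i := rfl
      rw [h7] at h5
      omega
    · right
      intro i
      have h5 := key i.1 i.2
      have h6 : ((τ ⟨1, h1⟩).val : ℤ) - (τ ⟨0, h0⟩).val = -1 := by omega
      rw [h6] at h5 hlast
      apply Fin.ext
      rw [Fin.val_rev]
      have h7 : τ ⟨i.1, i.2⟩ = τ i := rfl
      rw [h7] at h5
      have h8 := i.2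
      omega

end Pool.Agent.Lib.L8.F7
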