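import Pool.Agent.Lib.L8.F7.RDefs
import Pool.Agent.Lib.L8.F7.RA
import Pool.Agent.Lib.L1S.D5

/-!
# F7 Q8C (M): -1 is not in the Weyl group of A_n, n >= 2 (helper31)
-/

namespace Pool.Agent.Lib.L8.F7

open Matrix Pool.Agent.Lib.L1S Pool.Agent.Lib.L8.FL

noncomputable section

set_option linter.unusedSectionVars false

variable {ι M N : Type} [Fintype ι] [DecidableEq ι] [AddCommGroup M] [Module ℚ M] [AddCommGroup N] [Module ℚ N]
  {P : RootPairing ι ℚ M N} [P.IsCrystallographic] [P.IsReduced] [P.IsIrreducible] [P.IsRootSystem] {b : P.Base}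

/-- `w` acts on the integral combinations of the coroots. -/
theorem q8c_stab {w : Equiv.Perm ι} {g : N ≃ₗ[ℚ] N} (hg : ∀ β, g (P.coroot β) = P.coroot (w β)) {z : N}
    (hz : z ∈ Submodule.span ℤ (Set.range P.coroot)) : g z ∈ Submodule.span ℤ (Set.range P.coroot) := by
  induction hz using Submodule.span_induction with
  | mem x hx =>
    obtain ⟨β, rfl⟩ := hx
    rw [hg β]
    exact Submodule.subset_span ⟨w β, rfl⟩
  | zero => rw [map_zero]; exact Submodule.zero_mem _
  | add x y _ _ h1 h2 => rw [map_add]; exact Submodule.add_mem _ h1 h2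
  | smul a x _ h => rw [map_zsmul]; exact Submodule.smul_mem _ a h

theorem q8c_symm {w : Equiv.Perm ι} {g : N ≃ₗ[ℚ] N} (hg : ∀ β, g (P.coroot β) = P.coroot (w β)) (β : ι) :
    g.symm (P.coroot β) = P.coroot (w⁻¹ β) := by
  rw [LinearEquiv.symm_apply_eq, hg]
  exact congrArg P.coroot (w.apply_symm_apply β).symm

/-- `w` acts trivially on the coweights modulo the coroots. -/
theorem q8c_g {w : Equiv.Perm ι} (hw : w ∈ WP P) : ∃ g : N ≃ₗ[ℚ] N, (∀ β, g (P.coroot β) = P.coroot (w β)) ∧
    ∀ y : N, (∀ β, ∃ m : ℤ, P.root' β y = m) → g y - y ∈ Submodule.span ℤ (Set.range P.coroot) := by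
  unfold WP at hw
  induction hw using Subgroup.closure_induction with
  | mem x hx =>
    obtain ⟨β, rfl⟩ := hx
    refine ⟨P.coreflection β, fun γ => (P.coroot_reflectionPerm β γ).symm, fun y hy => ?_⟩
    obtain ⟨m, hm⟩ := hy β
    rw [P.coreflection_apply, hm, sub_right_comm, sub_self, zero_sub]
    refine Submodule.neg_mem _ ?_
    rw [Int.cast_smul_eq_zsmul]
    exact Submodule.smul_mem _ m (Submodule.subset_span ⟨β, rfl⟩)
  | one =>
    refine ⟨LinearEquiv.refl ℚ N, fun β => rfl, fun y _ => ?_⟩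
    rw [LinearEquiv.refl_apply, sub_self]
    exact Submodule.zero_mem _
  | mul x y _ _ hx hy =>
    obtain ⟨g1, h1, h1'⟩ := hx
    obtain ⟨g2, h2, h2'⟩ := hy
    refine ⟨g2.trans g1, fun β => ?_, fun z hz => ?_⟩
    · rw [LinearEquiv.trans_apply, h2, h1]
      rfl
    · have h3 : (g2.trans g1) z - z = g1 (g2 z - z) + (g1 z - z) := by
        rw [LinearEquiv.trans_apply, map_sub]
        abel
      rw [h3]
      exact Submodule.add_mem _ (q8c_stab h1 (h2' z hz)) (h1' z hz)
  | inv x _ hx =>
    obtain ⟨g, h, h'⟩ := hx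
    refine ⟨g.symm, q8c_symm h, fun z hz => ?_⟩
    have h3 : g.symm z - z = -g.symm (g z - z) := by
      rw [map_sub, LinearEquiv.symm_apply_apply]
      abel
    rw [h3]
    exact Submodule.neg_mem _ (q8c_stab (q8c_symm h) (h' z hz))

/-- The rows of the Cartan matrix of type `A`. -/
theorem q8c_row {n : ℕ} (hn : 2 ≤ n) (a : Fin n) :
    ∑ k : Fin n, CartanMatrix.A n a k * ((n : ℤ) - (k : ℕ)) = if (a : ℕ) = 0 then (n : ℤ) + 1 else 0 := by
  have h1 := rowA n (fun x => if x = 0 then 0 else (n : ℝ) + 1 - x) (if_pos rfl) (by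
    rw [if_neg (by omega)]
    push_cast
    ring) a
  unfold rw' at h1
  have h2 : ∀ i : Fin n, ((CartanMatrix.A n a i : ℤ) : ℝ) * (if ((i : ℕ) + 1) = 0 then 0 else (n : ℝ) + 1 - ((i : ℕ) + 1 : ℕ)) =
      ((CartanMatrix.A n a i * ((n : ℤ) - (i : ℕ)) : ℤ) : ℝ) := by
    intro i
    rw [if_neg (by omega)]
    push_cast
    ring
  have h3 : ((∑ k : Fin n, CartanMatrix.A n a k * ((n : ℤ) - (k : ℕ)) : ℤ) : ℝ) =
      ((if (a : ℕ) = 0 then (n : ℤ) + 1 else 0 : ℤ) : ℝ) := by
    rw [Int.cast_sum, ← Finset.sum_congr rfl fun i _ => h2 i, h1]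
    by_cases c : (a : ℕ) = 0
    · rw [if_pos c, if_pos c, if_neg (by omega), if_neg (by omega), c]
      push_cast
      ring
    · rw [if_neg c, if_neg c, if_neg (by omega), if_neg (by omega)]
      push_cast
      ring
  exact_mod_cast h3

/-- The coefficients of the integral combinations of the coroots are integers. -/
theorem q8c_int (b : P.Base) (k : b.support) {z : N} (hz : z ∈ Submodule.span ℤ (Set.range P.coroot)) :
    ∃ m : ℤ, b.toCoweightBasis.repr z k = m := by
  induction hz using Submodule.span_induction with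
  | mem x hx =>
    obtain ⟨β, rfl⟩ := hx
    have h1 : P.coroot β = ∑ l : b.support, ((mc (P := P.flip) b.flip l (Sum.inr β) : ℤ) : ℚ) • P.coroot l :=
      d5_root (P := P.flip) b.flip β
    refine ⟨mc (P := P.flip) b.flip k (Sum.inr β), ?_⟩
    rw [h1, map_sum, Finsupp.finsetSum_apply, Finset.sum_eq_single k]
    · rw [map_smul, b.toCoweightBasis_repr_coroot, Finsupp.smul_apply, Finsupp.single_eq_same, smul_eq_mul, mul_one]
    · intro l _ hl
      rw [map_smul, b.toCoweightBasis_repr_coroot, Finsupp.smul_apply, Finsupp.single_eq_of_ne hl.symm, smul_zero]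
    · intro h
      exact absurd (Finset.mem_univ _) h
  | zero => exact ⟨0, by simp⟩
  | add x y _ _ h1 h2 =>
    obtain ⟨m1, h1⟩ := h1
    obtain ⟨m2, h2⟩ := h2
    exact ⟨m1 + m2, by rw [map_add, Finsupp.add_apply, h1, h2, Int.cast_add]⟩
  | smul a x _ h =>
    obtain ⟨m, h⟩ := h
    exact ⟨a * m, by rw [map_zsmul, Finsupp.smul_apply, h, Int.cast_mul, zsmul_eq_mul]⟩

/-- **`-1` is not in the Weyl group of type `A_n`, `n ≥ 2`.**
Proof. (1) For every `w ∈ WP P` there is a linear automorphism `g` of `N` with `g (P.coroot β) = P.coroot (w β)` for all `β` and `g y - y ∈ span ℤ (range P.coroot)` for every `y : N` with `∀ β, ∃ m : ℤ, P.root' β y = m`, and with `g` and `g.symm` preserving `span ℤ (range P.coroot)` (follows from the first property):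
`Subgroup.closure_induction`: for `s_β`: `g = P.coreflection β`, `g y = y - P.root' β y • P.coroot β`. Product: `g₁ g₂ y - y = g₁ (g₂ y - y) + (g₁ y - y)`. Inverse: `g⁻¹ y - y = - g⁻¹ (g y - y)`.
(2) If `w i = -i` for all simple `i` then `g (P.coroot i) = - P.coroot i`, so `g = -1` (the simple coroots span `N`). Let `y = (n + 1)⁻¹ ∑ k, (n - e k) • P.coroot k` (`e k : Fin n` counted from `0`; so the coefficients are `n / (n + 1), …, 1 / (n + 1)`). Then `P.root' i y` is an integer for simple `i`: it is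
`(n + 1)⁻¹ ∑ k, A (e i) (e k) (n - e k)`, `= 1` for `e i = 0` and `0` otherwise (rows of `CartanMatrix.A`, as `rowA` of file RA with `g x = n + 1 - x` for `x ≥ 1`; directly: `2 (n - a) - (n - a + 1) - (n - a - 1) = 0`, for `a = 0`: `2 n - (n - 1) = n + 1`); hence an integer for all roots (`L1S.d5_root`: integral combinations). So
`- 2 y ∈ span ℤ (range P.coroot)`, which is the set of the integral combinations of the simple coroots (`b.span_int_coroot_support` or similar; `b.flip`), whose coefficients in the basis `b.toCoweightBasis` are integers. The coefficient of `- 2 y` at the simple coroot with `e k = n - 1` is `- 2 / (n + 1)`, not an integer for `n ≥ 2`. -/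
theorem no_minus_one {n : ℕ} (hn : 2 ≤ n) (e : b.support ≃ Fin n) (he : ∀ i j : b.support, P.pairingIn ℤ i j = CartanMatrix.A n (e i) (e j)) {w : Equiv.Perm ι} (hw : w ∈ WP P) : ¬∀ i : b.support, w i = P.reflectionPerm i i := by
  intro hneg
  obtain ⟨g, hg, hg'⟩ := q8c_g hw
  have hn1 : ((n : ℚ) + 1) ≠ 0 := by positivity
  have hgy : ∀ y : N, g y = -y := by
    intro y
    have h1 : (g : N →ₗ[ℚ] N) = -LinearMap.id := by
      refine b.toCoweightBasis.ext fun i => ?_
      rw [b.toCoweightBasis_apply, LinearEquiv.coe_coe, hg, hneg i, P.coroot_reflectionPerm, P.coreflection_apply_self]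
      rfl
    have h2 := LinearMap.congr_fun h1 y
    exact h2
  set y : N := ∑ k : b.support, (((n : ℚ) - ((e k : Fin n) : ℕ)) / (n + 1)) • P.coroot k with hy
  have hsimple : ∀ i : b.support, P.root' i y = ((if ((e i : Fin n) : ℕ) = 0 then 1 else 0 : ℤ) : ℚ) := by
    intro i
    have h1 : P.root' i y = (n + 1 : ℚ)⁻¹ * ((∑ k : Fin n, CartanMatrix.A n (e i) k * ((n : ℤ) - (k : ℕ)) : ℤ) : ℚ) := by
      rw [hy, map_sum, ← Equiv.sum_comp e, Int.cast_sum, Finset.mul_sum]
      refine Finset.sum_congr rfl fun k _ => ?_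
      rw [map_smul, smul_eq_mul, P.root'_coroot_eq_pairing, ← P.algebraMap_pairingIn ℤ, he i k]
      push_cast
      have h2 : (algebraMap ℤ ℚ) (CartanMatrix.A n (e i) (e k)) = ((CartanMatrix.A n (e i) (e k) : ℤ) : ℚ) := rfl
      rw [h2]
      ring
    rw [h1, q8c_row hn]
    by_cases c : ((e i : Fin n) : ℕ) = 0
    · rw [if_pos c, if_pos c]
      push_cast
      exact inv_mul_cancel₀ hn1
    · rw [if_neg c, if_neg c]
      push_cast
      ring
  have hall : ∀ β, ∃ m : ℤ, P.root' β y = m := by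
    intro β
    refine ⟨∑ k : b.support, mc b k (Sum.inr β) * (if ((e k : Fin n) : ℕ) = 0 then 1 else 0), ?_⟩
    have h1 : ∀ z : N, P.root' β z = ∑ k : b.support, ((mc b k (Sum.inr β) : ℤ) : ℚ) * P.root' k z := by
      intro z
      unfold RootPairing.root'
      rw [d5_root b β, map_sum, LinearMap.sum_apply]
      refine Finset.sum_congr rfl fun k _ => ?_
      rw [map_smul, LinearMap.smul_apply, smul_eq_mul]
    rw [h1 y]
    push_cast
    refine Finset.sum_congr rfl fun k _ => ?_
    rw [hsimple k]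
    push_cast
    rfl
  have hmem := hg' y hall
  rw [hgy y] at hmem
  obtain ⟨m, hm⟩ := q8c_int b (e.symm ⟨n - 1, by omega⟩) hmem
  set k0 : b.support := e.symm ⟨n - 1, by omega⟩ with hk0
  have hrep : b.toCoweightBasis.repr y k0 = 1 / (n + 1) := by
    rw [hy, map_sum, Finsupp.finsetSum_apply, Finset.sum_eq_single k0]
    · rw [map_smul, b.toCoweightBasis_repr_coroot, Finsupp.smul_apply, Finsupp.single_eq_same, smul_eq_mul, mul_one, hk0, Equiv.apply_symm_apply]
      congr 1
      have : ((n - 1 : ℕ) : ℚ) = n - 1 := by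
        rw [Nat.cast_sub (by omega), Nat.cast_one]
      change (n : ℚ) - ((n - 1 : ℕ) : ℚ) = 1
      rw [this]
      ring
    · intro l _ hl
      rw [map_smul, b.toCoweightBasis_repr_coroot, Finsupp.smul_apply, Finsupp.single_eq_of_ne hl.symm, smul_zero]
    · intro h
      exact absurd (Finset.mem_univ _) h
  rw [map_sub, map_neg, Finsupp.sub_apply, Finsupp.neg_apply, hrep] at hm
  have h5 : (m : ℚ) * (n + 1) = -2 := by
    rw [← hm]
    field_simp
    ring
  have h6 : m * ((n : ℤ) + 1) = -2 := by exact_mod_cast h5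
  have h7 : ((n : ℤ) + 1) ∣ 2 := by
    refine ⟨-m, ?_⟩
    linarith
  have h8 := Int.le_of_dvd (by norm_num) h7
  omega

end

end Pool.Agent.Lib.L8.F7
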