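import Pool.Agent.Lib.L8.F7.CA
import Pool.Agent.Lib.L8.F7.CB
import Pool.Agent.Lib.L8.F7.CC
import Pool.Agent.Lib.L8.F7.CD
import Pool.Agent.Lib.L8.F7.CE6
import Pool.Agent.Lib.L8.F7.CE7
import Pool.Agent.Lib.L8.F7.CE8
import Pool.Agent.Lib.L8.F7.CFG
import Pool.Agent.Lib.L8.F7.IA
import Pool.Agent.Lib.L8.F7.IA4
import Pool.Agent.Lib.L8.F7.IB
import Pool.Agent.Lib.L8.F7.IC
import Pool.Agent.Lib.L8.F7.ID
import Pool.Agent.Lib.L8.F7.IDS
import Pool.Agent.Lib.L8.F7.IS
import Pool.Agent.Lib.L8.F7.IE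
import Pool.Agent.Lib.L8.F7.Q1
import Pool.Agent.Lib.L8.F7.Q2
import Pool.Agent.Lib.L8.F7.Q3
import Pool.Agent.Lib.L8.F7.Q4
import Pool.Agent.Lib.L8.F7.Q5
import Pool.Agent.Lib.L8.F7.Q7
import Pool.Agent.Lib.L8.F7.Q7B
import Pool.Agent.Lib.L8.F7.Q8A
import Pool.Agent.Lib.L8.F7.Q8B
import Pool.Agent.Lib.L8.F7.Q8C

/-!
# F7: the inequality of the density theorem for all types except `A₁`, `A₂`, `A₃`, `B₂` (helper31)
-/

namespace Pool.Agent.Lib.L8.F7

open Matrix Pool.Agent.Lib.L1S Pool.Agent.Lib.L8.FL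

/-! ## Matrices -/

theorem inA {n : ℕ} (hn : 4 ≤ n) {c : Fin n → ℝ} (hc : ∀ i, pr (CartanMatrix.A n) c i = 2) {e : Fin n → ℝ} (he : Box (CartanMatrix.A n) e) (j : Fin n) :
    n * (n + 2) * (e j + e j.rev) ≤ c j * (2 * ∑ k, e k + n) := by
  by_cases h6 : 6 ≤ n
  · exact inA_big h6 hc he j
  · have h : n = 4 ∨ n = 5 := by omega
    rcases h with rfl | rfl
    · have := inA4 hc he j
      push_cast
      exact this
    · have := inA5 hc he j
      push_cast
      exact this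

theorem inB {n : ℕ} (hn : 3 ≤ n) : Sq (CartanMatrix.B n) (n * (2 * n + 1)) := by
  by_cases h4 : 4 ≤ n
  · exact inB_big h4
  · have h : n = 3 := by omega
    subst h
    have := inB3
    norm_num
    exact this

theorem inC {n : ℕ} (hn : 3 ≤ n) : Sq (CartanMatrix.C n) (n * (2 * n + 1)) := by
  by_cases h4 : 4 ≤ n
  · exact inC_big h4
  · have h : n = 3 := by omega
    subst h
    have := inC3
    norm_num
    exact this

theorem inD {n : ℕ} (hn : 4 ≤ n) : Sq (CartanMatrix.D n) (n * (2 * n - 1)) := by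
  by_cases h6 : 6 ≤ n
  · intro c hc e he j
    by_cases hj : (j : ℕ) + 2 < n
    · exact inD_path h6 hc he j hj
    · exact inD_spin h6 hc he j (not_lt.1 hj)
  · have h : n = 4 ∨ n = 5 := by omega
    rcases h with rfl | rfl
    · have := inD4
      norm_num
      exact this
    · have := inD5
      norm_num
      exact this

theorem chA_univ {n : ℕ} {p : Finset (Fin n) → ℝ} {c : Finset (Fin n) → Fin n → ℝ} (h : Chn (CartanMatrix.A n) p c) : p Finset.univ ≤ n * (n + 1) / 2 := by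
  have h1 := chA h n le_rfl fun _ _ _ _ => rfl
  have h2 : (Finset.univ.filter fun k : Fin n => (k : ℕ) < n) = Finset.univ := Finset.filter_true_of_mem fun k _ => k.2
  rwa [h2] at h1

noncomputable section

set_option linter.unusedSectionVars false

variable {ι M N : Type} [Fintype ι] [DecidableEq ι] [AddCommGroup M] [Module ℚ M] [AddCommGroup N] [Module ℚ N]
  {P : RootPairing ι ℚ M N} [P.IsCrystallographic] [P.IsReduced] [P.IsIrreducible] [P.IsRootSystem] {b : P.Base}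

/-! ## Transfer -/

theorem pr_xe {n : ℕ} {A : Matrix (Fin n) (Fin n) ℤ} (e : b.support ≃ Fin n) (he : ∀ i j : b.support, P.pairingIn ℤ i j = A (e i) (e j)) (E : b.support → ℝ) (i : Fin n) :
    pr A (fun k => E (e.symm k)) i = xe b E (e.symm i) := by
  unfold pr xe
  rw [← Equiv.sum_comp e]
  refine Finset.sum_congr rfl fun k _ => ?_
  show E (e.symm (e k)) * ((A (e k) i : ℤ) : ℝ) = _
  rw [Equiv.symm_apply_apply]
  have h1 : b.cartanMatrix k (e.symm i) = A (e k) i := by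
    have h2 := he k (e.symm i)
    rw [Equiv.apply_symm_apply] at h2
    exact h2
  rw [h1]

theorem box_of {n : ℕ} {A : Matrix (Fin n) (Fin n) ℤ} (e : b.support ≃ Fin n) (he : ∀ i j : b.support, P.pairingIn ℤ i j = A (e i) (e j)) {E : b.support → ℝ} (hE : ∀ i, 0 ≤ xe b E i ∧ xe b E i ≤ 1) :
    Box A fun k => E (e.symm k) := fun i => by
  rw [pr_xe e he]
  exact hE _

theorem card_of {n : ℕ} (e : b.support ≃ Fin n) : Fintype.card b.support = n := by
  rw [Fintype.card_congr e, Fintype.card_fin]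

theorem map_univ {n : ℕ} (e : b.support ≃ Fin n) : (Finset.univ : Finset (Fin n)).map e.symm.toEmbedding = Finset.univ := by
  ext x
  simp

theorem dim_le {n : ℕ} {A : Matrix (Fin n) (Fin n) ℤ} (e : b.support ≃ Fin n) (he : ∀ i j : b.support, P.pairingIn ℤ i j = A (e i) (e j)) {U : ℝ}
    (hU : ∀ p c, Chn A p c → p Finset.univ ≤ U) : ((Fintype.card ι + Fintype.card b.support : ℕ) : ℝ) ≤ 2 * U + n := by
  have h1 := hU _ _ (chn_of e he)
  simp only [map_univ] at h1
  rw [card_of e, card_roots (b := b)]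
  push_cast
  linarith

theorem pr_cI {n : ℕ} {A : Matrix (Fin n) (Fin n) ℤ} (e : b.support ≃ Fin n) (he : ∀ i j : b.support, P.pairingIn ℤ i j = A (e i) (e j)) (i : Fin n) :
    pr A (fun k => ((cI b Finset.univ (e.symm k) : ℤ) : ℝ)) i = 2 := by
  have h1 := (chn_of e he).pair Finset.univ i (Finset.mem_univ _)
  simp only [map_univ] at h1
  exact h1

theorem core_sq {n : ℕ} {A : Matrix (Fin n) (Fin n) ℤ} (h : Typ b A) {U D : ℝ} (hU : ∀ p c, Chn A p c → p Finset.univ ≤ U) (hD : 2 * U + n ≤ D) (hS : Sq A D) {E : b.support → ℝ}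
    (hE : ∀ i, 0 ≤ xe b E i ∧ xe b E i ≤ 1) (j : b.support) :
    ((Fintype.card ι + Fintype.card b.support : ℕ) : ℝ) * E j ≤ ((cI b Finset.univ j : ℤ) : ℝ) * (∑ k, E k + (Fintype.card b.support : ℝ) / 2) := by
  obtain ⟨e, he⟩ := h
  have h1 := hS _ (pr_cI e he) _ (box_of e he hE) (e j)
  simp only [Equiv.symm_apply_apply] at h1
  rw [Equiv.sum_comp e.symm E] at h1
  have h2 := dim_le e he hU
  have h3 : 0 ≤ E j := xe_nonneg (fun i => (hE i).1) j
  rw [card_of e] at h2 ⊢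
  exact (mul_le_mul_of_nonneg_right (h2.trans hD) h3).trans h1

/-- The non trivial automorphism in type `A_n`. -/
theorem star_A {n : ℕ} (hn : 2 ≤ n) (e : b.support ≃ Fin n) (he : ∀ i j : b.support, P.pairingIn ℤ i j = CartanMatrix.A n (e i) (e j)) {σ : Equiv.Perm b.support} {w : Equiv.Perm ι} (h : IsOp b σ w)
    (i : b.support) : e (σ i) = (e i).rev := by
  have h1 := aut_path (fun k => e (σ (e.symm k))) (by
    intro k l
    rw [← he, op_pair h, he, Equiv.apply_symm_apply, Equiv.apply_symm_apply])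
  rcases h1 with h1 | h1
  · exfalso
    refine no_minus_one hn e he h.1 fun i => ?_
    have h2 := h1 (e i)
    simp only [Equiv.symm_apply_apply] at h2
    have h3 := e.injective h2
    have h4 := h.2 i
    rw [h3] at h4
    exact h4
  · have h2 := h1 (e i)
    simp only [Equiv.symm_apply_apply] at h2
    exact h2

/-- **The inequality in coordinates.** -/
theorem c7_coord (hT : Ty b) {σ : Equiv.Perm b.support} {w : Equiv.Perm ι} (h : IsOp b σ w) {E E' : b.support → ℝ} (hE : ∀ i, 0 ≤ xe b E i ∧ xe b E i ≤ 1) (hE' : ∀ i, 0 ≤ xe b E' i ∧ xe b E' i ≤ 1)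
    (hs : ∀ k, E' (σ k) = E k) (j : b.support) :
    ((Fintype.card ι + Fintype.card b.support : ℕ) : ℝ) * (E j + E' j) ≤ ((cI b Finset.univ j : ℤ) : ℝ) * (∑ k, E k + ∑ k, E' k + Fintype.card b.support) := by
  have key : ∀ {n : ℕ} {A : Matrix (Fin n) (Fin n) ℤ} (_ : Typ b A) {U D : ℝ} (_ : ∀ p c, Chn A p c → p Finset.univ ≤ U) (_ : 2 * U + n ≤ D) (_ : Sq A D),
      ((Fintype.card ι + Fintype.card b.support : ℕ) : ℝ) * (E j + E' j) ≤ ((cI b Finset.univ j : ℤ) : ℝ) * (∑ k, E k + ∑ k, E' k + Fintype.card b.support) := by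
    intro n A h0 U D hU hD hS
    have h1 := core_sq h0 hU hD hS hE j
    have h2 := core_sq h0 hU hD hS hE' j
    linarith
  rcases hT with ⟨n, ⟨hn, hA⟩ | ⟨hn, hA⟩ | ⟨hn, hA⟩ | ⟨hn, hA⟩⟩ | hA | hA | hA | hA | hA
  · obtain ⟨e, he⟩ := hA
    have h1 := inA hn (pr_cI e he) (box_of e he hE) (e j)
    simp only [Equiv.symm_apply_apply] at h1
    rw [Equiv.sum_comp e.symm E] at h1
    have h2 := dim_le e he fun p c hc => chA_univ hc
    have h3 : 0 ≤ E j := xe_nonneg (fun i => (hE i).1) j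
    have h4 : 0 ≤ E' j := xe_nonneg (fun i => (hE' i).1) j
    have h5 : E (e.symm (e j).rev) = E' j := by
      have h6 : e (σ (e.symm (e j).rev)) = e j := by
        rw [star_A (by omega) e he h, Equiv.apply_symm_apply, Fin.rev_rev]
      rw [← hs, e.injective h6]
    have h7 : ∑ k, E' k = ∑ k, E k := by
      rw [← Equiv.sum_comp σ E']
      exact Finset.sum_congr rfl fun k _ => hs k
    rw [h5] at h1
    rw [h7]
    have h8 : ((Fintype.card ι + Fintype.card b.support : ℕ) : ℝ) ≤ n * (n + 2) := by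
      refine h2.trans (le_of_eq ?_)
      ring
    rw [card_of e] at h8 ⊢
    have h9 := mul_le_mul_of_nonneg_right h8 (add_nonneg h3 h4)
    refine h9.trans (h1.trans (le_of_eq ?_))
    ring
  · exact key hA (fun p c hc => chB hc) (le_of_eq (by ring)) (inB hn)
  · exact key hA (fun p c hc => chC (by omega) hc) (le_of_eq (by ring)) (inC hn)
  · exact key hA (fun p c hc => chD (by omega) hc) (le_of_eq (by ring)) (inD hn)
  · exact key hA (fun p c hc => chE6 hc) (by norm_num) inE6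
  · exact key hA (fun p c hc => chE7 hc) (by norm_num) inE7
  · exact key hA (fun p c hc => chE8 hc) (by norm_num) inE8
  · exact key hA (fun p c hc => chF4 hc) (by norm_num) inF4
  · exact key hA (fun p c hc => chG2 hc) (by norm_num) inG2

/-! ## The theorem -/

open scoped Classical in
/-- The indicator of a set of simple roots. -/
def ind (J : Finset b.support) (j : b.support) : ℝ := if j ∈ J then 1 else 0

theorem ind_sum (J : Finset b.support) (f : b.support → ℝ) : ∑ j, ind J j * f j = ∑ j ∈ J, f j := by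
  classical
  unfold ind
  simp only [ite_mul, one_mul, zero_mul, Finset.sum_ite_mem, Finset.univ_inter]

theorem ind_box (J : Finset b.support) (i : b.support) : 0 ≤ xe b (ex b (ind J)) i ∧ xe b (ex b (ind J)) i ≤ 1 := by
  rw [xe_ex]
  unfold ind
  split_ifs <;> norm_num

theorem ex_star {σ : Equiv.Perm b.support} {w : Equiv.Perm ι} (h : IsOp b σ w) (J : Finset b.support) (k : b.support) : ex b (ind (J.map σ.toEmbedding)) (σ k) = ex b (ind J) k := by
  classical
  unfold FL.ex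
  rw [← Equiv.sum_comp σ]
  refine Finset.sum_congr rfl fun j _ => ?_
  rw [om_star h]
  congr 1
  unfold ind
  simp

theorem ex_al (x Λ : b.support → ℝ) : ∑ k, ex b x k * al (cA b) k Λ = ∑ j, x j * Λ j := by
  unfold FL.ex
  simp only [Finset.sum_mul]
  rw [Finset.sum_comm]
  refine Finset.sum_congr rfl fun j _ => ?_
  rw [← om_al j Λ, Finset.mul_sum]
  exact Finset.sum_congr rfl fun k _ => by ring

/-- The inequality in coordinates, with the constant `D` in the place of the dimension. -/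
def CI (b : P.Base) (D : ℝ) : Prop :=
  ∀ (σ : Equiv.Perm b.support) (w : Equiv.Perm ι), IsOp b σ w → ∀ E E' : b.support → ℝ, (∀ i, 0 ≤ xe b E i ∧ xe b E i ≤ 1) → (∀ i, 0 ≤ xe b E' i ∧ xe b E' i ≤ 1) → (∀ k, E' (σ k) = E k) →
    ∀ j, D * (E j + E' j) ≤ ((cI b Finset.univ j : ℤ) : ℝ) * (∑ k, E k + ∑ k, E' k + Fintype.card b.support)

theorem ci_ty (hT : Ty b) : CI b ((Fintype.card ι + Fintype.card b.support : ℕ) : ℝ) := fun _ _ h _ _ hE hE' hs j => c7_coord hT h hE hE' hs j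

/-- **The inequality of the density theorem**, with a constant `D`. -/
theorem c7_gen {D : ℝ} (hD : CI b D) {J : Finset b.support} {w : Equiv.Perm ι} (hw : IsWJ b J w) {Λ : b.support → ℝ} (hΛ : ∀ i, 0 ≤ al (cA b) i Λ) :
    D * (∑ j ∈ J, Λ j + ∑ j ∈ Js b w, Λ j) ≤ 2 * (∑ k, Λ k) * (∑ j ∈ J, rr b j + ∑ j ∈ Js b w, rr b j + Fintype.card b.support) := by
  obtain ⟨σ, w₀, h⟩ := exists_op b
  rw [js_eq h hw]
  have h1 : ∀ j, D * (FL.ex b (ind J) j + FL.ex b (ind (J.map σ.toEmbedding)) j) ≤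
      ((cI b Finset.univ j : ℤ) : ℝ) * (∑ k, FL.ex b (ind J) k + ∑ k, FL.ex b (ind (J.map σ.toEmbedding)) k + Fintype.card b.support) := fun j =>
    hD σ w₀ h _ _ (ind_box J) (ind_box _) (ex_star h J) j
  have h2 := Finset.sum_le_sum fun j (_ : j ∈ Finset.univ) => mul_le_mul_of_nonneg_right (h1 j) (hΛ j)
  have h3 : ∑ j, D * (FL.ex b (ind J) j + FL.ex b (ind (J.map σ.toEmbedding)) j) * al (cA b) j Λ = D * (∑ j ∈ J, Λ j + ∑ j ∈ J.map σ.toEmbedding, Λ j) := by
    rw [← ind_sum J Λ, ← ind_sum (J.map σ.toEmbedding) Λ, ← ex_al (ind J) Λ, ← ex_al (ind (J.map σ.toEmbedding)) Λ, ← Finset.sum_add_distrib, Finset.mul_sum]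
    exact Finset.sum_congr rfl fun j _ => by ring
  have h4 : ∑ j, ((cI b Finset.univ j : ℤ) : ℝ) * (∑ k, FL.ex b (ind J) k + ∑ k, FL.ex b (ind (J.map σ.toEmbedding)) k + Fintype.card b.support) * al (cA b) j Λ =
      2 * (∑ k, Λ k) * (∑ j ∈ J, rr b j + ∑ j ∈ J.map σ.toEmbedding, rr b j + Fintype.card b.support) := by
    rw [← cI_al Λ, sum_ex, sum_ex, ind_sum, ind_sum, Finset.sum_mul]
    exact Finset.sum_congr rfl fun j _ => by ring
  rw [h3, h4] at h2
  exact h2

/-- **The inequality of the density theorem**: `dim G (λ_J + λ_{J*})(Λ) ≤ 2 ρ(Λ) ((λ_J + λ_{J*})(ρ^∨) + n)`. -/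
theorem c7 (hT : Ty b) {J : Finset b.support} {w : Equiv.Perm ι} (hw : IsWJ b J w) {Λ : b.support → ℝ} (hΛ : ∀ i, 0 ≤ al (cA b) i Λ) :
    ((Fintype.card ι + Fintype.card b.support : ℕ) : ℝ) * (∑ j ∈ J, Λ j + ∑ j ∈ Js b w, Λ j) ≤
      2 * (∑ k, Λ k) * (∑ j ∈ J, rr b j + ∑ j ∈ Js b w, rr b j + Fintype.card b.support) := c7_gen (ci_ty hT) hw hΛ

theorem rr_Js {J : Finset b.support} {w : Equiv.Perm ι} (hw : IsWJ b J w) : ∑ j ∈ Js b w, rr b j = ∑ j ∈ J, rr b j := by
  obtain ⟨σ, w₀, h⟩ := exists_op b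
  rw [js_eq h hw, Finset.sum_map]
  exact Finset.sum_congr rfl fun j _ => rr_star h j

/-- **C7**, with `2 ∑_(j ∈ J) r_j`. -/
theorem c7' (hT : Ty b) {J : Finset b.support} {w : Equiv.Perm ι} (hw : IsWJ b J w) {Λ : b.support → ℝ} (hΛ : ∀ i, 0 ≤ al (cA b) i Λ) :
    ((Fintype.card ι + Fintype.card b.support : ℕ) : ℝ) * (∑ j ∈ J, Λ j + ∑ j ∈ Js b w, Λ j) ≤ 2 * (∑ k, Λ k) * (2 * ∑ j ∈ J, rr b j + Fintype.card b.support) := by
  have h1 := c7 hT hw hΛ
  rw [rr_Js hw] at h1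
  have e : ∑ j ∈ J, rr b j + ∑ j ∈ J, rr b j = 2 * ∑ j ∈ J, rr b j := by ring
  rwa [e] at h1

end

end Pool.Agent.Lib.L8.F7
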