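import Pool.Agent.Lib.L8.FL.Defs
import Pool.Agent.Lib.L8.F7.Defs

/-!
# F7: root part, definitions (helper31)
-/

namespace Pool.Agent.Lib.L8.F7

open Matrix Pool.Agent.Lib.L1S Pool.Agent.Lib.L8.FL

noncomputable section

set_option linter.unusedSectionVars false

variable {ι M N : Type} [Fintype ι] [DecidableEq ι] [AddCommGroup M] [Module ℚ M] [AddCommGroup N] [Module ℚ N]
  {P : RootPairing ι ℚ M N} [P.IsCrystallographic] [P.IsReduced] [P.IsIrreducible] [P.IsRootSystem] {b : P.Base}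

variable (b) in
/-- The positive roots with support in `S`. -/
def PI (S : Finset b.support) : Finset ι := by
  classical
  exact Finset.univ.filter fun β => b.IsPos β ∧ ∀ k, k ∉ S → mc b k (Sum.inr β) = 0

variable (b) in
/-- The coordinates of the sum of the positive roots with support in `S`. -/
def cI (S : Finset b.support) (k : b.support) : ℤ := ∑ β ∈ PI b S, mc b k (Sum.inr β)

theorem mem_PI {S : Finset b.support} {β : ι} : β ∈ PI b S ↔ b.IsPos β ∧ ∀ k, k ∉ S → mc b k (Sum.inr β) = 0 := by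
  unfold PI
  simp

variable (b) in
/-- The Cartan matrix of the base is `A`. -/
def Typ {n : ℕ} (A : Matrix (Fin n) (Fin n) ℤ) : Prop := ∃ e : b.support ≃ Fin n, ∀ i j : b.support, P.pairingIn ℤ i j = A (e i) (e j)

variable (b) in
/-- All types except `A₁`, `A₂`, `A₃`, `B₂`. -/
def Ty : Prop :=
  (∃ n : ℕ, (4 ≤ n ∧ Typ b (CartanMatrix.A n)) ∨ (3 ≤ n ∧ Typ b (CartanMatrix.B n)) ∨ (3 ≤ n ∧ Typ b (CartanMatrix.C n)) ∨ (4 ≤ n ∧ Typ b (CartanMatrix.D n))) ∨
    Typ b CartanMatrix.E₆ ∨ Typ b CartanMatrix.E₇ ∨ Typ b CartanMatrix.E₈ ∨ Typ b CartanMatrix.F₄ ∨ Typ b CartanMatrix.G₂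

variable (b) in
/-- The coefficient sum `ω_j(ρ^∨)` of the fundamental weight. -/
def rr (j : b.support) : ℝ := ∑ k, om b j k

/-- `w` is the opposition: `w α_i = - α_(σ i)`. -/
def IsOp (b : P.Base) (σ : Equiv.Perm b.support) (w : Equiv.Perm ι) : Prop := w ∈ WP P ∧ ∀ i : b.support, w i = P.reflectionPerm (σ i) (σ i)


end

end Pool.Agent.Lib.L8.F7
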