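import Pool.Agent.Lib.L8.F7.Q7
import Pool.Agent.Lib.L8.F7.Q7B
import Pool.Agent.Lib.L1S.D5
import Pool.Agent.Lib.L1S.D7

/-!
# F7 W5: the opposition and the pairs of opposite maximal parabolic groups (helper31)
-/

namespace Pool.Agent.Lib.L8.F7

open Matrix Pool.Agent.Lib.L1S Pool.Agent.Lib.L8.FL

noncomputable section

set_option linter.unusedSectionVars false

variable {ι M N : Type} [Fintype ι] [DecidableEq ι] [AddCommGroup M] [Module ℚ M] [AddCommGroup N] [Module ℚ N]
  {P : RootPairing ι ℚ M N} [P.IsCrystallographic] [P.IsReduced] [P.IsIrreducible] [P.IsRootSystem] {b : P.Base}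

theorem op_mc {σ : Equiv.Perm b.support} {w : Equiv.Perm ι} (h : IsOp b σ w) (β : ι) (k : b.support) : mc b (σ k) (Sum.inr (w β)) = -mc b k (Sum.inr β) := by
  obtain ⟨L, hL⟩ := b2_lin h.1
  have h1 : P.root (w β) = -∑ l : b.support, ((mc b l (Sum.inr β) : ℤ) : ℚ) • P.root (σ l) := by
    rw [← hL, d5_root b β, map_sum, ← Finset.sum_neg_distrib]
    refine Finset.sum_congr rfl fun l _ => ?_
    rw [map_smul, hL, h.2 l, b2_root_neg, smul_neg]
  have h2 : ((mc b (σ k) (Sum.inr (w β)) : ℤ) : ℚ) = ((-mc b k (Sum.inr β) : ℤ) : ℚ) := by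
    rw [d5_mc]
    show b.toWeightBasis.repr (P.root (w β)) (σ k) = _
    rw [h1, map_neg, map_sum, Finsupp.neg_apply, Finsupp.finsetSum_apply, Finset.sum_eq_single k]
    · rw [map_smul, Finsupp.smul_apply, b.toWeightBasis_repr_root, Finsupp.single_eq_same, smul_eq_mul, mul_one]
      push_cast
      ring
    · intro l _ hl
      rw [map_smul, Finsupp.smul_apply, b.toWeightBasis_repr_root, Finsupp.single_eq_of_ne (fun e => hl (σ.injective e).symm), smul_zero]
    · intro hk
      exact absurd (Finset.mem_univ k) hk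
  exact_mod_cast h2

theorem opp_of {σ : Equiv.Perm b.support} {w : Equiv.Perm ι} (h : IsOp b σ w) (i : b.support) : Opp b i (σ i) :=
  ⟨w, h.1, fun β => by rw [d5_phi, d5_phi, d7_mc_neg, op_mc h, neg_neg]⟩

/-- **(W5)**. -/
theorem w5 {J : Finset b.support} {w : Equiv.Perm ι} (hw : IsWJ b J w) : ∃ f : b.support ↪ b.support, J.map f = Js b w ∧ ∀ j, Opp b j (f j) := by
  obtain ⟨σ, w₀, h⟩ := exists_op b
  exact ⟨σ.toEmbedding, (js_eq h hw).symm, fun j => opp_of h j⟩

/-- (W5) with the same permutation for all `J`. -/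
theorem w5' (b : P.Base) : ∃ σ : Equiv.Perm b.support, (∀ j, Opp b j (σ j)) ∧ ∀ (J : Finset b.support) (w : Equiv.Perm ι), IsWJ b J w → Js b w = J.map σ.toEmbedding := by
  obtain ⟨σ, w₀, h⟩ := exists_op b
  exact ⟨σ, fun j => opp_of h j, fun J w hw => js_eq h hw⟩

end

end Pool.Agent.Lib.L8.F7
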